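import Pool.Agent.PTR.Rel

set_option autoImplicit false

/-!
# Closed bodies and exact covers by the half-open body
-/

namespace Pool.Agent.PTR

open OL Filter Topology

/-- The closed body of a finite set of boxes. -/
def cbody (B : Finset Box) : Set (ℝ × ℝ) :=
  {z | ∃ b ∈ B, b.1.1 ≤ z.1 ∧ z.1 ≤ b.1.2 ∧ b.2.1 ≤ z.2 ∧ z.2 ≤ b.2.2}

/-- The translate `C + t`. -/
def tr (C : Set (ℝ × ℝ)) (t : ℝ × ℝ) : Set (ℝ × ℝ) := (fun z => z + t) '' C

/-- The translates `C + t`, `t ∈ T`, tile the plane. -/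
def Tiling (C T : Set (ℝ × ℝ)) : Prop :=
  (∀ z, ∃ t ∈ T, z ∈ tr C t) ∧
    ∀ t ∈ T, ∀ t2 ∈ T, t ≠ t2 → Disjoint (interior (tr C t)) (interior (tr C t2))

theorem mem_tr {C : Set (ℝ × ℝ)} {t z : ℝ × ℝ} : z ∈ tr C t ↔ z - t ∈ C := by
  unfold tr
  constructor
  · rintro ⟨w, hw, rfl⟩
    rwa [add_sub_cancel_right]
  · intro h
    exact ⟨z - t, h, sub_add_cancel _ _⟩

theorem body_sub_cbody (B : Finset Box) : body B ⊆ cbody B := by
  rintro z ⟨b, hb, h1, h2, h3, h4⟩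
  exact ⟨b, hb, h1, h2.le, h3, h4.le⟩

theorem cbody_norm {B : Finset Box} {c : V} (hc : c ∈ cbody B) : ‖c‖ ≤ KK B := by
  obtain ⟨b, hb, h1, h2, h3, h4⟩ := hc
  have a1 := le_KK (Finset.mem_union_left (yco B) (mem_xco_l hb))
  have a2 := le_KK (Finset.mem_union_left (yco B) (mem_xco_r hb))
  have a3 := le_KK (Finset.mem_union_right (xco B) (mem_yco_l hb))
  have a4 := le_KK (Finset.mem_union_right (xco B) (mem_yco_r hb))
  rw [abs_le] at a1 a2 a3 a4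
  rw [Prod.norm_def]
  refine max_le ?_ ?_
  · rw [Real.norm_eq_abs, abs_le]
    constructor <;> linarith
  · rw [Real.norm_eq_abs, abs_le]
    constructor <;> linarith

theorem ev_interval (l r u : ℝ) :
    ∀ᶠ ε in 𝓝[>] (0 : ℝ), ((l ≤ u + ε ∧ u + ε ≤ r) ↔ (l ≤ u ∧ u < r)) := by
  have e0 : ∀ᶠ ε in 𝓝[>] (0 : ℝ), 0 < ε := self_mem_nhdsWithin
  have e1 : ∀ a b : ℝ, a < b → ∀ᶠ ε in 𝓝[>] (0 : ℝ), a + ε < b := by
    intro a b h
    have h1 : ∀ᶠ ε in 𝓝[>] (0 : ℝ), ε < b - a :=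
      (eventually_lt_nhds (sub_pos.2 h)).filter_mono nhdsWithin_le_nhds
    filter_upwards [h1] with ε hε
    linarith
  rcases lt_or_ge u r with h | h
  · rcases le_or_gt l u with h' | h'
    · filter_upwards [e0, e1 u r h] with ε a1 a2
      exact ⟨fun _ => ⟨h', h⟩, fun _ => ⟨by linarith, a2.le⟩⟩
    · filter_upwards [e1 u l h'] with ε a1
      exact ⟨fun h2 => absurd h2.1 (not_le.2 a1), fun h2 => absurd h2.1 (not_le.2 h')⟩
  · filter_upwards [e0] with ε a1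
    exact ⟨fun h2 => absurd h2.2 (not_le.2 (by linarith)), fun h2 => absurd h2.2 (not_lt.2 h)⟩

/-- Slightly to the right and above, the closed body is the half-open body. -/
theorem cl_shift (B : Finset Box) (u : V) :
    ∀ᶠ ε in 𝓝[>] (0 : ℝ), (u + (ε, ε) ∈ cbody B ↔ u ∈ body B) := by
  have e1 : ∀ᶠ ε in 𝓝[>] (0 : ℝ), ∀ b ∈ B,
      ((b.1.1 ≤ u.1 + ε ∧ u.1 + ε ≤ b.1.2) ↔ (b.1.1 ≤ u.1 ∧ u.1 < b.1.2)) :=
    (Finset.eventually_all B).2 fun b _ => ev_interval _ _ _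
  have e2 : ∀ᶠ ε in 𝓝[>] (0 : ℝ), ∀ b ∈ B,
      ((b.2.1 ≤ u.2 + ε ∧ u.2 + ε ≤ b.2.2) ↔ (b.2.1 ≤ u.2 ∧ u.2 < b.2.2)) :=
    (Finset.eventually_all B).2 fun b _ => ev_interval _ _ _
  filter_upwards [e1, e2] with ε a1 a2
  constructor
  · rintro ⟨b, hb, h1, h2, h3, h4⟩
    have b1 := (a1 b hb).1 ⟨h1, h2⟩
    have b2 := (a2 b hb).1 ⟨h3, h4⟩
    exact ⟨b, hb, b1.1, b1.2, b2.1, b2.2⟩
  · rintro ⟨b, hb, h1, h2, h3, h4⟩
    have b1 := (a1 b hb).2 ⟨h1, h2⟩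
    have b2 := (a2 b hb).2 ⟨h3, h4⟩
    exact ⟨b, hb, b1.1, b1.2, b2.1, b2.2⟩

/-- Points of the half-open body are moved to interior points. -/
theorem int_shift {B : Finset Box} {u t : V} (h : u - t ∈ body B) :
    ∀ᶠ ε in 𝓝[>] (0 : ℝ), u + (ε, ε) ∈ interior (tr (cbody B) t) := by
  obtain ⟨b, hb, h1, h2, h3, h4⟩ := h
  change b.1.1 ≤ u.1 - t.1 at h1
  change u.1 - t.1 < b.1.2 at h2
  change b.2.1 ≤ u.2 - t.2 at h3
  change u.2 - t.2 < b.2.2 at h4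
  have e0 : ∀ᶠ ε in 𝓝[>] (0 : ℝ), 0 < ε := self_mem_nhdsWithin
  have e1 : ∀ a c : ℝ, a < c → ∀ᶠ ε in 𝓝[>] (0 : ℝ), a + ε < c := by
    intro a c h
    have h1 : ∀ᶠ ε in 𝓝[>] (0 : ℝ), ε < c - a :=
      (eventually_lt_nhds (sub_pos.2 h)).filter_mono nhdsWithin_le_nhds
    filter_upwards [h1] with ε hε
    linarith
  filter_upwards [e0, e1 _ _ h2, e1 _ _ h4] with ε a1 a2 a3
  rw [mem_interior]
  refine ⟨Set.Ioo (b.1.1 + t.1) (b.1.2 + t.1) ×ˢ Set.Ioo (b.2.1 + t.2) (b.2.2 + t.2), ?_,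
    isOpen_Ioo.prod isOpen_Ioo, ?_⟩
  · rintro z ⟨⟨c1, c2⟩, ⟨c3, c4⟩⟩
    rw [mem_tr]
    refine ⟨b, hb, ?_, ?_, ?_, ?_⟩
    · change b.1.1 ≤ z.1 - t.1
      linarith
    · change z.1 - t.1 ≤ b.1.2
      linarith
    · change b.2.1 ≤ z.2 - t.2
      linarith
    · change z.2 - t.2 ≤ b.2.2
      linarith
  · refine ⟨⟨?_, ?_⟩, ⟨?_, ?_⟩⟩
    · change b.1.1 + t.1 < u.1 + ε
      linarith
    · change u.1 + ε < b.1.2 + t.1
      linarith
    · change b.2.1 + t.2 < u.2 + ε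
      linarith
    · change u.2 + ε < b.2.2 + t.2
      linarith

/-- Uniqueness of the tile of the half-open body. -/
theorem tiling_uniq {B : Finset Box} {T : Set V}
    (hT : ∀ t ∈ T, ∀ t2 ∈ T, t ≠ t2 →
      Disjoint (interior (tr (cbody B) t)) (interior (tr (cbody B) t2)))
    {z t t' : V} (ht : t ∈ T) (ht' : t' ∈ T) (h : z - t ∈ body B) (h' : z - t' ∈ body B) :
    t = t' := by
  by_contra hne
  obtain ⟨ε, h1, h2⟩ := ((int_shift h).and (int_shift h')).exists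
  exact Set.disjoint_left.1 (hT t ht t' ht' hne) h1 h2

theorem closed_iff (B : Finset Box) (hB : ∀ b ∈ B, b.1.1 < b.1.2 ∧ b.2.1 < b.2.2)
    (T : Set (ℝ × ℝ)) : Tiling (cbody B) T ↔ ECov (body B) T := by
  constructor
  · rintro ⟨hcov, hdis⟩
    have hne : (body B).Nonempty := by
      obtain ⟨t, ht, hz⟩ := hcov 0
      rw [mem_tr] at hz
      obtain ⟨b, hb, -⟩ := hz
      exact ⟨(b.1.1, b.2.1), b, hb, le_rfl, (hB b hb).1, le_rfl, (hB b hb).2⟩
    -- `T` is separated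
    have hsep : ∃ δ : ℝ, 0 < δ ∧ ∀ t ∈ T, ∀ t' ∈ T,
        |t.1 - t'.1| < δ → |t.2 - t'.2| < δ → t = t' := by
      obtain ⟨c, b, hb, h1, h2, h3, h4⟩ := hne
      have hx : b.1.1 < b.1.2 := lt_of_le_of_lt h1 h2
      have hy : b.2.1 < b.2.2 := lt_of_le_of_lt h3 h4
      refine ⟨min (b.1.2 - b.1.1) (b.2.2 - b.2.1), lt_min (by linarith) (by linarith), ?_⟩
      intro t ht t' ht' hx' hy'
      have hx2 := abs_lt.1 (lt_of_lt_of_le hx' (min_le_left _ _))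
      have hy2 := abs_lt.1 (lt_of_lt_of_le hy' (min_le_right _ _))
      refine tiling_uniq hdis (z := (max t.1 t'.1 + b.1.1, max t.2 t'.2 + b.2.1)) ht ht'
        ⟨b, hb, ?_⟩ ⟨b, hb, ?_⟩
      · refine ⟨?_, ?_, ?_, ?_⟩
        · change b.1.1 ≤ max t.1 t'.1 + b.1.1 - t.1
          linarith [le_max_left t.1 t'.1]
        · change max t.1 t'.1 + b.1.1 - t.1 < b.1.2
          rcases max_cases t.1 t'.1 with h | h <;> rw [h.1] <;> linarith
        · change b.2.1 ≤ max t.2 t'.2 + b.2.1 - t.2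
          linarith [le_max_left t.2 t'.2]
        · change max t.2 t'.2 + b.2.1 - t.2 < b.2.2
          rcases max_cases t.2 t'.2 with h | h <;> rw [h.1] <;> linarith
      · refine ⟨?_, ?_, ?_, ?_⟩
        · change b.1.1 ≤ max t.1 t'.1 + b.1.1 - t'.1
          linarith [le_max_right t.1 t'.1]
        · change max t.1 t'.1 + b.1.1 - t'.1 < b.1.2
          rcases max_cases t.1 t'.1 with h | h <;> rw [h.1] <;> linarith
        · change b.2.1 ≤ max t.2 t'.2 + b.2.1 - t'.2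
          linarith [le_max_right t.2 t'.2]
        · change max t.2 t'.2 + b.2.1 - t'.2 < b.2.2
          rcases max_cases t.2 t'.2 with h | h <;> rw [h.1] <;> linarith
    intro z
    have hfin := locfin_of_sep hsep z (KK B + 1)
    set S : Finset V := hfin.toFinset with hS
    have hSmem : ∀ t, t ∈ S ↔ t ∈ T ∧ ‖z - t‖ ≤ KK B + 1 := by
      intro t
      rw [hS, Set.Finite.mem_toFinset]
      rfl
    have e0 : ∀ᶠ ε in 𝓝[>] (0 : ℝ), 0 < ε := self_mem_nhdsWithin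
    have e1 : ∀ᶠ ε in 𝓝[>] (0 : ℝ), ε < 1 :=
      (eventually_lt_nhds one_pos).filter_mono nhdsWithin_le_nhds
    have e2 : ∀ᶠ ε in 𝓝[>] (0 : ℝ), ∀ t ∈ S, (z - t + (ε, ε) ∈ cbody B ↔ z - t ∈ body B) :=
      (Finset.eventually_all S).2 fun t _ => cl_shift B (z - t)
    obtain ⟨ε, h0, h1, h2⟩ := (e0.and (e1.and e2)).exists
    obtain ⟨t, ht, hzt⟩ := hcov (z + (ε, ε))
    rw [mem_tr] at hzt
    have h3 : z + (ε, ε) - t = z - t + (ε, ε) := by abel
    have hnorm : ‖((ε, ε) : V)‖ ≤ 1 := by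
      rw [Prod.norm_def]
      refine max_le ?_ ?_
      · rw [Real.norm_eq_abs, abs_of_pos h0]; exact h1.le
      · rw [Real.norm_eq_abs, abs_of_pos h0]; exact h1.le
    have htS : t ∈ S := by
      rw [hSmem]
      refine ⟨ht, ?_⟩
      have h4 : z - t = (z + (ε, ε) - t) - (ε, ε) := by rw [h3]; abel
      rw [h4]
      exact (norm_sub_le _ _).trans (add_le_add (cbody_norm hzt) hnorm)
    rw [h3] at hzt
    have h5 := (h2 t htS).1 hzt
    exact ⟨t, ⟨ht, h5⟩, fun t' h' => tiling_uniq hdis h'.1 ht h'.2 h5⟩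
  · intro h
    refine ⟨fun z => ?_, fun t ht t' ht' hne => ?_⟩
    · obtain ⟨t, ⟨ht, h1⟩, -⟩ := h z
      exact ⟨t, ht, mem_tr.2 (body_sub_cbody B h1)⟩
    · rw [Set.disjoint_left]
      intro u hu hu'
      apply hne
      have key : ∀ s : V, u ∈ interior (tr (cbody B) s) → u - s ∈ body B := by
        intro s hs
        have c1 : Tendsto (fun ε : ℝ => u + ((ε, ε) : V)) (𝓝[>] (0 : ℝ)) (𝓝 u) := by
          have c2 : Continuous (fun ε : ℝ => u + ((ε, ε) : V)) := by fun_prop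
          have c3 := (c2.tendsto 0).mono_left (nhdsWithin_le_nhds (s := Set.Ioi (0 : ℝ)))
          have c4 : u + (((0 : ℝ), (0 : ℝ)) : V) = u := by
            rw [Prod.mk_zero_zero, add_zero]
          rw [c4] at c3
          exact c3
        have c5 := c1.eventually (isOpen_interior.mem_nhds hs)
        obtain ⟨ε, h1, h2⟩ := (c5.and (cl_shift B (u - s))).exists
        refine h2.1 ?_
        have h3 : u - s + (ε, ε) = u + (ε, ε) - s := by abel
        rw [h3]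
        exact mem_tr.1 (interior_subset h1)
      exact (h u).unique ⟨ht, key t hu⟩ ⟨ht', key t' hu'⟩

end Pool.Agent.PTR
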