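import Pool.Agent.PTR.Core

/-! HLF and STR: the case of a horizontal fault. -/

set_option autoImplicit false

namespace Pool.Agent.PTR

open OL

theorem p_HLF : T_HLF := by
  intro B hne hY T c hT hF hno
  set Tp : Set (ℝ × ℝ) := {t | t ∈ T ∧ ∀ z ∈ body B, c ≤ t.2 + z.2} with hTp
  have hcovT : ∀ z : ℝ × ℝ, c ≤ z.2 → ∀ t ∈ T, z - t ∈ body B → t ∈ Tp := by
    intro z hz t ht hzt
    refine ⟨ht, ?_⟩
    rcases hF t ht with h | h
    · have := h _ hzt
      simp only [Prod.snd_sub] at this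
      linarith
    · exact h
  have hR : RCov (body B) (Set.Ici c) Tp := by
    constructor
    · intro z hz
      obtain ⟨t, ⟨ht, hzt⟩, hu⟩ := hT z
      exact ⟨t, ⟨hcovT z hz t ht hzt, hzt⟩, fun t' h' => hu t' ⟨h'.1.1, h'.2⟩⟩
    · intro z hz t ht hzt
      have := ht.2 _ hzt
      simp only [Prod.snd_sub] at this
      exact hz (by rw [Set.mem_Ici]; linarith)
  obtain ⟨t0, ⟨ht0, -⟩, -⟩ := hR.1 (0, c) (Set.mem_Ici.2 le_rfl)
  refine core hne hY hR ⟨c, fun u hu => hu⟩ ?_ ⟨t0, ht0⟩
  intro c1 hc1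
  rcases le_or_gt c1 c with h | h
  · exact Or.inr fun t ht z hz => h.trans (ht.2 z hz)
  · exfalso
    refine hno c1 h fun t ht => ?_
    rcases hF t ht with h1 | h1
    · exact Or.inl fun z hz => (h1 z hz).trans h
    · exact hc1 t ⟨ht, h1⟩

/-- Two different faults have a distance at least `H > 0`. -/
theorem fault_gap {B : Finset Box} (hne : (body B).Nonempty) : ∃ H > 0,
    ∀ (T : Set (ℝ × ℝ)) (c c' : ℝ), ECov (body B) T → FH (body B) T c → FH (body B) T c' →
      c < c' → c + H ≤ c' := by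
  obtain ⟨z, hz⟩ := hne
  obtain ⟨ε, hε, hup⟩ := body_up z hz
  refine ⟨ε / 2, by positivity, fun T c c' hT hF hF' hlt => ?_⟩
  obtain ⟨t, ⟨ht, hzt⟩, -⟩ := hT (0, c)
  have h1 : ∀ w ∈ body B, c ≤ t.2 + w.2 := by
    rcases hF t ht with h | h
    · have := h _ hzt
      simp only [Prod.snd_sub] at this
      linarith
    · exact h
  have h2 : ∀ w ∈ body B, t.2 + w.2 < c' := by
    rcases hF' t ht with h | h
    · exact h
    · have := h _ hzt
      simp only [Prod.snd_sub] at this
      linarith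
  have h3 := h1 z hz
  have h4 := h2 _ (hup (ε / 2) (by positivity) (by linarith))
  simp only at h4
  linarith

theorem p_STR : T_STR := by
  intro B hne hY T c c' hT hcc hF hF'
  -- the next fault above `c`
  obtain ⟨H, hH, hgap⟩ := fault_gap hne
  set Φ : Set ℝ := {φ | c < φ ∧ FH (body B) T φ} with hΦ
  have hΦne : Φ.Nonempty := ⟨c', hcc, hF'⟩
  have hΦb : BddBelow Φ := ⟨c, fun φ h => h.1.le⟩
  obtain ⟨φ, hφ, hφlt⟩ := exists_lt_of_csInf_lt hΦne (lt_add_of_pos_right (sInf Φ) hH)
  have hmin : ∀ φ', c < φ' → φ' < φ → ¬ FH (body B) T φ' := by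
    intro φ' h1 h2 h3
    have h4 := hgap T φ' φ hT h3 hφ.2 h2
    have h5 : sInf Φ ≤ φ' := csInf_le hΦb ⟨h1, h3⟩
    linarith
  set h := φ - c with hh
  have hh0 : 0 < h := by have := hφ.1; linarith
  set Ts : Set (ℝ × ℝ) := {t | t ∈ T ∧ ∀ z ∈ body B, c ≤ t.2 + z.2 ∧ t.2 + z.2 < φ} with hTs
  have hcovT : ∀ z : ℝ × ℝ, c ≤ z.2 → z.2 < φ → ∀ t ∈ T, z - t ∈ body B → t ∈ Ts := by
    intro z hz hz' t ht hzt
    refine ⟨ht, fun w hw => ⟨?_, ?_⟩⟩
    · rcases hF t ht with h | h
      · have := h _ hzt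
        simp only [Prod.snd_sub] at this
        linarith
      · exact h w hw
    · rcases hφ.2 t ht with h | h
      · exact h w hw
      · have := h _ hzt
        simp only [Prod.snd_sub] at this
        linarith
  have hR : RCov (body B) (Set.Ico c φ) Ts := by
    constructor
    · intro z hz
      obtain ⟨t, ⟨ht, hzt⟩, hu⟩ := hT z
      exact ⟨t, ⟨hcovT z hz.1 hz.2 t ht hzt, hzt⟩, fun t' h' => hu t' ⟨h'.1.1, h'.2⟩⟩
    · intro z hz t ht hzt
      have := ht.2 _ hzt
      simp only [Prod.snd_sub] at this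
      exact hz ⟨by linarith [this.1], by linarith [this.2]⟩
  obtain ⟨t0, ⟨ht0, -⟩, -⟩ := hR.1 (0, c) ⟨le_rfl, hφ.1⟩
  obtain ⟨p, hp, hper⟩ := core hne hY hR ⟨c, fun u hu => hu.1⟩ (by
    intro c1 hc1
    rcases le_or_gt c1 c with h | h
    · exact Or.inr fun t ht z hz => h.trans (ht.2 z hz).1
    · rcases le_or_gt φ c1 with h' | h'
      · exact Or.inl fun t ht z hz => lt_of_lt_of_le (ht.2 z hz).2 h'
      · exfalso
        refine hmin c1 h h' fun t ht => ?_
        rcases hF t ht with h1 | h1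
        · exact Or.inl fun z hz => (h1 z hz).trans h
        · rcases hφ.2 t ht with h2 | h2
          · exact hc1 t ⟨ht, fun z hz => ⟨h1 z hz, h2 z hz⟩⟩
          · exact Or.inr fun z hz => h'.le.trans (h2 z hz)) ⟨t0, ht0⟩
  -- the stack
  set T' : Set (ℝ × ℝ) := {z | ∃ n : ℤ, z - ((0, n * h) : ℝ × ℝ) ∈ Ts} with hT'
  have hloc : ∀ (z : ℝ × ℝ) (t : ℝ × ℝ) (n : ℤ), t - ((0, n * h) : ℝ × ℝ) ∈ Ts →
      z - t ∈ body B → c ≤ z.2 - n * h ∧ z.2 - n * h < φ := by
    intro z t n ht hz
    have := ht.2 _ hz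
    simp only [Prod.snd_sub] at this
    constructor <;> linarith [this.1, this.2]
  refine ⟨T', ?_, (p, 0), (0, h), li_of_rdet ?_, ?_, ?_⟩
  · intro z
    set n : ℤ := ⌊(z.2 - c) / h⌋ with hn
    have hn1 : (n : ℝ) * h ≤ z.2 - c := by
      have := Int.floor_le ((z.2 - c) / h)
      rwa [le_div_iff₀ hh0] at this
    have hn2 : z.2 - c < (n + 1) * h := by
      have := Int.lt_floor_add_one ((z.2 - c) / h)
      rwa [div_lt_iff₀ hh0] at this
    obtain ⟨t, ⟨ht, hzt⟩, hu⟩ := hR.1 (z - ((0, n * h) : ℝ × ℝ)) (by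
      simp only [Prod.snd_sub, Set.mem_Ico]
      constructor
      · linarith
      · have : (n + 1 : ℝ) * h = n * h + h := by ring
        linarith)
    refine ⟨t + (0, n * h), ⟨⟨n, by rw [add_sub_cancel_right]; exact ht⟩, ?_⟩, ?_⟩
    · have : z - (t + (0, n * h)) = z - ((0, n * h) : ℝ × ℝ) - t := by abel
      rw [this]; exact hzt
    · rintro t' ⟨⟨m, hm⟩, hzt'⟩
      obtain ⟨g1, g2⟩ := hloc z t' m hm hzt'
      have hmn : m = n := by
        have a1 : (m : ℝ) * h ≤ z.2 - c := by linarith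
        have a2 : z.2 - c < (m + 1) * h := by
          have : (m + 1 : ℝ) * h = m * h + h := by ring
          linarith
        have a3 : (m : ℝ) < n + 1 := by
          by_contra hcon
          push Not at hcon
          have := mul_le_mul_of_nonneg_right hcon hh0.le
          linarith
        have a4 : (n : ℝ) < m + 1 := by
          by_contra hcon
          push Not at hcon
          have := mul_le_mul_of_nonneg_right hcon hh0.le
          linarith
        have a5 : m < n + 1 := by exact_mod_cast a3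
        have a6 : n < m + 1 := by exact_mod_cast a4
        omega
      rw [hmn] at hm
      have := hu (t' - (0, n * h)) ⟨hm, by
        have : z - ((0, n * h) : ℝ × ℝ) - (t' - (0, n * h)) = z - t' := by abel
        rw [this]; exact hzt'⟩
      rw [← this, sub_add_cancel]
  · simp only [rdet]
    rw [mul_comm 0, mul_zero, sub_zero]
    exact mul_ne_zero hp hh0.ne'
  · intro z
    constructor
    · rintro ⟨n, hn⟩
      refine ⟨n, ?_⟩
      rw [← hper]
      have : z - ((0, n * h) : ℝ × ℝ) + (p, 0) = z + (p, 0) - (0, n * h) := by abel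
      rw [this]; exact hn
    · rintro ⟨n, hn⟩
      refine ⟨n, ?_⟩
      rw [← hper] at hn
      have : z - ((0, n * h) : ℝ × ℝ) + (p, 0) = z + (p, 0) - (0, n * h) := by abel
      rw [← this]; exact hn
  · intro z
    constructor
    · rintro ⟨n, hn⟩
      refine ⟨n - 1, ?_⟩
      have : z - ((0, ((n - 1 : ℤ) : ℝ) * h) : ℝ × ℝ) = z + (0, h) - (0, n * h) := by
        ext
        · simp
        · simp only [Prod.snd_sub, Prod.snd_add]; push_cast; ring
      rw [this]; exact hn
    · rintro ⟨n, hn⟩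
      refine ⟨n + 1, ?_⟩
      have : z + (0, h) - ((0, ((n + 1 : ℤ) : ℝ) * h) : ℝ × ℝ) = z - (0, n * h) := by
        ext
        · simp
        · simp only [Prod.snd_sub, Prod.snd_add]; push_cast; ring
      rw [this]; exact hn

end Pool.Agent.PTR
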