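import Pool.Agent.PTR.Targets

/-!
# The range of the heights of a body
-/

set_option autoImplicit false

namespace Pool.Agent.PTR

lemma yint_iff (B : Finset Box) (hB : (body B).Nonempty)
    (hY : (Prod.snd '' body B).OrdConnected) :
    ∃ y0 y1 : ℝ, y0 < y1 ∧ ∀ v, (∃ x, (x, v) ∈ body B) ↔ y0 ≤ v ∧ v < y1 := by
  classical
  set B' := B.filter (fun b => b.1.1 < b.1.2 ∧ b.2.1 < b.2.2) with hB'
  have hmem : ∀ v, (∃ x, (x, v) ∈ body B) ↔ ∃ b ∈ B', b.2.1 ≤ v ∧ v < b.2.2 := by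
    intro v
    constructor
    · rintro ⟨x, b, hb, h1, h2, h3, h4⟩
      exact ⟨b, Finset.mem_filter.2 ⟨hb, lt_of_le_of_lt h1 h2, lt_of_le_of_lt h3 h4⟩, h3, h4⟩
    · rintro ⟨b, hb, h3, h4⟩
      obtain ⟨hb1, hb2, _⟩ := Finset.mem_filter.1 hb
      exact ⟨b.1.1, b, hb1, le_rfl, hb2, h3, h4⟩
  have hne : B'.Nonempty := by
    obtain ⟨z, hz⟩ := hB
    obtain ⟨b, hb, _⟩ := (hmem z.2).1 ⟨z.1, hz⟩
    exact ⟨b, hb⟩
  obtain ⟨b0, hb0, hmin⟩ := Finset.exists_min_image B' (fun b => b.2.1) hne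
  obtain ⟨b1, hb1, hmax⟩ := Finset.exists_max_image B' (fun b => b.2.2) hne
  have h0 := (Finset.mem_filter.1 hb0).2.2
  have h1 := (Finset.mem_filter.1 hb1).2.2
  have hlt : b0.2.1 < b1.2.2 := lt_of_le_of_lt (hmin b1 hb1) h1
  refine ⟨b0.2.1, b1.2.2, hlt, ?_⟩
  intro v
  rw [hmem]
  constructor
  · rintro ⟨b, hb, h3, h4⟩
    exact ⟨(hmin b hb).trans h3, lt_of_lt_of_le h4 (hmax b hb)⟩
  · rintro ⟨h3, h4⟩
    rcases lt_or_ge v b1.2.1 with h | h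
    · -- between two points of the projection
      have p0 : b0.2.1 ∈ Prod.snd '' body B := by
        obtain ⟨x, hx⟩ := (hmem b0.2.1).2 ⟨b0, hb0, le_rfl, h0⟩
        exact ⟨_, hx, rfl⟩
      have p1 : b1.2.1 ∈ Prod.snd '' body B := by
        obtain ⟨x, hx⟩ := (hmem b1.2.1).2 ⟨b1, hb1, le_rfl, h1⟩
        exact ⟨_, hx, rfl⟩
      obtain ⟨z, hz, hzv⟩ := hY.out p0 p1 ⟨h3, h.le⟩
      exact (hmem v).1 ⟨z.1, by rw [← hzv]; exact hz⟩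
    · exact ⟨b1, hb1, h, h4⟩

/-- The range of the heights of a body. -/
theorem body_range {B : Finset Box} (hne : (body B).Nonempty) (hY : YInt (body B)) :
    ∃ y0 y1 : ℝ, y0 < y1 ∧ (∀ z ∈ body B, y0 ≤ z.2 ∧ z.2 < y1) ∧
      ∀ d : ℝ, |d| < y1 - y0 → ∃ v ∈ body B, ∃ v' ∈ body B, d = v.2 - v'.2 := by
  classical
  set B' := B.filter (fun b => b.1.1 < b.1.2 ∧ b.2.1 < b.2.2) with hB'
  have hmem : ∀ v : ℝ, (∃ z ∈ body B, z.2 = v) ↔ ∃ b ∈ B', b.2.1 ≤ v ∧ v < b.2.2 := by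
    intro v
    constructor
    · rintro ⟨z, ⟨b, hb, h1, h2, h3, h4⟩, rfl⟩
      exact ⟨b, Finset.mem_filter.2 ⟨hb, lt_of_le_of_lt h1 h2, lt_of_le_of_lt h3 h4⟩, h3, h4⟩
    · rintro ⟨b, hb, h3, h4⟩
      obtain ⟨hb1, hb2, _⟩ := Finset.mem_filter.1 hb
      exact ⟨(b.1.1, v), ⟨b, hb1, le_rfl, hb2, h3, h4⟩, rfl⟩
  have hne' : B'.Nonempty := by
    obtain ⟨z, hz⟩ := hne
    obtain ⟨b, hb, _⟩ := (hmem z.2).1 ⟨z, hz, rfl⟩
    exact ⟨b, hb⟩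
  obtain ⟨b0, hb0, hmin⟩ := Finset.exists_min_image B' (fun b => b.2.1) hne'
  obtain ⟨b1, hb1, hmax⟩ := Finset.exists_max_image B' (fun b => b.2.2) hne'
  have h0 := (Finset.mem_filter.1 hb0).2.2
  have h1 := (Finset.mem_filter.1 hb1).2.2
  refine ⟨b0.2.1, b1.2.2, lt_of_le_of_lt (hmin b1 hb1) h1, ?_, ?_⟩
  · intro z hz
    obtain ⟨b, hb, h3, h4⟩ := (hmem z.2).1 ⟨z, hz, rfl⟩
    exact ⟨(hmin b hb).trans h3, lt_of_lt_of_le h4 (hmax b hb)⟩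
  · obtain ⟨u0, hu0, hu0'⟩ := (hmem b0.2.1).2 ⟨b0, hb0, le_rfl, h0⟩
    have pos : ∀ e : ℝ, 0 ≤ e → e < b1.2.2 - b0.2.1 →
        ∃ v ∈ body B, ∃ v' ∈ body B, e = v.2 - v'.2 := by
      intro e he he2
      obtain ⟨u1, hu1, hu1'⟩ := (hmem (max b1.2.1 ((b0.2.1 + e + b1.2.2) / 2))).2
        ⟨b1, hb1, le_max_left _ _, max_lt h1 (by linarith)⟩
      have k1 : (b0.2.1 + e + b1.2.2) / 2 ≤ u1.2 := by rw [hu1']; exact le_max_right _ _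
      exact hY.out ⟨u0, hu0, u0, hu0, (sub_self _).symm⟩ ⟨u1, hu1, u0, hu0, rfl⟩
        ⟨he, by rw [hu0']; linarith⟩
    intro d hd
    rcases le_total 0 d with h | h
    · exact pos d h (by rwa [abs_of_nonneg h] at hd)
    · obtain ⟨v, hv, v', hv', e⟩ := pos (-d) (by linarith) (by rwa [abs_of_nonpos h] at hd)
      exact ⟨v', hv', v, hv, by linarith⟩

/-- If the projection to the y-axis is an interval, so is the set of differences. -/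
theorem yint_of_proj {C : Set (ℝ × ℝ)} (h : (Prod.snd '' C).OrdConnected) : YInt C := by
  constructor
  rintro x ⟨v, hv, v', hv', rfl⟩ y ⟨w, hw, w', hw', rfl⟩ d ⟨hd1, hd2⟩
  -- slide `v` to `w` and `v'` to `w'`
  have key : ∀ e : ℝ, v.2 - v'.2 ≤ e → e ≤ w.2 - w'.2 →
      ∃ α ∈ Prod.snd '' C, ∃ β ∈ Prod.snd '' C, e = α - β := by
    intro e h1 h2
    rcases le_total e (w.2 - v'.2) with h3 | h3
    · -- between `v - v'` and `w - v'`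
      refine ⟨e + v'.2, ?_, v'.2, ⟨v', hv', rfl⟩, by ring⟩
      exact h.out ⟨v, hv, rfl⟩ ⟨w, hw, rfl⟩ ⟨by linarith, by linarith⟩
    · refine ⟨w.2, ⟨w, hw, rfl⟩, w.2 - e, ?_, by ring⟩
      exact h.out ⟨w', hw', rfl⟩ ⟨v', hv', rfl⟩ ⟨by linarith, by linarith⟩
  obtain ⟨_, ⟨α, hα, rfl⟩, _, ⟨β, hβ, rfl⟩, e⟩ := key d hd1 hd2
  exact ⟨α, hα, β, hβ, e⟩

end Pool.Agent.PTR
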