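import Pool.Agent.PTR.Lim
import Pool.Agent.PTR.Range

/-! NOF: no faults imply finite local complexity of the x-coordinates. -/

set_option autoImplicit false

namespace Pool.Agent.PTR

open OL Filter Topology

/-- The x-coordinates of the sequences converging to `s` and to `s'` have a constant
difference. -/
def PDf (U : Ultrafilter ℕ) (Tn : ℕ → Set (ℝ × ℝ)) (s s' : ℝ × ℝ) : Prop :=
  ∃ (u u' : ℕ → ℝ × ℝ) (δ : ℝ), (∀ᶠ n in (U : Filter ℕ), u n ∈ Tn n) ∧ Tendsto u U (𝓝 s) ∧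
    (∀ᶠ n in (U : Filter ℕ), u' n ∈ Tn n) ∧ Tendsto u' U (𝓝 s') ∧
    ∀ᶠ n in (U : Filter ℕ), (u' n).1 = (u n).1 + δ

theorem PDf.refl {U : Ultrafilter ℕ} {Tn : ℕ → Set (ℝ × ℝ)} {s : ℝ × ℝ} (hs : s ∈ Lim U Tn) :
    PDf U Tn s s := by
  obtain ⟨u, h1, h2⟩ := hs
  exact ⟨u, u, 0, h1, h2, h1, h2, Eventually.of_forall fun n => by ring⟩

theorem PDf.symm {U : Ultrafilter ℕ} {Tn : ℕ → Set (ℝ × ℝ)} {s s' : ℝ × ℝ}
    (h : PDf U Tn s s') : PDf U Tn s' s := by
  obtain ⟨u, u', δ, h1, h2, h3, h4, h5⟩ := h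
  exact ⟨u', u, -δ, h3, h4, h1, h2, h5.mono fun n hn => by rw [hn]; ring⟩

theorem PDf.trans {B : Finset Box} (hne : (body B).Nonempty) {U : Ultrafilter ℕ}
    {Tn : ℕ → Set (ℝ × ℝ)} (hpk : ∀ n, Pk (body B) (Tn n)) {s s' s'' : ℝ × ℝ}
    (h : PDf U Tn s s') (h' : PDf U Tn s' s'') : PDf U Tn s s'' := by
  obtain ⟨u, v, δ, h1, h2, h3, h4, h5⟩ := h
  obtain ⟨v', w, δ', g1, g2, g3, g4, g5⟩ := h'
  refine ⟨u, w, δ + δ', h1, h2, g3, g4, ?_⟩
  filter_upwards [lim_seq hne hpk h3 h4 g1 g2, h5, g5] with n a1 a2 a3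
  rw [a3, ← a1, a2]; ring

/-- Elementary intervals of the limit persist, at a slightly larger height. -/
theorem elt_persist {B : Finset Box} {U : Ultrafilter ℕ} {Tn : ℕ → Set (ℝ × ℝ)} {y : ℝ}
    {e : (ℝ × ℝ) × (ℝ × ℝ)} {T : Set (ℝ × ℝ)} (he : Elt B T y e) {u : ℕ → ℝ × ℝ}
    (h1 : ∀ᶠ n in (U : Filter ℕ), u n ∈ Tn n) (h2 : Tendsto u U (𝓝 e.1)) :
    ∃ η0 > 0, ∀ η : ℝ, 0 < η → η < η0 →
      ∀ᶠ n in (U : Filter ℕ), Elt B (Tn n) (y + η) (u n, e.2) := by
  obtain ⟨-, hc, hb⟩ := he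
  have h3 : ((e.1.1 + e.2.1, y) : ℝ × ℝ) - e.1 ∈ body B := by
    have : ((e.1.1 + e.2.1, y) : ℝ × ℝ) - e.1 = (e.2.1, y - e.1.2) := by
      ext <;> simp
    rw [this]; exact hb
  obtain ⟨η0, hη0, h4⟩ := body_near h3
  have hab := hc.2.2.1
  refine ⟨min η0 (e.2.2 - e.2.1), lt_min hη0 (by linarith), fun η hη hη1 => ?_⟩
  have h5 := h4 η hη (lt_of_lt_of_le hη1 (min_le_left _ _))
  have h6 : η < e.2.2 - e.2.1 := lt_of_lt_of_le hη1 (min_le_right _ _)
  have c1 : Tendsto (fun n => (u n).1) U (𝓝 e.1.1) := (continuous_fst.tendsto _).comp h2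
  have h7 := c1.eventually (gt_mem_nhds (by linarith : e.1.1 < e.1.1 + η))
  have h8 := c1.eventually (lt_mem_nhds (by linarith : e.1.1 + η - (e.2.2 - e.2.1) < e.1.1))
  filter_upwards [h1, h2.eventually h5, h7, h8] with n g1 g2 g3 g4
  refine ⟨g1, hc, ?_⟩
  have g5 : (e.1.1 + e.2.1 + η - (u n).1, y + η - (u n).2) ∈ body B := g2
  obtain ⟨a, b, hc', g6, g7, g8⟩ := (mem_body_iff B _ _).1 g5
  obtain ⟨g9, -⟩ := cons_unique hc' hc g6 g7 (by linarith) (by linarith)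
  rw [g9] at g8
  exact g8

/-- Abutting intervals of the limit persist. -/
theorem abut_persist {B : Finset Box} {U : Ultrafilter ℕ}
    {Tn : ℕ → Set (ℝ × ℝ)} (hT : ∀ n, ECov (body B) (Tn n)) {y : ℝ}
    {e e' : (ℝ × ℝ) × (ℝ × ℝ)} (he : Elt B (Lim U Tn) y e) (he' : Elt B (Lim U Tn) y e')
    (hab : e'.1.1 + e'.2.1 = e.1.1 + e.2.2) : PDf U Tn e.1 e'.1 := by
  obtain ⟨ε, hε, hgap⟩ := gap_exists (xco B)
  obtain ⟨u, h1, h2⟩ := he.1
  obtain ⟨u', h1', h2'⟩ := he'.1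
  obtain ⟨η0, hη0, h3⟩ := elt_persist he h1 h2
  obtain ⟨η0', hη0', h3'⟩ := elt_persist he' h1' h2'
  have hpos : 0 < min η0 η0' / 2 := by positivity
  have hlt : min η0 η0' / 2 < min η0 η0' := by linarith
  set η := min η0 η0' / 2 with hη
  have h4 := h3 η hpos (lt_of_lt_of_le hlt (min_le_left _ _))
  have h4' := h3' η hpos (lt_of_lt_of_le hlt (min_le_right _ _))
  have c1 : Tendsto (fun n => (u' n).1 + e'.2.1 - ((u n).1 + e.2.2)) U (𝓝 0) := by
    have a1 : Tendsto (fun n => (u n).1) U (𝓝 e.1.1) := (continuous_fst.tendsto _).comp h2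
    have a2 : Tendsto (fun n => (u' n).1) U (𝓝 e'.1.1) := (continuous_fst.tendsto _).comp h2'
    have := (a2.add_const e'.2.1).sub (a1.add_const e.2.2)
    rwa [hab, sub_self] at this
  have h5 := c1.eventually (gt_mem_nhds hε)
  have h6 := c1.eventually (lt_mem_nhds (by linarith : -ε < 0))
  refine ⟨u, u', e.2.2 - e'.2.1, h1, h2, h1', h2', ?_⟩
  filter_upwards [h4, h4', h5, h6] with n g1 g2 g3 g4
  have hrow := row_cover (B := B) (T := Tn n) (y := y + η) (fun x => hT n (x, y + η))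
  set l : {e : (ℝ × ℝ) × (ℝ × ℝ) // Elt B (Tn n) (y + η) e} → ℝ :=
    fun e => e.1.1.1 + e.1.2.1 with hl
  set r : {e : (ℝ × ℝ) × (ℝ × ℝ) // Elt B (Tn n) (y + η) e} → ℝ :=
    fun e => e.1.1.1 + e.1.2.2 with hr
  have hlen : ∀ e, l e + ε ≤ r e := by
    intro e
    obtain ⟨ha, hb, hlt, -⟩ := e.2.2.1
    have := hgap _ ha _ hb hlt
    simp only [hl, hr]; linarith
  obtain ⟨e2, he2⟩ := iv_succ l r (fun e => by linarith [hlen e]) hrow ⟨_, g1⟩
  have hle : l ⟨_, g2⟩ = (u' n).1 + e'.2.1 := rfl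
  have hre : r ⟨_, g1⟩ = (u n).1 + e.2.2 := rfl
  have key : l ⟨_, g2⟩ = r ⟨_, g1⟩ := by
    rcases le_or_gt (r ⟨_, g1⟩) (l ⟨_, g2⟩) with h | h
    · have : (⟨_, g2⟩ : {e : (ℝ × ℝ) × (ℝ × ℝ) // Elt B (Tn n) (y + η) e}) = e2 :=
        (hrow (l ⟨_, g2⟩)).unique
          ⟨le_rfl, by have := hlen ⟨_, g2⟩; simp only [hl, hr] at *; linarith⟩
          ⟨by rw [← he2] at h; exact h, by
            have a1 := hlen e2
            have a2 : l ⟨_, g2⟩ < r ⟨_, g1⟩ + ε := by rw [hle, hre]; linarith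
            rw [← he2] at a2
            simp only [hl, hr] at *
            linarith⟩
      rw [this]; exact he2
    · exfalso
      have a1 : r ⟨_, g1⟩ - ε < l ⟨_, g2⟩ := by rw [hle, hre]; linarith
      have a2 := hlen ⟨_, g1⟩
      have : (⟨_, g2⟩ : {e : (ℝ × ℝ) × (ℝ × ℝ) // Elt B (Tn n) (y + η) e}) = ⟨_, g1⟩ :=
        (hrow (l ⟨_, g2⟩)).unique
          ⟨le_rfl, by have := hlen ⟨_, g2⟩; simp only [hl, hr] at *; linarith⟩
          ⟨by simp only [hl, hr] at *; linarith, h⟩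
      rw [this] at a1
      linarith
  rw [hle, hre] at key
  linarith

/-- If there is no nontrivial horizontal fault, any two tiles are related by every equivalence
relation which relates the tiles of every horizontal line. -/
theorem fault_conn_gen {B : Finset Box} (hne : (body B).Nonempty) (hY : YInt (body B))
    {T : Set (ℝ × ℝ)} (hnf : ∀ c, FH (body B) T c →
      (∀ t ∈ T, ∀ z ∈ body B, t.2 + z.2 < c) ∨ (∀ t ∈ T, ∀ z ∈ body B, c ≤ t.2 + z.2))
    (Q : ℝ × ℝ → ℝ × ℝ → Prop) (hrefl : ∀ s ∈ T, Q s s) (hsymm : ∀ s s', Q s s' → Q s' s)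
    (htrans : ∀ s s' s'', Q s s' → Q s' s'' → Q s s'')
    (hline : ∀ s ∈ T, ∀ s' ∈ T, ∀ z ∈ body B, ∀ z' ∈ body B, s.2 + z.2 = s'.2 + z'.2 → Q s s')
    (s s' : ℝ × ℝ) (hs : s ∈ T) (hs' : s' ∈ T) : Q s s' := by
  obtain ⟨y0, y1, hy, hrange, hdiff⟩ := body_range hne hY
  obtain ⟨z0, hz0⟩ := hne
  -- unrelated tiles have distant heights
  have hfar : ∀ t ∈ T, ∀ t' ∈ T, ¬ Q t t' → y1 - y0 ≤ |t.2 - t'.2| := by
    intro t ht t' ht' hn
    by_contra hlt
    push Not at hlt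
    obtain ⟨v, hv, v', hv', e⟩ := hdiff _ hlt
    exact hn (hline t ht t' ht' v' hv' v hv (by linarith))
  have main : ∀ s ∈ T, ∀ s' ∈ T, s.2 < s'.2 → ¬ Q s s' → False := by
    intro s hs s' hs' hlt hnQ
    set Z : Set ℝ := {y | ∃ t ∈ T, Q s t ∧ t.2 = y ∧ y < s'.2} with hZ
    have hZne : Z.Nonempty := ⟨s.2, s, hs, hrefl s hs, rfl, hlt⟩
    have hZb : BddAbove Z := ⟨s'.2, fun y hy => by
      obtain ⟨_, _, _, _, h⟩ := hy
      exact h.le⟩
    set a := sSup Z with ha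
    have hub : ∀ y ∈ Z, y ≤ a := fun y hy => le_csSup hZb hy
    have hle : a ≤ s'.2 - (y1 - y0) := by
      apply csSup_le hZne
      rintro y ⟨t, ht, hQt, rfl, hty⟩
      have h1 := hfar t ht s' hs' (fun h => hnQ (htrans _ _ _ hQt h))
      rw [abs_sub_comm, abs_of_pos (by linarith)] at h1
      linarith
    -- no tile has a height strictly between `a` and `a + H`
    have hgap : ∀ t ∈ T, t.2 ≤ a ∨ a + (y1 - y0) ≤ t.2 := by
      intro t ht
      by_contra hcon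
      push Not at hcon
      obtain ⟨g1, g2⟩ := hcon
      by_cases hQt : Q s t
      · exact absurd (hub t.2 ⟨t, ht, hQt, rfl, by linarith⟩) (not_le.2 g1)
      · have hpos : 0 < a + (y1 - y0) - t.2 := by linarith
        obtain ⟨y, ⟨t1, ht1, hQ1, rfl, h1⟩, hy1⟩ :=
          exists_lt_of_lt_csSup hZne (sub_lt_self a hpos)
        have h2 := hfar t1 ht1 t ht (fun h => hQt (htrans _ _ _ hQ1 h))
        have h3 : t1.2 ≤ a := hub t1.2 ⟨t1, ht1, hQ1, rfl, h1⟩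
        rw [abs_sub_comm, abs_of_pos (by linarith)] at h2
        linarith
    have hF : FH (body B) T (a + y1) := by
      intro t ht
      rcases hgap t ht with h | h
      · left
        intro z hz
        have := (hrange z hz).2
        linarith
      · right
        intro z hz
        have := (hrange z hz).1
        linarith
    have h3 : s.2 ≤ a := hub s.2 ⟨s, hs, hrefl s hs, rfl, hlt⟩
    rcases hnf _ hF with h | h
    · have h4 := h s' hs' z0 hz0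
      have h5 := (hrange z0 hz0).1
      linarith
    · have h4 := h s hs z0 hz0
      have h5 := (hrange z0 hz0).2
      linarith
  by_contra hnQ
  rcases lt_trichotomy s.2 s'.2 with h | h | h
  · exact main s hs s' hs' h hnQ
  · exact hnQ (hline s hs s' hs' z0 hz0 z0 hz0 (by rw [h]))
  · exact main s' hs' s hs h fun h' => hnQ (hsymm _ _ h')

/-- If there is no horizontal fault, any two tiles are related by every equivalence relation which
relates the tiles of every horizontal line. -/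
theorem fault_conn {B : Finset Box} (hne : (body B).Nonempty) (hY : YInt (body B))
    {T : Set (ℝ × ℝ)} (hnf : ∀ c, ¬ FH (body B) T c)
    (Q : ℝ × ℝ → ℝ × ℝ → Prop) (hrefl : ∀ s ∈ T, Q s s) (hsymm : ∀ s s', Q s s' → Q s' s)
    (htrans : ∀ s s' s'', Q s s' → Q s' s'' → Q s s'')
    (hline : ∀ s ∈ T, ∀ s' ∈ T, ∀ z ∈ body B, ∀ z' ∈ body B, s.2 + z.2 = s'.2 + z'.2 → Q s s')
    (s s' : ℝ × ℝ) (hs : s ∈ T) (hs' : s' ∈ T) : Q s s' :=
  fault_conn_gen hne hY (fun c hc => absurd hc (hnf c)) Q hrefl hsymm htrans hline s s' hs hs'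

theorem body_up {B : Finset Box} : ∀ z ∈ body B, ∃ ε > 0, ∀ w : ℝ, 0 ≤ w → w < ε →
    (z.1, z.2 + w) ∈ body B := by
  rintro z ⟨b, hb, h1, h2, h3, h4⟩
  refine ⟨b.2.2 - z.2, by linarith, fun w h5 h6 => ⟨b, hb, h1, h2, ?_, ?_⟩⟩
  · simp only; linarith
  · simp only; linarith

theorem shift_ecov {C T : Set (ℝ × ℝ)} (hT : ECov C T) (v : ℝ × ℝ) :
    ECov C {z | z + v ∈ T} := by
  intro z
  obtain ⟨t, ⟨ht1, ht2⟩, ht3⟩ := hT (z + v)
  refine ⟨t - v, ⟨by simpa using ht1, by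
    have : z - (t - v) = z + v - t := by abel
    rw [this]; exact ht2⟩, ?_⟩
  rintro t' ⟨h1, h2⟩
  have := ht3 (t' + v) ⟨h1, by
    have : z + v - (t' + v) = z - t' := by abel
    rw [this]; exact h2⟩
  rw [← this]; abel

theorem shift_per {T : Set (ℝ × ℝ)} {p : ℝ × ℝ} (hT : Per p T) (v : ℝ × ℝ) :
    Per p {z | z + v ∈ T} := by
  intro z
  have := hT (z + v)
  rw [Set.mem_ofPred_eq, Set.mem_ofPred_eq, ← this]
  have h : z + p + v = z + v + p := by abel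
  rw [h]

theorem p_NOF : T_NOF := by
  intro B hne hY P hno T hT hP R
  by_contra hinf
  have hinf' : {s : ℝ | ∃ t ∈ T, ∃ t' ∈ T, ‖t' - t‖ ≤ R ∧ s = t'.1 - t.1}.Infinite := hinf
  let f := hinf'.natEmbedding
  have hf : ∀ n, ∃ t ∈ T, ∃ t' ∈ T, ‖t' - t‖ ≤ R ∧ (f n : ℝ) = t'.1 - t.1 := fun n => (f n).2
  choose t ht t' ht' hn hx using hf
  let U : Ultrafilter ℕ := hyperfilter ℕ
  set Tn : ℕ → Set (ℝ × ℝ) := fun n => {z | z + t n ∈ T} with hTn
  have hE : ∀ n, ECov (body B) (Tn n) := fun n => shift_ecov hT _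
  have hpk : ∀ n, Pk (body B) (Tn n) := fun n => (hE n).pk
  have hL : ECov (body B) (Lim U Tn) := lim_ecov hne hpk
    (fun z => Eventually.of_forall fun n => (hE n z).exists)
  have hPer : ∀ p ∈ P, Per p (Lim U Tn) := fun p hp =>
    lim_per fun n => shift_per (hP p hp) _
  have h0 : ∀ᶠ n in (U : Filter ℕ), (fun _ : ℕ => (0 : ℝ × ℝ)) n ∈ Tn n :=
    Eventually.of_forall fun n => by simp only [hTn, Set.mem_ofPred_eq, zero_add]; exact ht n
  have h0' : Tendsto (fun _ : ℕ => (0 : ℝ × ℝ)) U (𝓝 0) := tendsto_const_nhds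
  have hd : ∀ᶠ n in (U : Filter ℕ), (fun n : ℕ => t' n - t n) n ∈ Tn n :=
    Eventually.of_forall fun n => by
      simp only [hTn, Set.mem_ofPred_eq, sub_add_cancel]; exact ht' n
  obtain ⟨d, hd'⟩ := ultra_conv U (fun n => t' n - t n) R (Eventually.of_forall hn)
  have key : PDf U Tn 0 d := by
    refine fault_conn hne hY (hno _ hL hPer) (PDf U Tn) (fun s hs => PDf.refl hs)
      (fun s s' h => h.symm) (fun s s' s'' h h' => PDf.trans hne hpk h h') ?_ 0 d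
      ⟨_, h0, h0'⟩ ⟨_, hd, hd'⟩
    intro s hs s' hs' z hz z' hz' hzz
    refine row_rel (B := B) (T := Lim U Tn) (y := s.2 + z.2) (fun x => hL (x, s.2 + z.2))
      (PDf U Tn) (fun s hs => PDf.refl hs) (fun s s' h => h.symm)
      (fun s s' s'' h h' => PDf.trans hne hpk h h')
      (fun e e' he he' h => abut_persist hE he he' h) s s' hs hs' (s.1 + z.1) (s'.1 + z'.1)
      ?_ ?_
    · have : ((s.1 + z.1, s.2 + z.2) : ℝ × ℝ) - s = z := by ext <;> simp
      rw [this]; exact hz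
    · have : ((s'.1 + z'.1, s.2 + z.2) : ℝ × ℝ) - s' = z' := by
        rw [hzz]; ext <;> simp
      rw [this]; exact hz'
  obtain ⟨u, u', δ, g1, g2, g3, g4, g5⟩ := key
  have e1 := lim_seq hne hpk g1 g2 h0 h0'
  have e2 := lim_seq hne hpk g3 g4 hd hd'
  have e3 : ∀ᶠ n in (U : Filter ℕ), (f n : ℝ) = δ := by
    filter_upwards [e1, e2, g5] with n a1 a2 a3
    rw [a2, a1] at a3
    rw [hx n]
    simpa using a3
  have hsub : {n : ℕ | (f n : ℝ) = δ}.Subsingleton := by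
    intro m hm n hn
    exact f.injective (Subtype.ext (hm.trans hn.symm))
  have hfin := hsub.finite
  exact Filter.notMem_hyperfilter_of_finite hfin e3

end Pool.Agent.PTR
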