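import Pool.Agent.PTR.NOF

set_option autoImplicit false

/-!
# PTR: target UPL
-/

namespace Pool.Agent.PTR

open OL Filter Topology

theorem p_UPL : T_UPL := by
  intro B hB T c p hT hF hper
  set Tp : Set (ℝ × ℝ) := {t | t ∈ T ∧ ∀ z ∈ body B, c ≤ t.2 + z.2} with hTp
  set Tn : ℕ → Set (ℝ × ℝ) := fun n => {z | z + ((0 : ℝ), (n : ℝ)) ∈ Tp} with hTn
  have hpk : ∀ n, Pk (body B) (Tn n) := by
    intro n z t ht t' ht' h1 h2
    have h3 := hT.pk (z + ((0 : ℝ), (n : ℝ))) (t + ((0 : ℝ), (n : ℝ))) ht.1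
      (t' + ((0 : ℝ), (n : ℝ))) ht'.1 (by rwa [add_sub_add_right_eq_sub])
      (by rwa [add_sub_add_right_eq_sub])
    exact add_right_cancel h3
  refine ⟨Lim (hyperfilter ℕ) Tn, lim_ecov hB hpk ?_, lim_per fun n => ?_⟩
  · intro z
    have h1 : ∀ᶠ n : ℕ in atTop, c - z.2 ≤ n := by
      obtain ⟨N, hN⟩ := exists_nat_ge (c - z.2)
      filter_upwards [eventually_ge_atTop N] with n hn
      exact hN.trans (by exact_mod_cast hn)
    have h2 : ∀ᶠ n : ℕ in (hyperfilter ℕ : Filter ℕ), c - z.2 ≤ n := by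
      rw [← Nat.cofinite_eq_atTop] at h1
      exact hyperfilter_le_cofinite h1
    filter_upwards [h2] with n hn
    obtain ⟨t, ⟨ht, htb⟩, -⟩ := hT (z + ((0 : ℝ), (n : ℝ)))
    refine ⟨t - ((0 : ℝ), (n : ℝ)), ⟨?_, ?_⟩, ?_⟩
    · rw [sub_add_cancel]
      exact ht
    · rw [sub_add_cancel]
      rcases hF t ht with h3 | h3
      · exfalso
        have h4 := h3 _ htb
        have h5 : (z + ((0 : ℝ), (n : ℝ)) - t).2 = z.2 + n - t.2 := rfl
        rw [h5] at h4
        linarith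
      · exact h3
    · have h4 : z - (t - ((0 : ℝ), (n : ℝ))) = z + ((0 : ℝ), (n : ℝ)) - t := by abel
      rw [h4]
      exact htb
  · exact shift_per hper _

end Pool.Agent.PTR
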