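import Pool.Agent.PTR.R1
import Pool.Agent.PTR.NOF
import Pool.Agent.PTR.Fault
import Pool.Agent.PTR.P_UPL

/-!
# The two alternatives, unconditionally
-/

set_option autoImplicit false

namespace Pool.Agent.PTR

/-- One horizontal period, both projections intervals. -/
theorem p_HP : T_HP := HP_of p_NOF p_STR

/-- **Both projections are intervals.** -/
theorem p_R1 : T_R1 := R1_of p_NOF p_HLF p_STR p_UPL

/-- **One projection is an interval and the corresponding coordinates are commensurable.** -/
theorem p_R1b : T_R1b := R1b_of p_NOF p_HLF p_STR p_UPL

end Pool.Agent.PTR
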