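import Pool.Agent.PTR.FinalA
import Pool.Agent.PTR.All

/-!
# Tilings of the plane by translates of unions of parallelograms
-/

set_option autoImplicit false

namespace Pool.Agent.PTR

open OL

lemma flc_of_lat {S : Set (ℝ × ℝ)} {m m' : ℝ} (hm : 0 < m) (hm' : 0 < m')
    (h : ∀ t ∈ S, ∃ k n : ℤ, t = (k * m, n * m')) : FLC S := by
  intro R
  refine (((Set.finite_Icc (-⌈R / m⌉) ⌈R / m⌉).prod
    (Set.finite_Icc (-⌈R / m'⌉) ⌈R / m'⌉)).image
      (fun p : ℤ × ℤ => ((p.1 * m, p.2 * m') : ℝ × ℝ))).subset ?_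
  rintro d ⟨hd, t, ht, htd⟩
  obtain ⟨k, n, rfl⟩ := h t ht
  obtain ⟨k', n', e⟩ := h _ htd
  have e1 : d.1 = ((k' - k : ℤ) : ℝ) * m := by
    have := congrArg Prod.fst e
    simp only [Prod.fst_add] at this
    push_cast
    linarith
  have e2 : d.2 = ((n' - n : ℤ) : ℝ) * m' := by
    have := congrArg Prod.snd e
    simp only [Prod.snd_add] at this
    push_cast
    linarith
  have key : ∀ (x μ : ℝ) (j : ℤ), 0 < μ → |x| ≤ R → x = (j : ℝ) * μ →
      j ∈ Set.Icc (-⌈R / μ⌉) ⌈R / μ⌉ := by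
    intro x μ j hμ hx hj
    rw [hj, abs_mul, abs_of_pos hμ] at hx
    have h4 : |(j : ℝ)| ≤ R / μ := by
      rw [le_div_iff₀ hμ]; exact hx
    have h5 := abs_le.1 h4
    have h6 := Int.le_ceil (R / μ)
    constructor
    · have : ((-⌈R / μ⌉ : ℤ) : ℝ) ≤ (j : ℝ) := by
        push_cast
        linarith
      exact_mod_cast this
    · have : (j : ℝ) ≤ (⌈R / μ⌉ : ℤ) := by linarith
      exact_mod_cast this
  have hd1 : |d.1| ≤ R := (norm_fst_le d).trans hd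
  have hd2 : |d.2| ≤ R := (norm_snd_le d).trans hd
  exact ⟨(k' - k, n' - n), ⟨key _ _ _ hm hd1 e1, key _ _ _ hm' hd2 e2⟩,
    Prod.ext e1.symm e2.symm⟩

lemma nrmx_ecov {B : Finset Box} {T : Set (ℝ × ℝ)} (hT : ECov (body B) T) {m : ℝ} (hm : 0 < m)
    (hB : ∀ a ∈ xco B, ∀ b ∈ xco B, ∃ n : ℤ, b - a = n * m) :
    ECov (body B) (Prod.swap '' nrm m (Prod.swap '' T)) := by
  have h1 := ecov_swap B T hT
  have h2 := nrm_ecov h1 hm (by rw [yco_swap]; exact hB)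
  have h3 := ecov_swap _ _ h2
  rwa [image_bswap_bswap] at h3

/-- All coordinates commensurable. -/
lemma dp_comm {B : Finset Box} (h0 : (body B).Nonempty) (hx : Comm (xco B)) (hy : Comm (yco B))
    (h : ∃ T, ECov (body B) T) : DP (body B) := by
  obtain ⟨T, hT⟩ := h
  obtain ⟨m, hm, hm2⟩ := hx
  obtain ⟨m', hm', hm2'⟩ := hy
  have h1 := nrmx_ecov (nrm_ecov hT hm' hm2') hm hm2
  refine p_R2 B h0 _ h1 (flc_of_lat hm hm' ?_)
  rintro _ ⟨_, ⟨_, ⟨_, ⟨t, ht, rfl⟩, rfl⟩, rfl⟩, rfl⟩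
  refine ⟨⌊t.1 / m⌋, ⌊t.2 / m'⌋, ?_⟩
  ext
  · simp only [Prod.fst_swap, Prod.snd_swap]
    ring
  · simp only [Prod.fst_swap, Prod.snd_swap]
    ring

/-- The square case. -/
theorem dp_sq {B : Finset Box} (h0 : (body B).Nonempty)
    (h : (XInt (body B) ∨ Comm (yco B)) ∧ (YInt (body B) ∨ Comm (xco B)))
    (hT : ∃ T, ECov (body B) T) : DP (body B) := by
  obtain ⟨h1, h2⟩ := h
  rcases h1 with h1 | h1
  · rcases h2 with h2 | h2
    · exact p_R1 B h0 h1 h2 hT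
    · refine dp_of_swap (p_R1b _ (body_swap_nonempty h0) (yint_swap h1) ?_ ?_)
      · obtain ⟨m, hm, h3⟩ := h2
        exact ⟨m, hm, by rw [yco_swap]; exact h3⟩
      · obtain ⟨T, hT⟩ := hT
        exact ⟨_, ecov_swap B T hT⟩
  · rcases h2 with h2 | h2
    · exact p_R1b B h0 h2 h1 hT
    · exact dp_comm h0 h2 h1 hT

lemma xint_of {B : Finset Box} (hB : ∀ q ∈ B, q.1.1 < q.1.2 ∧ q.2.1 < q.2.2)
    (h : (FstDiff B).OrdConnected) : XInt (body B) := by
  rw [fstDiff_eq hB] at h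
  exact h

lemma yint_of {B : Finset Box} (hB : ∀ q ∈ B, q.1.1 < q.1.2 ∧ q.2.1 < q.2.2)
    (h : (SndDiff B).OrdConnected) : YInt (body B) := by
  rw [sndDiff_eq hB] at h
  exact h

lemma tiling_iff (C T : Set (ℝ × ℝ)) : PSQ.Tiling C T ↔ Tiling C T := by
  constructor
  · rintro ⟨h1, h2⟩
    refine ⟨?_, h1⟩
    intro z
    have h3 : z ∈ ⋃ t ∈ T, PSQ.tr C t := by rw [h2]; exact Set.mem_univ _
    simp only [Set.mem_iUnion, exists_prop] at h3
    exact h3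
  · rintro ⟨h1, h2⟩
    refine ⟨h2, ?_⟩
    rw [Set.eq_univ_iff_forall]
    intro z
    simp only [Set.mem_iUnion, exists_prop]
    exact h1 z

/-- **Main theorem.** -/
theorem main (a b : ℝ × ℝ) (hab : LinearIndependent ℝ ![a, b]) (B : Finset Box)
    (h0 : B.Nonempty) (hB : ∀ q ∈ B, q.1.1 < q.1.2 ∧ q.2.1 < q.2.2) :
    PSQ.IsBody (pbody a b B) ∧
    ∀ T, PSQ.Tiling (pbody a b B) T →
      (((FstDiff B).OrdConnected ∨ Comm (yco B)) ∧ ((SndDiff B).OrdConnected ∨ Comm (xco B))) ∨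
        FLC T ∨ IsPreconnected (pbody a b B) →
      ∃ T', PSQ.Tiling (pbody a b B) T' ∧ PSQ.Periodic T' := by
  obtain ⟨e, he⟩ := PSQ.exists_equiv hab
  have hp := pbody_eq e he B
  refine ⟨by rw [hp]; exact PSQ.isBody_image e (cbody_isBody hB), ?_⟩
  intro T hT hc
  have hse : ∀ S : Set (ℝ × ℝ), e.symm '' (e '' S) = S := by
    intro S
    rw [← Set.image_comp, show (e.symm : (ℝ × ℝ) → (ℝ × ℝ)) ∘ e = id from
      funext fun x => e.symm_apply_apply x, Set.image_id]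
  have h1 : ECov (body B) (e.symm '' T) := by
    rw [← closed_iff B hB, ← tiling_iff]
    have h2 := PSQ.tiling_image e.symm hT
    rwa [hp, hse] at h2
  have hne := body_ne h0 hB
  have h2 : DP (body B) := by
    rcases hc with ⟨hx, hy⟩ | hf | hcon
    · exact dp_sq hne ⟨hx.imp_left (xint_of hB), hy.imp_left (yint_of hB)⟩ ⟨_, h1⟩
    · exact p_R2 B hne _ h1 (flc_image e.symm hf)
    · obtain ⟨h3, h4⟩ := ints_of_conn hab hB hcon
      exact p_R1 B hne (xint_of hB (fstDiff_of hB h3)) (yint_of hB (sndDiff_of hB h4)) ⟨_, h1⟩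
  obtain ⟨T', hT', u, v, huv, hu, hv⟩ := h2
  refine ⟨e '' T', ?_, ?_⟩
  · rw [hp]
    apply PSQ.tiling_image
    rw [tiling_iff, closed_iff B hB]
    exact hT'
  · exact PSQ.periodic_image e ⟨u, v, huv, fun t => (hu t).symm, fun t => (hv t).symm⟩

end Pool.Agent.PTR
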