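import Pool.Agent.PTR.Defs

/-!
# Gluing a set with one period along two parallel strips with the same pattern
-/

set_option autoImplicit false

namespace Pool.Agent.PTR

/-- determinant of two vectors of the plane -/
def rdet (p z : ℝ × ℝ) : ℝ := p.1 * z.2 - p.2 * z.1

lemma rdet_add (p z w : ℝ × ℝ) : rdet p (z + w) = rdet p z + rdet p w := by
  simp only [rdet, Prod.fst_add, Prod.snd_add]; ring

lemma rdet_sub (p z w : ℝ × ℝ) : rdet p (z - w) = rdet p z - rdet p w := by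
  simp only [rdet, Prod.fst_sub, Prod.snd_sub]; ring

lemma rdet_zsmul (p z : ℝ × ℝ) (n : ℤ) : rdet p (n • z) = n * rdet p z := by
  rw [rdet, rdet, Prod.smul_fst, Prod.smul_snd, zsmul_eq_mul, zsmul_eq_mul]; ring

lemma rdet_self (p : ℝ × ℝ) : rdet p p = 0 := by simp only [rdet]; ring

/-- The set which repeats the part of `T` in the band `ℓ c ≤ ℓ < ℓ c + ℓ v`. -/
noncomputable def glued (T : Set (ℝ × ℝ)) (p v c : ℝ × ℝ) : Set (ℝ × ℝ) :=
  {z | z - ⌊(rdet p z - rdet p c) / rdet p v⌋ • v ∈ T}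

lemma glued_v (T : Set (ℝ × ℝ)) (p v c : ℝ × ℝ) (hv : 0 < rdet p v) (z : ℝ × ℝ) :
    z + v ∈ glued T p v c ↔ z ∈ glued T p v c := by
  simp only [glued, Set.mem_ofPred_eq]
  have e : (rdet p (z + v) - rdet p c) / rdet p v = (rdet p z - rdet p c) / rdet p v + 1 := by
    rw [rdet_add]
    field_simp
    ring
  rw [e, Int.floor_add_one, add_smul, one_smul]
  congr! 1
  abel

lemma glued_p (T : Set (ℝ × ℝ)) (p v c : ℝ × ℝ) (hp : ∀ z, z + p ∈ T ↔ z ∈ T) (z : ℝ × ℝ) :
    z + p ∈ glued T p v c ↔ z ∈ glued T p v c := by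
  simp only [glued, Set.mem_ofPred_eq]
  rw [rdet_add, rdet_self, add_zero, add_sub_right_comm, hp]

lemma glued_eq (T : Set (ℝ × ℝ)) (p v c : ℝ × ℝ) (κ : ℝ) (hv : 0 < rdet p v)
    (hκ : κ ≤ rdet p v)
    (hag : ∀ w : ℝ × ℝ, |rdet p w - rdet p c| ≤ κ → (w + v ∈ T ↔ w ∈ T)) (t : ℝ × ℝ)
    (h1 : rdet p c - κ ≤ rdet p t) (h2 : rdet p t < rdet p c + rdet p v + κ) :
    t ∈ glued T p v c ↔ t ∈ T := by
  simp only [glued, Set.mem_ofPred_eq]
  rcases lt_or_ge (rdet p t) (rdet p c) with h | h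
  · have hf : ⌊(rdet p t - rdet p c) / rdet p v⌋ = -1 := by
      rw [Int.floor_eq_iff]
      push_cast
      constructor
      · rw [le_div_iff₀ hv]; linarith
      · rw [div_lt_iff₀ hv]; linarith
    rw [hf, neg_smul, one_smul, sub_neg_eq_add]
    apply hag
    rw [abs_le]
    constructor <;> linarith
  · rcases lt_or_ge (rdet p t) (rdet p c + rdet p v) with h' | h'
    · have hf : ⌊(rdet p t - rdet p c) / rdet p v⌋ = 0 := by
        rw [Int.floor_eq_iff]
        push_cast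
        constructor
        · rw [le_div_iff₀ hv]; linarith
        · rw [div_lt_iff₀ hv]; linarith
      rw [hf, zero_smul, sub_zero]
    · have hf : ⌊(rdet p t - rdet p c) / rdet p v⌋ = 1 := by
        rw [Int.floor_eq_iff]
        push_cast
        constructor
        · rw [le_div_iff₀ hv]; linarith
        · rw [div_lt_iff₀ hv]; linarith
      rw [hf, one_smul]
      have h3 := hag (t - v) (by
        rw [rdet_sub, abs_le]
        constructor <;> linarith)
      rw [sub_add_cancel] at h3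
      exact h3.symm

/-- **Gluing.**  `T` has the period `p`, every point of the region `Rg` in a band is covered once
and no other point of the band is covered, and `T` looks the same near the two sides of the band:
then the set repeating the band has the periods `p` and `v` and covers exactly the region. -/
theorem glue_gen (C T : Set (ℝ × ℝ)) (Rg : ℝ × ℝ → Prop) (p v c : ℝ × ℝ) (κ : ℝ)
    (hp : ∀ z, z + p ∈ T ↔ z ∈ T) (hC : ∀ z ∈ C, |rdet p z| ≤ κ) (hv : 0 < rdet p v)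
    (hκ : κ ≤ rdet p v)
    (hag : ∀ w : ℝ × ℝ, |rdet p w - rdet p c| ≤ κ → (w + v ∈ T ↔ w ∈ T))
    (hR : ∀ z, Rg (z + v) ↔ Rg z)
    (h1 : ∀ z, Rg z → rdet p c ≤ rdet p z → rdet p z < rdet p c + rdet p v →
      ∃! t, t ∈ T ∧ z - t ∈ C)
    (h2 : ∀ z, ¬ Rg z → rdet p c ≤ rdet p z → rdet p z < rdet p c + rdet p v →
      ∀ t ∈ T, z - t ∉ C) :
    ∃ T' : Set (ℝ × ℝ), (∀ z, z + p ∈ T' ↔ z ∈ T') ∧ (∀ z, z + v ∈ T' ↔ z ∈ T') ∧
      (∀ z ∈ T', ∃ n : ℤ, z - n • v ∈ T) ∧
      (∀ z, Rg z → ∃! t, t ∈ T' ∧ z - t ∈ C) ∧ (∀ z, ¬ Rg z → ∀ t ∈ T', z - t ∉ C) := by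
  set T' := glued T p v c with hT'
  have hvv : ∀ z, z + v ∈ T' ↔ z ∈ T' := glued_v T p v c hv
  have hvz : ∀ (n : ℤ) (z : ℝ × ℝ), z + n • v ∈ T' ↔ z ∈ T' := by
    intro n z
    induction n using Int.induction_on generalizing z with
    | zero => simp
    | succ k ih => rw [add_smul, one_smul, ← add_assoc, hvv, ih]
    | pred k ih =>
      rw [← hvv (z + (-(k : ℤ) - 1) • v),
        show z + (-(k : ℤ) - 1) • v + v = z + (-(k : ℤ)) • v by rw [sub_smul, one_smul]; abel, ih]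
  have hRz : ∀ (n : ℤ) (z : ℝ × ℝ), Rg (z + n • v) ↔ Rg z := by
    intro n z
    induction n using Int.induction_on generalizing z with
    | zero => simp
    | succ k ih => rw [add_smul, one_smul, ← add_assoc, hR, ih]
    | pred k ih =>
      rw [← hR (z + (-(k : ℤ) - 1) • v),
        show z + (-(k : ℤ) - 1) • v + v = z + (-(k : ℤ)) • v by rw [sub_smul, one_smul]; abel, ih]
  -- the key equivalence for points of the band
  have key : ∀ z, rdet p c ≤ rdet p z → rdet p z < rdet p c + rdet p v → ∀ t, z - t ∈ C →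
      (t ∈ T' ↔ t ∈ T) := by
    intro z hz1 hz2 t ht
    have h3 := abs_le.1 (hC _ ht)
    rw [rdet_sub] at h3
    exact glued_eq T p v c κ hv hκ hag t (by linarith) (by linarith)
  -- reduction to the band
  have band : ∀ z, ∃ n : ℤ, rdet p c ≤ rdet p (z - n • v) ∧
      rdet p (z - n • v) < rdet p c + rdet p v := by
    intro z
    refine ⟨⌊(rdet p z - rdet p c) / rdet p v⌋, ?_, ?_⟩
    · have := Int.floor_le ((rdet p z - rdet p c) / rdet p v)
      rw [le_div_iff₀ hv] at this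
      rw [rdet_sub, rdet_zsmul]
      linarith
    · have := Int.lt_floor_add_one ((rdet p z - rdet p c) / rdet p v)
      rw [div_lt_iff₀ hv] at this
      rw [rdet_sub, rdet_zsmul]
      linarith
  refine ⟨T', glued_p T p v c hp, hvv, fun z hz => ⟨_, hz⟩, ?_, ?_⟩
  · intro z hz
    obtain ⟨n, hn1, hn2⟩ := band z
    have hzn : Rg (z - n • v) := by
      have := hRz n (z - n • v)
      rw [sub_add_cancel] at this
      exact this.1 hz
    obtain ⟨t, ⟨ht1, ht2⟩, ht3⟩ := h1 _ hzn hn1 hn2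
    refine ⟨t + n • v, ⟨(hvz n t).2 ((key _ hn1 hn2 t ht2).2 ht1), ?_⟩, ?_⟩
    · rw [show z - (t + n • v) = z - n • v - t by abel]
      exact ht2
    · rintro s ⟨hs1, hs2⟩
      have e : z - n • v - (s - n • v) = z - s := by abel
      have h4 : s - n • v ∈ T' := by
        have := hvz n (s - n • v)
        rw [sub_add_cancel] at this
        exact this.1 hs1
      have h5 := (key _ hn1 hn2 (s - n • v) (by rw [e]; exact hs2)).1 h4
      have h6 := ht3 (s - n • v) ⟨h5, by rw [e]; exact hs2⟩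
      rw [← h6]
      abel
  · intro z hz t ht htC
    obtain ⟨n, hn1, hn2⟩ := band z
    have hzn : ¬ Rg (z - n • v) := by
      have := hRz n (z - n • v)
      rw [sub_add_cancel] at this
      exact fun h => hz (this.2 h)
    have e : z - n • v - (t - n • v) = z - t := by abel
    have h4 : t - n • v ∈ T' := by
      have := hvz n (t - n • v)
      rw [sub_add_cancel] at this
      exact this.1 ht
    have h5 := (key _ hn1 hn2 (t - n • v) (by rw [e]; exact htC)).1 h4
    exact h2 _ hzn hn1 hn2 _ h5 (by rw [e]; exact htC)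

/-- Gluing for exact covers of the plane. -/
theorem glue (C T : Set (ℝ × ℝ)) (p v c : ℝ × ℝ) (κ : ℝ)
    (hp : ∀ z, z + p ∈ T ↔ z ∈ T) (hC : ∀ z ∈ C, |rdet p z| ≤ κ) (hv : 0 < rdet p v)
    (hκ : κ ≤ rdet p v)
    (hag : ∀ w : ℝ × ℝ, |rdet p w - rdet p c| ≤ κ → (w + v ∈ T ↔ w ∈ T))
    (h1 : ∀ z, rdet p c ≤ rdet p z → rdet p z < rdet p c + rdet p v →
      ∃! t, t ∈ T ∧ z - t ∈ C) :
    ∃ T' : Set (ℝ × ℝ), (∀ z, z + p ∈ T' ↔ z ∈ T') ∧ (∀ z, z + v ∈ T' ↔ z ∈ T') ∧
      (∀ z ∈ T', ∃ n : ℤ, z - n • v ∈ T) ∧ ECov C T' := by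
  obtain ⟨T', a1, a2, a3, a4, _⟩ := glue_gen C T (fun _ => True) p v c κ hp hC hv hκ hag
    (fun _ => Iff.rfl) (fun z _ => h1 z) (fun z h => absurd trivial h)
  exact ⟨T', a1, a2, a3, fun z => a4 z trivial⟩

end Pool.Agent.PTR
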