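import Pool.Agent.PTR.GT
import Pool.Agent.PTR.Glue

/-!
# Surgery: from weak periodicity to double periodicity

A weakly periodic exact cover of the plane by translates of a bounded set, with translation vectors
in finitely many translates of one lattice, can be changed to a doubly periodic one.
-/

set_option autoImplicit false

namespace Pool.Agent.PTR

open Finset

abbrev Z2 : Type := ℤ × ℤ

/-- lattice vector with given coordinates -/
def lv (a b : ℝ × ℝ) (u : Z2) : ℝ × ℝ := u.1 • a + u.2 • b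

lemma lv_add (a b : ℝ × ℝ) (u v : Z2) : lv a b (u + v) = lv a b u + lv a b v := by
  simp only [lv, Prod.fst_add, Prod.snd_add, add_smul]; abel

lemma lv_zero (a b : ℝ × ℝ) : lv a b 0 = 0 := by simp [lv]

lemma lv_zsmul (a b : ℝ × ℝ) (n : ℤ) (u : Z2) : lv a b (n • u) = n • lv a b u := by
  simp only [lv, Prod.smul_fst, Prod.smul_snd, smul_eq_mul, smul_add, smul_smul]

lemma lv_neg (a b : ℝ × ℝ) (u : Z2) : lv a b (-u) = -lv a b u := by
  have := lv_zsmul a b (-1) u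
  simpa using this

lemma lv_sub (a b : ℝ × ℝ) (u v : Z2) : lv a b (u - v) = lv a b u - lv a b v := by
  rw [sub_eq_add_neg, lv_add, lv_neg, sub_eq_add_neg]

lemma zs1 (n : ℤ) (a : ℝ × ℝ) : (n • a).1 = n * a.1 := by rw [Prod.smul_fst, zsmul_eq_mul]
lemma zs2 (n : ℤ) (a : ℝ × ℝ) : (n • a).2 = n * a.2 := by rw [Prod.smul_snd, zsmul_eq_mul]

lemma rdet_lv (a b : ℝ × ℝ) (u v : Z2) :
    rdet (lv a b u) (lv a b v) = (GT.det u v : ℝ) * rdet a b := by
  simp only [rdet, lv, GT.det, Prod.fst_add, Prod.snd_add, zs1, zs2]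
  push_cast
  ring

lemma rdet_abs (v w : ℝ × ℝ) : |rdet v w| ≤ 2 * ‖v‖ * ‖w‖ := by
  have h1 := norm_fst_le v
  have h2 := norm_snd_le v
  have h3 := norm_fst_le w
  have h4 := norm_snd_le w
  rw [Real.norm_eq_abs] at h1 h2 h3 h4
  have h5 : |rdet v w| ≤ |v.1 * w.2| + |v.2 * w.1| := abs_sub _ _
  rw [abs_mul, abs_mul] at h5
  have h6 : |v.1| * |w.2| ≤ ‖v‖ * ‖w‖ := mul_le_mul h1 h4 (abs_nonneg _) (norm_nonneg _)
  have h7 : |v.2| * |w.1| ≤ ‖v‖ * ‖w‖ := mul_le_mul h2 h3 (abs_nonneg _) (norm_nonneg _)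
  linarith

lemma fin_ball (a b : ℝ × ℝ) (hab : rdet a b ≠ 0) (X : Set (ℝ × ℝ)) (hX : X.Finite) (R : ℝ) :
    {z : ℝ × ℝ | ‖z‖ ≤ R ∧ ∃ x ∈ X, ∃ u : Z2, z = x + lv a b u}.Finite := by
  have key : ∀ x : ℝ × ℝ, {z : ℝ × ℝ | ‖z‖ ≤ R ∧ ∃ u : Z2, z = x + lv a b u}.Finite := by
    intro x
    set E : ℝ := 2 * (R + ‖x‖) * (‖a‖ + ‖b‖) / |rdet a b| with hE
    refine Set.Finite.subset (((Set.finite_Icc (-⌈E⌉) ⌈E⌉).prod
      (Set.finite_Icc (-⌈E⌉) ⌈E⌉)).image (fun u : Z2 => x + lv a b u)) ?_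
    rintro z ⟨hz, u, hu⟩
    refine ⟨u, ?_, hu.symm⟩
    have hpos : 0 < |rdet a b| := abs_pos.2 hab
    have hzx : lv a b u = z - x := by rw [hu]; abel
    have hn : ‖lv a b u‖ ≤ R + ‖x‖ := by
      rw [hzx]
      exact (norm_sub_le _ _).trans (by linarith)
    have h1 : rdet (lv a b u) b = u.1 * rdet a b := by
      simp only [rdet, lv, Prod.fst_add, Prod.snd_add, zs1, zs2]
      ring
    have h2 : rdet a (lv a b u) = u.2 * rdet a b := by
      simp only [rdet, lv, Prod.fst_add, Prod.snd_add, zs1, zs2]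
      ring
    have h3 : |(u.1 : ℝ)| ≤ E := by
      rw [hE, le_div_iff₀ hpos, ← abs_mul, ← h1]
      refine (rdet_abs _ _).trans ?_
      have := norm_nonneg a
      have h5 := norm_nonneg b
      have h6 : 0 ≤ R + ‖x‖ := (norm_nonneg _).trans hn
      have h7 : ‖lv a b u‖ * ‖b‖ ≤ (R + ‖x‖) * (‖a‖ + ‖b‖) :=
        mul_le_mul hn (by linarith) h5 h6
      linarith
    have h4 : |(u.2 : ℝ)| ≤ E := by
      rw [hE, le_div_iff₀ hpos, ← abs_mul, ← h2]
      refine (rdet_abs _ _).trans ?_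
      have := norm_nonneg a
      have h5 := norm_nonneg b
      have h6 : 0 ≤ R + ‖x‖ := (norm_nonneg _).trans hn
      have h7 : ‖a‖ * ‖lv a b u‖ ≤ (‖a‖ + ‖b‖) * (R + ‖x‖) :=
        mul_le_mul (by linarith) hn (norm_nonneg _) (by linarith)
      linarith
    have conv : ∀ i : ℤ, |(i : ℝ)| ≤ E → i ∈ Set.Icc (-⌈E⌉) ⌈E⌉ := by
      intro i hi
      have h5 := abs_le.1 hi
      have h6 := Int.le_ceil E
      constructor
      · have : ((-⌈E⌉ : ℤ) : ℝ) ≤ i := by push_cast; linarith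
        exact_mod_cast this
      · have : (i : ℝ) ≤ (⌈E⌉ : ℤ) := by linarith
        exact_mod_cast this
    exact ⟨conv _ h3, conv _ h4⟩
  refine Set.Finite.subset (hX.biUnion fun x _ => key x) ?_
  rintro z ⟨hz, x, hx, u, hu⟩
  simp only [Set.mem_iUnion]
  exact ⟨x, hx, hz, u, hu⟩

lemma mod_p (p : ℝ × ℝ) (hp : p ≠ 0) (κ : ℝ) : ∃ R : ℝ, ∀ z : ℝ × ℝ, |rdet p z| ≤ κ →
    ∃ k : ℤ, ‖z + k • p‖ ≤ R := by
  set q : ℝ := p.1 ^ 2 + p.2 ^ 2 with hq
  have hq0 : 0 < q := by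
    rcases eq_or_ne p.1 0 with h | h
    · have h2 : p.2 ≠ 0 := fun h2 => hp (Prod.ext h h2)
      positivity
    · positivity
  refine ⟨‖p‖ + κ / q * ‖((-p.2, p.1) : ℝ × ℝ)‖, ?_⟩
  intro z hz
  set s : ℝ := (p.1 * z.1 + p.2 * z.2) / q with hs
  refine ⟨-⌊s⌋, ?_⟩
  have e : z + (-⌊s⌋) • p = (s - ⌊s⌋) • p + (rdet p z / q) • ((-p.2, p.1) : ℝ × ℝ) := by
    ext
    · simp only [Prod.fst_add, Prod.smul_fst, smul_eq_mul, rdet, hs]
      field_simp
      rw [hq]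
      ring
    · simp only [Prod.snd_add, Prod.smul_snd, smul_eq_mul, rdet, hs]
      field_simp
      rw [hq]
      ring
  rw [e]
  refine (norm_add_le _ _).trans ?_
  rw [norm_smul, norm_smul]
  have h1 : ‖s - ⌊s⌋‖ ≤ 1 := by
    rw [Real.norm_eq_abs, abs_le]
    have := Int.floor_le s
    have := Int.lt_floor_add_one s
    constructor <;> linarith
  have h2 : ‖rdet p z / q‖ ≤ κ / q := by
    rw [Real.norm_eq_abs, abs_div, abs_of_pos hq0]
    exact div_le_div_of_nonneg_right hz hq0.le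
  have h3 : ‖s - ⌊s⌋‖ * ‖p‖ ≤ 1 * ‖p‖ := mul_le_mul_of_nonneg_right h1 (norm_nonneg _)
  have h4 : ‖rdet p z / q‖ * ‖((-p.2, p.1) : ℝ × ℝ)‖ ≤ κ / q * ‖((-p.2, p.1) : ℝ × ℝ)‖ :=
    mul_le_mul_of_nonneg_right h2 (norm_nonneg _)
  linarith

lemma mem_zsmul {T : Set (ℝ × ℝ)} {p : ℝ × ℝ} (h : ∀ z, z + p ∈ T ↔ z ∈ T) (n : ℤ) (z : ℝ × ℝ) :
    z + n • p ∈ T ↔ z ∈ T := by
  induction n using Int.induction_on generalizing z with
  | zero => simp
  | succ k ih => rw [add_smul, one_smul, ← add_assoc, h, ih]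
  | pred k ih =>
    rw [← h (z + (-(k : ℤ) - 1) • p),
      show z + (-(k : ℤ) - 1) • p + p = z + (-(k : ℤ)) • p by rw [sub_smul, one_smul]; abel, ih]

/-- The set `X + Λ`. -/
def XL (a b : ℝ × ℝ) (X : Set (ℝ × ℝ)) : Set (ℝ × ℝ) := {z | ∃ x ∈ X, ∃ u : Z2, z = x + lv a b u}

lemma XL_add (a b : ℝ × ℝ) (X : Set (ℝ × ℝ)) (z : ℝ × ℝ) (u : Z2) :
    z + lv a b u ∈ XL a b X ↔ z ∈ XL a b X := by
  constructor
  · rintro ⟨x, hx, w, hw⟩
    refine ⟨x, hx, w - u, ?_⟩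
    rw [lv_sub, ← add_sub_assoc, ← hw, add_sub_cancel_right]
  · rintro ⟨x, hx, w, hw⟩
    refine ⟨x, hx, w + u, ?_⟩
    rw [lv_add, ← add_assoc, ← hw]

lemma pigeon (a b : ℝ × ℝ) (hab : rdet a b ≠ 0) (X : Set (ℝ × ℝ)) (hX : X.Finite)
    (T : Set (ℝ × ℝ)) (hT : T ⊆ XL a b X) (u : Z2) (hu : lv a b u ≠ 0)
    (hper : ∀ z, z + lv a b u ∈ T ↔ z ∈ T) (l : Z2) (κ : ℝ) (N : ℕ) :
    ∃ n1 n : ℕ, N ≤ n ∧ 0 < n ∧ ∀ w : ℝ × ℝ,
      |rdet (lv a b u) w - rdet (lv a b u) (lv a b ((n1 : ℤ) • l))| ≤ κ →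
      (w + lv a b ((n : ℤ) • l) ∈ T ↔ w ∈ T) := by
  obtain ⟨R, hR⟩ := mod_p (lv a b u) hu κ
  set S : Set (ℝ × ℝ) := {z | ‖z‖ ≤ R ∧ ∃ x ∈ X, ∃ u : Z2, z = x + lv a b u} with hS
  have hSf : S.Finite := fin_ball a b hab X hX R
  set P : ℕ → Set (ℝ × ℝ) := fun n => {z | z ∈ S ∧ z + lv a b (((n * (N + 1) : ℕ) : ℤ) • l) ∈ T}
    with hP
  obtain ⟨n1, _, n2, _, hne, heq⟩ := Set.Infinite.exists_ne_map_eq_of_mapsTo
    (s := (Set.univ : Set ℕ)) (t := 𝒫 S) (f := P) Set.infinite_univ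
    (fun n _ z hz => hz.1) hSf.finite_subsets
  wlog hlt : n1 < n2 generalizing n1 n2
  · exact this n2 trivial n1 trivial hne.symm heq.symm (by omega)
  refine ⟨n1 * (N + 1), (n2 - n1) * (N + 1), ?_, ?_, ?_⟩
  · have : 1 ≤ n2 - n1 := by omega
    nlinarith
  · have : 1 ≤ n2 - n1 := by omega
    nlinarith
  · intro w hw
    have e1 : w + lv a b ((((n2 - n1) * (N + 1) : ℕ) : ℤ) • l) =
        (w - lv a b (((n1 * (N + 1) : ℕ) : ℤ) • l)) + lv a b (((n2 * (N + 1) : ℕ) : ℤ) • l) := by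
      have h1 : (((n2 - n1) * (N + 1) : ℕ) : ℤ) • l =
          ((n2 * (N + 1) : ℕ) : ℤ) • l - ((n1 * (N + 1) : ℕ) : ℤ) • l := by
        rw [← sub_smul]
        congr 1
        push_cast [Nat.cast_sub hlt.le]
        ring
      rw [h1, lv_sub]
      abel
    rw [← rdet_sub] at hw
    obtain ⟨k, hk⟩ := hR _ hw
    set z0 := w - lv a b (((n1 * (N + 1) : ℕ) : ℤ) • l) with hz0
    have e2 : w = z0 + lv a b (((n1 * (N + 1) : ℕ) : ℤ) • l) := by rw [hz0]; abel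
    rw [e1]
    conv_rhs => rw [e2]
    have hXL : ∀ v : Z2, z0 + lv a b v ∈ T → z0 + k • lv a b u ∈ S := by
      intro v hv
      refine ⟨hk, ?_⟩
      have h1 := (XL_add a b X z0 v).1 (hT hv)
      rw [← lv_zsmul]
      exact (XL_add a b X z0 (k • u)).2 h1
    have hmv : ∀ v : Z2, z0 + lv a b v ∈ T ↔ z0 + k • lv a b u + lv a b v ∈ T := by
      intro v
      rw [add_right_comm, mem_zsmul hper]
    have hmem : ∀ n : ℕ, z0 + lv a b (((n * (N + 1) : ℕ) : ℤ) • l) ∈ T ↔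
        z0 + k • lv a b u ∈ P n := by
      intro n
      constructor
      · intro h
        exact ⟨hXL _ h, (hmv _).1 h⟩
      · intro h
        exact (hmv _).2 h.2
    rw [hmem, hmem, heq]

lemma gt_cram (c d u : Z2) : GT.det c d • u = GT.det u d • c + GT.det c u • d := GT.cram c d u

/-- In a decomposition of one into periodic functions of different directions every function has
two periods. -/
lemma two_dirs {ι : Type} [DecidableEq ι] (a b : ℝ × ℝ) (K : Finset ι) (u : ι → Z2)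
    (hdet : ∀ i ∈ K, ∀ j ∈ K, i ≠ j → GT.det (u i) (u j) ≠ 0) (g : ι → ℝ × ℝ → ℝ)
    (hg : ∀ i ∈ K, ∀ z, |g i z| ≤ 1) (hper : ∀ i ∈ K, ∀ z, g i (z + lv a b (u i)) = g i z)
    (hsum : ∀ z, ∑ i ∈ K, g i z = 1) (k j1 : ι) (hk : k ∈ K) (hj1 : j1 ∈ K) (hkj : j1 ≠ k) :
    ∃ N : ℕ, 0 < N ∧ ∀ (z : ℝ × ℝ) (w : Z2), g k (z + lv a b ((N : ℤ) • w)) = g k z := by
  classical
  set D : ℤ := GT.det (u j1) (u k) with hD
  have hD0 : D ≠ 0 := hdet j1 hj1 k hk hkj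
  -- the list of steps
  set J : List ι := (K.erase k).toList with hJ
  set L : List (ℤ × ℤ) := J.map fun j => (GT.det (u j) (u k), GT.det (u j1) (u j)) with hL
  have hvec : ∀ j, GT.vec (u j1) (u k) (GT.det (u j) (u k), GT.det (u j1) (u j)) = D • u j := by
    intro j
    rw [GT.vec, hD, gt_cram (u j1) (u k) (u j)]
  obtain ⟨B, hB, hBu⟩ := GT.per1u (L.map Prod.fst) (by
    intro c hc
    rw [hL, List.map_map, List.mem_map] at hc
    obtain ⟨j, hj, rfl⟩ := hc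
    rw [hJ, mem_toList, mem_erase] at hj
    exact hdet j hj.2 k hk hj.1)
  -- one period in direction `u j1`
  have hGper : ∀ i ∈ K, ∀ z : ℝ × ℝ, ∀ w : Z2, g i (z + lv a b (w + u i)) = g i (z + lv a b w) := by
    intro i hi z w
    rw [lv_add, ← add_assoc, hper i hi]
  have hline : ∀ (z : ℝ × ℝ) (s : ℤ),
      g k (z + lv a b (0 + (s + B) • u j1)) = g k (z + lv a b (0 + s • u j1)) := by
    intro z s
    refine hBu (fun s => g k (z + lv a b (0 + s • u j1))) 1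
      (GT.dl (L.map (GT.vec (u j1) (u k))) (fun _ => 1) 0) (fun s => hg k hk _) ?_ s
    intro s
    have h1 := GT.dl_d1 L (u j1) (u k) (fun w => g k (z + lv a b w)) (hGper k hk z) 0 s
    rw [← h1]
    have h2 : GT.dl (L.map (GT.vec (u j1) (u k))) (fun w => ∑ i ∈ K, g i (z + lv a b w))
        (0 + s • u j1) = GT.dl (L.map (GT.vec (u j1) (u k))) (fun _ => 1) (0 + s • u j1) := by
      congr 1
      funext w
      exact hsum _
    rw [GT.dl_sum _ K (fun i w => g i (z + lv a b w)),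
      GT.dl_per _ (fun _ => 1) (s • u j1) (fun _ => rfl)] at h2
    rw [← h2, ← Finset.add_sum_erase K _ hk]
    have h3 : ∑ i ∈ K.erase k, GT.dl (L.map (GT.vec (u j1) (u k)))
        (fun w => g i (z + lv a b w)) (0 + s • u j1) = 0 := by
      apply sum_eq_zero
      intro i hi
      have hi' := mem_erase.1 hi
      apply GT.dl_kill _ _ (D • u i)
      · rw [List.mem_map]
        refine ⟨(GT.det (u i) (u k), GT.det (u j1) (u i)), ?_, hvec i⟩
        rw [hL, List.mem_map]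
        exact ⟨i, by rw [hJ, mem_toList]; exact hi, rfl⟩
      · intro w
        exact GT.per_zsmul (f := fun w => g i (z + lv a b w)) (hGper i hi'.2 z) D w
    rw [h3, add_zero]
  have hj1B : ∀ z : ℝ × ℝ, g k (z + (B : ℤ) • lv a b (u j1)) = g k z := by
    intro z
    have := hline z 0
    rw [zero_add, zero_smul, zero_add, zero_add, lv_zero, add_zero, lv_zsmul] at this
    exact this
  have hz1 : ∀ (n : ℤ) (z : ℝ × ℝ), g k (z + n • ((B : ℤ) • lv a b (u j1))) = g k z := by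
    intro n z
    induction n using Int.induction_on generalizing z with
    | zero => simp
    | succ m ih => rw [add_smul, one_smul, ← add_assoc, hj1B, ih]
    | pred m ih =>
      rw [← hj1B (z + (-(m : ℤ) - 1) • ((B : ℤ) • lv a b (u j1))),
        show z + (-(m : ℤ) - 1) • ((B : ℤ) • lv a b (u j1)) + (B : ℤ) • lv a b (u j1) =
          z + (-(m : ℤ)) • ((B : ℤ) • lv a b (u j1)) by rw [sub_smul, one_smul]; abel, ih]
  have hz2 : ∀ (n : ℤ) (z : ℝ × ℝ), g k (z + n • lv a b (u k)) = g k z := by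
    intro n z
    induction n using Int.induction_on generalizing z with
    | zero => simp
    | succ m ih => rw [add_smul, one_smul, ← add_assoc, hper k hk, ih]
    | pred m ih =>
      rw [← hper k hk (z + (-(m : ℤ) - 1) • lv a b (u k)),
        show z + (-(m : ℤ) - 1) • lv a b (u k) + lv a b (u k) =
          z + (-(m : ℤ)) • lv a b (u k) by rw [sub_smul, one_smul]; abel, ih]
  refine ⟨B * D.natAbs, Nat.mul_pos hB (Int.natAbs_pos.2 hD0), ?_⟩
  intro z w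
  obtain ⟨ε, hε⟩ : ∃ ε : ℤ, (D.natAbs : ℤ) = ε * D := by
    rcases Int.natAbs_eq D with h | h
    · exact ⟨1, by rw [one_mul]; exact h.symm⟩
    · exact ⟨-1, by linarith⟩
  have e : ((B * D.natAbs : ℕ) : ℤ) • w =
      (ε * GT.det w (u k)) • ((B : ℤ) • u j1) + (B * ε * GT.det (u j1) w) • u k := by
    rw [Nat.cast_mul, hε, ← mul_assoc, mul_smul _ D, hD, gt_cram (u j1) (u k) w, smul_add,
      smul_smul, smul_smul, smul_smul]
    congr 2
    ring
  rw [e, lv_add, ← add_assoc, lv_zsmul, lv_zsmul, lv_zsmul, hz2, hz1]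

/-- One component: a set with one period whose cover region has two periods can be changed to a
set with two periods and the same cover region. -/
lemma comp (a b : ℝ × ℝ) (hab : rdet a b ≠ 0) (X : Set (ℝ × ℝ)) (hX : X.Finite)
    (C T : Set (ℝ × ℝ)) (hC : ∃ r : ℝ, ∀ z ∈ C, ‖z‖ ≤ r) (hT : T ⊆ XL a b X) (u : Z2) (hu : u ≠ 0)
    (hper : ∀ z, z + lv a b u ∈ T ↔ z ∈ T) (Rg : ℝ × ℝ → Prop)
    (h1 : ∀ z, Rg z → ∃! t, t ∈ T ∧ z - t ∈ C) (h2 : ∀ z, ¬ Rg z → ∀ t ∈ T, z - t ∉ C)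
    (N : ℕ) (hN : 0 < N) (hR : ∀ (z : ℝ × ℝ) (w : Z2), Rg (z + lv a b ((N : ℤ) • w)) ↔ Rg z) :
    ∃ (T' : Set (ℝ × ℝ)) (M : ℕ), 0 < M ∧ T' ⊆ XL a b X ∧
      (∀ (z : ℝ × ℝ) (w : Z2), z + lv a b ((M : ℤ) • w) ∈ T' ↔ z ∈ T') ∧
      (∀ z, Rg z → ∃! t, t ∈ T' ∧ z - t ∈ C) ∧ (∀ z, ¬ Rg z → ∀ t ∈ T', z - t ∉ C) := by
  set p := lv a b u with hp
  set u' : Z2 := (-u.2, u.1) with hu'
  have hdd : 0 < GT.det u u' := by
    have : GT.det u u' = u.1 * u.1 + u.2 * u.2 := by simp only [GT.det, hu']; ring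
    rw [this]
    rcases eq_or_ne u.1 0 with h | h
    · have h3 : u.2 ≠ 0 := fun h3 => hu (Prod.ext h h3)
      have := mul_self_pos.2 h3
      have := mul_self_nonneg u.1
      linarith
    · have := mul_self_pos.2 h
      have := mul_self_nonneg u.2
      linarith
  have hp0 : p ≠ 0 := by
    intro h0
    have h3 := rdet_lv a b u u'
    rw [← hp, h0] at h3
    have h4 : rdet 0 (lv a b u') = 0 := by simp [rdet]
    rw [h4] at h3
    have h5 : (GT.det u u' : ℝ) ≠ 0 := by exact_mod_cast hdd.ne'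
    exact (mul_ne_zero h5 hab) h3.symm
  -- the sign
  obtain ⟨s, hs, hspos⟩ : ∃ s : ℤ, s ≠ 0 ∧ 0 < (s : ℝ) * rdet a b := by
    rcases lt_or_gt_of_ne hab with h | h
    · exact ⟨-1, by norm_num, by push_cast; linarith⟩
    · exact ⟨1, by norm_num, by push_cast; linarith⟩
  set l : Z2 := ((N : ℤ) * s) • u' with hl
  have hlpos : 0 < rdet p (lv a b l) := by
    rw [hp, rdet_lv, hl]
    have e : GT.det u (((N : ℤ) * s) • u') = N * s * GT.det u u' := by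
      simp only [GT.det, Prod.smul_fst, Prod.smul_snd, smul_eq_mul]
      ring
    rw [e]
    push_cast
    have h3 : (0 : ℝ) < GT.det u u' := by exact_mod_cast hdd
    have h4 : (0 : ℝ) < N := by exact_mod_cast hN
    have : (N : ℝ) * s * (GT.det u u') * rdet a b = N * (GT.det u u') * (s * rdet a b) := by ring
    rw [this]
    positivity
  obtain ⟨r, hr⟩ := hC
  set κ : ℝ := 2 * ‖p‖ * |r| with hκ
  have hCκ : ∀ z ∈ C, |rdet p z| ≤ κ := by
    intro z hz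
    refine (rdet_abs p z).trans ?_
    have h3 := (hr z hz).trans (le_abs_self r)
    exact mul_le_mul_of_nonneg_left h3 (by positivity)
  obtain ⟨N0, hN0⟩ := exists_nat_gt (κ / rdet p (lv a b l))
  rw [div_lt_iff₀ hlpos] at hN0
  obtain ⟨n1, n, hn1, hn2, hn3⟩ := pigeon a b hab X hX T hT u hp0 hper l κ N0
  set v := lv a b ((n : ℤ) • l) with hv
  have hvdet : rdet p v = n * rdet p (lv a b l) := by
    rw [hv, lv_zsmul, rdet_zsmul]
    push_cast
    rfl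
  have hnr : (N0 : ℝ) ≤ n := by exact_mod_cast hn1
  have hvpos : 0 < rdet p v := by
    rw [hvdet]
    have : (0 : ℝ) < n := by exact_mod_cast hn2
    positivity
  have hκv : κ ≤ rdet p v := by
    rw [hvdet]
    have := mul_le_mul_of_nonneg_right hnr hlpos.le
    linarith
  have hRv : ∀ z, Rg (z + v) ↔ Rg z := by
    intro z
    have e : (n : ℤ) • l = (N : ℤ) • (((n : ℤ) * s) • u') := by
      rw [hl, smul_smul, smul_smul]
      congr 1
      ring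
    rw [hv, e]
    exact hR z _
  obtain ⟨T', b1, b2, b3, b4, b5⟩ := glue_gen C T Rg p v (lv a b ((n1 : ℤ) • l)) κ hper hCκ hvpos
    hκv hn3 hRv (fun z hz _ _ => h1 z hz) (fun z hz _ _ => h2 z hz)
  set d : ℤ := GT.det u ((n : ℤ) • l) with hd
  have hd0 : d ≠ 0 := by
    intro h0
    have h3 := rdet_lv a b u ((n : ℤ) • l)
    rw [← hd, h0, ← hp, ← hv] at h3
    push_cast at h3
    rw [zero_mul] at h3
    linarith
  refine ⟨T', d.natAbs, Int.natAbs_pos.2 hd0, ?_, ?_, b4, b5⟩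
  · intro z hz
    obtain ⟨k, hk⟩ := b3 z hz
    have h3 := hT hk
    rw [hv, ← lv_zsmul, sub_eq_add_neg, ← lv_neg] at h3
    exact (XL_add a b X z _).1 h3
  · intro z w
    obtain ⟨ε, hε⟩ : ∃ ε : ℤ, (d.natAbs : ℤ) = ε * d := by
      rcases Int.natAbs_eq d with h | h
      · exact ⟨1, by rw [one_mul]; exact h.symm⟩
      · exact ⟨-1, by linarith⟩
    have e : (d.natAbs : ℤ) • w =
        (ε * GT.det w ((n : ℤ) • l)) • u + (ε * GT.det u w) • ((n : ℤ) • l) := by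
      rw [hε, mul_smul, hd, gt_cram u ((n : ℤ) • l) w, smul_add, smul_smul ε, smul_smul ε]
    rw [e, lv_add, ← add_assoc, lv_zsmul a b (ε * GT.det w ((n : ℤ) • l)), lv_zsmul a b
      (ε * GT.det u w), ← hv, ← hp, mem_zsmul b2, mem_zsmul b1]

/-- common periods by directions -/
lemma dirs (H : Finset Z2) (h0 : ∀ h ∈ H, h ≠ 0) : ∃ u : Option ℚ → Z2,
    (∀ k ∈ H.image GT.key, u k ≠ 0) ∧
    (∀ k ∈ H.image GT.key, ∀ k' ∈ H.image GT.key, k ≠ k' → GT.det (u k) (u k') ≠ 0) ∧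
    ∀ h ∈ H, ∃ c : ℤ, u (GT.key h) = c • h := by
  classical
  have hex : ∀ k ∈ H.image GT.key, ∃ v : Z2, v ≠ 0 ∧
      (∀ g ∈ H, GT.key g = k → ∃ c : ℤ, v = c • g) := by
    intro k hk
    obtain ⟨v, hv, hc⟩ := GT.common (H.filter fun g => GT.key g = k)
      (fun g hg => h0 g (mem_filter.1 hg).1)
      (by
        obtain ⟨g, hg, hgk⟩ := mem_image.1 hk
        exact ⟨g, mem_filter.2 ⟨hg, hgk⟩⟩)
      (fun g hg g' hg' => by
        rw [mem_filter] at hg hg'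
        rw [← GT.key_eq (h0 g hg.1) (h0 g' hg'.1), hg.2, hg'.2])
    exact ⟨v, hv, fun g hg hgk => hc g (mem_filter.2 ⟨hg, hgk⟩)⟩
  choose! u hu hc using hex
  refine ⟨u, hu, ?_, fun h hh => hc _ (mem_image_of_mem _ hh) h hh rfl⟩
  intro k hk k' hk' hkk
  obtain ⟨g, hg, hgk⟩ := mem_image.1 hk
  obtain ⟨g', hg', hgk'⟩ := mem_image.1 hk'
  obtain ⟨c, hc1⟩ := hc k hk g hg hgk
  obtain ⟨c', hc2⟩ := hc k' hk' g' hg' hgk'
  have hd : GT.det g g' ≠ 0 := by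
    intro h1
    rw [← GT.key_eq (h0 g hg) (h0 g' hg'), hgk, hgk'] at h1
    exact hkk h1
  have hc0 : c ≠ 0 := by
    intro h1
    rw [h1, zero_smul] at hc1
    exact hu k hk hc1
  have hc0' : c' ≠ 0 := by
    intro h1
    rw [h1, zero_smul] at hc2
    exact hu k' hk' hc2
  have e : GT.det (u k) (u k') = (c * c') * GT.det g g' := by
    rw [hc1, hc2]
    simp only [GT.det, Prod.smul_snd, Prod.smul_fst, smul_eq_mul]
    ring
  rw [e]
  exact mul_ne_zero (mul_ne_zero hc0 hc0') hd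

/-- The subgroup `m Λ`. -/
def mL (a b : ℝ × ℝ) (m : ℕ) : AddSubgroup (ℝ × ℝ) where
  carrier := {z | ∃ w : Z2, z = lv a b ((m : ℤ) • w)}
  zero_mem' := ⟨0, by rw [smul_zero, lv_zero]⟩
  add_mem' := by
    rintro z z' ⟨w, rfl⟩ ⟨w', rfl⟩
    exact ⟨w + w', by rw [smul_add, lv_add]⟩
  neg_mem' := by
    rintro z ⟨w, rfl⟩
    exact ⟨-w, by rw [smul_neg, lv_neg]⟩

lemma mk_eq (a b : ℝ × ℝ) (m : ℕ) (z : ℝ × ℝ) (w : Z2) :
    (QuotientAddGroup.mk (z + lv a b ((m : ℤ) • w)) : (ℝ × ℝ) ⧸ mL a b m) =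
      QuotientAddGroup.mk z := by
  rw [eq_comm, QuotientAddGroup.eq]
  refine ⟨w, ?_⟩
  abel

lemma mk_ex (a b : ℝ × ℝ) (m : ℕ) (z z' : ℝ × ℝ)
    (h : (QuotientAddGroup.mk z : (ℝ × ℝ) ⧸ mL a b m) = QuotientAddGroup.mk z') :
    ∃ w : Z2, z' = z + lv a b ((m : ℤ) • w) := by
  rw [QuotientAddGroup.eq] at h
  obtain ⟨w, hw⟩ := h
  exact ⟨w, by rw [← hw]; abel⟩

/-- **Surgery.**  A weakly periodic exact cover with translation vectors in finitely many
translates of a lattice gives a doubly periodic one. -/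
theorem surgery (a b : ℝ × ℝ) (hab : rdet a b ≠ 0) (X : Set (ℝ × ℝ)) (hX : X.Finite)
    (C T : Set (ℝ × ℝ)) (hC : ∃ r : ℝ, ∀ z ∈ C, ‖z‖ ≤ r) (hcov : ECov C T)
    (hT : T ⊆ XL a b X) (m : ℕ) (hm : 0 < m)
    (hw : ∀ x ∈ X, ∀ r : Z2, ∃ h : Z2, h ≠ 0 ∧ (m : ℤ) ∣ h.1 ∧ (m : ℤ) ∣ h.2 ∧
      ∀ u : Z2, (m : ℤ) ∣ u.1 - r.1 → (m : ℤ) ∣ u.2 - r.2 →
        (x + lv a b u ∈ T ↔ x + lv a b (u + h) ∈ T)) :
    ∃ (T' : Set (ℝ × ℝ)) (N : ℕ), 0 < N ∧ T' ⊆ XL a b X ∧ ECov C T' ∧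
      ∀ (z : ℝ × ℝ) (w : Z2), z + lv a b ((N : ℤ) • w) ∈ T' ↔ z ∈ T' := by
  classical
  set Q := (ℝ × ℝ) ⧸ mL a b m with hQ
  set mk : ℝ × ℝ → Q := fun z => QuotientAddGroup.mk z with hmk
  have hmk1 : ∀ (z : ℝ × ℝ) (w : Z2), mk (z + lv a b ((m : ℤ) • w)) = mk z := mk_eq a b m
  have hmk2 : ∀ z z' : ℝ × ℝ, mk z = mk z' → ∃ w : Z2, z' = z + lv a b ((m : ℤ) • w) :=
    mk_ex a b m
  have hmz : (m : ℤ) ≠ 0 := by exact_mod_cast hm.ne'
  -- one period for every class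
  have hex : ∀ q : Q, ∃ h : Z2, h ≠ 0 ∧ (∃ h' : Z2, h = (m : ℤ) • h') ∧
      ∀ z, mk z = q → (z + lv a b h ∈ T ↔ z ∈ T) := by
    intro q
    by_cases hq : ∃ z ∈ T, mk z = q
    · obtain ⟨z0, hz0, hz0q⟩ := hq
      obtain ⟨x, hx, u, hu⟩ := hT hz0
      obtain ⟨h, hh0, ⟨h1, hh1⟩, ⟨h2, hh2⟩, hh⟩ := hw x hx u
      refine ⟨h, hh0, ⟨(h1, h2), Prod.ext hh1 hh2⟩, ?_⟩
      intro z hz
      obtain ⟨w, rfl⟩ := hmk2 z0 z (hz0q.trans hz.symm)
      have h3 := hh (u + (m : ℤ) • w) ⟨w.1, by simp⟩ ⟨w.2, by simp⟩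
      rw [hu]
      simp only [lv_add, ← add_assoc] at h3
      exact h3.symm
    · push Not at hq
      refine ⟨((m : ℤ), 0), ?_, ⟨(1, 0), by ext <;> simp⟩, ?_⟩
      · intro h0
        exact hmz (congrArg Prod.fst h0)
      · intro z hz
        constructor
        · intro h3
          refine absurd ?_ (hq _ h3)
          rw [← hz]
          have := hmk1 z (1, 0)
          rw [show ((m : ℤ) • ((1, 0) : Z2)) = ((m : ℤ), 0) by ext <;> simp] at this
          exact this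
        · intro h3
          exact absurd hz (hq _ h3)
  choose h hh0 hhm hh using hex
  -- the finite set of classes
  have hfin : (mk '' T).Finite := by
    have h1 : (mk '' (⋃ x ∈ X, (fun u : Z2 => x + lv a b u) ''
        (Set.Icc (0 : ℤ) m ×ˢ Set.Icc (0 : ℤ) m))).Finite := by
      apply Set.Finite.image
      apply hX.biUnion
      intro x _
      exact (((Set.finite_Icc (0 : ℤ) m).prod (Set.finite_Icc (0 : ℤ) m)).image _)
    refine h1.subset ?_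
    rintro q ⟨t, ht, rfl⟩
    obtain ⟨x, hx, u, hu⟩ := hT ht
    refine ⟨x + lv a b (u.1 % m, u.2 % m), ?_, ?_⟩
    · simp only [Set.mem_iUnion]
      refine ⟨x, hx, (u.1 % m, u.2 % m), ?_, rfl⟩
      have b1 := Int.emod_nonneg u.1 hmz
      have b2 := Int.emod_lt_of_pos u.1 (by exact_mod_cast hm : (0 : ℤ) < m)
      have b3 := Int.emod_nonneg u.2 hmz
      have b4 := Int.emod_lt_of_pos u.2 (by exact_mod_cast hm : (0 : ℤ) < m)
      exact ⟨⟨b1, b2.le⟩, ⟨b3, b4.le⟩⟩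
    · have e : u = (u.1 % m, u.2 % m) + (m : ℤ) • ((u.1 / m, u.2 / m) : Z2) := by
        ext
        · simp only [Prod.fst_add, Prod.smul_fst, smul_eq_mul]
          exact (Int.emod_add_mul_ediv u.1 m).symm
        · simp only [Prod.snd_add, Prod.smul_snd, smul_eq_mul]
          exact (Int.emod_add_mul_ediv u.2 m).symm
      rw [hu]
      conv_rhs => rw [e, lv_add, ← add_assoc]
      exact (hmk1 _ _).symm
  set Qf : Finset Q := hfin.toFinset with hQf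
  have hQmem : ∀ t ∈ T, mk t ∈ Qf := fun t ht => by
    rw [hQf, Set.Finite.mem_toFinset]
    exact ⟨t, ht, rfl⟩
  obtain ⟨u, hu0, hudet, huc⟩ := dirs (Qf.image h) (by
    intro g hg
    obtain ⟨q, _, rfl⟩ := mem_image.1 hg
    exact hh0 q)
  set K : Finset (Option ℚ) := (Qf.image h).image GT.key with hK
  have hKm : ∀ k ∈ K, ∃ u' : Z2, u k = (m : ℤ) • u' := by
    intro k hk
    obtain ⟨g, hg, rfl⟩ := mem_image.1 hk
    obtain ⟨q, _, rfl⟩ := mem_image.1 hg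
    obtain ⟨c, hc⟩ := huc _ hg
    obtain ⟨h', hh'⟩ := hhm q
    refine ⟨c • h', ?_⟩
    rw [hc, hh', smul_smul, smul_smul, mul_comm]
  -- the components
  set Tk : Option ℚ → Set (ℝ × ℝ) := fun k => {t | t ∈ T ∧ GT.key (h (mk t)) = k} with hTk
  have hzn : ∀ (z : ℝ × ℝ) (n : ℤ), z + n • lv a b (h (mk z)) ∈ T ↔ z ∈ T := by
    intro z n
    obtain ⟨h', hh'⟩ := hhm (mk z)
    have hcl : ∀ i : ℤ, mk (z + i • lv a b (h (mk z))) = mk z := by
      intro i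
      rw [← lv_zsmul, hh', smul_smul, mul_comm, ← smul_smul]
      exact hmk1 z _
    induction n using Int.induction_on with
    | zero => simp
    | succ i ih =>
      rw [add_smul, one_smul, ← add_assoc]
      exact (hh (mk z) _ (hcl i)).trans ih
    | pred i ih =>
      have h6 := hh (mk z) _ (hcl (-(i : ℤ) - 1))
      rw [show z + (-(i : ℤ) - 1) • lv a b (h (mk z)) + lv a b (h (mk z)) =
        z + (-(i : ℤ)) • lv a b (h (mk z)) by rw [sub_smul, one_smul]; abel] at h6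
      exact h6.symm.trans ih
  have hTper : ∀ k ∈ K, ∀ z, z + lv a b (u k) ∈ Tk k ↔ z ∈ Tk k := by
    intro k hk z
    obtain ⟨u', hu'⟩ := hKm k hk
    have e1 : mk (z + lv a b (u k)) = mk z := by rw [hu']; exact hmk1 z u'
    simp only [hTk, Set.mem_ofPred_eq, e1]
    have main : GT.key (h (mk z)) = k → mk z ∈ Qf → (z + lv a b (u k) ∈ T ↔ z ∈ T) := by
      intro h2 h3
      obtain ⟨c, hc⟩ := huc (h (mk z)) (mem_image_of_mem h h3)
      rw [h2] at hc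
      rw [hc, lv_zsmul]
      exact hzn z c
    constructor
    · rintro ⟨h1, h2⟩
      exact ⟨(main h2 (e1 ▸ hQmem _ h1)).1 h1, h2⟩
    · rintro ⟨h1, h2⟩
      exact ⟨(main h2 (hQmem _ h1)).2 h1, h2⟩
  -- the cover regions
  set Rg : Option ℚ → ℝ × ℝ → Prop := fun k z => ∃ t ∈ Tk k, z - t ∈ C with hRg
  have hRper : ∀ k ∈ K, ∀ z, Rg k (z + lv a b (u k)) ↔ Rg k z := by
    intro k hk z
    constructor
    · rintro ⟨t, ht, htC⟩
      refine ⟨t - lv a b (u k), ?_, ?_⟩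
      · rw [← hTper k hk, sub_add_cancel]; exact ht
      · rw [show z - (t - lv a b (u k)) = z + lv a b (u k) - t by abel]; exact htC
    · rintro ⟨t, ht, htC⟩
      refine ⟨t + lv a b (u k), (hTper k hk t).2 ht, ?_⟩
      rw [show z + lv a b (u k) - (t + lv a b (u k)) = z - t by abel]; exact htC
  have hRex : ∀ z, ∃ k ∈ K, Rg k z := by
    intro z
    obtain ⟨t, ⟨ht, htC⟩, _⟩ := hcov z
    refine ⟨GT.key (h (mk t)), ?_, t, ⟨ht, rfl⟩, htC⟩
    exact mem_image_of_mem _ (mem_image_of_mem _ (hQmem t ht))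
  have hRuq : ∀ z k k', Rg k z → Rg k' z → k = k' := by
    rintro z k k' ⟨t, ht, htC⟩ ⟨t', ht', htC'⟩
    have e := (hcov z).unique ⟨ht.1, htC⟩ ⟨ht'.1, htC'⟩
    rw [← ht.2, ← ht'.2, e]
  set g : Option ℚ → ℝ × ℝ → ℝ := fun k z => if Rg k z then 1 else 0 with hg
  have hg1 : ∀ k ∈ K, ∀ z, |g k z| ≤ 1 := by
    intro k _ z
    simp only [hg]
    split_ifs <;> simp
  have hg2 : ∀ k ∈ K, ∀ z, g k (z + lv a b (u k)) = g k z := by
    intro k hk z
    simp only [hg]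
    by_cases h1 : Rg k z
    · rw [if_pos h1, if_pos ((hRper k hk z).2 h1)]
    · rw [if_neg h1, if_neg fun h2 => h1 ((hRper k hk z).1 h2)]
  have hg3 : ∀ z, ∑ k ∈ K, g k z = 1 := by
    intro z
    obtain ⟨k, hk, hkz⟩ := hRex z
    rw [sum_eq_single_of_mem k hk]
    · simp only [hg]; rw [if_pos hkz]
    · intro k' _ hkk'
      simp only [hg]
      rw [if_neg fun h2 => hkk' (hRuq z k' k h2 hkz)]
  have hNex : ∀ k ∈ K, ∃ N : ℕ, 0 < N ∧
      ∀ (z : ℝ × ℝ) (w : Z2), Rg k (z + lv a b ((N : ℤ) • w)) ↔ Rg k z := by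
    intro k hk
    by_cases h1 : ∃ j ∈ K, j ≠ k
    · obtain ⟨j, hj, hjk⟩ := h1
      obtain ⟨N, hN, hNp⟩ := two_dirs a b K u hudet g hg1 hg2 hg3 k j hk hj hjk
      refine ⟨N, hN, ?_⟩
      intro z w
      have h2 := hNp z w
      simp only [hg] at h2
      by_cases h3 : Rg k z
      · rw [if_pos h3] at h2
        by_contra h4
        have h5 : ¬ Rg k (z + lv a b ((N : ℤ) • w)) := fun h6 => h4 ⟨fun _ => h3, fun _ => h6⟩
        rw [if_neg h5] at h2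
        norm_num at h2
      · rw [if_neg h3] at h2
        by_contra h4
        have h5 : Rg k (z + lv a b ((N : ℤ) • w)) := by
          by_contra h6
          exact h4 ⟨fun h7 => absurd h7 h6, fun h7 => absurd h7 h3⟩
        rw [if_pos h5] at h2
        norm_num at h2
    · push Not at h1
      refine ⟨1, one_pos, ?_⟩
      have h2 : ∀ z, Rg k z := by
        intro z
        obtain ⟨j, hj, hjz⟩ := hRex z
        rw [h1 j hj] at hjz
        exact hjz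
      intro z w
      exact ⟨fun _ => h2 _, fun _ => h2 _⟩
  have hcomp : ∀ k ∈ K, ∃ (T' : Set (ℝ × ℝ)) (M : ℕ), 0 < M ∧ T' ⊆ XL a b X ∧
      (∀ (z : ℝ × ℝ) (w : Z2), z + lv a b ((M : ℤ) • w) ∈ T' ↔ z ∈ T') ∧
      (∀ z, Rg k z → ∃! t, t ∈ T' ∧ z - t ∈ C) ∧ (∀ z, ¬ Rg k z → ∀ t ∈ T', z - t ∉ C) := by
    intro k hk
    obtain ⟨N, hN, hNp⟩ := hNex k hk
    refine comp a b hab X hX C (Tk k) hC (fun t ht => hT ht.1) (u k) (hu0 k hk) (hTper k hk)
      (Rg k) ?_ ?_ N hN hNp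
    · rintro z ⟨t, ht, htC⟩
      refine ⟨t, ⟨ht, htC⟩, ?_⟩
      rintro t' ⟨ht', htC'⟩
      exact (hcov z).unique ⟨ht'.1, htC'⟩ ⟨ht.1, htC⟩
    · intro z hz t ht htC
      exact hz ⟨t, ht, htC⟩
  choose! T' M hM hTX hTM hc1 hc2 using hcomp
  refine ⟨{z | ∃ k ∈ K, z ∈ T' k}, ∏ k ∈ K, M k, prod_pos fun k hk => hM k hk, ?_, ?_, ?_⟩
  · rintro z ⟨k, hk, hz⟩
    exact hTX k hk hz
  · intro z
    obtain ⟨k, hk, hkz⟩ := hRex z
    obtain ⟨t, ⟨ht, htC⟩, htu⟩ := hc1 k hk z hkz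
    refine ⟨t, ⟨⟨k, hk, ht⟩, htC⟩, ?_⟩
    rintro t' ⟨⟨k', hk', ht'⟩, htC'⟩
    have e : k' = k := by
      by_contra hne
      refine hc2 k' hk' z (fun h3 => hne (hRuq z k' k h3 hkz)) t' ht' htC'
    subst e
    exact htu t' ⟨ht', htC'⟩
  · intro z w
    have key : ∀ k ∈ K, (z + lv a b (((∏ k ∈ K, M k : ℕ) : ℤ) • w) ∈ T' k ↔ z ∈ T' k) := by
      intro k hk
      obtain ⟨c, hc⟩ := dvd_prod_of_mem M hk
      rw [hc, Nat.cast_mul, mul_smul]
      exact hTM k hk z ((c : ℤ) • w)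
    constructor
    · rintro ⟨k, hk, hz⟩
      exact ⟨k, hk, (key k hk).1 hz⟩
    · rintro ⟨k, hk, hz⟩
      exact ⟨k, hk, (key k hk).2 hz⟩

end Pool.Agent.PTR
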