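import Pool.Agent.PTR.RatDeform
import Pool.Agent.PTR.Surg

set_option autoImplicit false

/-!
# The one lattice case: a doubly periodic tiling
-/

namespace Pool.Agent.PTR.RD

open Pool.Agent.PTR.OL

/-- A rectilinear body with a tiling in finitely many translates of one lattice has a doubly
periodic tiling. -/
theorem lattice_dp {B : Finset Box} {T : Set V} (hT : ECov (body B) T) {a b : V}
    (hab : LinearIndependent ℝ ![a, b]) {X : Finset V} (hTX : T ⊆ GG X a b) :
    ∃ (T' : Set V) (N : ℕ), 0 < N ∧ ECov (body B) T' ∧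
      ∀ (z : V) (w : ℤ × ℤ), z + lv a b ((N : ℤ) • w) ∈ T' ↔ z ∈ T' := by
  obtain ⟨T', hT'X, hT', m, hm, hper⟩ := lattice_case hT hab hTX
  obtain ⟨k, rfl⟩ := Int.eq_ofNat_of_zero_le hm.le
  have hk : 0 < k := by exact_mod_cast hm
  have h0 : ∀ x : V, ∀ i j : ℤ, x + lv a b (i, j) = x + i • a + j • b := by
    intro x i j
    unfold lv
    rw [add_assoc]
  obtain ⟨T'', N, hN, -, h1, h2⟩ := surgery a b (by
      have h1 := det2_ne hab
      unfold det2 at h1
      unfold rdet
      exact h1)
    (X : Set V) X.finite_toSet (body B) T' (body_bdd B) hT' (by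
      intro t ht
      obtain ⟨x, hx, i, j, rfl⟩ := hT'X ht
      exact ⟨x, Finset.mem_coe.2 hx, (i, j), (h0 x i j).symm⟩) k hk (by
      intro x hx r
      obtain ⟨p, q, hpq, hp, hq, hh⟩ := hper x (Finset.mem_coe.1 hx) r.1 r.2
      refine ⟨(p, q), ?_, hp, hq, ?_⟩
      · intro h
        apply hpq
        have e1 : p = 0 := congrArg Prod.fst h
        have e2 : q = 0 := congrArg Prod.snd h
        rw [e1, e2, zero_smul, zero_smul, add_zero]
      · rintro ⟨u1, u2⟩ ⟨c1, hc1⟩ ⟨c2, hc2⟩
        simp only at hc1 hc2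
        have e1 : u1 = r.1 + (k : ℤ) * c1 := by linarith
        have e2 : u2 = r.2 + (k : ℤ) * c2 := by linarith
        have h3 := hh c1 c2
        rw [← e1, ← e2] at h3
        rw [h0, h3]
        have e3 : x + lv a b ((u1, u2) + (p, q)) = x + u1 • a + u2 • b + (p • a + q • b) := by
          unfold lv
          simp only [Prod.mk_add_mk]
          rw [add_smul, add_smul]
          abel
        rw [e3])
  exact ⟨T'', N, hN, h1, h2⟩

end Pool.Agent.PTR.RD
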