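import Pool.Agent.PTR.OneLattice
import Pool.Agent.PTR.Surg

/-!
# Exact covers of finite local complexity with one period
-/

set_option autoImplicit false

namespace Pool.Agent.PTR

/-- An exact cover of finite local complexity with a nonzero period gives a doubly periodic one. -/
theorem per_case (C T : Set (ℝ × ℝ)) (hC : ∃ r : ℝ, ∀ z ∈ C, ‖z‖ ≤ r) (hcov : ECov C T)
    (hF : OL.FLC T) (p : ℝ × ℝ) (hp : p ≠ 0) (hper : ∀ z, z + p ∈ T ↔ z ∈ T) :
    ∃ (T' : Set (ℝ × ℝ)) (v : ℝ × ℝ), rdet p v ≠ 0 ∧ ECov C T' ∧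
      (∀ z, z + p ∈ T' ↔ z ∈ T') ∧ (∀ z, z + v ∈ T' ↔ z ∈ T') := by
  obtain ⟨r, hr⟩ := hC
  set κ : ℝ := 2 * ‖p‖ * |r| with hκ
  have hκ0 : 0 ≤ κ := by positivity
  have hCκ : ∀ z ∈ C, |rdet p z| ≤ κ := by
    intro z hz
    refine (rdet_abs p z).trans ?_
    have h3 := (hr z hz).trans (le_abs_self r)
    exact mul_le_mul_of_nonneg_left h3 (by positivity)
  -- a transversal vector
  set y : ℝ × ℝ := (-p.2, p.1) with hy
  have hq0 : 0 < rdet p y := by
    have e : rdet p y = p.1 ^ 2 + p.2 ^ 2 := by simp only [rdet, hy]; ring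
    rw [e]
    rcases eq_or_ne p.1 0 with h | h
    · have h2 : p.2 ≠ 0 := fun h2 => hp (Prod.ext h h2)
      positivity
    · positivity
  obtain ⟨N, hN⟩ := exists_nat_gt ((3 * κ + 1) / rdet p y)
  rw [div_lt_iff₀ hq0] at hN
  -- base points
  have hbase : ∀ n : ℕ, ∃ t ∈ T, |rdet p t - n * (N * rdet p y)| ≤ κ := by
    intro n
    obtain ⟨t, ⟨ht, htC⟩, _⟩ := hcov (((n * N : ℕ) : ℤ) • y)
    refine ⟨t, ht, ?_⟩
    have h1 := hCκ _ htC
    rw [rdet_sub, rdet_zsmul, abs_sub_comm] at h1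
    push_cast at h1
    rw [mul_assoc] at h1
    exact h1
  choose t ht1 ht2 using hbase
  obtain ⟨R, hR⟩ := mod_p p hp κ
  set S : Set (ℝ × ℝ) := {d | ‖d‖ ≤ R ∧ ∃ t ∈ T, t + d ∈ T} with hS
  have hSf : S.Finite := hF R
  set P : ℕ → Set (ℝ × ℝ) := fun n => {d | ‖d‖ ≤ R ∧ t n + d ∈ T} with hP
  obtain ⟨n1, _, n2, _, hne, heq⟩ := Set.Infinite.exists_ne_map_eq_of_mapsTo
    (s := (Set.univ : Set ℕ)) (t := 𝒫 S) (f := P) Set.infinite_univ
    (fun n _ d hd => ⟨hd.1, t n, ht1 n, hd.2⟩) hSf.finite_subsets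
  wlog hlt : n1 < n2 generalizing n1 n2
  · exact this n2 trivial n1 trivial hne.symm heq.symm (by omega)
  set v : ℝ × ℝ := t n2 - t n1 with hv
  have hvdet : κ + 1 ≤ rdet p v := by
    rw [hv, rdet_sub]
    have a1 := abs_le.1 (ht2 n1)
    have a2 := abs_le.1 (ht2 n2)
    have a3 : (n1 : ℝ) + 1 ≤ n2 := by exact_mod_cast hlt
    have a4 : 0 ≤ (N : ℝ) * rdet p y := by positivity
    have a5 := mul_le_mul_of_nonneg_right a3 a4
    linarith
  have hag : ∀ w : ℝ × ℝ, |rdet p w - rdet p (t n1)| ≤ κ → (w + v ∈ T ↔ w ∈ T) := by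
    intro w hw
    rw [← rdet_sub] at hw
    obtain ⟨k, hk⟩ := hR _ hw
    have e1 : ∀ n : ℕ, (w - t n1 + k • p ∈ P n ↔ t n + (w - t n1) ∈ T) := by
      intro n
      constructor
      · rintro ⟨_, h2⟩
        rw [← add_assoc, mem_zsmul hper] at h2
        exact h2
      · intro h2
        refine ⟨hk, ?_⟩
        rw [← add_assoc, mem_zsmul hper]
        exact h2
    have e2 := e1 n1
    have e3 := e1 n2
    rw [← heq, e2] at e3
    rw [show w + v = t n2 + (w - t n1) by rw [hv]; abel]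
    conv_rhs => rw [show w = t n1 + (w - t n1) by abel]
    exact e3.symm
  obtain ⟨T', b1, b2, _, b4⟩ := glue C T p v (t n1) κ hper hCκ (by linarith) (by linarith) hag
    (fun z _ _ => hcov z)
  exact ⟨T', v, by linarith, b4, b1, b2⟩

end Pool.Agent.PTR
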