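import Mathlib

/-! Rectilinear bodies (finite unions of half-open boxes) and exact covers of the plane. -/

set_option autoImplicit false

namespace Pool.Agent.PTR

/-- A box is given by `((l, r), (s, t))` and stands for `[l, r) x [s, t)`. -/
abbrev Box : Type := (ℝ × ℝ) × (ℝ × ℝ)

/-- The half-open rectilinear body of a finite set of boxes. -/
def body (B : Finset Box) : Set (ℝ × ℝ) :=
  {z | ∃ b ∈ B, b.1.1 ≤ z.1 ∧ z.1 < b.1.2 ∧ b.2.1 ≤ z.2 ∧ z.2 < b.2.2}

/-- Every point of the plane is in exactly one translate `t + C`, `t ∈ T`. -/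
def ECov (C T : Set (ℝ × ℝ)) : Prop := ∀ z, ∃! t, t ∈ T ∧ z - t ∈ C

/-- The x-coordinates of the sides of the boxes. -/
noncomputable def xco (B : Finset Box) : Finset ℝ :=
  B.image (fun b => b.1.1) ∪ B.image (fun b => b.1.2)

/-- The y-coordinates of the sides of the boxes. -/
noncomputable def yco (B : Finset Box) : Finset ℝ :=
  B.image (fun b => b.2.1) ∪ B.image (fun b => b.2.2)

/-- Swap of the two coordinates of a box. -/
def bswap (b : Box) : Box := (b.2, b.1)

/-- The box with its x-coordinates moved by `ρ`. -/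
def bmapx (ρ : ℝ → ℝ) (b : Box) : Box := ((ρ b.1.1, ρ b.1.2), b.2)

/-- The box with its y-coordinates moved by `ρ`. -/
def bmapy (ρ : ℝ → ℝ) (b : Box) : Box := (b.1, (ρ b.2.1, ρ b.2.2))

/-- The box with all its coordinates moved by `ρ`. -/
def bmap (ρ : ℝ → ℝ) (b : Box) : Box := ((ρ b.1.1, ρ b.1.2), (ρ b.2.1, ρ b.2.2))

lemma mem_xco_l {B : Finset Box} {b : Box} (hb : b ∈ B) : b.1.1 ∈ xco B :=
  Finset.mem_union_left _ (Finset.mem_image_of_mem _ hb)

lemma mem_xco_r {B : Finset Box} {b : Box} (hb : b ∈ B) : b.1.2 ∈ xco B :=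
  Finset.mem_union_right _ (Finset.mem_image_of_mem _ hb)

lemma mem_yco_l {B : Finset Box} {b : Box} (hb : b ∈ B) : b.2.1 ∈ yco B :=
  Finset.mem_union_left _ (Finset.mem_image_of_mem _ hb)

lemma mem_yco_r {B : Finset Box} {b : Box} (hb : b ∈ B) : b.2.2 ∈ yco B :=
  Finset.mem_union_right _ (Finset.mem_image_of_mem _ hb)

end Pool.Agent.PTR
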