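import Pool.Agent.PTR.OneLattice
import Pool.Agent.PTR.Defs

set_option autoImplicit false

/-!
# The relation satisfied by all tilings of a rectilinear body

`difs L (ii T) = 0` for a list `L` of nonzero vectors which depends only on the boxes.
-/

namespace Pool.Agent.PTR.OL

open Filter Topology Finset

/-! ## Dilation -/

/-- The translations as a representation of `V`. -/
noncomputable def drep (p : ℕ) : Multiplicative V →* Module.End (ZMod p) (V → ZMod p) where
  toFun v := LinearMap.funLeft (ZMod p) (ZMod p) (fun z => z - Multiplicative.toAdd v)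
  map_one' := by
    refine LinearMap.ext fun t => funext fun z => ?_
    simp [LinearMap.funLeft_apply]
  map_mul' v w := by
    refine LinearMap.ext fun t => funext fun z => ?_
    simp only [LinearMap.funLeft_apply, toAdd_mul, Module.End.mul_apply]
    congr 1
    abel

theorem drep_apply (p : ℕ) (v : V) (t : V → ZMod p) (z : V) :
    drep p (Multiplicative.ofAdd v) t z = t (z - v) := rfl

/-- The action of the group ring. -/
noncomputable def dphi (p : ℕ) :
    AddMonoidAlgebra (ZMod p) V →ₐ[ZMod p] Module.End (ZMod p) (V → ZMod p) :=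
  AddMonoidAlgebra.lift (ZMod p) (Module.End (ZMod p) (V → ZMod p)) V (drep p)

theorem dphi_single (p : ℕ) (v : V) (c : ZMod p) (t : V → ZMod p) (z : V) :
    dphi p (AddMonoidAlgebra.single v c) t z = c * t (z - v) := by
  unfold dphi
  rw [AddMonoidAlgebra.lift_single, LinearMap.smul_apply, Pi.smul_apply, drep_apply, smul_eq_mul]

theorem dphi_sum (p : ℕ) (D : Finset V) (a : V → V) (c : V → ZMod p) (t : V → ZMod p) (z : V) :
    dphi p (∑ v ∈ D, AddMonoidAlgebra.single (a v) (c v)) t z =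
      ∑ v ∈ D, c v * t (z - a v) := by
  rw [map_sum, LinearMap.sum_apply, Finset.sum_apply]
  exact Finset.sum_congr rfl fun v _ => dphi_single p _ _ t z

theorem dil_step (p : ℕ) [Fact p.Prime] (D : Finset V) (a : V → V) (c : V → ZMod p)
    (t : V → ZMod p) (h : ∀ z, ∑ v ∈ D, c v * t (z - a v) = 0) (z : V) :
    ∑ v ∈ D, c v * t (z - p • a v) = 0 := by
  have : CharP (AddMonoidAlgebra (ZMod p) V) p :=
    charP_of_injective_algebraMap (algebraMap (ZMod p) (AddMonoidAlgebra (ZMod p) V)).injective p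
  set G : AddMonoidAlgebra (ZMod p) V :=
    ∑ v ∈ D, AddMonoidAlgebra.single (a v) (c v) with hG
  have h1 : dphi p G t = 0 := by
    funext z
    rw [hG, dphi_sum, h z]
    rfl
  have h2 : G ^ p = ∑ v ∈ D, AddMonoidAlgebra.single (p • a v) (c v) := by
    rw [hG, sum_pow_char]
    refine Finset.sum_congr rfl fun v _ => ?_
    rw [AddMonoidAlgebra.single_pow, ZMod.pow_card]
  have h3 : dphi p (G ^ p) t = 0 := by
    have h5 : G ^ p = G ^ (p - 1) * G := by
      rw [← pow_succ, Nat.sub_add_cancel (Fact.out : p.Prime).one_le]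
    rw [h5, map_mul, Module.End.mul_apply, h1, map_zero]
  have h4 := dphi_sum p D (fun v => p • a v) c t z
  rw [← h2, h3] at h4
  exact h4.symm

/-- **Dilation lemma.** -/
theorem dilation (D : Finset V) (c : V → ℤ) (t : V → ℤ) (ht : ∀ z, |t z| ≤ 1)
    (h : ∀ z, ∑ v ∈ D, c v * t (z - v) = 0) (k : ℕ) :
    0 < k → (∀ p : ℕ, p.Prime → p ∣ k → ∑ v ∈ D, |c v| < (p : ℤ)) →
      ∀ z, ∑ v ∈ D, c v * t (z - k • v) = 0 := by
  induction k using Nat.strong_induction_on with
  | _ k ih =>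
    intro hk hp z
    rcases Nat.lt_or_ge 1 k with h1 | h1
    · set p := k.minFac with hpdef
      have hpp : p.Prime := Nat.minFac_prime (by omega)
      have : Fact p.Prime := ⟨hpp⟩
      obtain ⟨k', hk'⟩ := Nat.minFac_dvd k
      rw [← hpdef] at hk'
      have hk0 : 0 < k' := by
        rcases Nat.eq_zero_or_pos k' with h0 | h0
        · rw [h0, mul_zero] at hk'; omega
        · exact h0
      have hlt : k' < k := by
        rw [hk']
        have := hpp.two_le
        nlinarith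
      have ih' := ih k' hlt hk0 (fun r hr hrk => hp r hr (hk' ▸ Dvd.dvd.mul_left hrk p))
      have h2 := dil_step p D (fun v => k' • v) (fun v => (c v : ZMod p))
        (fun z => (t z : ZMod p)) (fun z => by
          have h3 := congrArg (fun x : ℤ => (x : ZMod p)) (ih' z)
          simpa using h3) z
      have e : ∀ v : V, p • (k' • v) = k • v := by
        intro v
        rw [smul_smul, ← hk']
      simp only [e] at h2
      have h4 : ((∑ v ∈ D, c v * t (z - k • v) : ℤ) : ZMod p) = 0 := by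
        push_cast
        exact h2
      have h5 := (ZMod.intCast_zmod_eq_zero_iff_dvd _ p).mp h4
      have bd : |∑ v ∈ D, c v * t (z - k • v)| ≤ ∑ v ∈ D, |c v| := by
        refine (Finset.abs_sum_le_sum_abs _ _).trans (Finset.sum_le_sum fun v _ => ?_)
        rw [abs_mul]
        exact mul_le_of_le_one_right (abs_nonneg _) (ht _)
      exact Int.eq_zero_of_abs_lt_dvd h5 (bd.trans_lt (hp p hpp (Nat.minFac_dvd k)))
    · have : k = 1 := by omega
      subst this
      simpa using h z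

/-! ## Elimination -/

theorem elim (r : ℕ) (v₀ : V) (D : List V) : ∀ F : V → V → ℤ,
    (∀ (k : ℕ) (z : V), F v₀ (z - (1 + r * k) • v₀) +
      (D.map fun v => F v (z - (1 + r * k) • v)).sum = 0) →
    difs (D.map fun v => r • (v - v₀)) (F v₀) = 0 := by
  induction D with
  | nil =>
    intro F h
    funext z
    have h1 := h 0 (z + v₀)
    simp only [mul_zero, add_zero, one_smul, add_sub_cancel_right, List.map_nil,
      List.sum_nil] at h1
    exact h1
  | cons v₁ D ih =>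
    intro F h
    have h2 := ih (fun v z => F v (z - r • v) - F v (z - r • v₁)) (fun k z => by
      have e1 := h (k + 1) z
      have e2 := h k (z - r • v₁)
      have a1 : ∀ v : V, z - (1 + r * (k + 1)) • v = z - (1 + r * k) • v - r • v := by
        intro v
        rw [sub_sub, ← add_smul, mul_add, mul_one, add_assoc]
      have a2 : ∀ v : V, z - r • v₁ - (1 + r * k) • v = z - (1 + r * k) • v - r • v₁ := by
        intro v
        rw [sub_right_comm]
      simp only [a1, List.map_cons, List.sum_cons] at e1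
      simp only [a2, List.map_cons, List.sum_cons] at e2
      have e3 : (D.map fun v => F v (z - (1 + r * k) • v - r • v) -
          F v (z - (1 + r * k) • v - r • v₁)).sum =
          (D.map fun v => F v (z - (1 + r * k) • v - r • v)).sum -
          (D.map fun v => F v (z - (1 + r * k) • v - r • v₁)).sum := by
        clear h ih e1 e2
        induction D with
        | nil => simp
        | cons a D ih2 => simp only [List.map_cons, List.sum_cons, ih2]; ring
      rw [e3]
      linarith)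
    rw [List.map_cons, difs_cons, ← difs_dif]
    have h3 : (fun z => F v₀ (z - r • v₀) - F v₀ (z - r • v₁)) =
        fun z => dif (r • (v₁ - v₀)) (F v₀) (z + (-(r • v₀))) := by
      funext z
      unfold dif
      rw [← sub_eq_add_neg, sub_sub, ← smul_add, add_sub_cancel]
    rw [h3, difs_shift] at h2
    funext z
    have h4 := congrFun h2 (z + r • v₀)
    simp only [add_neg_cancel_right] at h4
    exact h4

theorem difs_const_mul (L : List V) (a : ℤ) (u : V → ℤ) :
    difs L (fun z => a * u z) = fun z => a * difs L u z := by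
  induction L with
  | nil => rfl
  | cons w L ih =>
    rw [difs_cons, ih]
    funext z
    rw [difs_cons]
    unfold dif
    ring

theorem special (D : Finset V) (c : V → ℤ) (t : V → ℤ) (ht : ∀ z, |t z| ≤ 1)
    (h : ∀ z, ∑ v ∈ D, c v * t (z - v) = 0) {v₀ : V} (hv : v₀ ∈ D) (hc : c v₀ ≠ 0) :
    difs ((D.erase v₀).toList.map fun v =>
      ((∑ v ∈ D, |c v|).toNat.factorial) • (v - v₀)) t = 0 := by
  set N : ℕ := (∑ v ∈ D, |c v|).toNat with hN
  have h1 := elim N.factorial v₀ (D.erase v₀).toList (fun v z => c v * t z) (fun k z => by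
    have h2 := dilation D c t ht h (1 + N.factorial * k) (by omega) (fun p hp hpk => by
      by_contra hcon
      push Not at hcon
      have h3 : p ≤ N := by
        have h4 : (p : ℤ).toNat ≤ N := Int.toNat_le_toNat hcon
        simpa using h4
      have h4 : p ∣ N.factorial := (Nat.Prime.dvd_factorial hp).2 h3
      have h5 : p ∣ 1 := (Nat.dvd_add_left (Dvd.dvd.mul_right h4 k)).1 hpk
      exact hp.one_lt.ne' (Nat.dvd_one.1 h5)) z
    rw [Finset.sum_map_toList, Finset.add_sum_erase D (fun v => c v *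
      t (z - (1 + N.factorial * k) • v)) hv]
    exact h2)
  rw [difs_const_mul] at h1
  funext z
  have h2 := congrFun h1 z
  rcases mul_eq_zero.1 h2 with h3 | h3
  · exact absurd h3 hc
  · exact h3

/-! ## Corners -/

/-- half-open intervals, closed on the left (`false`) or on the right (`true`) -/
def inI (α : Bool) (l r u : ℝ) : Prop :=
  (α = false ∧ l ≤ u ∧ u < r) ∨ (α = true ∧ l < u ∧ u ≤ r)

theorem inI_false {l r u : ℝ} : inI false l r u ↔ l ≤ u ∧ u < r := by
  unfold inI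
  simp

theorem inI_true {l r u : ℝ} : inI true l r u ↔ l < u ∧ u ≤ r := by
  unfold inI
  simp

/-- the four variants of the body -/
def bodyv (α β : Bool) (B : Finset Box) : Set V :=
  {z | ∃ b ∈ B, inI α b.1.1 b.1.2 z.1 ∧ inI β b.2.1 b.2.2 z.2}

/-- the shift -/
noncomputable def sh (α : Bool) (ε : ℝ) : ℝ := if α then ε else 0

theorem inI_sh (α : Bool) {l r u ε : ℝ} (hε : 0 < ε) (hl : l < u → l ≤ u - ε)
    (hr : r < u → r ≤ u - ε) : inI α l r u ↔ l ≤ u - sh α ε ∧ u - sh α ε < r := by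
  cases α with
  | false => rw [inI_false]; simp [sh]
  | true =>
    rw [inI_true]
    simp only [sh, if_true]
    constructor
    · rintro ⟨h1, h2⟩
      exact ⟨hl h1, by linarith⟩
    · rintro ⟨h1, h2⟩
      refine ⟨by linarith, ?_⟩
      by_contra hcon
      push Not at hcon
      linarith [hr hcon]

theorem exists_eps (S : Finset V) (X Y : Finset ℝ) (z : V) : ∃ ε : ℝ, 0 < ε ∧ ε ≤ 1 ∧
    (∀ t ∈ S, ∀ c ∈ X, c < z.1 - t.1 → c ≤ z.1 - t.1 - ε) ∧
    (∀ t ∈ S, ∀ c ∈ Y, c < z.2 - t.2 → c ≤ z.2 - t.2 - ε) := by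
  have key : ∀ a b : ℝ, ∀ᶠ ε in 𝓝[>] (0 : ℝ), (a < b → a ≤ b - ε) := by
    intro a b
    by_cases h : a < b
    · have h1 : ∀ᶠ ε in 𝓝[>] (0 : ℝ), ε < b - a :=
        (eventually_lt_nhds (sub_pos.2 h)).filter_mono nhdsWithin_le_nhds
      filter_upwards [h1] with ε hε _
      linarith
    · exact Eventually.of_forall fun _ h' => absurd h' h
  have e0 : ∀ᶠ ε in 𝓝[>] (0 : ℝ), 0 < ε := self_mem_nhdsWithin
  have e1 : ∀ᶠ ε in 𝓝[>] (0 : ℝ), ε < 1 :=
    (eventually_lt_nhds one_pos).filter_mono nhdsWithin_le_nhds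
  have e2 : ∀ᶠ ε in 𝓝[>] (0 : ℝ), ∀ t ∈ S, ∀ c ∈ X, c < z.1 - t.1 → c ≤ z.1 - t.1 - ε :=
    (Finset.eventually_all S).2 fun t _ => (Finset.eventually_all X).2 fun c _ => key _ _
  have e3 : ∀ᶠ ε in 𝓝[>] (0 : ℝ), ∀ t ∈ S, ∀ c ∈ Y, c < z.2 - t.2 → c ≤ z.2 - t.2 - ε :=
    (Finset.eventually_all S).2 fun t _ => (Finset.eventually_all Y).2 fun c _ => key _ _
  obtain ⟨ε, h0, h1, h2, h3⟩ := (e0.and (e1.and (e2.and e3))).exists
  exact ⟨ε, h0, h1.le, h2, h3⟩

/-- the jump of the indicator of the body -/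
noncomputable def J (B : Finset Box) (v : V) : ℤ :=
  ii (bodyv false false B) v - ii (bodyv true false B) v - ii (bodyv false true B) v +
    ii (bodyv true true B) v

theorem J_supp {B : Finset Box} {v : V} (h : J B v ≠ 0) : v.1 ∈ xco B ∧ v.2 ∈ yco B := by
  constructor
  · by_contra hv
    apply h
    have key : ∀ β, ii (bodyv false β B) v = ii (bodyv true β B) v := by
      intro β
      refine ii_congr ?_
      constructor
      · rintro ⟨b, hb, h1, h2⟩
        rw [inI_false] at h1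
        refine ⟨b, hb, inI_true.2 ⟨lt_of_le_of_ne h1.1 ?_, h1.2.le⟩, h2⟩
        intro he
        exact hv (he ▸ mem_xco_l hb)
      · rintro ⟨b, hb, h1, h2⟩
        rw [inI_true] at h1
        refine ⟨b, hb, inI_false.2 ⟨h1.1.le, lt_of_le_of_ne h1.2 ?_⟩, h2⟩
        intro he
        exact hv (he ▸ mem_xco_r hb)
    unfold J
    rw [key, key]
    ring
  · by_contra hv
    apply h
    have key : ∀ α, ii (bodyv α false B) v = ii (bodyv α true B) v := by
      intro α
      refine ii_congr ?_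
      constructor
      · rintro ⟨b, hb, h1, h2⟩
        rw [inI_false] at h2
        refine ⟨b, hb, h1, inI_true.2 ⟨lt_of_le_of_ne h2.1 ?_, h2.2.le⟩⟩
        intro he
        exact hv (he ▸ mem_yco_l hb)
      · rintro ⟨b, hb, h1, h2⟩
        rw [inI_true] at h2
        refine ⟨b, hb, h1, inI_false.2 ⟨h2.1.le, lt_of_le_of_ne h2.2 ?_⟩⟩
        intro he
        exact hv (he ▸ mem_yco_r hb)
    unfold J
    rw [key, key]
    ring

theorem exists_corner {B : Finset Box} (hB : (body B).Nonempty) :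
    ∃ v, J B v ≠ 0 := by
  classical
  set B' := B.filter (fun b => b.1.1 < b.1.2 ∧ b.2.1 < b.2.2) with hB'
  have hne : B'.Nonempty := by
    obtain ⟨z, b, hb, h1, h2, h3, h4⟩ := hB
    exact ⟨b, Finset.mem_filter.2 ⟨hb, lt_of_le_of_lt h1 h2, lt_of_le_of_lt h3 h4⟩⟩
  obtain ⟨b1, hb1, hmin1⟩ := Finset.exists_min_image B' (fun b => b.2.1) hne
  obtain ⟨b2, hb2, hmin2⟩ := Finset.exists_min_image
    (B'.filter (fun b => b.2.1 = b1.2.1)) (fun b => b.1.1)
    ⟨b1, Finset.mem_filter.2 ⟨hb1, rfl⟩⟩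
  obtain ⟨hb2, hb2'⟩ := Finset.mem_filter.1 hb2
  obtain ⟨hb2B, h1, h2⟩ := Finset.mem_filter.1 hb2
  have hmin : ∀ b ∈ B, b.1.1 < b.1.2 → b.2.1 < b.2.2 → b2.2.1 ≤ b.2.1 := by
    intro b hb h3 h4
    rw [hb2']
    exact hmin1 b (Finset.mem_filter.2 ⟨hb, h3, h4⟩)
  refine ⟨(b2.1.1, b2.2.1), ?_⟩
  have k1 : ii (bodyv false false B) (b2.1.1, b2.2.1) = 1 :=
    ii_of_mem ⟨b2, hb2B, inI_false.2 ⟨le_rfl, h1⟩, inI_false.2 ⟨le_rfl, h2⟩⟩
  have k2 : ii (bodyv true false B) (b2.1.1, b2.2.1) = 0 := by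
    refine ii_of_not ?_
    rintro ⟨b, hb, h3, h4⟩
    rw [inI_true] at h3
    rw [inI_false] at h4
    have h5 := hmin b hb (lt_of_lt_of_le h3.1 h3.2) (lt_of_le_of_lt h4.1 h4.2)
    have h6 : b.2.1 = b2.2.1 := le_antisymm h4.1 h5
    have h7 := hmin2 b (Finset.mem_filter.2 ⟨Finset.mem_filter.2 ⟨hb,
      lt_of_lt_of_le h3.1 h3.2, lt_of_le_of_lt h4.1 h4.2⟩, h6.trans hb2'⟩)
    exact absurd h3.1 (not_lt.2 h7)
  have k3 : ∀ α, ii (bodyv α true B) (b2.1.1, b2.2.1) = 0 := by
    intro α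
    refine ii_of_not ?_
    rintro ⟨b, hb, h3, h4⟩
    rw [inI_true] at h4
    have h8 : b.1.1 < b.1.2 := by
      rcases h3 with ⟨-, h9, h10⟩ | ⟨-, h9, h10⟩
      · exact lt_of_le_of_lt h9 h10
      · exact lt_of_lt_of_le h9 h10
    have h5 := hmin b hb h8 (lt_of_lt_of_le h4.1 h4.2)
    exact absurd h4.1 (not_lt.2 h5)
  unfold J
  rw [k1, k2, k3, k3]
  norm_num

/-- `T` covers exactly the horizontal lines at the heights in `U`. -/
def RCov (C : Set V) (U : Set ℝ) (T : Set V) : Prop :=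
  (∀ z : V, z.2 ∈ U → ∃! t, t ∈ T ∧ z - t ∈ C) ∧ ∀ z : V, z.2 ∉ U → ∀ t ∈ T, z - t ∉ C

theorem RCov.uniq {C : Set V} {U : Set ℝ} {T : Set V} (h : RCov C U T) {z t t' : V}
    (ht : t ∈ T) (ht' : t' ∈ T) (hz : z - t ∈ C) (hz' : z - t' ∈ C) : t = t' := by
  by_cases hU : z.2 ∈ U
  · exact (h.1 z hU).unique ⟨ht, hz⟩ ⟨ht', hz'⟩
  · exact absurd hz (h.2 z hU t ht)

theorem RCov.of_ecov {C T : Set V} (h : ECov C T) : RCov C Set.univ T :=
  ⟨fun z _ => h z, fun _ hz => absurd (Set.mem_univ _) hz⟩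

/-- Distinct tiles are separated, uniformly. -/
theorem sep_unif {B : Finset Box} (hB : (body B).Nonempty) :
    ∃ δ : ℝ, 0 < δ ∧ ∀ (U : Set ℝ) (T : Set V), RCov (body B) U T →
      ∀ t ∈ T, ∀ t' ∈ T, |t.1 - t'.1| < δ → |t.2 - t'.2| < δ → t = t' := by
  obtain ⟨c, b, hb, h1, h2, h3, h4⟩ := hB
  have hx : b.1.1 < b.1.2 := lt_of_le_of_lt h1 h2
  have hy : b.2.1 < b.2.2 := lt_of_le_of_lt h3 h4
  refine ⟨min (b.1.2 - b.1.1) (b.2.2 - b.2.1), lt_min (by linarith) (by linarith), ?_⟩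
  intro U T hT t ht t' ht' hx' hy'
  have hx2 := abs_lt.1 (lt_of_lt_of_le hx' (min_le_left _ _))
  have hy2 := abs_lt.1 (lt_of_lt_of_le hy' (min_le_right _ _))
  refine hT.uniq (z := (max t.1 t'.1 + b.1.1, max t.2 t'.2 + b.2.1)) ht ht' ⟨b, hb, ?_⟩
    ⟨b, hb, ?_⟩
  · refine ⟨?_, ?_, ?_, ?_⟩
    · change b.1.1 ≤ max t.1 t'.1 + b.1.1 - t.1
      linarith [le_max_left t.1 t'.1]
    · change max t.1 t'.1 + b.1.1 - t.1 < b.1.2
      rcases max_cases t.1 t'.1 with h | h <;> rw [h.1] <;> linarith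
    · change b.2.1 ≤ max t.2 t'.2 + b.2.1 - t.2
      linarith [le_max_left t.2 t'.2]
    · change max t.2 t'.2 + b.2.1 - t.2 < b.2.2
      rcases max_cases t.2 t'.2 with h | h <;> rw [h.1] <;> linarith
  · refine ⟨?_, ?_, ?_, ?_⟩
    · change b.1.1 ≤ max t.1 t'.1 + b.1.1 - t'.1
      linarith [le_max_right t.1 t'.1]
    · change max t.1 t'.1 + b.1.1 - t'.1 < b.1.2
      rcases max_cases t.1 t'.1 with h | h <;> rw [h.1] <;> linarith
    · change b.2.1 ≤ max t.2 t'.2 + b.2.1 - t'.2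
      linarith [le_max_right t.2 t'.2]
    · change max t.2 t'.2 + b.2.1 - t'.2 < b.2.2
      rcases max_cases t.2 t'.2 with h | h <;> rw [h.1] <;> linarith

/-- Distinct tiles are separated. -/
theorem sepU {B : Finset Box} (hB : (body B).Nonempty) {U : Set ℝ} {T : Set V}
    (hT : RCov (body B) U T) :
    ∃ δ : ℝ, 0 < δ ∧ ∀ t ∈ T, ∀ t' ∈ T, |t.1 - t'.1| < δ → |t.2 - t'.2| < δ → t = t' := by
  obtain ⟨δ, hδ, h⟩ := sep_unif hB
  exact ⟨δ, hδ, h U T hT⟩

theorem body_ne {B : Finset Box} {T : Set V} (hT : ECov (body B) T) : (body B).Nonempty := by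
  obtain ⟨t₀, ⟨_, h⟩, -⟩ := hT 0
  exact ⟨_, h⟩

theorem sep {B : Finset Box} {T : Set V} (hT : ECov (body B) T) :
    ∃ δ : ℝ, 0 < δ ∧ ∀ t ∈ T, ∀ t' ∈ T, |t.1 - t'.1| < δ → |t.2 - t'.2| < δ → t = t' :=
  sepU (body_ne hT) (RCov.of_ecov hT)

theorem locfin_of_sep {T : Set V} (hT : ∃ δ : ℝ, 0 < δ ∧ ∀ t ∈ T, ∀ t' ∈ T,
    |t.1 - t'.1| < δ → |t.2 - t'.2| < δ → t = t') (z : V) (R : ℝ) :
    {t : V | t ∈ T ∧ ‖z - t‖ ≤ R}.Finite := by
  obtain ⟨δ, hδ, hs⟩ := hT
  have hfl : ∀ a b : ℝ, ⌊a / δ⌋ = ⌊b / δ⌋ → |a - b| < δ := by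
    intro a b h
    have h1 := Int.abs_sub_lt_one_of_floor_eq_floor h
    rw [← sub_div, abs_div, abs_of_pos hδ, div_lt_one hδ] at h1
    exact h1
  have hinj : Set.InjOn (fun t : V => (⌊t.1 / δ⌋, ⌊t.2 / δ⌋)) {t : V | t ∈ T ∧ ‖z - t‖ ≤ R} := by
    intro t ht t' ht' h
    have h1 : ⌊t.1 / δ⌋ = ⌊t'.1 / δ⌋ := congrArg Prod.fst h
    have h2 : ⌊t.2 / δ⌋ = ⌊t'.2 / δ⌋ := congrArg Prod.snd h
    exact hs t ht.1 t' ht'.1 (hfl _ _ h1) (hfl _ _ h2)
  refine Set.Finite.of_finite_image ?_ hinj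
  refine ((Set.finite_Icc ⌊(z.1 - R) / δ⌋ ⌊(z.1 + R) / δ⌋).prod
    (Set.finite_Icc ⌊(z.2 - R) / δ⌋ ⌊(z.2 + R) / δ⌋)).subset ?_
  rintro _ ⟨t, ⟨-, ht⟩, rfl⟩
  have h1 : |z.1 - t.1| ≤ R := by
    have := norm_fst_le (z - t)
    rw [Real.norm_eq_abs] at this
    exact this.trans ht
  have h2 : |z.2 - t.2| ≤ R := by
    have := norm_snd_le (z - t)
    rw [Real.norm_eq_abs] at this
    exact this.trans ht
  rw [abs_le] at h1 h2
  refine ⟨⟨?_, ?_⟩, ⟨?_, ?_⟩⟩
  · exact Int.floor_le_floor (div_le_div_of_nonneg_right (by linarith) hδ.le)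
  · exact Int.floor_le_floor (div_le_div_of_nonneg_right (by linarith) hδ.le)
  · exact Int.floor_le_floor (div_le_div_of_nonneg_right (by linarith) hδ.le)
  · exact Int.floor_le_floor (div_le_div_of_nonneg_right (by linarith) hδ.le)

theorem locfin {B : Finset Box} {T : Set V} (hT : ECov (body B) T) (z : V) (R : ℝ) :
    {t : V | t ∈ T ∧ ‖z - t‖ ≤ R}.Finite := locfin_of_sep (sep hT) z R

/-- a bound for all coordinates -/
noncomputable def KK (B : Finset Box) : ℝ := ∑ s ∈ xco B ∪ yco B, |s|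

theorem le_KK {B : Finset Box} {s : ℝ} (h : s ∈ xco B ∪ yco B) : |s| ≤ KK B :=
  Finset.single_le_sum (f := fun s : ℝ => |s|) (fun _ _ => abs_nonneg _) h

theorem body_norm {B : Finset Box} {c : V} (hc : c ∈ body B) : ‖c‖ ≤ KK B := by
  obtain ⟨b, hb, h1, h2, h3, h4⟩ := hc
  have a1 := le_KK (Finset.mem_union_left (yco B) (mem_xco_l hb))
  have a2 := le_KK (Finset.mem_union_left (yco B) (mem_xco_r hb))
  have a3 := le_KK (Finset.mem_union_right (xco B) (mem_yco_l hb))
  have a4 := le_KK (Finset.mem_union_right (xco B) (mem_yco_r hb))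
  rw [abs_le] at a1 a2 a3 a4
  rw [Prod.norm_def]
  refine max_le ?_ ?_
  · rw [Real.norm_eq_abs, abs_le]
    constructor <;> linarith
  · rw [Real.norm_eq_abs, abs_le]
    constructor <;> linarith

/-- **The corner relation.** -/
theorem corner_relU {B : Finset Box} (hB : (body B).Nonempty) {U : Set ℝ} {T : Set V}
    (hT : RCov (body B) U T) (z : V) :
    ∑ v ∈ xco B ×ˢ yco B, J B v * ii T (z - v) = 0 := by
  classical
  have hfin := locfin_of_sep (sepU hB hT) z (KK B + 1)
  set S : Finset V := hfin.toFinset with hS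
  have hSmem : ∀ t, t ∈ S ↔ t ∈ T ∧ ‖z - t‖ ≤ KK B + 1 := by
    intro t
    rw [hS, Set.Finite.mem_toFinset]
    rfl
  obtain ⟨ε, hε, hε1, hX, hY⟩ := exists_eps S (xco B) (yco B) z
  have hsh : ∀ α, 0 ≤ sh α ε ∧ sh α ε ≤ 1 := by
    intro α
    cases α with
    | false => simp [sh]
    | true => simp only [sh, if_true]; exact ⟨hε.le, hε1⟩
  have hone : ∀ α β, ∑ t ∈ S, ii (bodyv α β B) (z - t) =
      if z.2 - sh β ε ∈ U then 1 else 0 := by
    intro α β
    have hiff : ∀ t ∈ S, (z - t ∈ bodyv α β B ↔ z - (sh α ε, sh β ε) - t ∈ body B) := by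
      intro t ht
      constructor
      · rintro ⟨b, hb, h1, h2⟩
        change inI α b.1.1 b.1.2 (z.1 - t.1) at h1
        change inI β b.2.1 b.2.2 (z.2 - t.2) at h2
        rw [inI_sh α hε (hX t ht _ (mem_xco_l hb)) (hX t ht _ (mem_xco_r hb))] at h1
        rw [inI_sh β hε (hY t ht _ (mem_yco_l hb)) (hY t ht _ (mem_yco_r hb))] at h2
        refine ⟨b, hb, ?_, ?_, ?_, ?_⟩
        · change b.1.1 ≤ z.1 - sh α ε - t.1
          have := h1.1
          change b.1.1 ≤ z.1 - t.1 - sh α ε at this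
          linarith
        · change z.1 - sh α ε - t.1 < b.1.2
          have := h1.2
          change z.1 - t.1 - sh α ε < b.1.2 at this
          linarith
        · change b.2.1 ≤ z.2 - sh β ε - t.2
          have := h2.1
          change b.2.1 ≤ z.2 - t.2 - sh β ε at this
          linarith
        · change z.2 - sh β ε - t.2 < b.2.2
          have := h2.2
          change z.2 - t.2 - sh β ε < b.2.2 at this
          linarith
      · rintro ⟨b, hb, h1, h2, h3, h4⟩
        change b.1.1 ≤ z.1 - sh α ε - t.1 at h1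
        change z.1 - sh α ε - t.1 < b.1.2 at h2
        change b.2.1 ≤ z.2 - sh β ε - t.2 at h3
        change z.2 - sh β ε - t.2 < b.2.2 at h4
        refine ⟨b, hb, ?_, ?_⟩
        · change inI α b.1.1 b.1.2 (z.1 - t.1)
          rw [inI_sh α hε (hX t ht _ (mem_xco_l hb)) (hX t ht _ (mem_xco_r hb))]
          constructor <;> linarith
        · change inI β b.2.1 b.2.2 (z.2 - t.2)
          rw [inI_sh β hε (hY t ht _ (mem_yco_l hb)) (hY t ht _ (mem_yco_r hb))]
          constructor <;> linarith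
    by_cases hU : z.2 - sh β ε ∈ U
    swap
    · rw [if_neg hU]
      refine Finset.sum_eq_zero fun t ht => ii_of_not fun h => ?_
      exact hT.2 (z - (sh α ε, sh β ε)) hU t ((hSmem t).1 ht).1 ((hiff t ht).1 h)
    rw [if_pos hU]
    obtain ⟨s, ⟨hs, hsC⟩, hu⟩ := hT.1 (z - (sh α ε, sh β ε)) hU
    have hsS : s ∈ S := by
      rw [hSmem]
      refine ⟨hs, ?_⟩
      have h1 : z - s = (z - (sh α ε, sh β ε) - s) + (sh α ε, sh β ε) := by abel
      have h2 : ‖((sh α ε, sh β ε) : V)‖ ≤ 1 := by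
        rw [Prod.norm_def]
        refine max_le ?_ ?_
        · rw [Real.norm_eq_abs, abs_of_nonneg (hsh α).1]; exact (hsh α).2
        · rw [Real.norm_eq_abs, abs_of_nonneg (hsh β).1]; exact (hsh β).2
      rw [h1]
      exact (norm_add_le _ _).trans (add_le_add (body_norm hsC) h2)
    rw [Finset.sum_eq_single_of_mem s hsS, ii_of_mem ((hiff s hsS).2 hsC)]
    intro t ht hts
    refine ii_of_not fun h => hts ?_
    exact hu t ⟨((hSmem t).1 ht).1, (hiff t ht).1 h⟩
  have hJ : ∑ t ∈ S, J B (z - t) = 0 := by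
    unfold J
    rw [Finset.sum_add_distrib, Finset.sum_sub_distrib, Finset.sum_sub_distrib,
      hone, hone, hone, hone]
    simp only [sh]
    ring
  have e1 : ∑ v ∈ xco B ×ˢ yco B, J B v * ii T (z - v) =
      ∑ v ∈ (xco B ×ˢ yco B).filter (fun v => z - v ∈ T), J B v := by
    rw [Finset.sum_filter]
    refine Finset.sum_congr rfl fun v _ => ?_
    by_cases h : z - v ∈ T
    · rw [if_pos h, ii_of_mem h, mul_one]
    · rw [if_neg h, ii_of_not h, mul_zero]
  have e2 : ∑ t ∈ S, J B (z - t) =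
      ∑ t ∈ S.filter (fun t => z - t ∈ xco B ×ˢ yco B), J B (z - t) := by
    rw [Finset.sum_filter]
    refine Finset.sum_congr rfl fun t _ => ?_
    by_cases h : z - t ∈ xco B ×ˢ yco B
    · rw [if_pos h]
    · rw [if_neg h]
      by_contra hne
      obtain ⟨h1, h2⟩ := J_supp hne
      exact h (Finset.mem_product.2 ⟨h1, h2⟩)
  rw [e1, ← hJ, e2]
  refine Finset.sum_nbij' (fun v => z - v) (fun t => z - t) ?_ ?_ ?_ ?_ ?_
  · intro v hv
    obtain ⟨h1, h2⟩ := Finset.mem_filter.1 hv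
    rw [Finset.mem_filter, hSmem]
    refine ⟨⟨h2, ?_⟩, ?_⟩
    · rw [sub_sub_cancel]
      obtain ⟨h3, h4⟩ := Finset.mem_product.1 h1
      have a1 := le_KK (Finset.mem_union_left (yco B) h3)
      have a2 := le_KK (Finset.mem_union_right (xco B) h4)
      rw [Prod.norm_def]
      refine max_le ?_ ?_
      · rw [Real.norm_eq_abs]; linarith
      · rw [Real.norm_eq_abs]; linarith
    · rw [sub_sub_cancel]
      exact h1
  · intro t ht
    obtain ⟨h1, h2⟩ := Finset.mem_filter.1 ht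
    rw [Finset.mem_filter]
    refine ⟨h2, ?_⟩
    rw [sub_sub_cancel]
    exact ((hSmem t).1 h1).1
  · intro v _
    exact sub_sub_cancel _ _
  · intro t _
    exact sub_sub_cancel _ _
  · intro v _
    rw [sub_sub_cancel]

theorem corner_rel {B : Finset Box} {T : Set V} (hT : ECov (body B) T) (z : V) :
    ∑ v ∈ xco B ×ˢ yco B, J B v * ii T (z - v) = 0 :=
  corner_relU (body_ne hT) (RCov.of_ecov hT) z

/-- **The relation**: one list of nonzero vectors for all tilings. -/
theorem exists_relU (B : Finset Box) (hB : (body B).Nonempty) :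
    ∃ L : List V, (∀ w ∈ L, w ≠ 0) ∧
      ∀ (U : Set ℝ) (T : Set V), RCov (body B) U T → difs L (ii T) = 0 := by
  classical
  obtain ⟨v₀, hv₀⟩ := exists_corner hB
  have hmem : v₀ ∈ xco B ×ˢ yco B :=
    Finset.mem_product.2 ⟨(J_supp hv₀).1, (J_supp hv₀).2⟩
  refine ⟨_, ?_, fun U T hT => special (xco B ×ˢ yco B) (J B) (ii T) (ii_bdd T)
    (corner_relU hB hT) hmem hv₀⟩
  intro w hw
  obtain ⟨v, hv, rfl⟩ := List.mem_map.1 hw
  rw [Finset.mem_toList, Finset.mem_erase] at hv
  refine smul_ne_zero (Nat.factorial_ne_zero _) (sub_ne_zero.2 hv.1)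

theorem exists_rel (B : Finset Box) (hB : (body B).Nonempty) :
    ∃ L : List V, (∀ w ∈ L, w ≠ 0) ∧ ∀ T : Set V, ECov (body B) T → difs L (ii T) = 0 := by
  obtain ⟨L, hL, h⟩ := exists_relU B hB
  exact ⟨L, hL, fun T hT => h Set.univ T (RCov.of_ecov hT)⟩

end Pool.Agent.PTR.OL
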