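import Pool.Agent.PTR.Targets
import Pool.Agent.PTR.Rel
import Pool.Agent.PTR.LatDP
import Pool.Agent.PTR.PerCase

/-!
# Rectilinear bodies with a tiling of finite local complexity
-/

set_option autoImplicit false

namespace Pool.Agent.PTR

lemma ecov_hull {C T T' : Set (ℝ × ℝ)} (hC : ∃ r : ℝ, ∀ z ∈ C, ‖z‖ ≤ r) (hT : ECov C T)
    (h : OL.InHull T T') : ECov C T' := by
  obtain ⟨r, hr⟩ := hC
  intro z
  obtain ⟨s, _, hs⟩ := h (‖z‖ + r)
  have hn : ∀ t, z - t ∈ C → ‖t‖ ≤ ‖z‖ + r := by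
    intro t ht
    have h1 := hr _ ht
    have h2 : t = z - (z - t) := by abel
    calc ‖t‖ = ‖z - (z - t)‖ := by rw [← h2]
      _ ≤ ‖z‖ + ‖z - t‖ := norm_sub_le _ _
      _ ≤ ‖z‖ + r := by linarith
  obtain ⟨t, ⟨ht, htC⟩, hu⟩ := hT (z + s)
  have e : z - (t - s) = z + s - t := by abel
  have hts : z - (t - s) ∈ C := by rw [e]; exact htC
  refine ⟨t - s, ⟨?_, hts⟩, ?_⟩
  · rw [hs _ (hn _ hts), sub_add_cancel]
    exact ht
  · rintro t' ⟨ht', htC'⟩
    have h3 := (hs _ (hn _ htC')).1 ht'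
    have h4 := hu (t' + s) ⟨h3, by rw [show z + s - (t' + s) = z - t' by abel]; exact htC'⟩
    rw [← h4, add_sub_cancel_right]

lemma rdet_ne_of_li {a b : ℝ × ℝ} (h : LinearIndependent ℝ ![a, b]) : rdet a b ≠ 0 := by
  intro h0
  rw [LinearIndependent.pair_iff] at h
  have h1 := h b.2 (-a.2) (by
    ext
    · simp only [Prod.fst_add, Prod.smul_fst, smul_eq_mul, Prod.fst_zero]
      simp only [rdet] at h0
      linarith
    · simp only [Prod.snd_add, Prod.smul_snd, smul_eq_mul, Prod.snd_zero]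
      ring)
  have h2 := h b.1 (-a.1) (by
    ext
    · simp only [Prod.fst_add, Prod.smul_fst, smul_eq_mul, Prod.fst_zero]
      ring
    · simp only [Prod.snd_add, Prod.smul_snd, smul_eq_mul, Prod.snd_zero]
      simp only [rdet] at h0
      linarith)
  have h3 := h 1 0 (by
    ext
    · simp only [Prod.fst_add, Prod.smul_fst, smul_eq_mul, Prod.fst_zero]
      linarith [h2.2]
    · simp only [Prod.snd_add, Prod.smul_snd, smul_eq_mul, Prod.snd_zero]
      linarith [h1.2])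
  exact one_ne_zero h3.1

lemma li_of_rdet {a b : ℝ × ℝ} (h : rdet a b ≠ 0) : LinearIndependent ℝ ![a, b] := by
  rw [LinearIndependent.pair_iff]
  intro s t hst
  have h1 := congrArg Prod.fst hst
  have h2 := congrArg Prod.snd hst
  simp only [Prod.fst_add, Prod.snd_add, Prod.smul_fst, Prod.smul_snd, smul_eq_mul, Prod.fst_zero,
    Prod.snd_zero] at h1 h2
  simp only [rdet] at h
  constructor
  · have e : s * (a.1 * b.2 - a.2 * b.1) = 0 := by linear_combination b.2 * h1 - b.1 * h2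
    exact (mul_eq_zero.1 e).resolve_right h
  · have e : t * (a.1 * b.2 - a.2 * b.1) = 0 := by linear_combination a.1 * h2 - a.2 * h1
    exact (mul_eq_zero.1 e).resolve_right h

/-- **One period.** -/
theorem p_ONE : T_ONE := by
  intro B _ T p hT hF hp hper
  obtain ⟨T', v, hv, hc, h3, h4⟩ := per_case (body B) T (RD.body_bdd B) hT hF p hp hper
  exact ⟨T', hc, p, v, li_of_rdet hv, h3, h4⟩

/-- **The case of finite local complexity.**  A rectilinear body with a tiling of finite local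
complexity has a doubly periodic tiling. -/
theorem p_R2 : T_R2 := by
  intro B hB T hT hF
  obtain ⟨L, hL, hrel⟩ := OL.exists_rel B hB
  have hne : T.Nonempty := by
    obtain ⟨t, ⟨ht, _⟩, _⟩ := hT 0
    exact ⟨t, ht⟩
  obtain ⟨T1, hT1, _, h1⟩ := OL.one_lattice T hne hF L hL (hrel T hT)
  have hc1 : ECov (body B) T1 := ecov_hull (RD.body_bdd B) hT hT1
  rcases h1 with ⟨p, hp, hper⟩ | ⟨a, b, hab, ⟨X, hX⟩, _⟩
  · exact p_ONE B hB T1 p hc1 (hF.hull hT1) hp hper
  · have hsub : T1 ⊆ RD.GG X a b := by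
      intro t ht
      obtain ⟨x, hx, m, n, e⟩ := hX t ht
      exact ⟨x, hx, m, n, by rw [e, add_assoc]⟩
    obtain ⟨T', N, hN, hc, hper⟩ := RD.lattice_dp hc1 hab hsub
    refine ⟨T', hc, lv a b ((N : ℤ) • ((1, 0) : Z2)), lv a b ((N : ℤ) • ((0, 1) : Z2)), ?_,
      fun z => hper z _, fun z => hper z _⟩
    apply li_of_rdet
    rw [rdet_lv]
    have e : GT.det ((N : ℤ) • ((1, 0) : Z2)) ((N : ℤ) • ((0, 1) : Z2)) = N * N := by
      simp [GT.det]
    rw [e]
    have hNr : (N : ℝ) ≠ 0 := by exact_mod_cast hN.ne'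
    push_cast
    exact mul_ne_zero (mul_ne_zero hNr hNr) (rdet_ne_of_li hab)

end Pool.Agent.PTR
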