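import Pool.Agent.PTR.Range

/-!
# One horizontal period and finite local complexity of the heights
-/

set_option autoImplicit false

namespace Pool.Agent.PTR

open OL

/-! ## The tiles which meet a horizontal line -/

/-- sums of at most `n` differences of elements of `X` -/
noncomputable def sm (X : Finset ℝ) : ℕ → Finset ℝ
  | 0 => {0}
  | n + 1 => sm X n ∪ ((X ×ˢ X) ×ˢ sm X n).image (fun q => q.1.2 - q.1.1 + q.2)

lemma cons_lt {X : Finset ℝ} {a b : ℝ} (h : Cons X a b) : a < b := h.2.2.1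

lemma gap (X : Finset ℝ) : ∃ ε : ℝ, 0 < ε ∧ ∀ a ∈ X, ∀ b ∈ X, a < b → a + ε ≤ b := by
  classical
  rcases Finset.eq_empty_or_nonempty ((X ×ˢ X).filter (fun p => p.1 < p.2)) with h | h
  · refine ⟨1, one_pos, fun a ha b hb hab => ?_⟩
    have : (a, b) ∈ (X ×ˢ X).filter (fun p => p.1 < p.2) :=
      Finset.mem_filter.2 ⟨Finset.mem_product.2 ⟨ha, hb⟩, hab⟩
    rw [h] at this
    exact absurd this (Finset.notMem_empty _)
  · obtain ⟨p, hp, hpm⟩ := Finset.exists_min_image _ (fun p : ℝ × ℝ => p.2 - p.1) h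
    obtain ⟨_, hp2⟩ := Finset.mem_filter.1 hp
    refine ⟨p.2 - p.1, by linarith, fun a ha b hb hab => ?_⟩
    have := hpm (a, b) (Finset.mem_filter.2 ⟨Finset.mem_product.2 ⟨ha, hb⟩, hab⟩)
    simp only at this
    linarith

/-- The intervals in which the tiles meet the line at the height `y`. -/
def IsI (B : Finset Box) (T : Set (ℝ × ℝ)) (y : ℝ) (e : (ℝ × ℝ) × (ℝ × ℝ)) : Prop :=
  e.1 ∈ T ∧ Cons (xco B) e.2.1 e.2.2 ∧ (e.2.1, y - e.1.2) ∈ body B

lemma exists_I (B : Finset Box) {T : Set (ℝ × ℝ)} {t : ℝ × ℝ} (ht : t ∈ T) {x y : ℝ}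
    (h : (x, y - t.2) ∈ body B) : ∃ a b, IsI B T y (t, (a, b)) ∧ a ≤ x ∧ x < b := by
  have hid : ∀ a ∈ xco B, ∀ b ∈ xco B, a < b → (fun x : ℝ => x) a < (fun x : ℝ => x) b :=
    fun a _ b _ h => h
  obtain ⟨a, b, hab, h1, h2, h3⟩ := (mem_body_cons B (fun x => x) hid x (y - t.2)).1
    (by rw [image_bmapx_id]; exact h)
  exact ⟨a, b, ⟨ht, hab, h3⟩, h1, h2⟩

lemma I_mem (B : Finset Box) {T : Set (ℝ × ℝ)} {y : ℝ} {e : (ℝ × ℝ) × (ℝ × ℝ)}
    (he : IsI B T y e) {x : ℝ} (h1 : e.2.1 ≤ x) (h2 : x < e.2.2) : (x, y - e.1.2) ∈ body B := by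
  have hid : ∀ a ∈ xco B, ∀ b ∈ xco B, a < b → (fun x : ℝ => x) a < (fun x : ℝ => x) b :=
    fun a _ b _ h => h
  have := (mem_body_cons B (fun x => x) hid x (y - e.1.2)).2
    ⟨e.2.1, e.2.2, he.2.1, h1, h2, he.2.2⟩
  rwa [image_bmapx_id] at this

lemma I_unique (B : Finset Box) {T : Set (ℝ × ℝ)} {y : ℝ}
    (hT : ∀ x : ℝ, ∃! t, t ∈ T ∧ (x, y) - t ∈ body B) {e e' : (ℝ × ℝ) × (ℝ × ℝ)}
    (he : IsI B T y e) (he' : IsI B T y e') {x : ℝ} (h1 : e.1.1 + e.2.1 ≤ x)
    (h2 : x < e.1.1 + e.2.2) (h3 : e'.1.1 + e'.2.1 ≤ x) (h4 : x < e'.1.1 + e'.2.2) : e = e' := by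
  have m1 : (x, y) - e.1 ∈ body B := I_mem B he (by simp only; linarith)
    (by simp only; linarith)
  have m2 : (x, y) - e'.1 ∈ body B := I_mem B he' (by simp only; linarith)
    (by simp only; linarith)
  have e1 : e.1 = e'.1 := (hT x).unique ⟨he.1, m1⟩ ⟨he'.1, m2⟩
  obtain ⟨t, ⟨a, b⟩⟩ := e
  obtain ⟨t', ⟨a', b'⟩⟩ := e'
  simp only at e1 h1 h2 h3 h4
  subst e1
  obtain ⟨_, ⟨ha, hb, hab, hc⟩, _⟩ := he
  obtain ⟨_, ⟨ha', hb', hab', hc'⟩, _⟩ := he'
  simp only at ha hb hab hc ha' hb' hab' hc'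
  have e2 : a = a' := by
    rcases hc a' ha' with h | h
    · rcases hc' a ha with h' | h'
      · exact le_antisymm h' h
      · exfalso; linarith
    · exfalso; linarith
  have e3 : b = b' := by
    rcases hc b' hb' with h | h
    · exfalso; linarith
    · rcases hc' b hb with h' | h'
      · exfalso; linarith
      · exact le_antisymm h h'
  subst e2; subst e3; rfl

/-- The next interval starts where an interval ends. -/
lemma I_next (B : Finset Box) {T : Set (ℝ × ℝ)} {y : ℝ}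
    (hT : ∀ x : ℝ, ∃! t, t ∈ T ∧ (x, y) - t ∈ body B) {e : (ℝ × ℝ) × (ℝ × ℝ)}
    (he : IsI B T y e) : ∃ e', IsI B T y e' ∧ e'.1.1 + e'.2.1 = e.1.1 + e.2.2 := by
  obtain ⟨t, ⟨ht, htC⟩, _⟩ := hT (e.1.1 + e.2.2)
  obtain ⟨a, b, hI, h1, h2⟩ := exists_I B (y := y) ht (x := e.1.1 + e.2.2 - t.1) htC
  refine ⟨(t, (a, b)), hI, ?_⟩
  simp only
  refine le_antisymm (by linarith) ?_
  by_contra hlt
  push Not at hlt
  have hee := cons_lt he.2.1
  have hm : max (e.1.1 + e.2.1) (t.1 + a) < e.1.1 + e.2.2 := max_lt (by linarith) hlt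
  have := I_unique B hT he hI (x := max (e.1.1 + e.2.1) (t.1 + a)) (le_max_left _ _) hm
    (le_max_right _ _) (by simp only; linarith)
  subst this
  simp only at h2
  linarith

lemma I_chain (B : Finset Box) {ε : ℝ} (hε : ∀ a ∈ xco B, ∀ b ∈ xco B, a < b → a + ε ≤ b)
    {T : Set (ℝ × ℝ)} {y : ℝ} (hT : ∀ x : ℝ, ∃! t, t ∈ T ∧ (x, y) - t ∈ body B) (n : ℕ) :
    ∀ e e' : (ℝ × ℝ) × (ℝ × ℝ), IsI B T y e → IsI B T y e' →
      e.1.1 + e.2.1 ≤ e'.1.1 + e'.2.1 → e'.1.1 + e'.2.1 < e.1.1 + e.2.1 + n * ε →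
      e'.1.1 + e'.2.1 - (e.1.1 + e.2.1) ∈ sm (xco B) n := by
  induction n with
  | zero =>
    intro e e' _ _ h1 h2
    simp only [Nat.cast_zero, zero_mul, add_zero] at h2
    exact absurd h2 (not_lt.2 h1)
  | succ n ih =>
    intro e e' he he' h1 h2
    rcases lt_or_ge (e'.1.1 + e'.2.1) (e.1.1 + e.2.2) with h | h
    · have hee' := cons_lt he'.2.1
      have := I_unique B hT he he' (x := e'.1.1 + e'.2.1) h1 h le_rfl (by linarith)
      subst this
      rw [sub_self]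
      have h0 : ∀ m : ℕ, (0 : ℝ) ∈ sm (xco B) m := by
        intro m
        induction m with
        | zero => simp [sm]
        | succ m ih2 => exact Finset.mem_union_left _ ih2
      exact h0 _
    · obtain ⟨e1, he1, h3⟩ := I_next B hT he
      have h4 := hε _ he.2.1.1 _ he.2.1.2.1 (cons_lt he.2.1)
      have h5 := ih e1 e' he1 he' (by linarith) (by
        push_cast at h2
        linarith)
      refine Finset.mem_union_right _ (Finset.mem_image.2
        ⟨((e.2.1, e.2.2), e'.1.1 + e'.2.1 - (e1.1.1 + e1.2.1)), ?_, ?_⟩)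
      · exact Finset.mem_product.2 ⟨Finset.mem_product.2 ⟨he.2.1.1, he.2.1.2.1⟩, h5⟩
      · simp only
        linarith

/-- The differences of the x-coordinates of two tiles which meet the same horizontal line form a
finite set, for bounded distance, and this set depends on the body only. -/
theorem row_fin (B : Finset Box) (R : ℝ) : ∃ S : Set ℝ, S.Finite ∧
    ∀ (T : Set (ℝ × ℝ)) (y : ℝ), (∀ x : ℝ, ∃! t, t ∈ T ∧ (x, y) - t ∈ body B) →
      ∀ t ∈ T, ∀ t' ∈ T, (∃ x, (x, y - t.2) ∈ body B) → (∃ x, (x, y - t'.2) ∈ body B) →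
      |t'.1 - t.1| ≤ R → t'.1 - t.1 ∈ S := by
  classical
  obtain ⟨ε, hε0, hε⟩ := gap (xco B)
  set K : ℝ := ∑ s ∈ xco B, |s| with hK
  have hle : ∀ s ∈ xco B, |s| ≤ K := fun s hs =>
    Finset.single_le_sum (f := fun s : ℝ => |s|) (fun _ _ => abs_nonneg _) hs
  obtain ⟨n, hn⟩ := exists_nat_gt ((R + 2 * K) / ε)
  rw [div_lt_iff₀ hε0] at hn
  set S0 : Finset ℝ := ((xco B ×ˢ xco B) ×ˢ sm (xco B) n).image
    (fun q => q.2 + q.1.1 - q.1.2) with hS0
  refine ⟨(S0 : Set ℝ) ∪ (S0.image (fun s => -s) : Finset ℝ), S0.finite_toSet.union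
    (S0.image (fun s => -s)).finite_toSet, ?_⟩
  intro T y hT t ht t' ht' hx hx' hR
  -- the ordered case
  have main : ∀ t ∈ T, ∀ t' ∈ T, ∀ a b a' b' : ℝ, IsI B T y (t, (a, b)) →
      IsI B T y (t', (a', b')) → |t'.1 - t.1| ≤ R → t.1 + a ≤ t'.1 + a' → t'.1 - t.1 ∈ S0 := by
    intro t ht t' ht' a b a' b' h1 h2 h3 h4
    have ha := abs_le.1 (hle a h1.2.1.1)
    have ha' := abs_le.1 (hle a' h2.2.1.1)
    have h3' := abs_le.1 h3
    have h5 := I_chain B hε hT n (t, (a, b)) (t', (a', b')) h1 h2 h4 (by simp only; linarith)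
    simp only at h5
    refine Finset.mem_image.2 ⟨((a, a'), _), Finset.mem_product.2
      ⟨Finset.mem_product.2 ⟨h1.2.1.1, h2.2.1.1⟩, h5⟩, ?_⟩
    simp only
    ring
  obtain ⟨x, hx⟩ := hx
  obtain ⟨x', hx'⟩ := hx'
  obtain ⟨a, b, h1, _, _⟩ := exists_I B ht hx
  obtain ⟨a', b', h2, _, _⟩ := exists_I B ht' hx'
  rcases le_total (t.1 + a) (t'.1 + a') with h | h
  · exact Or.inl (main t ht t' ht' a b a' b' h1 h2 hR h)
  · right
    have h5 := main t' ht' t ht a' b' a b h2 h1 (by rw [abs_sub_comm]; exact hR) h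
    rw [Finset.mem_coe]
    exact Finset.mem_image.2 ⟨_, h5, by ring⟩

/-! ## Gluing with a one-sided window -/

theorem glue_os (C T : Set (ℝ × ℝ)) (p v : ℝ × ℝ) (α β f : ℝ)
    (hp : ∀ z, z + p ∈ T ↔ z ∈ T) (hC : ∀ z ∈ C, α ≤ rdet p z ∧ rdet p z < β)
    (hv : 0 < rdet p v) (hκ : β - α ≤ rdet p v)
    (hag : ∀ w : ℝ × ℝ, f - β < rdet p w → rdet p w < f - α → (w + v ∈ T ↔ w ∈ T))
    (hcov : ECov C T) :
    ∃ T' : Set (ℝ × ℝ), (∀ z, z + p ∈ T' ↔ z ∈ T') ∧ (∀ z, z + v ∈ T' ↔ z ∈ T') ∧ ECov C T' := by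
  set c : ℝ × ℝ := ((f - α) / rdet p v) • v with hc
  have hcd : rdet p c = f - α := by
    have : rdet p c = (f - α) / rdet p v * rdet p v := by
      simp only [hc, rdet, Prod.smul_fst, Prod.smul_snd, smul_eq_mul]
      ring
    rw [this, div_mul_cancel₀ _ hv.ne']
  set T' := glued T p v c with hT'
  have hvv : ∀ z, z + v ∈ T' ↔ z ∈ T' := glued_v T p v c hv
  have hvz : ∀ (n : ℤ) (z : ℝ × ℝ), z + n • v ∈ T' ↔ z ∈ T' := mem_zsmul hvv
  have heq : ∀ t : ℝ × ℝ, f - β < rdet p t → rdet p t < f - α + rdet p v →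
      (t ∈ T' ↔ t ∈ T) := by
    intro t h1 h2
    simp only [hT', glued, Set.mem_ofPred_eq]
    rcases lt_or_ge (rdet p t) (f - α) with h | h
    · have hf : ⌊(rdet p t - rdet p c) / rdet p v⌋ = -1 := by
        rw [Int.floor_eq_iff, hcd]
        push_cast
        constructor
        · rw [le_div_iff₀ hv]; linarith
        · rw [div_lt_iff₀ hv]; linarith
      rw [hf, neg_smul, one_smul, sub_neg_eq_add]
      exact hag t h1 h
    · have hf : ⌊(rdet p t - rdet p c) / rdet p v⌋ = 0 := by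
        rw [Int.floor_eq_iff, hcd]
        push_cast
        constructor
        · rw [le_div_iff₀ hv]; linarith
        · rw [div_lt_iff₀ hv]; linarith
      rw [hf, zero_smul, sub_zero]
  have key : ∀ z, f ≤ rdet p z → rdet p z < f + rdet p v → ∀ t, z - t ∈ C →
      (t ∈ T' ↔ t ∈ T) := by
    intro z hz1 hz2 t ht
    obtain ⟨h3, h4⟩ := hC _ ht
    rw [rdet_sub] at h3 h4
    exact heq t (by linarith) (by linarith)
  have band : ∀ z, ∃ n : ℤ, f ≤ rdet p (z - n • v) ∧ rdet p (z - n • v) < f + rdet p v := by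
    intro z
    refine ⟨⌊(rdet p z - f) / rdet p v⌋, ?_, ?_⟩
    · have := Int.floor_le ((rdet p z - f) / rdet p v)
      rw [le_div_iff₀ hv] at this
      rw [rdet_sub, rdet_zsmul]
      linarith
    · have := Int.lt_floor_add_one ((rdet p z - f) / rdet p v)
      rw [div_lt_iff₀ hv] at this
      rw [rdet_sub, rdet_zsmul]
      linarith
  refine ⟨T', glued_p T p v c hp, hvv, ?_⟩
  intro z
  obtain ⟨n, hn1, hn2⟩ := band z
  obtain ⟨t, ⟨ht1, ht2⟩, ht3⟩ := hcov (z - n • v)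
  refine ⟨t + n • v, ⟨(hvz n t).2 ((key _ hn1 hn2 t ht2).2 ht1), ?_⟩, ?_⟩
  · rw [show z - (t + n • v) = z - n • v - t by abel]
    exact ht2
  · rintro s ⟨hs1, hs2⟩
    have e : z - n • v - (s - n • v) = z - s := by abel
    have h4 : s - n • v ∈ T' := by
      have := hvz n (s - n • v)
      rw [sub_add_cancel] at this
      exact this.1 hs1
    have h5 := (key _ hn1 hn2 (s - n • v) (by rw [e]; exact hs2)).1 h4
    have h6 := ht3 (s - n • v) ⟨h5, by rw [e]; exact hs2⟩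
    rw [← h6]
    abel

/-! ## Pigeonhole -/

lemma hpp_pos (B : Finset Box) (hB : (body B).Nonempty) (hY : YInt (body B))
    (T : Set (ℝ × ℝ)) (p : ℝ) (hT : ECov (body B) T) (hp : 0 < p) (hper : Per (p, 0) T)
    (hFY : FY T) : DP (body B) := by
  obtain ⟨y0, y1, hy, hrange, hdiff⟩ := body_range hB hY
  set H := y1 - y0 with hH
  have hH0 : 0 < H := by linarith
  obtain ⟨S1, hS1, hrow⟩ := row_fin B p
  -- the finite set of relative positions
  set S : Set (ℝ × ℝ) := {d | (-H < d.2 ∧ d.2 ≤ 0) ∧ |d.1| ≤ p ∧ ∃ t ∈ T, t + d ∈ T} with hS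
  have hSf : S.Finite := by
    refine (hS1.prod (hFY (H + p))).subset ?_
    rintro d ⟨⟨h1, h2⟩, h3, t, ht, htd⟩
    constructor
    · obtain ⟨w, hw, w', hw', e⟩ := hdiff d.2 (by rw [abs_of_nonpos h2]; linarith)
      have h4 := hrow T (t.2 + w.2) (fun x => hT (x, t.2 + w.2)) t ht (t + d) htd
        ⟨w.1, by rw [add_sub_cancel_left]; exact hw⟩
        ⟨w'.1, by
          have e2 : t.2 + w.2 - (t + d).2 = w'.2 := by
            simp only [Prod.snd_add]
            linarith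
          rw [e2]
          exact hw'⟩
        (by simp only [Prod.fst_add, add_sub_cancel_left]; exact h3)
      simp only [Prod.fst_add, add_sub_cancel_left] at h4
      exact h4
    · refine ⟨t, ht, t + d, htd, ?_, by simp⟩
      rw [add_sub_cancel_left, Prod.norm_def]
      refine max_le ?_ ?_
      · rw [Real.norm_eq_abs]; linarith
      · rw [Real.norm_eq_abs, abs_le]
        constructor <;> linarith
  -- base tiles
  have hbase : ∀ n : ℕ, ∃ t ∈ T, y0 ≤ n * (2 * H) - t.2 ∧ n * (2 * H) - t.2 < y1 := by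
    intro n
    obtain ⟨t, ⟨ht, htC⟩, _⟩ := hT (0, n * (2 * H))
    exact ⟨t, ht, hrange _ htC⟩
  choose t ht1 ht2 ht3 using hbase
  set P : ℕ → Set (ℝ × ℝ) := fun n => {d | d ∈ S ∧ t n + d ∈ T} with hP
  obtain ⟨n1, _, n2, _, hne, heq⟩ := Set.Infinite.exists_ne_map_eq_of_mapsTo
    (s := (Set.univ : Set ℕ)) (t := 𝒫 S) (f := P) Set.infinite_univ
    (fun n _ d hd => hd.1) hSf.finite_subsets
  wlog hlt : n1 < n2 generalizing n1 n2
  · exact this n2 trivial n1 trivial hne.symm heq.symm (by omega)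
  set v : ℝ × ℝ := t n2 - t n1 with hv
  have hv2 : H < v.2 := by
    have a3 : (n1 : ℝ) + 1 ≤ n2 := by exact_mod_cast hlt
    have a1 := ht2 n1
    have a2 := ht3 n2
    have a5 := mul_le_mul_of_nonneg_right a3 (by linarith : 0 ≤ 2 * H)
    have a6 := ht3 n1
    have a7 := ht2 n2
    have e : v.2 = (t n2).2 - (t n1).2 := by rw [hv]; rfl
    rw [e]
    linarith
  have hdet : ∀ z : ℝ × ℝ, rdet (p, 0) z = p * z.2 := by intro z; simp [rdet]
  have hper' : ∀ z, z + (p, 0) ∈ T ↔ z ∈ T := hper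
  obtain ⟨T', b1, b2, b3⟩ := glue_os (body B) T (p, 0) v (p * y0) (p * y1)
    (p * ((t n1).2 + y0)) hper' (by
      intro z hz
      obtain ⟨h1, h2⟩ := hrange z hz
      rw [hdet]
      exact ⟨mul_le_mul_of_nonneg_left h1 hp.le, mul_lt_mul_of_pos_left h2 hp⟩)
    (by rw [hdet]; exact mul_pos hp (by linarith))
    (by
      rw [hdet, ← mul_sub]
      exact mul_le_mul_of_nonneg_left (by linarith) hp.le)
    (by
      intro w h1 h2
      rw [hdet, ← mul_sub] at h1 h2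
      have h1' := lt_of_mul_lt_mul_left h1 hp.le
      have h2' := lt_of_mul_lt_mul_left h2 hp.le
      -- reduce the first coordinate
      set k : ℤ := -⌊(w.1 - (t n1).1) / p⌋ with hk
      set d : ℝ × ℝ := w - t n1 + k • ((p, 0) : ℝ × ℝ) with hd
      have hd1 : |d.1| ≤ p := by
        have e : d.1 = w.1 - (t n1).1 - ⌊(w.1 - (t n1).1) / p⌋ * p := by
          rw [hd, Prod.fst_add, zs1, hk, Prod.fst_sub]
          push_cast
          ring
        have f1 := Int.floor_le ((w.1 - (t n1).1) / p)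
        have f2 := Int.lt_floor_add_one ((w.1 - (t n1).1) / p)
        rw [le_div_iff₀ hp] at f1
        rw [div_lt_iff₀ hp] at f2
        rw [e, abs_le]
        constructor <;> linarith
      have hd2 : d.2 = w.2 - (t n1).2 := by
        rw [hd, Prod.snd_add, zs2, Prod.snd_sub]
        simp
      have hdw : -H < d.2 ∧ d.2 ≤ 0 := by
        rw [hd2]
        constructor <;> linarith
      have e1 : t n1 + d = w + k • ((p, 0) : ℝ × ℝ) := by rw [hd]; abel
      have e2 : t n2 + d = w + v + k • ((p, 0) : ℝ × ℝ) := by rw [hd, hv]; abel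
      have m1 : t n1 + d ∈ T ↔ w ∈ T := by rw [e1]; exact mem_zsmul hper' k w
      have m2 : t n2 + d ∈ T ↔ w + v ∈ T := by rw [e2]; exact mem_zsmul hper' k (w + v)
      rw [← m1, ← m2]
      have c1 : d ∈ P n1 ↔ d ∈ P n2 := by rw [heq]
      constructor
      · intro h
        have hdS : d ∈ S := ⟨hdw, hd1, t n2, ht1 n2, h⟩
        exact (c1.2 ⟨hdS, h⟩).2
      · intro h
        have hdS : d ∈ S := ⟨hdw, hd1, t n1, ht1 n1, h⟩
        exact (c1.1 ⟨hdS, h⟩).2)
    hT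
  refine ⟨T', b3, (p, 0), v, ?_, b1, b2⟩
  rw [LinearIndependent.pair_iff]
  intro s r hsr
  have h1 := congrArg Prod.fst hsr
  have h2 := congrArg Prod.snd hsr
  simp only [Prod.fst_add, Prod.snd_add, Prod.smul_fst, Prod.smul_snd, smul_eq_mul, Prod.fst_zero,
    Prod.snd_zero, mul_zero, zero_add] at h1 h2
  have hr : r = 0 := (mul_eq_zero.1 h2).resolve_right (by linarith)
  rw [hr, zero_mul, add_zero] at h1
  exact ⟨(mul_eq_zero.1 h1).resolve_right hp.ne', hr⟩

/-- **One horizontal period**, heights of finite local complexity. -/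
theorem p_HPP : T_HPP := by
  intro B hB hY T p hT hp hper hFY
  rcases lt_or_gt_of_ne hp with h | h
  · refine hpp_pos B hB hY T (-p) hT (by linarith) ?_ hFY
    intro z
    have h1 := hper (z + (-p, 0))
    rw [add_assoc, show ((-p, 0) : ℝ × ℝ) + (p, 0) = 0 by ext <;> simp, add_zero] at h1
    exact h1.symm
  · exact hpp_pos B hB hY T p hT h hper hFY

end Pool.Agent.PTR
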