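import Mathlib

/-! Products of differences on the line. -/

set_option autoImplicit false

namespace Pool.Agent.PTR

/-- Difference operator on the line. -/
def d1 (q : ℝ) (f : ℝ → ℤ) : ℝ → ℤ := fun x => f x - f (x - q)

/-- Products of difference operators on the line. -/
def ds (L : List ℝ) (f : ℝ → ℤ) : ℝ → ℤ := L.foldr d1 f

/-- Incommensurable numbers. -/
def Inc (a b : ℝ) : Prop := ∀ m n : ℤ, (m : ℝ) * a = n * b → m = 0 ∧ n = 0

theorem Inc.symm {a b : ℝ} (h : Inc a b) : Inc b a := fun m n hmn =>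
  ⟨(h n m hmn.symm).2, (h n m hmn.symm).1⟩

theorem ds_cons (q : ℝ) (L : List ℝ) (f : ℝ → ℤ) : ds (q :: L) f = d1 q (ds L f) := rfl

theorem d1_comm (a b : ℝ) (f : ℝ → ℤ) : d1 a (d1 b f) = d1 b (d1 a f) := by
  funext x
  unfold d1
  rw [sub_right_comm x a b]
  ring

theorem d1_zero (a : ℝ) : d1 a 0 = 0 := by
  funext x; simp [d1]

theorem ds_zero (L : List ℝ) : ds L 0 = 0 := by
  induction L with
  | nil => rfl
  | cons q L ih => rw [ds_cons, ih, d1_zero]

theorem ds_d1 (L : List ℝ) (a : ℝ) (f : ℝ → ℤ) : ds L (d1 a f) = d1 a (ds L f) := by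
  induction L with
  | nil => rfl
  | cons q L ih => rw [ds_cons, ds_cons, ih, d1_comm]

theorem ds_perm {L L' : List ℝ} (h : L.Perm L') (f : ℝ → ℤ) : ds L f = ds L' f := by
  induction h with
  | nil => rfl
  | cons q _ ih => rw [ds_cons, ds_cons, ih]
  | swap a b L => rw [ds_cons, ds_cons, ds_cons, ds_cons, d1_comm]
  | trans _ _ ih1 ih2 => rw [ih1, ih2]

theorem d1_eq_zero {a : ℝ} {f : ℝ → ℤ} (h : d1 a f = 0) (x : ℝ) : f (x - a) = f x := by
  have := congrFun h x
  simp only [d1, Pi.zero_apply] at this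
  omega

theorem per_add {a : ℝ} {f : ℝ → ℤ} (h : d1 a f = 0) (x : ℝ) : f (x + a) = f x := by
  have := d1_eq_zero h (x + a)
  rw [add_sub_cancel_right] at this
  exact this.symm

theorem per_zsmul {a : ℝ} {f : ℝ → ℤ} (h : d1 a f = 0) (n : ℤ) (x : ℝ) :
    f (x + n * a) = f x := by
  induction n using Int.induction_on generalizing x with
  | zero => simp
  | succ n ih =>
    have := ih (x + a)
    rw [per_add h] at this
    rw [← this]
    congr 1
    push_cast; ring
  | pred n ih =>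
    have := ih (x - a)
    rw [d1_eq_zero h] at this
    rw [← this]
    congr 1
    push_cast; ring

theorem d1_mul {a : ℝ} {f : ℝ → ℤ} (h : d1 a f = 0) (n : ℤ) : d1 (n * a) f = 0 := by
  funext x
  simp only [d1, Pi.zero_apply]
  have := per_zsmul h (-n) x
  have e : x + ((-n : ℤ) : ℝ) * a = x - n * a := by push_cast; ring
  rw [e] at this
  omega

/-- A bounded function whose second difference vanishes is periodic. -/
theorem d1_sq {w : ℝ} {f : ℝ → ℤ} (hb : ∃ K : ℤ, ∀ x, |f x| ≤ K) (h : d1 w (d1 w f) = 0) :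
    d1 w f = 0 := by
  obtain ⟨K, hK⟩ := hb
  funext x
  by_contra hne
  simp only [Pi.zero_apply] at hne
  have h1 : ∀ n : ℕ, f x - f (x - n * w) = n * d1 w f x := by
    intro n
    induction n with
    | zero => simp
    | succ n ih =>
      have h2 := per_zsmul h (-(n : ℤ)) x
      have e : x + ((-(n : ℤ) : ℤ) : ℝ) * w = x - n * w := by push_cast; ring
      rw [e] at h2
      have h3 : d1 w f (x - n * w) = f (x - n * w) - f (x - (n + 1 : ℕ) * w) := by
        simp only [d1]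
        congr 2
        push_cast; ring
      rw [h2] at h3
      push_cast at h3 ⊢
      linarith
  have h4 := h1 (2 * K.toNat + 1)
  have h5 := hK x
  have h6 := hK (x - (2 * K.toNat + 1 : ℕ) * w)
  have hK0 : 0 ≤ K := (abs_nonneg _).trans h5
  have h7 : ((2 * K.toNat + 1 : ℕ) : ℤ) = 2 * K + 1 := by
    push_cast
    rw [Int.toNat_of_nonneg hK0]
  rw [h7] at h4
  have h8 : |f x - f (x - (2 * K.toNat + 1 : ℕ) * w)| ≤ 2 * K := by
    refine (abs_sub _ _).trans ?_
    linarith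
  rw [h4, abs_mul] at h8
  have h9 : 1 ≤ |d1 w f x| := Int.one_le_abs hne
  rw [abs_of_pos (by linarith : (0 : ℤ) < 2 * K + 1)] at h8
  nlinarith

theorem ds_bdd (L : List ℝ) {f : ℝ → ℤ} (hb : ∃ K : ℤ, ∀ x, |f x| ≤ K) :
    ∃ K : ℤ, ∀ x, |ds L f x| ≤ K := by
  induction L with
  | nil => exact hb
  | cons q L ih =>
    obtain ⟨K, hK⟩ := ih
    refine ⟨2 * K, fun x => ?_⟩
    rw [ds_cons]
    simp only [d1]
    refine (abs_sub _ _).trans ?_
    linarith [hK x, hK (x - q)]

/-- The support of a product of differences. -/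
theorem ds_supp (L : List ℝ) {f : ℝ → ℤ} {E : Set ℝ} {F : Finset ℝ}
    (h : ∀ x, f x ≠ 0 → ∃ e ∈ E, ∃ v ∈ F, x = e + v) :
    ∃ F' : Finset ℝ, ∀ x, ds L f x ≠ 0 → ∃ e ∈ E, ∃ v ∈ F', x = e + v := by
  classical
  induction L with
  | nil => exact ⟨F, h⟩
  | cons q L ih =>
    obtain ⟨F', hF'⟩ := ih
    refine ⟨F' ∪ F'.image (fun v => v + q), fun x hx => ?_⟩
    rw [ds_cons] at hx
    simp only [d1] at hx
    by_cases h1 : ds L f x = 0
    · rw [h1, zero_sub] at hx
      obtain ⟨e, he, v, hv, hxe⟩ := hF' (x - q) (fun h => hx (by rw [h]; rfl))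
      exact ⟨e, he, v + q, Finset.mem_union_right _ (Finset.mem_image_of_mem _ hv), by linarith⟩
    · obtain ⟨e, he, v, hv, hxe⟩ := hF' x h1
      exact ⟨e, he, v, Finset.mem_union_left _ hv, hxe⟩

/-- Incommensurable periods contradict finite local complexity. -/
theorem inc_false {E E' : Set ℝ} (hF : ∀ R : ℝ, {s : ℝ | ∃ x ∈ E, ∃ x' ∈ E', |x' - x| ≤ R ∧
    s = x' - x}.Finite) {F F' : Finset ℝ} {g h : ℝ → ℤ} {P P' : ℝ} (hP : P ≠ 0) (hI : Inc P P')
    (hg : ∀ x, g x ≠ 0 → ∃ e ∈ E, ∃ v ∈ F, x = e + v)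
    (hh : ∀ x, h x ≠ 0 → ∃ e ∈ E', ∃ v ∈ F', x = e + v)
    (hgP : d1 P g = 0) (hhP : d1 P' h = 0) {a b : ℝ} (ha : g a ≠ 0) (hb : h b ≠ 0) : False := by
  classical
  -- the difference `b + n P' - a - m P`, `m` the nearest integer
  set m : ℤ → ℤ := fun n => ⌊(b + n * P' - a) / P⌋ with hm
  set v : ℤ → ℝ := fun n => b + n * P' - (a + m n * P) with hv
  have hvb : ∀ n, |v n| ≤ |P| := by
    intro n
    have h1 : v n = Int.fract ((b + n * P' - a) / P) * P := by
      have h2 := Int.floor_add_fract ((b + n * P' - a) / P)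
      have h3 : (b + n * P' - a) = ((b + n * P' - a) / P) * P := by field_simp
      simp only [hv, hm]
      have h4 : b + n * P' - a =
          (⌊(b + n * P' - a) / P⌋ + Int.fract ((b + n * P' - a) / P)) * P := by
        rw [h2]; exact h3
      linarith
    rw [h1, abs_mul]
    have h5 : |Int.fract ((b + n * P' - a) / P)| ≤ 1 := by
      rw [abs_of_nonneg (Int.fract_nonneg _)]
      exact (Int.fract_lt_one _).le
    calc _ ≤ 1 * |P| := mul_le_mul_of_nonneg_right h5 (abs_nonneg _)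
      _ = |P| := one_mul _
  have hinj : Function.Injective v := by
    intro n n' hn
    simp only [hv] at hn
    have : ((m n - m n' : ℤ) : ℝ) * P = ((n - n' : ℤ) : ℝ) * P' := by push_cast; linarith
    have := (hI _ _ this).2
    omega
  set M : ℝ := ∑ v ∈ F, |v| + ∑ v ∈ F', |v| with hM
  have hfin := hF (|P| + M)
  set S := {s : ℝ | ∃ x ∈ E, ∃ x' ∈ E', |x' - x| ≤ |P| + M ∧ s = x' - x} with hS
  have hmem : ∀ n, ∃ s ∈ S, ∃ f ∈ F, ∃ f' ∈ F', v n = s + f' - f := by
    intro n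
    have g1 : g (a + m n * P) ≠ 0 := by rw [per_zsmul hgP]; exact ha
    have g2 : h (b + n * P') ≠ 0 := by rw [per_zsmul hhP]; exact hb
    obtain ⟨e, he, f, hf, h1⟩ := hg _ g1
    obtain ⟨e', he', f', hf', h2⟩ := hh _ g2
    have h3 : v n = (e' - e) + f' - f := by simp only [hv]; rw [h1, h2]; ring
    refine ⟨e' - e, ⟨e, he, e', he', ?_, rfl⟩, f, hf, f', hf', h3⟩
    have h4 : |f| ≤ ∑ v ∈ F, |v| := Finset.single_le_sum (f := fun v : ℝ => |v|)
      (fun _ _ => abs_nonneg _) hf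
    have h5 : |f'| ≤ ∑ v ∈ F', |v| := Finset.single_le_sum (f := fun v : ℝ => |v|)
      (fun _ _ => abs_nonneg _) hf'
    have h6 : e' - e = v n + f - f' := by rw [h3]; ring
    rw [h6]
    refine (abs_sub _ _).trans ?_
    have h7 := abs_add_le (v n) f
    have := hvb n
    linarith
  have hfin2 : (Set.range v).Finite := by
    refine ((hfin.prod ((F.finite_toSet).prod (F'.finite_toSet))).image
      (fun q : ℝ × (ℝ × ℝ) => q.1 + q.2.2 - q.2.1)).subset ?_
    rintro _ ⟨n, rfl⟩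
    obtain ⟨s, hs, f, hf, f', hf', h1⟩ := hmem n
    exact ⟨(s, (f, f')), ⟨hs, hf, hf'⟩, h1.symm⟩
  exact Set.infinite_range_of_injective hinj hfin2

/-- A nonzero function with support close to a set of finite local complexity, annihilated by
differences with pairwise incommensurable steps, is periodic with one of the steps. -/
theorem one_period {E : Set ℝ} (hF : ∀ R : ℝ, {s : ℝ | ∃ x ∈ E, ∃ x' ∈ E, |x' - x| ≤ R ∧
    s = x' - x}.Finite) (L : List ℝ) (hL : ∀ q ∈ L, q ≠ 0) (hI : L.Pairwise Inc) :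
    ∀ (F : Finset ℝ) (f : ℝ → ℤ), (∀ x, f x ≠ 0 → ∃ e ∈ E, ∃ v ∈ F, x = e + v) → f ≠ 0 →
      ds L f = 0 → ∃ P ∈ L, d1 P f = 0 := by
  classical
  induction L with
  | nil => intro F f _ h1 h2; exact absurd h2 h1
  | cons P L ih =>
    intro F f hf hne h0
    rw [List.pairwise_cons] at hI
    have ih' := ih (fun q hq => hL q (List.mem_cons_of_mem _ hq)) hI.2
    rw [ds_cons] at h0
    by_cases hg : ds L f = 0
    · obtain ⟨P', hP', h1⟩ := ih' F f hf hne hg
      exact ⟨P', List.mem_cons_of_mem _ hP', h1⟩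
    · by_cases hh : d1 P f = 0
      · exact ⟨P, List.mem_cons_self, hh⟩
      · exfalso
        obtain ⟨F1, hF1⟩ := ds_supp [P] hf
        have hF1' : ∀ x, d1 P f x ≠ 0 → ∃ e ∈ E, ∃ v ∈ F1, x = e + v := hF1
        obtain ⟨P', hP', h1⟩ := ih' F1 (d1 P f) hF1' hh (by rw [ds_d1]; exact h0)
        obtain ⟨F2, hF2⟩ := ds_supp L hf
        obtain ⟨a, ha⟩ := Function.ne_iff.1 hg
        obtain ⟨b, hb⟩ := Function.ne_iff.1 hh
        exact inc_false hF (hL P List.mem_cons_self) (hI.1 P' hP') hF2 hF1' h0 h1 ha hb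

/-- A family of bounded functions annihilated by a product of differences is annihilated by a
product of differences with pairwise incommensurable steps. -/
theorem inc_list {ι : Type*} (f : ι → ℝ → ℤ) (hb : ∀ i, ∃ K : ℤ, ∀ x, |f i x| ≤ K) (L : List ℝ)
    (hL : ∀ q ∈ L, q ≠ 0) (h : ∀ i, ds L (f i) = 0) :
    ∃ L' : List ℝ, (∀ q ∈ L', q ≠ 0) ∧ L'.Pairwise Inc ∧ ∀ i, ds L' (f i) = 0 := by
  classical
  have hex : ∃ n : ℕ, ∃ L' : List ℝ, L'.length = n ∧ (∀ q ∈ L', q ≠ 0) ∧ ∀ i, ds L' (f i) = 0 :=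
    ⟨L.length, L, rfl, hL, h⟩
  obtain ⟨L', hlen, hL', h'⟩ := Nat.find_spec hex
  refine ⟨L', hL', ?_, h'⟩
  rw [List.pairwise_iff_forall_sublist]
  intro a b hab m n hmn
  by_contra hcon
  obtain ⟨l, hl⟩ := hab.exists_perm_append
  have ha : a ≠ 0 := hL' a (hab.subset (by simp))
  have hb' : b ≠ 0 := hL' b (hab.subset (by simp))
  have hm : m ≠ 0 := by
    rintro rfl
    apply hcon
    refine ⟨rfl, ?_⟩
    simp only [Int.cast_zero, zero_mul] at hmn
    have := (mul_eq_zero.1 hmn.symm).resolve_right hb'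
    exact_mod_cast this
  have hn : n ≠ 0 := by
    rintro rfl
    simp only [Int.cast_zero, zero_mul] at hmn
    have := (mul_eq_zero.1 hmn).resolve_right ha
    exact hm (by exact_mod_cast this)
  set w := (m : ℝ) * a with hw
  have hw0 : w ≠ 0 := mul_ne_zero (by exact_mod_cast hm) ha
  refine Nat.find_min hex (m := l.length + 1) ?_ ⟨w :: l, by simp, ?_, ?_⟩
  · have := hl.length_eq
    rw [hlen] at this
    simp at this
    omega
  · intro q hq
    rcases List.mem_cons.1 hq with h1 | h1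
    · rw [h1]; exact hw0
    · exact hL' q (hl.symm.subset (by simp [h1]))
  · intro i
    rw [ds_cons]
    refine d1_sq (ds_bdd l (hb i)) ?_
    have h1 := h' i
    rw [ds_perm hl] at h1
    have h2 : d1 a (d1 b (ds l (f i))) = 0 := h1
    have h3 : d1 w (d1 b (ds l (f i))) = 0 := d1_mul h2 m
    rw [d1_comm] at h3
    have h4 := d1_mul h3 n
    rw [← hmn] at h4
    exact h4

end Pool.Agent.PTR
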