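import Pool.Agent.PTR.Targets
import Pool.Agent.PTR.Rel

set_option autoImplicit false

/-!
# PTR: target REL
-/

namespace Pool.Agent.PTR

open OL

theorem p_REL : T_REL := by
  intro B hB U T h1 h2
  obtain ⟨L, hL, h⟩ := exists_relU B hB
  exact ⟨L, hL, h U T ⟨h1, h2⟩⟩

end Pool.Agent.PTR
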