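import Pool.Agent.PTR.NOF
import Pool.Agent.PTR.HPP
import Pool.Agent.PTR.P_REL
import Pool.Agent.PTR.OneD
import Pool.Agent.PTR.FLCThm

/-! Regions of full horizontal lines without inner fault are horizontally periodic. -/

set_option autoImplicit false

namespace Pool.Agent.PTR

open OL

theorem difs_dif' (L : List V) (w : V) (f : V → ℤ) :
    difs L (dif w f) = dif w (difs L f) := by
  induction L with
  | nil => rfl
  | cons v L ih => rw [difs_cons, difs_cons, ih, dif_comm]

/-- The non-horizontal factors are injective on functions which vanish below some height. -/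
theorem hor_only (L : List V) : ∀ f : V → ℤ, (∃ h0 : ℝ, ∀ z : V, z.2 < h0 → f z = 0) →
    difs L f = 0 → difs (L.filter (fun w => w.2 = 0)) f = 0 := by
  induction L with
  | nil => intro f _ h; exact h
  | cons w L ih =>
    intro f hb h
    by_cases hw : w.2 = 0
    · rw [List.filter_cons_of_pos (by simpa using hw), difs_cons, ← difs_dif']
      refine ih (dif w f) ?_ (by rw [difs_dif']; exact h)
      obtain ⟨h0, hh⟩ := hb
      refine ⟨h0, fun z hz => ?_⟩
      unfold dif
      rw [hh z hz, hh (z - w) (by rw [Prod.snd_sub, hw, sub_zero]; exact hz), sub_zero]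
    · rw [List.filter_cons_of_neg (by simpa using hw)]
      refine ih f hb ?_
      -- `difs L f` vanishes below some height and is `w`-periodic
      have hb' : ∃ h0 : ℝ, ∀ z : V, z.2 < h0 → difs L f z = 0 := by
        clear ih h
        induction L with
        | nil => exact hb
        | cons v L ih2 =>
          obtain ⟨h0, hh⟩ := ih2
          refine ⟨h0 - |v.2|, fun z hz => ?_⟩
          rw [difs_cons]
          unfold dif
          rw [hh z (by linarith [abs_nonneg v.2]), hh (z - v) (by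
            rw [Prod.snd_sub]; linarith [neg_abs_le v.2]), sub_zero]
      obtain ⟨h0, hh⟩ := hb'
      have hper : ∀ z, difs L f (z - w) = difs L f z := by
        intro z
        have := congrFun h z
        rw [difs_cons] at this
        simp only [dif, Pi.zero_apply] at this
        omega
      have hper' : ∀ (n : ℕ) (z : V), difs L f (z - (n : ℤ) • w) = difs L f z ∧
          difs L f (z + (n : ℤ) • w) = difs L f z := by
        intro n
        induction n with
        | zero => intro z; simp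
        | succ n ihn =>
          intro z
          constructor
          · have e : z - ((n + 1 : ℕ) : ℤ) • w = (z - w) - (n : ℤ) • w := by
              push_cast; rw [add_smul, one_smul]; abel
            rw [e, (ihn (z - w)).1, hper]
          · have e : z + ((n + 1 : ℕ) : ℤ) • w = (z + w) + (n : ℤ) • w := by
              push_cast; rw [add_smul, one_smul]; abel
            have h3 := hper (z + w)
            rw [add_sub_cancel_right] at h3
            rw [e, (ihn (z + w)).2, ← h3]
      funext z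
      rw [Pi.zero_apply]
      rcases lt_or_gt_of_ne hw with hw' | hw'
      · obtain ⟨n, hn⟩ := exists_nat_gt ((z.2 - h0) / (-w.2))
        rw [div_lt_iff₀ (by linarith)] at hn
        rw [← (hper' n z).2]
        apply hh
        rw [Prod.snd_add, Prod.smul_snd, zsmul_eq_mul, Int.cast_natCast]
        linarith
      · obtain ⟨n, hn⟩ := exists_nat_gt ((z.2 - h0) / w.2)
        rw [div_lt_iff₀ hw'] at hn
        rw [← (hper' n z).1]
        apply hh
        rw [Prod.snd_sub, Prod.smul_snd, zsmul_eq_mul, Int.cast_natCast]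
        linarith

theorem difs_row (L : List V) (hL : ∀ w ∈ L, w.2 = 0) (u : V → ℤ) (x y : ℝ) :
    difs L u (x, y) = ds (L.map Prod.fst) (fun x => u (x, y)) x := by
  induction L generalizing x with
  | nil => rfl
  | cons w L ih =>
    have ih' := ih (fun v hv => hL v (List.mem_cons_of_mem _ hv))
    rw [difs_cons, List.map_cons, ds_cons]
    simp only [dif, d1]
    have e : ((x, y) : V) - w = (x - w.1, y) := by
      ext
      · rfl
      · simp [hL w List.mem_cons_self]
    rw [e, ih', ih']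

/-- **Core.** A region of full horizontal lines, bounded from below, without inner fault, has a
horizontal period. -/
theorem core {B : Finset Box} (hne : (body B).Nonempty) (hY : YInt (body B)) {U : Set ℝ}
    {T : Set (ℝ × ℝ)} (hT : RCov (body B) U T) (hb : ∃ c : ℝ, ∀ u ∈ U, c ≤ u)
    (hnf : ∀ c, FH (body B) T c → (∀ t ∈ T, ∀ z ∈ body B, t.2 + z.2 < c) ∨
      (∀ t ∈ T, ∀ z ∈ body B, c ≤ t.2 + z.2)) (hTne : T.Nonempty) :
    ∃ p : ℝ, p ≠ 0 ∧ Per (p, 0) T := by
  classical
  obtain ⟨L, hL, hrel⟩ := exists_relU B hne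
  have h0 := hrel U T hT
  obtain ⟨z0, hz0⟩ := hne
  have hht : ∀ t ∈ T, ∀ z ∈ body B, t.2 + z.2 ∈ U := by
    intro t ht z hz
    by_contra hcon
    exact hT.2 (t.1 + z.1, t.2 + z.2) hcon t ht (by
      have : ((t.1 + z.1, t.2 + z.2) : ℝ × ℝ) - t = z := by ext <;> simp
      rw [this]; exact hz)
  have hlow : ∃ h0 : ℝ, ∀ z : V, z.2 < h0 → ii T z = 0 := by
    obtain ⟨c, hc⟩ := hb
    refine ⟨c - z0.2, fun z hz => ii_of_not fun hzT => ?_⟩
    have := hc _ (hht z hzT z0 hz0)
    linarith
  have h1 := hor_only L (ii T) hlow h0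
  set Lh := L.filter (fun w => w.2 = 0) with hLh
  have hLh2 : ∀ w ∈ Lh, w.2 = 0 := fun w hw => by
    have := (List.mem_filter.1 hw).2
    simpa using this
  set f : ℝ → ℝ → ℤ := fun y x => ii T (x, y) with hf
  have hfb : ∀ y, ∃ K : ℤ, ∀ x, |f y x| ≤ K := fun y => ⟨1, fun x => ii_bdd T _⟩
  obtain ⟨L', hL', hI, hk⟩ := inc_list f hfb (Lh.map Prod.fst) (by
    intro q hq
    obtain ⟨w, hw, rfl⟩ := List.mem_map.1 hq
    intro h2
    exact hL w (List.mem_filter.1 hw).1 (Prod.ext h2 (hLh2 w hw))) (by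
    intro y
    funext x
    have := difs_row Lh hLh2 (ii T) x y
    rw [h1] at this
    exact this.symm)
  -- rows meeting a common line
  have hFLC : ∀ t ∈ T, ∀ t' ∈ T, ∀ z ∈ body B, ∀ z' ∈ body B, t.2 + z.2 = t'.2 + z'.2 →
      ∀ R : ℝ, {s : ℝ | ∃ x ∈ {x | (x, t.2) ∈ T}, ∃ x' ∈ {x | (x, t'.2) ∈ T},
        |x' - x| ≤ R ∧ s = x' - x}.Finite := by
    intro t ht t' ht' z hz z' hz' hzz R
    obtain ⟨S, hS, hS'⟩ := row_fin B R
    refine hS.subset ?_
    rintro s ⟨x, hx, x', hx', hR, rfl⟩
    have hU := hht t ht z hz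
    refine hS' T (t.2 + z.2) (fun x => hT.1 (x, t.2 + z.2) hU) (x, t.2) hx (x', t'.2) hx'
      ⟨z.1, ?_⟩ ⟨z'.1, ?_⟩ hR
    · simp only [add_sub_cancel_left]; exact hz
    · simp only [hzz, add_sub_cancel_left]; exact hz'
  have hsupp : ∀ y x, f y x ≠ 0 → ∃ e ∈ {x | (x, y) ∈ T}, ∃ v ∈ ({0} : Finset ℝ), x = e + v :=
    fun y x hx => ⟨x, ii_ne hx, 0, Finset.mem_singleton_self _, by ring⟩
  have hfne : ∀ t ∈ T, f t.2 t.1 ≠ 0 := fun t ht => by
    have : ii T t = 1 := ii_of_mem ht
    simp only [hf]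
    rw [show ((t.1, t.2) : ℝ × ℝ) = t from rfl, this]
    exact one_ne_zero
  have hrow : ∀ t ∈ T, ∃ P ∈ L', d1 P (f t.2) = 0 := fun t ht =>
    one_period (hFLC t ht t ht z0 hz0 z0 hz0 rfl) L' hL' hI {0} (f t.2) (hsupp t.2)
      (fun h => hfne t ht (congrFun h t.1)) (hk t.2)
  have hline : ∀ s ∈ T, ∀ s' ∈ T, ∀ z ∈ body B, ∀ z' ∈ body B, s.2 + z.2 = s'.2 + z'.2 →
      ∀ P ∈ L', d1 P (f s.2) = 0 → d1 P (f s'.2) = 0 := by
    intro s hs s' hs' z hz z' hz' hzz P hP hdP
    obtain ⟨P', hP', hdP'⟩ := hrow s' hs'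
    by_cases hPP : P = P'
    · rw [hPP]; exact hdP'
    · exfalso
      have : Std.Symm Inc := ⟨fun a b h => Inc.symm h⟩
      have hinc : Inc P P' := List.Pairwise.forall hI hP hP' hPP
      exact inc_false (hFLC s hs s' hs' z hz z' hz' hzz) (hL' P hP) hinc (hsupp s.2)
        (hsupp s'.2) hdP hdP' (hfne s hs) (hfne s' hs')
  obtain ⟨t0, ht0⟩ := hTne
  obtain ⟨P, hP, hdP⟩ := hrow t0 ht0
  have hall : ∀ t ∈ T, d1 P (f t.2) = 0 := by
    intro t ht
    have := fault_conn_gen ⟨z0, hz0⟩ hY hnf
      (fun s s' => ∀ P ∈ L', d1 P (f s.2) = 0 ↔ d1 P (f s'.2) = 0)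
      (fun s _ P _ => Iff.rfl) (fun s s' h P hP => (h P hP).symm)
      (fun s s' s'' h h' P hP => (h P hP).trans (h' P hP))
      (fun s hs s' hs' z hz z' hz' hzz P hP =>
        ⟨hline s hs s' hs' z hz z' hz' hzz P hP,
          hline s' hs' s hs z' hz' z hz hzz.symm P hP⟩) t0 t ht0 ht
    exact (this P hP).1 hdP
  refine ⟨P, hL' P hP, fun z => ?_⟩
  have e : z + (P, 0) = (z.1 + P, z.2) := by ext <;> simp
  rw [e]
  constructor
  · intro h
    have h2 := hall _ h
    simp only at h2
    have h3 := per_add h2 z.1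
    have h4 : ii T (z.1 + P, z.2) = 1 := ii_of_mem h
    simp only [hf] at h3
    rw [h4] at h3
    exact ii_ne (z := z) (by
      rw [show z = (z.1, z.2) from rfl, ← h3]; exact one_ne_zero)
  · intro h
    have h2 := hall _ h
    have h3 := per_add h2 z.1
    have h4 : ii T z = 1 := ii_of_mem h
    simp only [hf] at h3
    rw [show ((z.1, z.2) : ℝ × ℝ) = z from rfl, h4] at h3
    exact ii_ne (by rw [h3]; exact one_ne_zero)

end Pool.Agent.PTR
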