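import Pool.Agent.PTR.Defs

/-! The deformation lemma. -/

set_option autoImplicit false

namespace Pool.Agent.PTR

/-- Chains of abutting intervals: if the intervals `[l e, r e)` cover the line exactly once,
have lengths at least `ε`, and the deformed intervals abut whenever the original ones do,
then the deformed intervals cover the line exactly once. -/
theorem chain {E : Type*} (l r l' r' : E → ℝ) (ε : ℝ) (hε : 0 < ε)
    (h1 : ∀ e, l e + ε ≤ r e) (h2 : ∀ e, l' e + ε ≤ r' e)
    (H : ∀ x, ∃! e, l e ≤ x ∧ x < r e)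
    (hc : ∀ e e', l e' = r e → l' e' = r' e) (x : ℝ) :
    ∃! e, l' e ≤ x ∧ x < r' e := by
  classical
  choose c hc1 hc2 using H
  have hc1' : ∀ y, l (c y) ≤ y ∧ y < r (c y) := fun y => hc1 y
  have hlc : ∀ e, c (l e) = e := fun e =>
    (hc2 (l e) e ⟨le_rfl, by linarith [h1 e]⟩).symm
  -- successor
  have hsucc : ∀ e, l (c (r e)) = r e := by
    intro e
    refine le_antisymm (hc1' (r e)).1 ?_
    by_contra hlt
    push Not at hlt
    set e' := c (r e) with he'
    have hm : max (l e) (l e') < r e := max_lt (by linarith [h1 e]) hlt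
    have he1 : e = c (max (l e) (l e')) := hc2 _ e ⟨le_max_left _ _, hm⟩
    have he2 : e' = c (max (l e) (l e')) :=
      hc2 _ e' ⟨le_max_right _ _, hm.trans (hc1' (r e)).2⟩
    have : e = e' := he1.trans he2.symm
    have h3 := (hc1' (r e)).2
    rw [← he', ← this] at h3
    exact lt_irrefl _ h3
  -- predecessor
  have hpred : ∀ e, r (c (l e - ε)) = l e := by
    intro e
    set e' := c (l e - ε) with he'
    have hlt : l e' ≤ l e - ε := (hc1' _).1
    have h4 : l e - ε < r e' := (hc1' _).2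
    rcases lt_trichotomy (r e') (l e) with h | h | h
    · -- the successor of e' starts at r e' and has length at least ε, so it contains l e
      exfalso
      set e2 := c (r e') with he2
      have h5 : l e2 = r e' := hsucc e'
      have h6 : r e' + ε ≤ r e2 := by rw [← h5]; exact h1 e2
      have h7 : e2 = c (l e) := hc2 _ e2 ⟨by rw [h5]; exact h.le, by linarith⟩
      rw [hlc e] at h7
      rw [h7] at h5
      linarith
    · exact h
    · exfalso
      have h7 : e' = c (l e) := hc2 _ e' ⟨by linarith, h⟩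
      rw [hlc e] at h7
      rw [h7] at hlt
      linarith
  let S : Equiv.Perm E :=
    { toFun := fun e => c (r e)
      invFun := fun e => c (l e - ε)
      left_inv := by
        intro e
        change c (l (c (r e)) - ε) = e
        have h8 : r (c (l (c (r e)) - ε)) = r e := by rw [hpred, hsucc]
        have h9 : l (c (r e)) = r e := hsucc e
        rw [h9]
        exact (hc2 (r e - ε) e ⟨by linarith [h1 e], by linarith⟩).symm
      right_inv := by
        intro e
        change c (r (c (l e - ε))) = e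
        rw [hpred, hlc] }
  have hS : ∀ e, l (S e) = r e := fun e => hsucc e
  have hS' : ∀ e, l' (S e) = r' e := fun e => hc e (S e) (hS e)
  set e0 := c 0 with he0
  let s : ℤ → E := fun n => (S ^ n) e0
  have hs1 : ∀ n, s (n + 1) = S (s n) := by
    intro n
    change (S ^ (n + 1)) e0 = S ((S ^ n) e0)
    rw [add_comm, zpow_add, zpow_one]; rfl
  have hl1 : ∀ n, l (s (n + 1)) = r (s n) := fun n => by rw [hs1, hS]
  have hl1' : ∀ n, l' (s (n + 1)) = r' (s n) := fun n => by rw [hs1, hS']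
  -- a general fact on sequences with gaps ≥ ε
  have gen : ∀ (f : ℤ → ℝ), (∀ n, f n + ε ≤ f (n + 1)) →
      (∀ m n, m ≤ n → f m + ε * ((n : ℝ) - m) ≤ f n) := by
    intro f hf m n hmn
    obtain ⟨k, rfl⟩ := Int.le.dest hmn
    induction k with
    | zero => simp
    | succ k ih =>
      have h10 := ih (by omega)
      have h11 := hf (m + k)
      have h12 : m + ((k + 1 : ℕ) : ℤ) = m + k + 1 := by push_cast; ring
      rw [h12]
      push_cast at h10 ⊢
      nlinarith
  have find : ∀ (f : ℤ → ℝ), (∀ n, f n + ε ≤ f (n + 1)) → ∀ y, ∃ n, f n ≤ y ∧ y < f (n + 1) := by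
    intro f hf y
    have hub : ∃ N : ℤ, ∀ n, f n ≤ y → n ≤ N := by
      obtain ⟨k, hk⟩ := exists_nat_gt ((y - f 0) / ε)
      refine ⟨k, fun n hn => ?_⟩
      by_contra hcon
      push Not at hcon
      have h13 := gen f hf 0 n (by omega)
      have h14 : (k : ℝ) < n := by exact_mod_cast hcon
      rw [div_lt_iff₀ hε] at hk
      simp only [Int.cast_zero, sub_zero] at h13
      nlinarith
    have hne : ∃ n : ℤ, f n ≤ y := by
      obtain ⟨k, hk⟩ := exists_nat_gt ((f 0 - y) / ε)
      refine ⟨-k, ?_⟩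
      have h13 := gen f hf (-k) 0 (by omega)
      rw [div_lt_iff₀ hε] at hk
      push_cast at h13
      nlinarith
    obtain ⟨n, hn1, hn2⟩ := Int.exists_greatest_of_bdd hub hne
    refine ⟨n, hn1, ?_⟩
    by_contra hcon
    push Not at hcon
    have := hn2 (n + 1) hcon
    omega
  have hg : ∀ n, l (s n) + ε ≤ l (s (n + 1)) := fun n => by rw [hl1]; exact h1 _
  have hg' : ∀ n, l' (s n) + ε ≤ l' (s (n + 1)) := fun n => by rw [hl1']; exact h2 _
  have all : ∀ e, ∃ n, s n = e := by
    intro e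
    obtain ⟨n, hn1, hn2⟩ := find (fun n => l (s n)) hg (l e)
    refine ⟨n, ?_⟩
    simp only [hl1] at hn2
    have := hc2 (l e) (s n) ⟨hn1, hn2⟩
    rw [this, hlc]
  obtain ⟨n, hn1, hn2⟩ := find (fun n => l' (s n)) hg' x
  simp only [hl1'] at hn2
  refine ⟨s n, ⟨hn1, hn2⟩, ?_⟩
  rintro e ⟨he1, he2⟩
  obtain ⟨m, rfl⟩ := all e
  have h15 : m = n := by
    by_contra hmn
    rcases lt_or_gt_of_ne hmn with h | h
    · have h16 := gen (fun n => l' (s n)) hg' (m + 1) n (by omega)
      simp only [hl1'] at h16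
      have h17 : ((m : ℝ) + 1) ≤ n := by exact_mod_cast h
      push_cast at h16
      nlinarith
    · have h16 := gen (fun n => l' (s n)) hg' (n + 1) m (by omega)
      simp only [hl1'] at h16
      have h17 : ((n : ℝ) + 1) ≤ m := by exact_mod_cast h
      push_cast at h16
      nlinarith
  rw [h15]

/-- Two consecutive elements of a finite set. -/
def Cons (X : Finset ℝ) (a b : ℝ) : Prop := a ∈ X ∧ b ∈ X ∧ a < b ∧ ∀ c ∈ X, c ≤ a ∨ b ≤ c

/-- Membership in a deformed body in terms of consecutive coordinates. -/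
lemma mem_body_cons (B : Finset Box) (ρ : ℝ → ℝ)
    (hρ : ∀ a ∈ xco B, ∀ b ∈ xco B, a < b → ρ a < ρ b) (x v : ℝ) :
    (x, v) ∈ body (B.image (bmapx ρ)) ↔
      ∃ a b, Cons (xco B) a b ∧ ρ a ≤ x ∧ x < ρ b ∧ (a, v) ∈ body B := by
  classical
  constructor
  · rintro ⟨b', hb', h1, h2, h3, h4⟩
    obtain ⟨b0, hb0, rfl⟩ := Finset.mem_image.1 hb'
    simp only [bmapx] at h1 h2 h3 h4
    have hL := mem_xco_l hb0
    have hR := mem_xco_r hb0
    set X1 := (xco B).filter (fun c => ρ c ≤ x) with hX1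
    set X2 := (xco B).filter (fun c => x < ρ c) with hX2
    have hn1 : X1.Nonempty := ⟨_, Finset.mem_filter.2 ⟨hL, h1⟩⟩
    have hn2 : X2.Nonempty := ⟨_, Finset.mem_filter.2 ⟨hR, h2⟩⟩
    have ha := Finset.max'_mem X1 hn1
    have hb := Finset.min'_mem X2 hn2
    set a := X1.max' hn1
    set b := X2.min' hn2
    obtain ⟨haX, hax⟩ := Finset.mem_filter.1 ha
    obtain ⟨hbX, hbx⟩ := Finset.mem_filter.1 hb
    have hab : a < b := by
      by_contra hcon
      push Not at hcon
      rcases hcon.lt_or_eq with h | h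
      · have := hρ b hbX a haX h
        linarith
      · rw [h] at hbx; linarith
    refine ⟨a, b, ⟨haX, hbX, hab, ?_⟩, hax, hbx, b0, hb0, ?_, ?_, h3, h4⟩
    · intro c hc
      rcases le_or_gt (ρ c) x with h | h
      · exact Or.inl (Finset.le_max' X1 c (Finset.mem_filter.2 ⟨hc, h⟩))
      · exact Or.inr (Finset.min'_le X2 c (Finset.mem_filter.2 ⟨hc, h⟩))
    · exact Finset.le_max' X1 _ (Finset.mem_filter.2 ⟨hL, h1⟩)
    · change a < b0.1.2
      by_contra hcon
      push Not at hcon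
      rcases hcon.lt_or_eq with h | h
      · have := hρ _ hR a haX h
        linarith
      · rw [h] at h2; linarith
  · rintro ⟨a, b, ⟨haX, hbX, hab, hc⟩, h1, h2, b0, hb0, h3, h4, h5, h6⟩
    simp only at h3 h4 h5 h6
    refine ⟨bmapx ρ b0, Finset.mem_image_of_mem _ hb0, ?_, ?_, h5, h6⟩
    · simp only [bmapx]
      rcases h3.lt_or_eq with h | h
      · have := hρ _ (mem_xco_l hb0) a haX h
        linarith
      · rw [h]; exact h1
    · simp only [bmapx]
      rcases hc _ (mem_xco_r hb0) with h | h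
      · exact absurd h4 (not_lt.2 h)
      · rcases h.lt_or_eq with h' | h'
        · have := hρ b hbX _ (mem_xco_r hb0) h'
          linarith
        · rw [← h']; exact h2

lemma image_bmapx_id (B : Finset Box) : B.image (bmapx (fun x => x)) = B := by
  have : bmapx (fun x => x) = id := by
    funext b; rfl
  rw [this, Finset.image_id]

/-- **Deformation lemma** in the x-direction: no finite local complexity is needed. -/
theorem deform_x (B : Finset Box) (T : Set (ℝ × ℝ)) (hT : ECov (body B) T)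
    (φ ρ : ℝ → ℝ) (hρ : ∀ a ∈ xco B, ∀ b ∈ xco B, a < b → ρ a < ρ b)
    (hφ : ∀ x, ∀ a ∈ xco B, ∀ b ∈ xco B, φ (x + b - a) = φ x + ρ b - ρ a) :
    ECov (body (B.image (bmapx ρ))) ((fun t : ℝ × ℝ => (φ t.1, t.2)) '' T) := by
  classical
  rintro ⟨x, y⟩
  -- a uniform lower bound for the gaps
  have hgap : ∃ ε > 0, ∀ a ∈ xco B, ∀ b ∈ xco B, a < b → a + ε ≤ b ∧ ρ a + ε ≤ ρ b := by
    have hfin : ((xco B ×ˢ xco B).filter (fun p => p.1 < p.2)).card = 0 ∨
        ((xco B ×ˢ xco B).filter (fun p => p.1 < p.2)).Nonempty := by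
      rcases Finset.eq_empty_or_nonempty ((xco B ×ˢ xco B).filter (fun p => p.1 < p.2)) with h | h
      · exact Or.inl (by rw [h]; rfl)
      · exact Or.inr h
    rcases hfin with h | h
    · refine ⟨1, one_pos, fun a ha b hb hab => ?_⟩
      have h0 := Finset.card_eq_zero.1 h
      have : (a, b) ∈ (xco B ×ˢ xco B).filter (fun p => p.1 < p.2) :=
        Finset.mem_filter.2 ⟨Finset.mem_product.2 ⟨ha, hb⟩, hab⟩
      rw [h0] at this
      exact absurd this (Finset.notMem_empty _)
    · obtain ⟨p, hp, hpm⟩ := Finset.exists_min_image _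
        (fun p : ℝ × ℝ => min (p.2 - p.1) (ρ p.2 - ρ p.1)) h
      obtain ⟨hp1, hp2⟩ := Finset.mem_filter.1 hp
      obtain ⟨hp3, hp4⟩ := Finset.mem_product.1 hp1
      refine ⟨min (p.2 - p.1) (ρ p.2 - ρ p.1),
        lt_min (by linarith) (by linarith [hρ _ hp3 _ hp4 hp2]), fun a ha b hb hab => ?_⟩
      have := hpm (a, b) (Finset.mem_filter.2 ⟨Finset.mem_product.2 ⟨ha, hb⟩, hab⟩)
      simp only at this
      have h5 := this.trans (min_le_left _ _)
      have h6 := this.trans (min_le_right _ _)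
      constructor <;> linarith
  obtain ⟨ε, hε, hgap⟩ := hgap
  let E := {e : (ℝ × ℝ) × (ℝ × ℝ) // e.1 ∈ T ∧ Cons (xco B) e.2.1 e.2.2 ∧
    (e.2.1, y - e.1.2) ∈ body B}
  have hid : ∀ a ∈ xco B, ∀ b ∈ xco B, a < b → (fun x : ℝ => x) a < (fun x : ℝ => x) b :=
    fun a _ b _ h => h
  have key := chain (E := E) (fun e => e.1.1.1 + e.1.2.1) (fun e => e.1.1.1 + e.1.2.2)
    (fun e => φ e.1.1.1 + ρ e.1.2.1) (fun e => φ e.1.1.1 + ρ e.1.2.2) ε hε
    (by rintro ⟨e, he1, ⟨ha, hb, hab, _⟩, he3⟩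
        have := (hgap _ ha _ hb hab).1
        simp only; linarith)
    (by rintro ⟨e, he1, ⟨ha, hb, hab, _⟩, he3⟩
        have := (hgap _ ha _ hb hab).2
        simp only; linarith)
    (by intro x'
        obtain ⟨t, ⟨ht1, ht2⟩, ht3⟩ := hT (x', y)
        have hm := (mem_body_cons B (fun x => x) hid (x' - t.1) (y - t.2)).1
          (by rw [image_bmapx_id]; exact ht2)
        obtain ⟨a, b, hab, h1, h2, h3⟩ := hm
        refine ⟨⟨(t, (a, b)), ht1, hab, h3⟩, ⟨by simp only at h1 ⊢; linarith,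
          by simp only at h2 ⊢; linarith⟩, ?_⟩
        rintro ⟨⟨t', ⟨a', b'⟩⟩, he1, he2, he3⟩ ⟨h4, h5⟩
        simp only at he1 he2 he3 h4 h5
        have h6 : (x' - t'.1, y - t'.2) ∈ body B := by
          have := (mem_body_cons B (fun x => x) hid (x' - t'.1) (y - t'.2)).2
            ⟨a', b', he2, by linarith, by linarith, he3⟩
          rwa [image_bmapx_id] at this
        have h7 : t' = t := ht3 t' ⟨he1, h6⟩
        subst h7
        have h8 : a' = a := by
          rcases he2.2.2.2 a hab.1 with h | h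
          · rcases hab.2.2.2 a' he2.1 with h' | h'
            · exact le_antisymm h' h
            · exfalso; linarith
          · exfalso; linarith
        have h9 : b' = b := by
          rcases he2.2.2.2 b hab.2.1 with h | h
          · exfalso; linarith
          · rcases hab.2.2.2 b' he2.2.1 with h' | h'
            · exfalso; linarith
            · exact le_antisymm h h'
        subst h8; subst h9; rfl)
    (by rintro ⟨⟨t, ⟨a, b⟩⟩, he1, ⟨ha, hb, _⟩, he3⟩ ⟨⟨t', ⟨a', b'⟩⟩, he1', ⟨ha', hb', _⟩, he3'⟩ h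
        simp only at ha hb ha' hb' h ⊢
        have : t'.1 = t.1 + b - a' := by linarith
        rw [this, hφ t.1 a' ha' b hb]
        ring) x
  obtain ⟨⟨⟨t, ⟨a, b⟩⟩, he1, he2, he3⟩, ⟨h1, h2⟩, h3⟩ := key
  simp only at he1 he2 he3 h1 h2
  refine ⟨(φ t.1, t.2), ⟨⟨t, he1, rfl⟩, ?_⟩, ?_⟩
  · exact (mem_body_cons B ρ hρ (x - φ t.1) (y - t.2)).2
      ⟨a, b, he2, by linarith, by linarith, he3⟩
  · rintro _ ⟨⟨t', ht', rfl⟩, hm⟩
    obtain ⟨a', b', hab', h4, h5, h6⟩ :=
      (mem_body_cons B ρ hρ (x - φ t'.1) (y - t'.2)).1 hm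
    have h7 := h3 ⟨(t', (a', b')), ht', hab', h6⟩ ⟨by simp only; linarith, by simp only; linarith⟩
    have h8 : t' = t := congrArg (fun e : E => e.1.1) h7
    rw [h8]

lemma mem_body_swap (B : Finset Box) (z : ℝ × ℝ) :
    z.swap ∈ body (B.image bswap) ↔ z ∈ body B := by
  constructor
  · rintro ⟨b', hb', h1, h2, h3, h4⟩
    obtain ⟨b, hb, rfl⟩ := Finset.mem_image.1 hb'
    exact ⟨b, hb, h3, h4, h1, h2⟩
  · rintro ⟨b, hb, h1, h2, h3, h4⟩
    exact ⟨bswap b, Finset.mem_image_of_mem _ hb, h3, h4, h1, h2⟩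

lemma ecov_swap (B : Finset Box) (T : Set (ℝ × ℝ)) (h : ECov (body B) T) :
    ECov (body (B.image bswap)) (Prod.swap '' T) := by
  intro z
  obtain ⟨t, ⟨ht1, ht2⟩, ht3⟩ := h z.swap
  refine ⟨t.swap, ⟨⟨t, ht1, rfl⟩, ?_⟩, ?_⟩
  · have := (mem_body_swap B (z.swap - t)).2 ht2
    simpa using this
  · rintro _ ⟨⟨t', ht', rfl⟩, hm⟩
    have : z.swap - t' ∈ body B := by
      rw [← mem_body_swap]
      simpa using hm
    rw [ht3 t' ⟨ht', this⟩]

lemma image_bswap_bswap (B : Finset Box) : (B.image bswap).image bswap = B := by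
  rw [Finset.image_image]
  have : bswap ∘ bswap = id := by funext b; rfl
  rw [this, Finset.image_id]

lemma xco_swap (B : Finset Box) : xco (B.image bswap) = yco B := by
  unfold xco yco
  rw [Finset.image_image, Finset.image_image]
  rfl

lemma yco_swap (B : Finset Box) : yco (B.image bswap) = xco B := by
  unfold xco yco
  rw [Finset.image_image, Finset.image_image]
  rfl

/-- **Deformation lemma** in the y-direction. -/
theorem deform_y (B : Finset Box) (T : Set (ℝ × ℝ)) (hT : ECov (body B) T)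
    (φ ρ : ℝ → ℝ) (hρ : ∀ a ∈ yco B, ∀ b ∈ yco B, a < b → ρ a < ρ b)
    (hφ : ∀ x, ∀ a ∈ yco B, ∀ b ∈ yco B, φ (x + b - a) = φ x + ρ b - ρ a) :
    ECov (body (B.image (bmapy ρ))) ((fun t : ℝ × ℝ => (t.1, φ t.2)) '' T) := by
  have h1 := ecov_swap B T hT
  have h2 := deform_x (B.image bswap) _ h1 φ ρ (by rw [xco_swap]; exact hρ)
    (by rw [xco_swap]; exact hφ)
  have h3 := ecov_swap _ _ h2
  rw [Finset.image_image, Finset.image_image] at h3
  have h4 : (bswap ∘ bmapx ρ) ∘ bswap = bmapy ρ := by funext b; rfl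
  rw [Function.comp_assoc] at h4
  rw [Function.comp_assoc, h4] at h3
  convert h3 using 1
  ext z
  constructor
  · rintro ⟨t, ht, rfl⟩
    exact ⟨(φ t.2, t.1), ⟨t.swap, ⟨t, ht, rfl⟩, rfl⟩, rfl⟩
  · rintro ⟨_, ⟨_, ⟨t, ht, rfl⟩, rfl⟩, rfl⟩
    exact ⟨t, ht, rfl⟩

lemma yco_bmapx (B : Finset Box) (ρ : ℝ → ℝ) : yco (B.image (bmapx ρ)) = yco B := by
  unfold yco
  rw [Finset.image_image, Finset.image_image]
  rfl

/-- **Deformation lemma** for an additive map on both coordinates. -/
theorem deform (B : Finset Box) (T : Set (ℝ × ℝ)) (hT : ECov (body B) T)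
    (σ : ℝ →+ ℝ) (hx : ∀ a ∈ xco B, ∀ b ∈ xco B, a < b → σ a < σ b)
    (hy : ∀ a ∈ yco B, ∀ b ∈ yco B, a < b → σ a < σ b) :
    ECov (body (B.image (bmap σ))) ((fun t : ℝ × ℝ => (σ t.1, σ t.2)) '' T) := by
  have h1 := deform_x B T hT σ σ hx (fun x a _ b _ => by
    rw [map_sub, map_add])
  have h2 := deform_y _ _ h1 σ σ (by rw [yco_bmapx]; exact hy) (fun x a _ b _ => by
    rw [map_sub, map_add])
  rw [Finset.image_image] at h2
  have h4 : bmapy σ ∘ bmapx σ = bmap σ := by funext b; rfl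
  rw [h4] at h2
  rw [Set.image_image] at h2
  exact h2

end Pool.Agent.PTR
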