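import Mathlib

/-!
# Weak periodicity of planar integer tilings, an elementary proof

Let `F` be a finite subset of `ℤ²` and `A ⊆ ℤ²` such that every point is `f + a` in exactly one way.
Some limit `A'` of translates `A - n w` (with `n` in every `M ℕ`) is weakly periodic: for some `m`
the intersection of `A'` with every coset of `m ℤ²` has a nonzero period in `m ℤ²`.
-/

set_option autoImplicit false

namespace Pool.Agent.PTR.GT

open Finset Filter

abbrev Z2 : Type := ℤ × ℤ

/-- real indicator function -/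
noncomputable def ri (A : Set Z2) (z : Z2) : ℝ := by
  classical exact if z ∈ A then 1 else 0

lemma ri_mem {A : Set Z2} {z : Z2} (h : z ∈ A) : ri A z = 1 := by simp [ri, h]
lemma ri_not {A : Set Z2} {z : Z2} (h : z ∉ A) : ri A z = 0 := by simp [ri, h]
lemma ri_nonneg (A : Set Z2) (z : Z2) : 0 ≤ ri A z := by unfold ri; split_ifs <;> norm_num
lemma ri_le (A : Set Z2) (z : Z2) : ri A z ≤ 1 := by unfold ri; split_ifs <;> norm_num

/-! ## An idempotent ultrafilter on the positive integers -/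

section idem

attribute [local instance] Ultrafilter.add Ultrafilter.addSemigroup

theorem idem : ∃ U : Ultrafilter ℕ,
    (∀ p : ℕ → Prop, (∀ᶠ n in U, p n) → ∀ᶠ n in U, ∀ᶠ m in U, p (n + m)) ∧
    (∀ᶠ n in U, 0 < n) ∧ ∀ M : ℕ, 0 < M → ∀ᶠ n in U, M ∣ n := by
  have : Nonempty (Ultrafilter ℕ+) := ⟨pure 1⟩
  obtain ⟨W, hW⟩ := exists_idempotent_of_compact_t2_of_continuous_add_left
    (M := Ultrafilter ℕ+) (@Ultrafilter.continuous_add_left ℕ+ _)
  have hWp : ∀ p : ℕ+ → Prop, (∀ᶠ n in W, p n) ↔ ∀ᶠ n in W, ∀ᶠ m in W, p (n + m) := by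
    intro p
    conv_lhs => rw [← hW]
    exact Ultrafilter.eventually_add W W p
  set c : ℕ+ → ℕ := fun n => (n : ℕ) with hc
  have h1 : ∀ p : ℕ → Prop, (∀ᶠ n in W.map c, p n) ↔ ∀ᶠ n : ℕ+ in W, p (c n) := by
    intro p
    rfl
  have hidem : ∀ p : ℕ → Prop, (∀ᶠ n in W.map c, p n) →
      ∀ᶠ n in W.map c, ∀ᶠ m in W.map c, p (n + m) := by
    intro p hp
    rw [h1] at hp ⊢
    rw [hWp] at hp
    simp only [h1]
    exact hp
  refine ⟨W.map c, hidem, ?_, ?_⟩
  · rw [h1]
    exact Eventually.of_forall fun n => n.pos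
  · intro M hM
    -- the residue is constant on a large set
    have h2 : ∃ r ∈ Set.Iio M, ∀ᶠ n in W.map c, n % M = r := by
      have h3 : (⋃ r ∈ Set.Iio M, {n : ℕ | n % M = r}) ∈ W.map c := by
        have : (⋃ r ∈ Set.Iio M, {n : ℕ | n % M = r}) = Set.univ := by
          apply Set.eq_univ_of_forall
          intro n
          simp only [Set.mem_iUnion]
          exact ⟨n % M, Nat.mod_lt _ hM, rfl⟩
        rw [this]
        exact univ_mem
      obtain ⟨r, hr, h4⟩ := (Ultrafilter.finite_biUnion_mem_iff (Set.finite_Iio M)).1 h3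
      exact ⟨r, hr, h4⟩
    obtain ⟨r, hr, h3⟩ := h2
    have h4 := hidem _ h3
    obtain ⟨n, hn1, hn2⟩ := (h3.and h4).exists
    obtain ⟨m, hm1, hm2⟩ := (h3.and hn2).exists
    have hr0 : r = 0 := by
      have e1 : (n + m) % M = (r + r) % M := by
        rw [Nat.add_mod, hn1, hm1]
      rw [hm2] at e1
      have hr' : r < M := hr
      rcases Nat.lt_or_ge (r + r) M with h | h
      · rw [Nat.mod_eq_of_lt h] at e1
        omega
      · rw [Nat.mod_eq_sub_mod h, Nat.mod_eq_of_lt (by omega)] at e1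
        omega
    rw [hr0] at h3
    exact h3.mono fun n hn => Nat.dvd_of_mod_eq_zero hn

end idem

/-! ## Limits of bounded sequences along an ultrafilter -/

/-- limit along an ultrafilter -/
noncomputable def ul (U : Ultrafilter ℕ) (f : ℕ → ℝ) : ℝ := limUnder (U : Filter ℕ) f

lemma ul_tendsto (U : Ultrafilter ℕ) (f : ℕ → ℝ) (hf : ∀ n, 0 ≤ f n ∧ f n ≤ 1) :
    Tendsto f U (nhds (ul U f)) := by
  have h1 : ((U.map f : Ultrafilter ℝ) : Filter ℝ) ≤ 𝓟 (Set.Icc 0 1) := by
    rw [le_principal_iff]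
    exact mem_map.2 (univ_mem' fun n => hf n)
  obtain ⟨x, _, hx⟩ := isCompact_Icc.ultrafilter_le_nhds (U.map f) h1
  exact tendsto_nhds_limUnder ⟨x, hx⟩

lemma ul_eq (U : Ultrafilter ℕ) {f : ℕ → ℝ} {a : ℝ} (h : Tendsto f U (nhds a)) : ul U f = a :=
  h.limUnder_eq

lemma ul_nonneg (U : Ultrafilter ℕ) (f : ℕ → ℝ) (hf : ∀ n, 0 ≤ f n ∧ f n ≤ 1) : 0 ≤ ul U f :=
  ge_of_tendsto' (ul_tendsto U f hf) fun n => (hf n).1

lemma ul_le (U : Ultrafilter ℕ) (f : ℕ → ℝ) (hf : ∀ n, 0 ≤ f n ∧ f n ≤ 1) : ul U f ≤ 1 :=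
  le_of_tendsto' (ul_tendsto U f hf) fun n => (hf n).2

lemma ul_congr (U : Ultrafilter ℕ) {f g : ℕ → ℝ} (hg : ∀ n, 0 ≤ g n ∧ g n ≤ 1)
    (h : Tendsto (fun n => f n - g n) U (nhds 0)) : ul U f = ul U g := by
  apply ul_eq
  have := h.add (ul_tendsto U g hg)
  simpa using this

/-! ## Dilation -/

/-- The translations as a representation of `ℤ²`. -/
noncomputable def rep (p : ℕ) : Multiplicative Z2 →* Module.End (ZMod p) (Z2 → ZMod p) where
  toFun v := LinearMap.funLeft (ZMod p) (ZMod p) (fun z => z - Multiplicative.toAdd v)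
  map_one' := by
    refine LinearMap.ext fun t => funext fun z => ?_
    simp [LinearMap.funLeft_apply]
  map_mul' v w := by
    refine LinearMap.ext fun t => funext fun z => ?_
    simp only [LinearMap.funLeft_apply, toAdd_mul, Module.End.mul_apply]
    congr 1
    abel

theorem rep_apply (p : ℕ) (v : Z2) (t : Z2 → ZMod p) (z : Z2) :
    rep p (Multiplicative.ofAdd v) t z = t (z - v) := rfl

/-- The action of the group ring. -/
noncomputable def phi (p : ℕ) :
    AddMonoidAlgebra (ZMod p) Z2 →ₐ[ZMod p] Module.End (ZMod p) (Z2 → ZMod p) :=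
  AddMonoidAlgebra.lift (ZMod p) (Module.End (ZMod p) (Z2 → ZMod p)) Z2 (rep p)

theorem phi_single (p : ℕ) (v : Z2) (t : Z2 → ZMod p) (z : Z2) :
    phi p (AddMonoidAlgebra.single v 1) t z = t (z - v) := by
  unfold phi
  rw [AddMonoidAlgebra.lift_single, one_smul, rep_apply]

theorem phi_sum (p : ℕ) {β : Type} (J : Finset β) (a : β → Z2) (t : Z2 → ZMod p) (z : Z2) :
    phi p (∑ j ∈ J, AddMonoidAlgebra.single (a j) 1) t z = ∑ j ∈ J, t (z - a j) := by
  rw [map_sum, LinearMap.sum_apply, Finset.sum_apply]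
  refine Finset.sum_congr rfl fun j _ => ?_
  rw [phi_single]

theorem dil_one (p : ℕ) [Fact p.Prime] {β : Type} (J : Finset β) (a : β → Z2) (t : Z2 → ZMod p)
    (hJ : J.card < p) (h : ∀ z, ∑ j ∈ J, t (z - a j) = 1) (z : Z2) :
    ∑ j ∈ J, t (z - p • a j) = 1 := by
  have : CharP (AddMonoidAlgebra (ZMod p) Z2) p :=
    charP_of_injective_algebraMap (algebraMap (ZMod p) (AddMonoidAlgebra (ZMod p) Z2)).injective p
  set G : AddMonoidAlgebra (ZMod p) Z2 := ∑ j ∈ J, AddMonoidAlgebra.single (a j) 1 with hG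
  have hJ0 : ((J.card : ℕ) : ZMod p) ≠ 0 := by
    intro h0
    rw [ZMod.natCast_eq_zero_iff] at h0
    have h1 : J.card = 0 := Nat.eq_zero_of_dvd_of_lt h0 hJ
    have h2 := h 0
    rw [Finset.card_eq_zero.1 h1] at h2
    simp at h2
  have h1 : phi p G t = fun _ => 1 := by
    funext z
    rw [hG, phi_sum, h z]
  have hc : ∀ (n : ℕ) (c : ZMod p), phi p (G ^ n) (fun _ => c) =
      fun _ => (J.card : ZMod p) ^ n * c := by
    intro n
    induction n with
    | zero => intro c; simp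
    | succ n ih =>
      intro c
      rw [pow_succ, map_mul, Module.End.mul_apply]
      have : phi p G (fun _ => c) = fun _ => (J.card : ZMod p) * c := by
        funext z
        rw [hG, phi_sum]
        simp
      rw [this, ih, pow_succ]
      funext _
      ring
  have h2 : G ^ p = ∑ j ∈ J, AddMonoidAlgebra.single (p • a j) 1 := by
    rw [hG, sum_pow_char]
    refine Finset.sum_congr rfl fun j _ => ?_
    rw [AddMonoidAlgebra.single_pow, one_pow]
  have h3 : phi p (G ^ p) t = fun _ => 1 := by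
    have h5 : G ^ p = G ^ (p - 1) * G := by
      rw [← pow_succ, Nat.sub_add_cancel (Fact.out : p.Prime).one_le]
    rw [h5, map_mul, Module.End.mul_apply, h1, hc, ZMod.pow_card_sub_one_eq_one hJ0]
    simp
  have h4 := phi_sum p J (fun j => p • a j) t z
  rw [← h2, h3] at h4
  exact h4.symm

theorem dil {β : Type} (J : Finset β) (a : β → Z2) (t : Z2 → ℤ) (ht : ∀ z, t z = 0 ∨ t z = 1)
    (h : ∀ z, ∑ j ∈ J, t (z - a j) = 1) (k : ℕ) (hk : 0 < k)
    (hp : ∀ p : ℕ, p.Prime → p ∣ k → J.card < p) (z : Z2) :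
    ∑ j ∈ J, t (z - k • a j) = 1 := by
  induction k using Nat.strong_induction_on generalizing z with
  | _ k ih =>
    rcases Nat.lt_or_ge 1 k with h1 | h1
    · set p := k.minFac with hpdef
      have hpp : p.Prime := Nat.minFac_prime (by omega)
      have : Fact p.Prime := ⟨hpp⟩
      obtain ⟨k', hk'⟩ := Nat.minFac_dvd k
      rw [← hpdef] at hk'
      have hk0 : 0 < k' := by
        rcases Nat.eq_zero_or_pos k' with h0 | h0
        · rw [h0, mul_zero] at hk'; omega
        · exact h0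
      have hlt : k' < k := by
        rw [hk']
        have := hpp.two_le
        nlinarith
      have hJp : J.card < p := hp p hpp (Nat.minFac_dvd k)
      have ih' := ih k' hlt hk0 (fun r hr hrk => hp r hr (hk' ▸ Dvd.dvd.mul_left hrk p))
      have h2 := dil_one p J (fun j => k' • a j) (fun z => (t z : ZMod p)) hJp
        (fun z => by
          have h3 := congrArg (fun x : ℤ => (x : ZMod p)) (ih' z)
          simpa using h3) z
      have e : ∀ v : Z2, p • (k' • v) = k • v := by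
        intro v
        rw [smul_smul, ← hk']
      simp only [e] at h2
      have h4 : ((∑ j ∈ J, t (z - k • a j) - 1 : ℤ) : ZMod p) = 0 := by
        push_cast
        rw [h2, sub_self]
      have h5 := (ZMod.intCast_zmod_eq_zero_iff_dvd _ p).mp h4
      have b0 : 0 ≤ ∑ j ∈ J, t (z - k • a j) := by
        refine Finset.sum_nonneg fun j _ => ?_
        rcases ht (z - k • a j) with h0 | h0
        · rw [h0]
        · rw [h0]; norm_num
      have b1 : ∑ j ∈ J, t (z - k • a j) ≤ J.card := by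
        have : ∑ j ∈ J, t (z - k • a j) ≤ ∑ _j ∈ J, (1 : ℤ) := by
          refine Finset.sum_le_sum fun j _ => ?_
          rcases ht (z - k • a j) with h0 | h0
          · rw [h0]; norm_num
          · rw [h0]
        simpa using this
      have hcard : (J.card : ℤ) < p := by exact_mod_cast hJp
      have hp1 : (1 : ℤ) < p := by exact_mod_cast hpp.one_lt
      have h6 := Int.eq_zero_of_abs_lt_dvd h5 (by rw [abs_lt]; constructor <;> linarith)
      linarith
    · have : k = 1 := by omega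
      subst this
      simpa using h z

/-! ## Averages of the dilates -/

/-- finite average -/
noncomputable def pav (A : Set Z2) (M : ℕ) (g z : Z2) (R : ℕ) : ℝ :=
  (∑ i ∈ range R, ri A (z - (1 + M * i) • g)) / R

lemma pav_mem (A : Set Z2) (M : ℕ) (g z : Z2) (R : ℕ) :
    0 ≤ pav A M g z R ∧ pav A M g z R ≤ 1 := by
  unfold pav
  have h0 : 0 ≤ ∑ i ∈ range R, ri A (z - (1 + M * i) • g) := sum_nonneg fun i _ => ri_nonneg _ _
  have h1 : ∑ i ∈ range R, ri A (z - (1 + M * i) • g) ≤ R := by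
    have := sum_le_sum (s := range R) fun i _ => ri_le A (z - (1 + M * i) • g)
    simpa using this
  refine ⟨div_nonneg h0 (Nat.cast_nonneg R), ?_⟩
  rcases Nat.eq_zero_or_pos R with h | h
  · subst h; simp
  · rw [div_le_one (by exact_mod_cast h)]
    exact h1

/-- average of the dilates -/
noncomputable def av (A : Set Z2) (M : ℕ) (g z : Z2) : ℝ := ul (hyperfilter ℕ) (pav A M g z)

lemma av_nonneg (A : Set Z2) (M : ℕ) (g z : Z2) : 0 ≤ av A M g z := ul_nonneg _ _ (pav_mem A M g z)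

lemma hyp_tendsto {f : ℕ → ℝ} {a : ℝ} (h : Tendsto f atTop (nhds a)) :
    Tendsto f (hyperfilter ℕ) (nhds a) := by
  refine h.mono_left ?_
  rw [← Nat.cofinite_eq_atTop]
  exact hyperfilter_le_cofinite

lemma av_sub (A : Set Z2) (M : ℕ) (g z : Z2) : av A M g (z - M • g) = av A M g z := by
  apply ul_congr _ (pav_mem A M g z)
  apply hyp_tendsto
  have key : ∀ R : ℕ, pav A M g (z - M • g) R - pav A M g z R =
      (ri A (z - (1 + M * R) • g) - ri A (z - (1 + M * 0) • g)) / R := by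
    intro R
    unfold pav
    rw [← sub_div, ← sum_sub_distrib,
      ← Finset.sum_range_sub (fun i => ri A (z - (1 + M * i) • g)) R]
    congr 1
    refine sum_congr rfl fun i _ => ?_
    congr 2
    have e : 1 + M * (i + 1) = M + (1 + M * i) := by ring
    rw [e, add_smul M, sub_sub]
  simp only [key]
  apply squeeze_zero_norm (a := fun R : ℕ => 1 / (R : ℝ))
  · intro R
    rw [Real.norm_eq_abs, abs_div, Nat.abs_cast]
    apply div_le_div_of_nonneg_right _ (Nat.cast_nonneg R)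
    rw [abs_le]
    have a1 := ri_nonneg A (z - (1 + M * R) • g)
    have a2 := ri_le A (z - (1 + M * R) • g)
    have a3 := ri_nonneg A (z - (1 + M * 0) • g)
    have a4 := ri_le A (z - (1 + M * 0) • g)
    constructor <;> linarith
  · exact tendsto_one_div_atTop_nhds_zero_nat

lemma av_add (A : Set Z2) (M : ℕ) (g z : Z2) : av A M g (z + M • g) = av A M g z := by
  have := av_sub A M g (z + M • g)
  rw [add_sub_cancel_right] at this
  exact this.symm

lemma av_zero (A : Set Z2) (M : ℕ) (z : Z2) : av A M 0 z = ri A z := by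
  apply ul_eq
  apply hyp_tendsto
  have : ∀ᶠ R : ℕ in atTop, pav A M 0 z R = ri A z := by
    filter_upwards [eventually_gt_atTop 0] with R hR
    unfold pav
    have hR' : (R : ℝ) ≠ 0 := by exact_mod_cast hR.ne'
    simp
    field_simp
  exact tendsto_const_nhds.congr' (this.mono fun _ h => h.symm)

theorem av_sum (F : Finset Z2) (A : Set Z2) (f0 : Z2)
    (hA : ∀ z, ∑ f ∈ F, ri A (z - f) = 1) (z : Z2) :
    ∑ f ∈ F, av A F.card.factorial (f - f0) z = 1 := by
  classical
  set M := F.card.factorial with hM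
  set t : Z2 → ℤ := fun z => if z ∈ A then 1 else 0 with ht
  have hti : ∀ z, ri A z = (t z : ℝ) := by
    intro z
    by_cases h : z ∈ A
    · rw [ri_mem h]; simp [ht, h]
    · rw [ri_not h]; simp [ht, h]
  have ht1 : ∀ z, ∑ f ∈ F, t (z - f) = 1 := by
    intro z
    have := hA z
    simp only [hti] at this
    exact_mod_cast this
  have hd : ∀ (i : ℕ) (z : Z2), ∑ f ∈ F, ri A (z - (1 + M * i) • f) = 1 := by
    intro i z
    have := dil F id t (fun z => by by_cases h : z ∈ A <;> simp [ht, h]) ht1 (1 + M * i) (by omega)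
      (fun p hp hpd => by
        by_contra hle
        push Not at hle
        have h1 : p ∣ M := Nat.dvd_factorial hp.pos hle
        have h2 : p ∣ 1 := by
          have h3 : p ∣ M * i := Dvd.dvd.mul_right h1 i
          exact (Nat.dvd_add_iff_left h3).2 hpd
        exact hp.one_lt.ne' (Nat.dvd_one.1 h2)) z
    simp only [hti]
    simp only [id] at this
    exact_mod_cast this
  have hd2 : ∀ (i : ℕ), ∑ f ∈ F, ri A (z - (1 + M * i) • (f - f0)) = 1 := by
    intro i
    rw [← hd i (z + (1 + M * i) • f0)]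
    refine sum_congr rfl fun f _ => ?_
    congr 1
    rw [smul_sub]
    abel
  have hp : ∀ R : ℕ, 0 < R → ∑ f ∈ F, pav A M (f - f0) z R = 1 := by
    intro R hR
    unfold pav
    rw [← sum_div, sum_comm]
    simp only [hd2]
    have hR' : (R : ℝ) ≠ 0 := by exact_mod_cast hR.ne'
    rw [sum_const, card_range, nsmul_eq_mul, mul_one, div_self hR']
  have h1 : Tendsto (fun R => ∑ f ∈ F, pav A M (f - f0) z R) (hyperfilter ℕ)
      (nhds (∑ f ∈ F, av A M (f - f0) z)) :=
    tendsto_finsetSum _ fun f _ => ul_tendsto _ _ (pav_mem A M (f - f0) z)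
  have h2 : Tendsto (fun R => ∑ f ∈ F, pav A M (f - f0) z R) (hyperfilter ℕ) (nhds 1) := by
    apply hyp_tendsto
    have : ∀ᶠ R : ℕ in atTop, ∑ f ∈ F, pav A M (f - f0) z R = 1 := by
      filter_upwards [eventually_gt_atTop 0] with R hR
      exact hp R hR
    exact tendsto_const_nhds.congr' (this.mono fun _ h => h.symm)
  exact tendsto_nhds_unique h1 h2

/-! ## Grouping by directions -/

/-- determinant -/
def det (a b : Z2) : ℤ := a.1 * b.2 - a.2 * b.1

lemma cram (a b u : Z2) : det a b • u = det u b • a + det a u • b := by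
  ext <;> simp [det] <;> ring

/-- direction of a nonzero vector -/
noncomputable def key (g : Z2) : Option ℚ := if g.1 = 0 then none else some ((g.2 : ℚ) / g.1)

lemma key_eq {g g' : Z2} (hg : g ≠ 0) (hg' : g' ≠ 0) : key g = key g' ↔ det g g' = 0 := by
  unfold key det
  by_cases h : g.1 = 0
  · by_cases h' : g'.1 = 0
    · simp [h, h']
    · have : g.2 ≠ 0 := fun h2 => hg (Prod.ext h h2)
      simp [h, h', this]
  · by_cases h' : g'.1 = 0
    · have : g'.2 ≠ 0 := fun h2 => hg' (Prod.ext h' h2)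
      simp [h, h', this]
    · simp only [h, h', if_false, Option.some.injEq]
      have h1 : (g.1 : ℚ) ≠ 0 := by exact_mod_cast h
      have h2 : (g'.1 : ℚ) ≠ 0 := by exact_mod_cast h'
      rw [div_eq_div_iff h1 h2]
      constructor
      · intro h3
        have h4 : g.2 * g'.1 = g'.2 * g.1 := by exact_mod_cast h3
        linarith
      · intro h3
        have h4 : g.2 * g'.1 = g'.2 * g.1 := by linarith
        exact_mod_cast h4

lemma common (G : Finset Z2) (h0 : ∀ g ∈ G, g ≠ 0) (hG : G.Nonempty)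
    (hp : ∀ g ∈ G, ∀ g' ∈ G, det g g' = 0) : ∃ h : Z2, h ≠ 0 ∧ ∀ g ∈ G, ∃ c : ℤ, h = c • g := by
  classical
  induction G using Finset.induction_on with
  | empty => exact absurd hG (by simp)
  | insert g G hgG ih =>
    rcases G.eq_empty_or_nonempty with h1 | h1
    · subst h1
      refine ⟨g, h0 g (by simp), ?_⟩
      intro g' hg'
      have : g' = g := by simpa using hg'
      exact ⟨1, by rw [this, one_smul]⟩
    · obtain ⟨h, hh, hc⟩ := ih (fun g' hg' => h0 g' (by simp [hg'])) h1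
        (fun a ha b hb => hp a (by simp [ha]) b (by simp [hb]))
      obtain ⟨g1, hg1⟩ := h1
      obtain ⟨c1, hc1⟩ := hc g1 hg1
      have hd : det g g1 = 0 := hp g (by simp) g1 (by simp [hg1])
      have hg : g ≠ 0 := h0 g (by simp)
      have hd' : g.1 * h.2 = g.2 * h.1 := by
        rw [hc1]
        simp only [det, Prod.smul_snd, Prod.smul_fst, smul_eq_mul] at hd ⊢
        linear_combination c1 * hd
      by_cases hx : h.1 = 0
      · have hy : h.2 ≠ 0 := fun h2 => hh (Prod.ext hx h2)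
        have hg10 : g.1 = 0 := by
          rw [hx, mul_zero] at hd'
          exact (mul_eq_zero.1 hd').resolve_right hy
        have hg20 : g.2 ≠ 0 := fun h2 => hg (Prod.ext hg10 h2)
        refine ⟨h.2 • g, ?_, ?_⟩
        · intro h2
          have := congrArg Prod.snd h2
          simp [hy, hg20] at this
        · intro g' hg'
          rcases Finset.mem_insert.1 hg' with h2 | h2
          · exact ⟨h.2, by rw [h2]⟩
          · obtain ⟨c, hc⟩ := hc g' h2
            refine ⟨g.2 * c, ?_⟩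
            rw [mul_smul, ← hc]
            ext
            · simp [hg10, hx]
            · simp [mul_comm]
      · have hg10 : g.1 ≠ 0 := by
          intro h2
          rw [h2, zero_mul] at hd'
          have := (mul_eq_zero.1 hd'.symm).resolve_right hx
          exact hg (Prod.ext h2 this)
        refine ⟨h.1 • g, ?_, ?_⟩
        · intro h2
          have := congrArg Prod.fst h2
          simp [hx, hg10] at this
        · intro g' hg'
          rcases Finset.mem_insert.1 hg' with h2 | h2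
          · exact ⟨h.1, by rw [h2]⟩
          · obtain ⟨c, hc⟩ := hc g' h2
            refine ⟨g.1 * c, ?_⟩
            rw [mul_smul, ← hc]
            ext
            · simp [mul_comm]
            · simp only [Prod.smul_snd, smul_eq_mul]
              linarith

lemma per_nsmul {α : Type} {f : Z2 → α} {h : Z2} (hf : ∀ z, f (z + h) = f z) (n : ℕ) (z : Z2) :
    f (z + n • h) = f z := by
  induction n with
  | zero => simp
  | succ n ih => rw [succ_nsmul, ← add_assoc, hf, ih]

lemma per_zsmul {α : Type} {f : Z2 → α} {h : Z2} (hf : ∀ z, f (z + h) = f z) (n : ℤ) (z : Z2) :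
    f (z + n • h) = f z := by
  obtain ⟨k, rfl | rfl⟩ := n.eq_nat_or_neg
  · rw [natCast_zsmul]; exact per_nsmul hf k z
  · rw [neg_smul, natCast_zsmul]
    have := per_nsmul hf k (z + -(k • h))
    rw [neg_add_cancel_right] at this
    exact this.symm

/-- The decomposition of the tiling equation. -/
theorem decomp (F : Finset Z2) (hF : F.Nonempty) (A : Set Z2)
    (hA : ∀ z, ∑ f ∈ F, ri A (z - f) = 1) :
    ∃ (K : Finset (Option ℚ)) (h : Option ℚ → Z2) (φ : Option ℚ → Z2 → ℝ),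
      (∀ i ∈ K, h i ≠ 0) ∧ (∀ i ∈ K, ∀ j ∈ K, i ≠ j → det (h i) (h j) ≠ 0) ∧
      (∀ i ∈ K, ∀ z, 0 ≤ φ i z) ∧ (∀ i ∈ K, ∀ z, φ i (z + h i) = φ i z) ∧
      ∀ z, ri A z + ∑ i ∈ K, φ i z = 1 := by
  classical
  obtain ⟨f0, hf0⟩ := hF
  set M := F.card.factorial with hM
  have hM0 : 0 < M := Nat.factorial_pos _
  set G : Finset Z2 := (F.erase f0).image (fun f => f - f0) with hG
  have hG0 : ∀ g ∈ G, g ≠ 0 := by
    intro g hg
    rw [hG, mem_image] at hg
    obtain ⟨f, hf, rfl⟩ := hg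
    exact sub_ne_zero.2 (mem_erase.1 hf).1
  have hsum : ∀ z, ri A z + ∑ g ∈ G, av A M g z = 1 := by
    intro z
    have h1 := av_sum F A f0 hA z
    rw [← hM, ← Finset.add_sum_erase F _ hf0, sub_self, av_zero] at h1
    rw [hG, sum_image]
    · exact h1
    · intro a _ b _ hab
      exact sub_left_injective hab
  set K := G.image key with hK
  have hex : ∀ i ∈ K, ∃ h : Z2, h ≠ 0 ∧ (∀ g ∈ G, key g = i → ∃ c : ℤ, h = c • g) := by
    intro i hi
    obtain ⟨h, hh, hc⟩ := common (G.filter fun g => key g = i)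
      (fun g hg => hG0 g (mem_filter.1 hg).1)
      (by
        obtain ⟨g, hg, hgi⟩ := mem_image.1 hi
        exact ⟨g, mem_filter.2 ⟨hg, hgi⟩⟩)
      (fun g hg g' hg' => by
        rw [mem_filter] at hg hg'
        rw [← key_eq (hG0 g hg.1) (hG0 g' hg'.1), hg.2, hg'.2])
    exact ⟨h, hh, fun g hg hgi => hc g (mem_filter.2 ⟨hg, hgi⟩)⟩
  choose! h hh hc using hex
  refine ⟨K, fun i => (M : ℤ) • h i, fun i z => ∑ g ∈ G.filter (fun g => key g = i), av A M g z,
    ?_, ?_, ?_, ?_, ?_⟩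
  · intro i hi
    exact smul_ne_zero (by exact_mod_cast hM0.ne') (hh i hi)
  · intro i hi j hj hij
    obtain ⟨g, hg, hgi⟩ := mem_image.1 hi
    obtain ⟨g', hg', hgj⟩ := mem_image.1 hj
    obtain ⟨c, hc1⟩ := hc i hi g hg hgi
    obtain ⟨c', hc2⟩ := hc j hj g' hg' hgj
    have hd : det g g' ≠ 0 := by
      intro h0
      rw [← key_eq (hG0 g hg) (hG0 g' hg'), hgi, hgj] at h0
      exact hij h0
    have hc0 : c ≠ 0 := by
      intro h0
      rw [h0, zero_smul] at hc1
      exact hh i hi hc1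
    have hc0' : c' ≠ 0 := by
      intro h0
      rw [h0, zero_smul] at hc2
      exact hh j hj hc2
    have hMz : (M : ℤ) ≠ 0 := by exact_mod_cast hM0.ne'
    have e : det ((M : ℤ) • h i) ((M : ℤ) • h j) = (M * M * c * c') * det g g' := by
      rw [hc1, hc2]
      simp only [det, Prod.smul_snd, Prod.smul_fst, smul_eq_mul]
      ring
    rw [e]
    exact mul_ne_zero (mul_ne_zero (mul_ne_zero (mul_ne_zero hMz hMz) hc0) hc0') hd
  · intro i _ z
    exact sum_nonneg fun g _ => av_nonneg A M g z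
  · intro i hi z
    refine sum_congr rfl fun g hg => ?_
    rw [mem_filter] at hg
    obtain ⟨c, hc1⟩ := hc i hi g hg.1 hg.2
    have e : (M : ℤ) • h i = c • (M • g) := by
      rw [hc1, ← natCast_zsmul, smul_smul, smul_smul, mul_comm]
    change av A M g (z + (M : ℤ) • h i) = av A M g z
    rw [e]
    exact per_zsmul (f := av A M g) (av_add A M g) c z
  · intro z
    rw [← hsum z]
    congr 1
    exact sum_fiberwise_of_maps_to (fun g hg => mem_image_of_mem key hg) _

/-! ## A recurrent limit -/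

lemma exists_w {ι : Type} (K : Finset ι) (h : ι → Z2) (hh : ∀ i ∈ K, h i ≠ 0) :
    ∃ w : Z2, ∀ i ∈ K, det w (h i) ≠ 0 := by
  refine ⟨(1, 1 + ∑ i ∈ K, |(h i).2|), ?_⟩
  intro i hi h0
  have h1 : |(h i).2| ≤ ∑ i ∈ K, |(h i).2| :=
    single_le_sum (f := fun i => |(h i).2|) (fun j _ => abs_nonneg _) hi
  simp only [det, one_mul] at h0
  have h2 : (h i).2 = (1 + ∑ i ∈ K, |(h i).2|) * (h i).1 := by linarith
  by_cases hx : (h i).1 = 0
  · rw [hx, mul_zero] at h2
    exact hh i hi (Prod.ext hx h2)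
  · have h3 : 1 ≤ |(h i).1| := Int.one_le_abs hx
    have h4 : |(h i).2| = (1 + ∑ i ∈ K, |(h i).2|) * |(h i).1| := by
      conv_lhs => rw [h2]
      rw [abs_mul]
      congr 1
      have : 0 ≤ ∑ i ∈ K, |(h i).2| := sum_nonneg fun j _ => abs_nonneg _
      rw [abs_of_nonneg (by linarith)]
    have h5 : 0 ≤ ∑ i ∈ K, |(h i).2| := sum_nonneg fun j _ => abs_nonneg _
    nlinarith

/-- the data obtained in the limit -/
structure Lim (ι : Type) where
  U : Ultrafilter ℕ
  hpos : ∀ᶠ n in U, 0 < n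
  hdvd : ∀ M : ℕ, 0 < M → ∀ᶠ n in U, M ∣ n
  A : Set Z2
  w : Z2
  K : Finset ι
  h : ι → Z2
  φ : ι → Z2 → ℝ
  h0 : ∀ i ∈ K, h i ≠ 0
  hdet : ∀ i ∈ K, ∀ j ∈ K, i ≠ j → det (h i) (h j) ≠ 0
  hw : ∀ i ∈ K, det w (h i) ≠ 0
  nn : ∀ i ∈ K, ∀ z, 0 ≤ φ i z
  per : ∀ i ∈ K, ∀ z, φ i (z + h i) = φ i z
  sum1 : ∀ z, ri A z + ∑ i ∈ K, φ i z = 1
  recu : ∀ i ∈ K, ∀ z, 0 < φ i z → ∀ᶠ n : ℕ in U, 0 < φ i (z + n • w)

theorem exists_lim (F : Finset Z2) (hF : F.Nonempty) (A : Set Z2)
    (hA : ∀ z, ∑ f ∈ F, ri A (z - f) = 1) :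
    ∃ L : Lim (Option ℚ), ∀ R M : ℕ, 0 < M → ∃ n : ℕ, 0 < n ∧ M ∣ n ∧
      ∀ z : Z2, |z.1| ≤ R → |z.2| ≤ R → (z ∈ L.A ↔ z + n • L.w ∈ A) := by
  classical
  obtain ⟨K, h, φ, h0, hdet, hnn, hper, hsum⟩ := decomp F hF A hA
  obtain ⟨w, hw⟩ := exists_w K h h0
  obtain ⟨U, hU, hpos, hdvd⟩ := idem
  have hle : ∀ i ∈ K, ∀ z, 0 ≤ φ i z ∧ φ i z ≤ 1 := by
    intro i hi z
    refine ⟨hnn i hi z, ?_⟩
    have h1 := hsum z
    have h2 := ri_nonneg A z
    have h3 : φ i z ≤ ∑ i ∈ K, φ i z := single_le_sum (fun j hj => hnn j hj z) hi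
    linarith
  set A' : Set Z2 := {z | ∀ᶠ n : ℕ in U, z + n • w ∈ A} with hA'
  have hA1 : ∀ z, ∀ᶠ n : ℕ in U, (z ∈ A' ↔ z + n • w ∈ A) := by
    intro z
    by_cases hz : z ∈ A'
    · have h1 : ∀ᶠ n : ℕ in U, z + n • w ∈ A := hz
      filter_upwards [h1] with n hn
      exact ⟨fun _ => hn, fun _ => hz⟩
    · have h1 : ∀ᶠ n : ℕ in U, z + n • w ∉ A := Ultrafilter.eventually_not.2 hz
      filter_upwards [h1] with n hn
      exact ⟨fun h => absurd h hz, fun h => absurd h hn⟩
  have hri : ∀ z, Tendsto (fun n : ℕ => ri A (z + n • w)) U (nhds (ri A' z)) := by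
    intro z
    refine tendsto_const_nhds.congr' ?_
    filter_upwards [hA1 z] with n hn
    by_cases hz : z ∈ A'
    · rw [ri_mem hz, ri_mem (hn.1 hz)]
    · rw [ri_not hz, ri_not fun h => hz (hn.2 h)]
  set φ' : Option ℚ → Z2 → ℝ := fun i z => ul U (fun n => φ i (z + n • w)) with hφ'
  have ht : ∀ i ∈ K, ∀ z, Tendsto (fun n : ℕ => φ i (z + n • w)) U (nhds (φ' i z)) :=
    fun i hi z => ul_tendsto _ _ fun n => hle i hi _
  refine ⟨⟨U, hpos, hdvd, A', w, K, h, φ', h0, hdet, hw, ?_, ?_, ?_, ?_⟩, ?_⟩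
  · intro i hi z
    exact ul_nonneg _ _ fun n => hle i hi _
  · intro i hi z
    simp only [hφ']
    congr 1
    funext n
    rw [show z + h i + n • w = z + n • w + h i by abel]
    exact hper i hi _
  · intro z
    have h1 : Tendsto (fun n : ℕ => ri A (z + n • w) + ∑ i ∈ K, φ i (z + n • w)) U
        (nhds (ri A' z + ∑ i ∈ K, φ' i z)) :=
      (hri z).add (tendsto_finsetSum _ fun i hi => ht i hi z)
    simp only [hsum] at h1
    exact tendsto_nhds_unique h1 tendsto_const_nhds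
  · intro i hi z hz
    have h1 : ∀ᶠ n : ℕ in U, φ' i z / 2 < φ i (z + n • w) :=
      (ht i hi z).eventually (lt_mem_nhds (half_lt_self hz))
    have h2 := hU _ h1
    filter_upwards [h2] with n hn
    have h3 : φ' i z / 2 ≤ φ' i (z + n • w) := by
      apply ge_of_tendsto (ht i hi (z + n • w))
      filter_upwards [hn] with m hm
      rw [add_smul, ← add_assoc] at hm
      exact hm.le
    have h4 : 0 < φ' i z / 2 := half_pos hz
    exact lt_of_lt_of_le h4 h3
  · intro R M hM
    have h1 : ∀ᶠ n : ℕ in U, ∀ z ∈ (Finset.Icc (-(R : ℤ)) R ×ˢ Finset.Icc (-(R : ℤ)) R),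
        (z ∈ A' ↔ z + n • w ∈ A) := by
      rw [Filter.eventually_all_finset]
      intro z _
      exact hA1 z
    obtain ⟨n, hn, hn1, hn2⟩ := (h1.and (hpos.and (hdvd M hM))).exists
    refine ⟨n, hn1, hn2, ?_⟩
    intro z hz1 hz2
    apply hn
    rw [mem_product, mem_Icc, mem_Icc]
    exact ⟨abs_le.1 hz1, abs_le.1 hz2⟩

/-! ## Iterated differences -/

/-- iterated difference -/
def dl : List Z2 → (Z2 → ℝ) → Z2 → ℝ
  | [], g, z => g z
  | v :: l, g, z => dl l g (z + v) - dl l g z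

/-- positivity on a cube -/
def pc : List Z2 → (Z2 → Prop) → Z2 → Prop
  | [], P, z => P z
  | v :: l, P, z => pc l P z ∧ pc l P (z + v)

lemma dl_congr (l : List Z2) (P : Z2 → Prop) (g g' : Z2 → ℝ) (h : ∀ z, P z → g z = g' z)
    (z : Z2) (hz : pc l P z) : dl l g z = dl l g' z := by
  induction l generalizing z with
  | nil => exact h z hz
  | cons v l ih =>
    simp only [dl]
    rw [ih _ hz.1, ih _ hz.2]

lemma dl_sum {ι : Type} (l : List Z2) (K : Finset ι) (g : ι → Z2 → ℝ) (z : Z2) :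
    dl l (fun z => ∑ i ∈ K, g i z) z = ∑ i ∈ K, dl l (g i) z := by
  induction l generalizing z with
  | nil => rfl
  | cons v l ih =>
    simp only [dl]
    rw [ih, ih, ← sum_sub_distrib]

lemma dl_per (l : List Z2) (g : Z2 → ℝ) (h : Z2) (hg : ∀ z, g (z + h) = g z) (z : Z2) :
    dl l g (z + h) = dl l g z := by
  induction l generalizing z with
  | nil => exact hg z
  | cons v l ih =>
    simp only [dl]
    rw [show z + h + v = z + v + h by abel, ih, ih]

lemma dl_zero (l : List Z2) (z : Z2) : dl l (fun _ => 0) z = 0 := by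
  induction l generalizing z with
  | nil => rfl
  | cons v l ih => simp only [dl]; rw [ih, ih, sub_self]

lemma dl_kill (l : List Z2) (g : Z2 → ℝ) (v : Z2) (hv : v ∈ l) (hg : ∀ z, g (z + v) = g z)
    (z : Z2) : dl l g z = 0 := by
  induction l generalizing z with
  | nil => exact absurd hv (by simp)
  | cons v' l ih =>
    simp only [dl]
    rcases List.mem_cons.1 hv with h | h
    · subst h
      rw [dl_per l g v hg, sub_self]
    · rw [ih h, ih h, sub_self]

lemma pc_per (l : List Z2) (P : Z2 → Prop) (h : Z2) (hP : ∀ z, P (z + h) ↔ P z) (z : Z2) :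
    pc l P (z + h) ↔ pc l P z := by
  induction l generalizing z with
  | nil => exact hP z
  | cons v l ih =>
    simp only [pc]
    rw [show z + h + v = z + v + h by abel, ih, ih]

lemma pc_rec (l : List Z2) (P : Z2 → Prop) (U : Ultrafilter ℕ) (w : Z2)
    (hP : ∀ z, P z → ∀ᶠ n : ℕ in U, P (z + n • w)) (z : Z2) (hz : pc l P z) :
    ∀ᶠ n : ℕ in U, pc l P (z + n • w) := by
  induction l generalizing z with
  | nil => exact hP z hz
  | cons v l ih =>
    filter_upwards [ih z hz.1, ih (z + v) hz.2] with n h1 h2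
    refine ⟨h1, ?_⟩
    rw [show z + n • w + v = z + v + n • w by abel]
    exact h2

/-- one dimensional iterated difference -/
def d1 : List ℤ → (ℤ → ℝ) → ℤ → ℝ
  | [], f, s => f s
  | b :: l, f, s => d1 l f (s + b) - d1 l f s

lemma d1_swap (l : List ℤ) (b : ℤ) (f : ℤ → ℝ) (s : ℤ) :
    d1 l (fun s => f (s + b) - f s) s = d1 l f (s + b) - d1 l f s := by
  induction l generalizing s with
  | nil => rfl
  | cons c l ih =>
    simp only [d1]
    rw [ih, ih, show s + c + b = s + b + c by abel]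
    ring

lemma step_sum (f g : ℤ → ℝ) (b : ℤ) (hg : ∀ s, g s = f (s + b) - f s) (s : ℤ) (n : ℕ) :
    f (s + n * b) = f s + ∑ i ∈ range n, g (s + i * b) := by
  induction n with
  | zero => simp
  | succ n ih =>
    rw [sum_range_succ, ← add_assoc, ← ih, hg]
    have e : s + ((n + 1 : ℕ) : ℤ) * b = s + n * b + b := by push_cast; ring
    rw [e]
    ring

lemma per1u (l : List ℤ) (hl : ∀ b ∈ l, b ≠ 0) : ∃ B : ℕ, 0 < B ∧
    ∀ (f : ℤ → ℝ) (C κ : ℝ), (∀ s, |f s| ≤ C) → (∀ s, d1 l f s = κ) → ∀ s, f (s + B) = f s := by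
  induction l with
  | nil =>
    refine ⟨1, one_pos, fun f C κ hf h s => ?_⟩
    have h1 : ∀ s, f s = κ := h
    rw [h1, h1]
  | cons b l ih =>
    obtain ⟨B, hB, hBu⟩ := ih (fun c hc => hl c (by simp [hc]))
    have hbb : b ≠ 0 := hl b (by simp)
    refine ⟨B * b.natAbs, Nat.mul_pos hB (Int.natAbs_pos.2 hbb), ?_⟩
    intro f C κ hf h
    set g : ℤ → ℝ := fun s => f (s + b) - f s with hg
    have hgC : ∀ s, |g s| ≤ C + C := by
      intro s
      have := abs_sub (f (s + b)) (f s)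
      have h1 := hf (s + b)
      have h2 := hf s
      simp only [hg]
      linarith
    have hgd : ∀ s, d1 l g s = κ := by
      intro s
      rw [hg, d1_swap]
      exact h s
    have hBp := hBu g (C + C) κ hgC hgd
    have hBz : ∀ (n : ℤ) (s : ℤ), g (s + n * B) = g s := by
      intro n s
      induction n using Int.induction_on generalizing s with
      | zero => simp
      | succ i ih2 =>
        rw [show s + ((i : ℤ) + 1) * B = (s + i * B) + B by ring, hBp, ih2]
      | pred i ih2 =>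
        rw [← hBp, show s + (-(i : ℤ) - 1) * B + B = s + (-(i : ℤ)) * B by ring, ih2]
    -- the sum over one period
    set S : ℤ → ℝ := fun s => ∑ i ∈ range B, g (s + i * b) with hS
    have hfS : ∀ s, f (s + B * b) = f s + S s := fun s => step_sum f g b (fun _ => rfl) s B
    have hSp : ∀ s, S (s + B * b) = S s := by
      intro s
      simp only [hS]
      refine sum_congr rfl fun i _ => ?_
      rw [show s + (B : ℤ) * b + i * b = s + i * b + b * B by ring, hBz]
    have hfn : ∀ (n : ℕ) (s : ℤ), f (s + n * (B * b)) = f s + n * S s := by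
      intro n s
      induction n with
      | zero => simp
      | succ n ih2 =>
        have e : s + ((n + 1 : ℕ) : ℤ) * (B * b) = s + n * (B * b) + B * b := by push_cast; ring
        rw [e, hfS, ih2]
        have hSn : S (s + n * (B * b)) = S s := by
          clear ih2 e
          induction n with
          | zero => simp
          | succ n ih3 =>
            rw [show s + ((n + 1 : ℕ) : ℤ) * (B * b) = s + n * (B * b) + B * b by push_cast; ring,
              hSp, ih3]
        rw [hSn]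
        push_cast
        ring
    have hS0 : ∀ s, S s = 0 := by
      intro s
      by_contra hne
      obtain ⟨n, hn⟩ := exists_nat_gt ((C + C) / |S s|)
      have hpos : 0 < |S s| := abs_pos.2 hne
      rw [div_lt_iff₀ hpos] at hn
      have h1 := hfn n s
      have h2 : |(n : ℝ) * S s| ≤ C + C := by
        have : (n : ℝ) * S s = f (s + n * (B * b)) - f s := by rw [h1]; ring
        rw [this]
        have h3 := abs_sub (f (s + n * (B * b))) (f s)
        have h4 := hf (s + n * (B * b))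
        have h5 := hf s
        linarith
      rw [abs_mul, Nat.abs_cast] at h2
      linarith
    have hp : ∀ s, f (s + B * b) = f s := by
      intro s
      rw [hfS, hS0, add_zero]
    intro s
    rcases Int.natAbs_eq b with h1 | h1
    · rw [Nat.cast_mul, ← h1]
      exact hp s
    · have h2 : (b.natAbs : ℤ) = -b := by linarith
      rw [Nat.cast_mul, h2]
      have := hp (s + B * -b)
      rw [show s + (B : ℤ) * -b + B * b = s by ring] at this
      exact this.symm

lemma per1 (l : List ℤ) (hl : ∀ b ∈ l, b ≠ 0) (f : ℤ → ℝ) (C κ : ℝ) (hf : ∀ s, |f s| ≤ C)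
    (h : ∀ s, d1 l f s = κ) : ∃ B : ℕ, 0 < B ∧ ∀ s, f (s + B) = f s := by
  obtain ⟨B, hB, hBp⟩ := per1u l hl
  exact ⟨B, hB, hBp f C κ hf h⟩

/-! ## The structure of the limit -/

section main

variable {ι : Type} [DecidableEq ι] (L : Lim ι)

lemma iff_per {P : Z2 → Prop} {h : Z2} (hP : ∀ z, P (z + h) ↔ P z) (n : ℤ) (z : Z2) :
    P (z + n • h) ↔ P z := by
  have h1 : ∀ z, P (z + h) = P z := fun z => propext (hP z)
  exact iff_of_eq (per_zsmul h1 n z)

omit [DecidableEq ι] in
lemma Lim.pper {i : ι} (hi : i ∈ L.K) (n : ℤ) (z : Z2) :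
    0 < L.φ i (z + n • L.h i) ↔ 0 < L.φ i z := by
  rw [per_zsmul (L.per i hi) n z]

/-- the vector with given coordinates -/
def vec (a b : Z2) (p : ℤ × ℤ) : Z2 := p.1 • a + p.2 • b

lemma Lim.build {i j0 : ι} (hi : i ∈ L.K) (hj0 : j0 ∈ L.K) (hij : i ≠ j0) (z1 : Z2)
    (hz1 : 0 < L.φ i z1) (J : Finset ι) (hJ : ∀ j ∈ J, j ∈ L.K ∧ j ≠ i ∧ j ≠ j0) :
    ∃ T : List (ℤ × ℤ), (∀ p ∈ T, p.1 ≠ 0) ∧
      (∀ j ∈ J, ∃ p ∈ T, ∃ a : ℤ, vec (L.h i) (L.h j0) p = a • L.h j) ∧
      pc (T.map (vec (L.h i) (L.h j0))) (fun z => 0 < L.φ i z) z1 := by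
  induction J using Finset.induction_on with
  | empty => exact ⟨[], by simp, by simp, hz1⟩
  | insert j J hjJ ih =>
    obtain ⟨T, hT1, hT2, hT3⟩ := ih fun k hk => hJ k (by simp [hk])
    obtain ⟨hj, hji, hjj0⟩ := hJ j (by simp)
    have hd1 : det (L.h j) (L.h i) ≠ 0 := L.hdet j hj i hi hji
    have hd2 : det (L.h i) (L.h j0) ≠ 0 := L.hdet i hi j0 hj0 hij
    have hd3 : det (L.h j) (L.h j0) ≠ 0 := L.hdet j hj j0 hj0 hjj0
    have hrec := pc_rec (T.map (vec (L.h i) (L.h j0))) (fun z => 0 < L.φ i z) L.U L.w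
      (fun z hz => L.recu i hi z hz) z1 hT3
    have hD : 0 < (det (L.h j) (L.h i) * det (L.h i) (L.h j0)).natAbs :=
      Int.natAbs_pos.2 (mul_ne_zero hd1 hd2)
    obtain ⟨n, hn1, hn2, hn3⟩ := (hrec.and (L.hpos.and (L.hdvd _ hD))).exists
    have hn4 : (det (L.h j) (L.h i) * det (L.h i) (L.h j0)) ∣ (n : ℤ) := by
      rw [← Int.natAbs_dvd]
      exact_mod_cast hn3
    obtain ⟨t, ht⟩ := hn4
    have ht0 : t ≠ 0 := by
      intro h0
      rw [h0, mul_zero] at ht
      have : n = 0 := by exact_mod_cast ht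
      omega
    set p : ℤ × ℤ := (t * det L.w (L.h i) * det (L.h j) (L.h j0),
      t * det L.w (L.h i) * det (L.h i) (L.h j)) with hp
    have hv : vec (L.h i) (L.h j0) p =
        (t * det L.w (L.h i) * det (L.h i) (L.h j0)) • L.h j := by
      rw [mul_smul _ (det (L.h i) (L.h j0)), cram (L.h i) (L.h j0) (L.h j), smul_add, smul_smul,
        smul_smul, vec, hp]
    have hnw : (n : ℤ) • L.w = vec (L.h i) (L.h j0) p +
        (det (L.h i) (L.h j0) * t * det (L.h j) L.w) • L.h i := by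
      rw [hv, ht, show det (L.h j) (L.h i) * det (L.h i) (L.h j0) * t =
        (det (L.h i) (L.h j0) * t) * det (L.h j) (L.h i) by ring, mul_smul _ (det (L.h j) (L.h i)),
        cram (L.h j) (L.h i) L.w, smul_add, smul_smul, smul_smul]
      congr 2
      ring
    refine ⟨p :: T, ?_, ?_, ?_⟩
    · intro q hq
      rcases List.mem_cons.1 hq with h | h
      · subst h
        exact mul_ne_zero (mul_ne_zero ht0 (L.hw i hi)) hd3
      · exact hT1 q h
    · intro k hk
      rcases Finset.mem_insert.1 hk with h | h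
      · subst h
        exact ⟨p, by simp, _, hv⟩
      · obtain ⟨q, hq, a, ha⟩ := hT2 k h
        exact ⟨q, by simp [hq], a, ha⟩
    · rw [List.map_cons]
      refine ⟨hT3, ?_⟩
      rw [← natCast_zsmul, hnw, ← add_assoc] at hn1
      exact (pc_per _ _ _ (fun z => L.pper hi _ z) _).1 hn1

lemma dl_d1 (T : List (ℤ × ℤ)) (a b : Z2) (g : Z2 → ℝ) (hg : ∀ z, g (z + b) = g z) (z : Z2)
    (s : ℤ) : dl (T.map (vec a b)) g (z + s • a) =
      d1 (T.map Prod.fst) (fun s => g (z + s • a)) s := by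
  induction T generalizing s with
  | nil => rfl
  | cons p T ih =>
    simp only [List.map_cons, dl, d1]
    have e : z + s • a + vec a b p = z + (s + p.1) • a + p.2 • b := by
      rw [vec, add_smul]
      abel
    rw [e, dl_per _ g (p.2 • b) (fun z => per_zsmul hg _ z), ih, ih]

omit [DecidableEq ι] in
lemma Lim.one_on {i : ι} (hi : i ∈ L.K) (z : Z2) (hz : 0 < L.φ i z) :
    ∑ k ∈ L.K, L.φ k z = 1 := by
  have h1 := L.sum1 z
  by_cases hA : z ∈ L.A
  · rw [ri_mem hA] at h1
    have h3 : L.φ i z ≤ ∑ k ∈ L.K, L.φ k z :=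
      single_le_sum (f := fun k => L.φ k z) (fun j hj => L.nn j hj z) hi
    linarith
  · rw [ri_not hA] at h1
    linarith

omit [DecidableEq ι] in
lemma Lim.le_one {i : ι} (hi : i ∈ L.K) (z : Z2) : |L.φ i z| ≤ 1 := by
  have h1 := L.sum1 z
  have h2 := ri_nonneg L.A z
  have h3 : L.φ i z ≤ ∑ k ∈ L.K, L.φ k z :=
    single_le_sum (f := fun k => L.φ k z) (fun j hj => L.nn j hj z) hi
  rw [abs_of_nonneg (L.nn i hi z)]
  linarith

lemma Lim.line {i j0 : ι} (hi : i ∈ L.K) (hj0 : j0 ∈ L.K) (hij : i ≠ j0) (z1 : Z2)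
    (hz1 : 0 < L.φ i z1) :
    ∃ B : ℕ, 0 < B ∧ ∀ s : ℤ, L.φ j0 (z1 + (s + B) • L.h i) = L.φ j0 (z1 + s • L.h i) := by
  obtain ⟨T, hT1, hT2, hT3⟩ := L.build hi hj0 hij z1 hz1 ((L.K.erase i).erase j0) (by
    intro j hj
    rw [mem_erase, mem_erase] at hj
    exact ⟨hj.2.2, hj.2.1, hj.1⟩)
  set l := T.map (vec (L.h i) (L.h j0)) with hl
  have hpc : ∀ s : ℤ, pc l (fun z => 0 < L.φ i z) (z1 + s • L.h i) := fun s =>
    (pc_per _ _ _ (fun z => L.pper hi _ z) _).2 hT3
  set κ : ℝ := dl l (fun _ => 1) z1 - dl l (L.φ i) z1 with hκ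
  have key : ∀ s : ℤ, dl l (L.φ j0) (z1 + s • L.h i) = κ := by
    intro s
    have h1 : dl l (fun z => ∑ k ∈ L.K, L.φ k z) (z1 + s • L.h i) =
        dl l (fun _ => 1) (z1 + s • L.h i) :=
      dl_congr l _ _ _ (fun z hz => L.one_on hi z hz) _ (hpc s)
    rw [dl_sum, dl_per l (fun _ => 1) (s • L.h i) (fun _ => rfl)] at h1
    rw [← Finset.add_sum_erase L.K _ hi,
      ← Finset.add_sum_erase (L.K.erase i) _ (mem_erase.2 ⟨hij.symm, hj0⟩),
      dl_per l (L.φ i) (s • L.h i) (fun z => per_zsmul (L.per i hi) s z)] at h1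
    have h2 : ∑ k ∈ (L.K.erase i).erase j0, dl l (L.φ k) (z1 + s • L.h i) = 0 := by
      apply sum_eq_zero
      intro k hk
      obtain ⟨p, hp, a, ha⟩ := hT2 k hk
      have hkK : k ∈ L.K := (mem_erase.1 (mem_erase.1 hk).2).2
      apply dl_kill l _ (vec (L.h i) (L.h j0) p) (List.mem_map_of_mem hp)
      intro z
      rw [ha]
      exact per_zsmul (L.per k hkK) a z
    rw [h2] at h1
    rw [hκ]
    linarith
  obtain ⟨B, hB, hBp⟩ := per1 (T.map Prod.fst)
    (fun b hb => by
      obtain ⟨p, hp, rfl⟩ := List.mem_map.1 hb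
      exact hT1 p hp)
    (fun s => L.φ j0 (z1 + s • L.h i)) 1 κ (fun s => L.le_one hj0 _)
    (fun s => by
      rw [← dl_d1 T (L.h i) (L.h j0) (L.φ j0) (L.per j0 hj0) z1 s]
      exact key s)
  exact ⟨B, hB, hBp⟩

lemma Lim.cls {i j0 : ι} (hi : i ∈ L.K) (hj0 : j0 ∈ L.K) (hij : i ≠ j0) (z1 : Z2)
    (hz1 : 0 < L.φ i z1) (D : ℕ) (hD : det (L.h i) (L.h j0) ∣ (D : ℤ)) :
    ∃ B : ℕ, 0 < B ∧ ∀ y u : Z2,
      L.φ j0 (z1 + (D : ℤ) • y + ((B * D : ℕ) : ℤ) • u) = L.φ j0 (z1 + (D : ℤ) • y) := by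
  obtain ⟨B, hB, hBp⟩ := L.line hi hj0 hij z1 hz1
  obtain ⟨e, he⟩ := hD
  have hform : ∀ y : Z2, L.φ j0 (z1 + (D : ℤ) • y) =
      L.φ j0 (z1 + (e * det y (L.h j0)) • L.h i) := by
    intro y
    have e1 : z1 + (D : ℤ) • y = z1 + (e * det y (L.h j0)) • L.h i +
        (e * det (L.h i) y) • L.h j0 := by
      rw [he, mul_comm, mul_smul, cram (L.h i) (L.h j0) y, smul_add, smul_smul, smul_smul]
      abel
    rw [e1, per_zsmul (L.per j0 hj0)]
  have hBz : ∀ (n s : ℤ), L.φ j0 (z1 + (s + n * B) • L.h i) = L.φ j0 (z1 + s • L.h i) := by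
    intro n s
    induction n using Int.induction_on generalizing s with
    | zero => simp
    | succ k ih =>
      rw [show s + ((k : ℤ) + 1) * B = (s + k * B) + B by ring, hBp, ih]
    | pred k ih =>
      rw [← hBp, show s + (-(k : ℤ) - 1) * B + B = s + (-(k : ℤ)) * B by ring, ih]
  refine ⟨B, hB, ?_⟩
  intro y u
  have e1 : z1 + (D : ℤ) • y + ((B * D : ℕ) : ℤ) • u = z1 + (D : ℤ) • (y + (B : ℤ) • u) := by
    rw [smul_add, smul_smul, ← add_assoc]
    congr 2
    push_cast
    ring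
  rw [e1, hform, hform]
  have e2 : e * det (y + (B : ℤ) • u) (L.h j0) =
      e * det y (L.h j0) + (e * det u (L.h j0)) * B := by
    simp only [det, Prod.fst_add, Prod.snd_add, Prod.smul_fst, Prod.smul_snd, smul_eq_mul]
    ring
  rw [e2, hBz]

/-- every class has a period -/
theorem Lim.final : ∃ D : ℕ, 0 < D ∧ ∀ r : Z2, ∃ g : Z2, g ≠ 0 ∧
    ∀ y : Z2, (r + (D : ℤ) • y ∈ L.A ↔ r + (D : ℤ) • y + (D : ℤ) • g ∈ L.A) := by
  set D : ℕ := ∏ p ∈ L.K.offDiag, (det (L.h p.1) (L.h p.2)).natAbs with hDdef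
  have hD : 0 < D := by
    apply prod_pos
    intro p hp
    rw [mem_offDiag] at hp
    exact Int.natAbs_pos.2 (L.hdet _ hp.1 _ hp.2.1 hp.2.2)
  have hdvd : ∀ i ∈ L.K, ∀ j ∈ L.K, i ≠ j → det (L.h i) (L.h j) ∣ (D : ℤ) := by
    intro i hi j hj hij
    rw [← Int.natAbs_dvd]
    have h1 : (det (L.h i) (L.h j)).natAbs ∣ D :=
      dvd_prod_of_mem (fun p : ι × ι => (det (L.h p.1) (L.h p.2)).natAbs)
        (mem_offDiag.2 ⟨hi, hj, hij⟩ : (i, j) ∈ L.K.offDiag)
    exact_mod_cast h1
  have hmem : ∀ z z' : Z2, (∀ k ∈ L.K, L.φ k z' = L.φ k z) → (z ∈ L.A ↔ z' ∈ L.A) := by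
    intro z z' h
    have h1 := L.sum1 z
    have h2 := L.sum1 z'
    rw [sum_congr rfl h] at h2
    have h3 : ri L.A z = ri L.A z' := by linarith
    by_cases hz : z ∈ L.A
    · by_cases hz' : z' ∈ L.A
      · exact ⟨fun _ => hz', fun _ => hz⟩
      · rw [ri_mem hz, ri_not hz'] at h3
        norm_num at h3
    · by_cases hz' : z' ∈ L.A
      · rw [ri_not hz, ri_mem hz'] at h3
        norm_num at h3
      · exact ⟨fun h => absurd h hz, fun h => absurd h hz'⟩
  refine ⟨D, hD, ?_⟩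
  intro r
  by_cases h2 : ∃ i ∈ L.K, ∃ j ∈ L.K, i ≠ j ∧ (∃ y : Z2, 0 < L.φ i (r + (D : ℤ) • y)) ∧
      (∃ y : Z2, 0 < L.φ j (r + (D : ℤ) • y))
  · obtain ⟨i, hi, j, hj, hij, ⟨y1, hy1⟩, ⟨y2, hy2⟩⟩ := h2
    have hex : ∀ k ∈ L.K, ∃ B : ℕ, 0 < B ∧ ∀ y u : Z2,
        L.φ k (r + (D : ℤ) • y + ((B * D : ℕ) : ℤ) • u) = L.φ k (r + (D : ℤ) • y) := by
      intro k hk
      have main : ∀ i ∈ L.K, i ≠ k → ∀ y1 : Z2, 0 < L.φ i (r + (D : ℤ) • y1) →
          ∃ B : ℕ, 0 < B ∧ ∀ y u : Z2,
          L.φ k (r + (D : ℤ) • y + ((B * D : ℕ) : ℤ) • u) = L.φ k (r + (D : ℤ) • y) := by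
        intro i hi hik y1 hy1
        obtain ⟨B, hB, hBp⟩ := L.cls hi hk hik _ hy1 D (hdvd i hi k hk hik)
        refine ⟨B, hB, ?_⟩
        intro y u
        have := hBp (y - y1) u
        rw [show r + (D : ℤ) • y1 + (D : ℤ) • (y - y1) = r + (D : ℤ) • y by
          rw [smul_sub]; abel] at this
        exact this
      by_cases hik : i = k
      · exact main j hj (fun h => hij (hik.trans h.symm)) y2 hy2
      · exact main i hi hik y1 hy1
    choose! B hB hBp using hex
    set N : ℕ := ∏ k ∈ L.K, B k with hN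
    have hN0 : 0 < N := prod_pos fun k hk => hB k hk
    refine ⟨((N : ℤ), 0), ?_, ?_⟩
    · intro h0
      have := congrArg Prod.fst h0
      simp only [Prod.fst_zero] at this
      omega
    · intro y
      apply hmem
      intro k hk
      obtain ⟨c, hc⟩ := dvd_prod_of_mem B hk
      rw [← hN] at hc
      have := hBp k hk y ((c : ℤ), 0)
      rw [← this]
      congr 2
      ext
      · simp only [Prod.smul_fst, smul_eq_mul]
        rw [hc]
        push_cast
        ring
      · simp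
  · push Not at h2
    by_cases h3 : ∃ i ∈ L.K, ∃ y : Z2, 0 < L.φ i (r + (D : ℤ) • y)
    · obtain ⟨i, hi, y1, hy1⟩ := h3
      refine ⟨L.h i, L.h0 i hi, ?_⟩
      intro y
      apply hmem
      intro k hk
      by_cases hik : i = k
      · subst hik
        exact per_zsmul (L.per i hi) _ _
      · have h4 := h2 i hi k hk hik ⟨y1, hy1⟩
        have h5 : ∀ y, L.φ k (r + (D : ℤ) • y) = 0 := fun y => le_antisymm (h4 y) (L.nn k hk _)
        rw [h5, add_assoc, ← smul_add, h5]
    · push Not at h3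
      refine ⟨(1, 0), by simp, ?_⟩
      intro y
      apply hmem
      intro k hk
      have h5 : ∀ y, L.φ k (r + (D : ℤ) • y) = 0 := fun y =>
        le_antisymm (h3 k hk y) (L.nn k hk _)
      rw [h5, add_assoc, ← smul_add, h5]

end main

/-- **Weak periodicity.**  For a tiling of `ℤ²` by translates of a finite set, some limit of
translates by positive multiples of one vector `w` (multiples divisible by any given number)
has a nonzero period on every class modulo some `m`. -/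
theorem gtw (F : Finset (ℤ × ℤ)) (hF : F.Nonempty) (A : Set (ℤ × ℤ))
    (hA : ∀ z : ℤ × ℤ, ∃! f, f ∈ F ∧ z - f ∈ A) :
    ∃ (w : ℤ × ℤ) (A' : Set (ℤ × ℤ)) (m : ℕ), 0 < m ∧
      (∀ R M : ℕ, 0 < M → ∃ n : ℕ, 0 < n ∧ M ∣ n ∧
        ∀ z : ℤ × ℤ, |z.1| ≤ R → |z.2| ≤ R → (z ∈ A' ↔ z + n • w ∈ A)) ∧
      ∀ r : ℤ × ℤ, ∃ h : ℤ × ℤ, h ≠ 0 ∧ (m : ℤ) ∣ h.1 ∧ (m : ℤ) ∣ h.2 ∧
        ∀ z : ℤ × ℤ, (m : ℤ) ∣ z.1 - r.1 → (m : ℤ) ∣ z.2 - r.2 → (z ∈ A' ↔ z + h ∈ A') := by
  classical
  have hsum : ∀ z, ∑ f ∈ F, ri A (z - f) = 1 := by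
    intro z
    obtain ⟨f, ⟨hf, hfA⟩, huniq⟩ := hA z
    rw [sum_eq_single_of_mem f hf, ri_mem hfA]
    intro g hg hgf
    exact ri_not fun h => hgf (huniq g ⟨hg, h⟩)
  obtain ⟨L, hL⟩ := exists_lim F hF A hsum
  obtain ⟨D, hD, hfin⟩ := L.final
  refine ⟨L.w, L.A, D, hD, hL, ?_⟩
  intro r
  obtain ⟨g, hg, hgp⟩ := hfin r
  refine ⟨(D : ℤ) • g, smul_ne_zero (by exact_mod_cast hD.ne') hg, ?_, ?_, ?_⟩
  · exact ⟨g.1, rfl⟩
  · exact ⟨g.2, rfl⟩
  · intro z hz1 hz2
    obtain ⟨y1, hy1⟩ := hz1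
    obtain ⟨y2, hy2⟩ := hz2
    have e : z = r + (D : ℤ) • ((y1, y2) : Z2) := by
      ext
      · simp only [Prod.fst_add, Prod.smul_fst, smul_eq_mul]
        linarith
      · simp only [Prod.snd_add, Prod.smul_snd, smul_eq_mul]
        linarith
    rw [e]
    exact hgp (y1, y2)

end Pool.Agent.PTR.GT
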