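import Pool.Agent.PTR.Rho
import Pool.Agent.PTR.Deform
import Pool.Agent.PTR.GT

set_option autoImplicit false

/-!
# The one lattice case: rational deformation to `ℤ²` and back
-/

namespace Pool.Agent.PTR.RD

open Pool.Agent.PTR.OL

/-- The weak periodicity theorem in `ℤ²` (in the form of a limit). -/
def GTW : Prop := ∀ F : Finset (ℤ × ℤ), F.Nonempty → ∀ A : Set (ℤ × ℤ),
  (∀ z, ∃! f, f ∈ F ∧ z - f ∈ A) → ∃ (w : ℤ × ℤ) (A' : Set (ℤ × ℤ)) (m : ℤ), 0 < m ∧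
    (∀ R M : ℤ, 0 < M → ∃ n : ℤ, 0 < n ∧ M ∣ n ∧
      ∀ z : ℤ × ℤ, |z.1| ≤ R → |z.2| ≤ R → (z ∈ A' ↔ z + n • w ∈ A)) ∧
    ∀ r : ℤ × ℤ, ∃ h : ℤ × ℤ, h ≠ 0 ∧ m ∣ h.1 ∧ m ∣ h.2 ∧
      ∀ z : ℤ × ℤ, m ∣ z.1 - r.1 → m ∣ z.2 - r.2 → (z ∈ A' ↔ z + h ∈ A')

/-- the set `X + ℤ a + ℤ b` -/
def GG (X : Finset V) (a b : V) : Set V := {v | ∃ x ∈ X, ∃ i j : ℤ, v = x + i • a + j • b}

/-- the vector with integer coordinates -/
def toV (z : ℤ × ℤ) : V := ((z.1 : ℝ), (z.2 : ℝ))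

theorem toV_inj {z z' : ℤ × ℤ} (h : toV z = toV z') : z = z' := by
  have h1 : (z.1 : ℝ) = z'.1 := congrArg Prod.fst h
  have h2 : (z.2 : ℝ) = z'.2 := congrArg Prod.snd h
  exact Prod.ext (by exact_mod_cast h1) (by exact_mod_cast h2)

theorem toV_add (z z' : ℤ × ℤ) : toV (z + z') = toV z + toV z' := by
  unfold toV
  refine Prod.ext ?_ ?_
  · simp only [Prod.fst_add, Int.cast_add]
  · simp only [Prod.snd_add, Int.cast_add]

theorem toV_sub (z z' : ℤ × ℤ) : toV (z - z') = toV z - toV z' := by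
  unfold toV
  refine Prod.ext ?_ ?_
  · simp only [Prod.fst_sub, Int.cast_sub]
  · simp only [Prod.snd_sub, Int.cast_sub]

/-- the image of a vector -/
def pm (σ : ℝ →+ ℝ) (v : V) : V := (σ v.1, σ v.2)

theorem pm_add (σ : ℝ →+ ℝ) (u v : V) : pm σ (u + v) = pm σ u + pm σ v := by
  unfold pm
  simp only [Prod.fst_add, Prod.snd_add, map_add, Prod.mk_add_mk]

theorem pm_zsmul (σ : ℝ →+ ℝ) (n : ℤ) (u : V) : pm σ (n • u) = n • pm σ u :=
  map_zsmul (AddMonoidHom.mk' (pm σ) (pm_add σ)) n u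

theorem toV_zsmul (n : ℤ) (z : ℤ × ℤ) : toV (n • z) = n • toV z :=
  map_zsmul (AddMonoidHom.mk' toV toV_add) n z

/-- the integer point of an (integral) image -/
noncomputable def zz (σ : ℝ →+ ℝ) (v : V) : ℤ × ℤ := (⌊σ v.1⌋, ⌊σ v.2⌋)

theorem zz_eq {σ : ℝ →+ ℝ} {v : V} {z : ℤ × ℤ} (h : pm σ v = toV z) : zz σ v = z := by
  unfold pm toV at h
  have h1 := congrArg Prod.fst h
  have h2 := congrArg Prod.snd h
  simp only at h1 h2
  unfold zz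
  rw [h1, h2, Int.floor_intCast, Int.floor_intCast]

/-- integral vectors -/
def Iv (σ : ℝ →+ ℝ) (v : V) : Prop := pm σ v = toV (zz σ v)

theorem Iv.mk' {σ : ℝ →+ ℝ} {v : V} {z : ℤ × ℤ} (h : pm σ v = toV z) : Iv σ v := by
  unfold Iv
  rw [zz_eq h, h]

theorem lin_eq {σ : ℝ →+ ℝ} {x a b : V} (hx : Iv σ x) (ha : Iv σ a) (hb : Iv σ b) (i j : ℤ) :
    pm σ (x + i • a + j • b) = toV (zz σ x + i • zz σ a + j • zz σ b) := by
  rw [pm_add, pm_add, pm_zsmul, pm_zsmul, hx, ha, hb, toV_add, toV_add, toV_zsmul, toV_zsmul]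

/-- common denominators -/
theorem exists_den (ρ : ℝ →ₗ[ℚ] ℚ) (W : Finset ℝ) :
    ∃ q : ℕ, 0 < q ∧ ∀ s ∈ W, ∃ k : ℤ, (q : ℝ) * (ρ s : ℝ) = k := by
  classical
  refine ⟨∏ s ∈ W, (ρ s).den, Finset.prod_pos fun s _ => (ρ s).pos, fun s hs => ?_⟩
  obtain ⟨c, hc⟩ := Finset.dvd_prod_of_mem (fun s => (ρ s).den) hs
  refine ⟨(ρ s).num * c, ?_⟩
  rw [hc]
  have h1 : (ρ s : ℝ) * ((ρ s).den : ℝ) = ((ρ s).num : ℝ) := by
    have h2 : ρ s * ((ρ s).den : ℚ) = ((ρ s).num : ℚ) := Rat.mul_den_eq_num (ρ s)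
    exact_mod_cast h2
  push_cast
  calc ((ρ s).den : ℝ) * (c : ℝ) * (ρ s : ℝ) = (ρ s : ℝ) * ((ρ s).den : ℝ) * (c : ℝ) := by ring
    _ = _ := by rw [h1]

/-- the integral dilate of a rational map -/
noncomputable def sg (ρ : ℝ →ₗ[ℚ] ℚ) (q : ℕ) : ℝ →+ ℝ :=
  AddMonoidHom.mk' (fun s => (q : ℝ) * (ρ s : ℝ)) fun s t => by
    rw [map_add, Rat.cast_add, mul_add]

theorem sg_apply (ρ : ℝ →ₗ[ℚ] ℚ) (q : ℕ) (s : ℝ) : sg ρ q s = (q : ℝ) * (ρ s : ℝ) := rfl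

/-- coefficients are bounded on bounded sets -/
theorem coeff_bound {a b : V} (hab : det2 a b ≠ 0) (X : Finset V) (R : ℝ) :
    ∃ N : ℤ, ∀ x ∈ X, ∀ i j : ℤ, ‖x + i • a + j • b‖ ≤ R → |i| ≤ N ∧ |j| ≤ N := by
  classical
  let K : ℝ := ∑ x ∈ X, ‖x‖
  have hK : ∀ x ∈ X, ‖x‖ ≤ K := fun x hx =>
    Finset.single_le_sum (f := fun x : V => ‖x‖) (fun x _ => norm_nonneg _) hx
  have hn : ∀ u : V, |u.1| ≤ ‖u‖ ∧ |u.2| ≤ ‖u‖ := fun u =>
    ⟨by rw [← Real.norm_eq_abs]; exact norm_fst_le u,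
      by rw [← Real.norm_eq_abs]; exact norm_snd_le u⟩
  have hdet : ∀ u v : V, |det2 u v| ≤ 2 * (‖u‖ * ‖v‖) := by
    intro u v
    unfold det2
    have h1 := abs_sub (u.1 * v.2) (u.2 * v.1)
    rw [abs_mul, abs_mul] at h1
    have h2 := mul_le_mul (hn u).1 (hn v).2 (abs_nonneg _) (norm_nonneg _)
    have h3 := mul_le_mul (hn u).2 (hn v).1 (abs_nonneg _) (norm_nonneg _)
    linarith
  have hd : 0 < |det2 a b| := abs_pos.2 hab
  obtain ⟨N, hN⟩ := exists_nat_gt (2 * ((R + K) * (‖a‖ + ‖b‖)) / |det2 a b|)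
  refine ⟨N, fun x hx i j h => ?_⟩
  have h1 : ‖i • a + j • b‖ ≤ R + K := by
    have h2 : i • a + j • b = (x + i • a + j • b) - x := by abel
    rw [h2]
    exact (norm_sub_le _ _).trans (add_le_add h (hK x hx))
  have h0 : 0 ≤ R + K := (norm_nonneg _).trans h1
  have hi : |(i : ℝ)| * |det2 a b| ≤ 2 * ((R + K) * (‖a‖ + ‖b‖)) := by
    rw [← abs_mul, ← det2_left a b i j]
    refine (hdet _ _).trans ?_
    have h3 := mul_le_mul h1 (show ‖b‖ ≤ ‖a‖ + ‖b‖ by linarith [norm_nonneg a])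
      (norm_nonneg _) h0
    linarith
  have hj : |(j : ℝ)| * |det2 a b| ≤ 2 * ((R + K) * (‖a‖ + ‖b‖)) := by
    rw [← abs_mul, ← det2_right a b i j]
    refine (hdet _ _).trans ?_
    have h3 := mul_le_mul (show ‖a‖ ≤ ‖a‖ + ‖b‖ by linarith [norm_nonneg b]) h1
      (norm_nonneg _) (by positivity)
    linarith
  constructor
  · have h4 : |(i : ℝ)| < N := lt_of_le_of_lt ((le_div_iff₀ hd).2 hi) hN
    exact_mod_cast h4.le
  · have h4 : |(j : ℝ)| < N := lt_of_le_of_lt ((le_div_iff₀ hd).2 hj) hN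
    exact_mod_cast h4.le

/-- Cramer's rule for integral vectors -/
theorem cramer (u v w : ℤ × ℤ) :
    (u.1 * v.2 - u.2 * v.1) • w = (w.1 * v.2 - w.2 * v.1) • u + (u.1 * w.2 - u.2 * w.1) • v := by
  refine Prod.ext ?_ ?_
  · simp only [Prod.fst_add, Prod.smul_fst, smul_eq_mul]
    ring
  · simp only [Prod.snd_add, Prod.smul_snd, smul_eq_mul]
    ring

theorem GG.add_lat {X : Finset V} {a b u : V} (hu : u ∈ GG X a b) (i j : ℤ) :
    u + (i • a + j • b) ∈ GG X a b := by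
  obtain ⟨x, hx, p, q, rfl⟩ := hu
  refine ⟨x, hx, p + i, q + j, ?_⟩
  rw [add_smul, add_smul]
  abel

theorem GG.iv {σ : ℝ →+ ℝ} {X : Finset V} {a b : V} (hX : ∀ x ∈ X, Iv σ x) (ha : Iv σ a)
    (hb : Iv σ b) {u : V} (hu : u ∈ GG X a b) : Iv σ u := by
  obtain ⟨x, hx, p, q, rfl⟩ := hu
  exact Iv.mk' (lin_eq (hX x hx) ha hb p q)

theorem zz_lin {σ : ℝ →+ ℝ} {x a b : V} (hx : Iv σ x) (ha : Iv σ a) (hb : Iv σ b) (i j : ℤ) :
    zz σ (x + i • a + j • b) = zz σ x + i • zz σ a + j • zz σ b :=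
  zz_eq (lin_eq hx ha hb i j)

theorem zz_add_lat {σ : ℝ →+ ℝ} {a b u : V} (hu : Iv σ u) (ha : Iv σ a) (hb : Iv σ b)
    (i j : ℤ) : zz σ (u + (i • a + j • b)) = zz σ u + (i • zz σ a + j • zz σ b) := by
  rw [← add_assoc, zz_lin hu ha hb, add_assoc]

/-- the integral determinant -/
def dz (u v : ℤ × ℤ) : ℤ := u.1 * v.2 - u.2 * v.1

theorem zz_bound {σ : ℝ →+ ℝ} {X : Finset V} {a b : V} (hX : ∀ x ∈ X, Iv σ x) (ha : Iv σ a)
    (hb : Iv σ b) (hab : det2 a b ≠ 0) (R : ℝ) :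
    ∃ R' : ℤ, ∀ u ∈ GG X a b, ‖u‖ ≤ R → |(zz σ u).1| ≤ R' ∧ |(zz σ u).2| ≤ R' := by
  obtain ⟨N, hN⟩ := coeff_bound hab X R
  refine ⟨∑ x ∈ X, (|(zz σ x).1| + |(zz σ x).2|) + N * (|(zz σ a).1| + |(zz σ a).2| +
    (|(zz σ b).1| + |(zz σ b).2|)), ?_⟩
  rintro u ⟨x, hx, i, j, rfl⟩ hu
  obtain ⟨hi, hj⟩ := hN x hx i j hu
  have h1 := Finset.single_le_sum (f := fun x => |(zz σ x).1| + |(zz σ x).2|)
    (fun x _ => add_nonneg (abs_nonneg _) (abs_nonneg _)) hx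
  rw [zz_lin (hX x hx) ha hb]
  have key : ∀ α β γ : ℤ, |α + i * β + j * γ| ≤ |α| + N * |β| + N * |γ| := by
    intro α β γ
    have h2 := abs_add_le (α + i * β) (j * γ)
    have h3 := abs_add_le α (i * β)
    rw [abs_mul] at h2 h3
    have h4 := mul_le_mul_of_nonneg_right hi (abs_nonneg β)
    have h5 := mul_le_mul_of_nonneg_right hj (abs_nonneg γ)
    linarith
  have hN0 : 0 ≤ N := (abs_nonneg i).trans hi
  have p1 := mul_nonneg hN0 (abs_nonneg (zz σ a).1)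
  have p2 := mul_nonneg hN0 (abs_nonneg (zz σ a).2)
  have p3 := mul_nonneg hN0 (abs_nonneg (zz σ b).1)
  have p4 := mul_nonneg hN0 (abs_nonneg (zz σ b).2)
  have p5 := abs_nonneg (zz σ x).1
  have p6 := abs_nonneg (zz σ x).2
  constructor
  · simp only [Prod.fst_add, Prod.smul_fst, smul_eq_mul]
    have := key (zz σ x).1 (zz σ a).1 (zz σ b).1
    linarith
  · simp only [Prod.snd_add, Prod.smul_snd, smul_eq_mul]
    have := key (zz σ x).2 (zz σ a).2 (zz σ b).2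
    linarith

theorem local_limit {σ : ℝ →+ ℝ} {X : Finset V} {a b : V} (hX : ∀ x ∈ X, Iv σ x)
    (ha : Iv σ a) (hb : Iv σ b) (hab : det2 a b ≠ 0) (hd : dz (zz σ a) (zz σ b) ≠ 0)
    (hinj : ∀ u ∈ GG X a b, ∀ v ∈ GG X a b, pm σ u = pm σ v → u = v)
    {T : Set V} (hT : T ⊆ GG X a b) {w : ℤ × ℤ} {A' : Set (ℤ × ℤ)}
    (hlim : ∀ R M : ℤ, 0 < M → ∃ n : ℤ, 0 < n ∧ M ∣ n ∧
      ∀ z : ℤ × ℤ, |z.1| ≤ R → |z.2| ≤ R → (z ∈ A' ↔ toV (z + n • w) ∈ pm σ '' T)) (R : ℝ) :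
    ∃ i j : ℤ, ∀ z ∈ GG X a b, ‖z‖ ≤ R → (zz σ z ∈ A' ↔ z + (i • a + j • b) ∈ T) := by
  obtain ⟨R', hR'⟩ := zz_bound hX ha hb hab R
  obtain ⟨n, -, hn, hlim⟩ := hlim R' |dz (zz σ a) (zz σ b)| (abs_pos.2 hd)
  rw [abs_dvd] at hn
  obtain ⟨k, rfl⟩ := hn
  have hc : (dz (zz σ a) (zz σ b) * k) • w = (k * dz w (zz σ b)) • zz σ a +
      (k * dz (zz σ a) w) • zz σ b := by
    rw [mul_comm, mul_smul, mul_smul, mul_smul, ← smul_add]
    congr 1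
    exact cramer _ _ _
  refine ⟨k * dz w (zz σ b), k * dz (zz σ a) w, fun z hz hzR => ?_⟩
  obtain ⟨h1, h2⟩ := hR' z hz hzR
  rw [hlim _ h1 h2, hc, ← zz_add_lat (GG.iv hX ha hb hz) ha hb]
  have h3 : z + ((k * dz w (zz σ b)) • a + (k * dz (zz σ a) w) • b) ∈ GG X a b :=
    GG.add_lat hz _ _
  have h4 : toV (zz σ (z + ((k * dz w (zz σ b)) • a + (k * dz (zz σ a) w) • b))) =
      pm σ (z + ((k * dz w (zz σ b)) • a + (k * dz (zz σ a) w) • b)) :=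
    (GG.iv hX ha hb h3).symm
  rw [h4]
  constructor
  · rintro ⟨t, ht, hte⟩
    rw [← hinj t (hT ht) _ h3 hte]
    exact ht
  · intro h
    exact ⟨_, h, rfl⟩

theorem ecov_transfer {C T T' G : Set V} (hC : ∃ K : ℝ, ∀ c ∈ C, ‖c‖ ≤ K) (hT : ECov C T)
    (hTG : T ⊆ G) (hT'G : T' ⊆ G)
    (hlim : ∀ R : ℝ, ∃ l : V, (∀ g ∈ G, g - l ∈ G) ∧
      ∀ z ∈ G, ‖z‖ ≤ R → (z ∈ T' ↔ z + l ∈ T)) : ECov C T' := by
  obtain ⟨K, hK⟩ := hC
  intro z
  obtain ⟨l, hl, hl'⟩ := hlim (‖z‖ + K)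
  have hb : ∀ t : V, z - t ∈ C → ‖t‖ ≤ ‖z‖ + K := by
    intro t ht
    have h1 : t = z - (z - t) := by abel
    rw [h1]
    exact (norm_sub_le _ _).trans (add_le_add le_rfl (hK _ ht))
  obtain ⟨t, ⟨ht, htC⟩, hu⟩ := hT (z + l)
  have e1 : z - (t - l) = z + l - t := by abel
  refine ⟨t - l, ⟨?_, ?_⟩, ?_⟩
  · rw [hl' (t - l) (hl t (hTG ht)) (hb _ (by rw [e1]; exact htC))]
    rw [sub_add_cancel]
    exact ht
  · rw [e1]
    exact htC
  · rintro s ⟨hs, hsC⟩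
    have h1 := (hl' s (hT'G hs) (hb s hsC)).1 hs
    have h2 := hu (s + l) ⟨h1, by
      have : z + l - (s + l) = z - s := by abel
      rw [this]
      exact hsC⟩
    rw [← h2]
    abel

theorem period_transfer {σ : ℝ →+ ℝ} {X : Finset V} {a b : V} (hX : ∀ x ∈ X, Iv σ x)
    (ha : Iv σ a) (hb : Iv σ b) (hd : dz (zz σ a) (zz σ b) ≠ 0) {A' : Set (ℤ × ℤ)} {m : ℤ}
    (hper : ∀ r : ℤ × ℤ, ∃ h : ℤ × ℤ, h ≠ 0 ∧ m ∣ h.1 ∧ m ∣ h.2 ∧
      ∀ z : ℤ × ℤ, m ∣ z.1 - r.1 → m ∣ z.2 - r.2 → (z ∈ A' ↔ z + h ∈ A')) :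
    ∀ x ∈ X, ∀ i j : ℤ, ∃ p q : ℤ, p • a + q • b ≠ 0 ∧ m ∣ p ∧ m ∣ q ∧ ∀ u v : ℤ,
      (zz σ (x + (i + m * u) • a + (j + m * v) • b) ∈ A' ↔
        zz σ (x + (i + m * u) • a + (j + m * v) • b + (p • a + q • b)) ∈ A') := by
  intro x hx i j
  obtain ⟨h, hh, ⟨c1, hc1⟩, ⟨c2, hc2⟩, hh'⟩ := hper (zz σ (x + i • a + j • b))
  -- iterate
  have hit : ∀ k : ℕ, ∀ z : ℤ × ℤ, m ∣ z.1 - (zz σ (x + i • a + j • b)).1 →
      m ∣ z.2 - (zz σ (x + i • a + j • b)).2 → (z ∈ A' ↔ z + (k : ℤ) • h ∈ A') := by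
    intro k
    induction k with
    | zero =>
      intro z _ _
      rw [Nat.cast_zero, zero_smul, add_zero]
    | succ k ih =>
      intro z h1 h2
      rw [ih z h1 h2]
      have e1 : z + ((k + 1 : ℕ) : ℤ) • h = z + (k : ℤ) • h + h := by
        rw [Nat.cast_succ, add_smul, one_smul, add_assoc]
      rw [e1]
      refine hh' _ ?_ ?_
      · have e2 : (z + (k : ℤ) • h).1 - (zz σ (x + i • a + j • b)).1 =
          (z.1 - (zz σ (x + i • a + j • b)).1) + m * (k * c1) := by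
          simp only [Prod.fst_add, Prod.smul_fst, smul_eq_mul, hc1]
          ring
        rw [e2]
        exact dvd_add h1 (dvd_mul_right _ _)
      · have e2 : (z + (k : ℤ) • h).2 - (zz σ (x + i • a + j • b)).2 =
          (z.2 - (zz σ (x + i • a + j • b)).2) + m * (k * c2) := by
          simp only [Prod.snd_add, Prod.smul_snd, smul_eq_mul, hc2]
          ring
        rw [e2]
        exact dvd_add h2 (dvd_mul_right _ _)
  have hitz : ∀ k : ℤ, ∀ z : ℤ × ℤ, m ∣ z.1 - (zz σ (x + i • a + j • b)).1 →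
      m ∣ z.2 - (zz σ (x + i • a + j • b)).2 → (z ∈ A' ↔ z + k • h ∈ A') := by
    intro k z h1 h2
    rcases Int.eq_nat_or_neg k with ⟨l, rfl | rfl⟩
    · exact hit l z h1 h2
    · have h3 := hit l (z + (-(l : ℤ)) • h) (by
        have e2 : (z + (-(l : ℤ)) • h).1 - (zz σ (x + i • a + j • b)).1 =
          (z.1 - (zz σ (x + i • a + j • b)).1) + m * (-l * c1) := by
          simp only [Prod.fst_add, Prod.smul_fst, smul_eq_mul, hc1]
          ring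
        rw [e2]
        exact dvd_add h1 (dvd_mul_right _ _)) (by
        have e2 : (z + (-(l : ℤ)) • h).2 - (zz σ (x + i • a + j • b)).2 =
          (z.2 - (zz σ (x + i • a + j • b)).2) + m * (-l * c2) := by
          simp only [Prod.snd_add, Prod.smul_snd, smul_eq_mul, hc2]
          ring
        rw [e2]
        exact dvd_add h2 (dvd_mul_right _ _))
      rw [h3]
      have e1 : z + (-(l : ℤ)) • h + (l : ℤ) • h = z := by
        rw [add_assoc, ← add_smul, neg_add_cancel, zero_smul, add_zero]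
      rw [e1]
  have hc := cramer (zz σ a) (zz σ b) h
  refine ⟨dz h (zz σ b), dz (zz σ a) h, ?_,
    ⟨c1 * (zz σ b).2 - c2 * (zz σ b).1, by unfold dz; rw [hc1, hc2]; ring⟩,
    ⟨(zz σ a).1 * c2 - (zz σ a).2 * c1, by unfold dz; rw [hc1, hc2]; ring⟩, fun u v => ?_⟩
  · intro h0
    have h1 : pm σ (dz h (zz σ b) • a + dz (zz σ a) h • b) =
        toV (dz (zz σ a) (zz σ b) • h) := by
      have e3 : dz (zz σ a) (zz σ b) • h = dz h (zz σ b) • zz σ a + dz (zz σ a) h • zz σ b := hc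
      rw [e3, pm_add, pm_zsmul, pm_zsmul, toV_add, toV_zsmul, toV_zsmul, ← ha, ← hb]
    rw [h0] at h1
    have h2 : pm σ (0 : V) = toV 0 := by
      unfold pm toV
      simp
    rw [h2] at h1
    have h3 := (toV_inj h1).symm
    rcases smul_eq_zero.1 h3 with h4 | h4
    · exact hd h4
    · exact hh h4
  · have hiv : Iv σ (x + (i + m * u) • a + (j + m * v) • b) :=
      Iv.mk' (lin_eq (hX x hx) ha hb _ _)
    rw [zz_add_lat hiv ha hb]
    have e3 : dz (zz σ a) (zz σ b) • h = dz h (zz σ b) • zz σ a + dz (zz σ a) h • zz σ b := hc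
    rw [← e3]
    refine hitz _ _ ?_ ?_
    · rw [zz_lin (hX x hx) ha hb, zz_lin (hX x hx) ha hb]
      simp only [Prod.fst_add, Prod.smul_fst, smul_eq_mul]
      exact ⟨u * (zz σ a).1 + v * (zz σ b).1, by ring⟩
    · rw [zz_lin (hX x hx) ha hb, zz_lin (hX x hx) ha hb]
      simp only [Prod.snd_add, Prod.smul_snd, smul_eq_mul]
      exact ⟨u * (zz σ a).2 + v * (zz σ b).2, by ring⟩

/-- the integral picture of a tiling -/
theorem fwd {σ : ℝ →+ ℝ} {B : Finset ((ℝ × ℝ) × (ℝ × ℝ))} {T : Set V}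
    (hB : ∀ b ∈ B, σ b.1.1 = ⌊σ b.1.1⌋ ∧ σ b.1.2 = ⌊σ b.1.2⌋ ∧ σ b.2.1 = ⌊σ b.2.1⌋ ∧
      σ b.2.2 = ⌊σ b.2.2⌋)
    (hT : ECov (body (B.image (bmap σ))) (pm σ '' T)) (hI : ∀ t ∈ T, Iv σ t) :
    ∃ F : Finset (ℤ × ℤ), F.Nonempty ∧ ∀ z, ∃! f, f ∈ F ∧ toV (z - f) ∈ pm σ '' T := by
  classical
  let F : Finset (ℤ × ℤ) := B.biUnion fun b =>
    Finset.Ico ⌊σ b.1.1⌋ ⌊σ b.1.2⌋ ×ˢ Finset.Ico ⌊σ b.2.1⌋ ⌊σ b.2.2⌋
  have hF : ∀ z, z ∈ F ↔ toV z ∈ body (B.image (bmap σ)) := by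
    intro z
    constructor
    · intro h
      obtain ⟨b, hb, hz⟩ := Finset.mem_biUnion.1 h
      rw [Finset.mem_product, Finset.mem_Ico, Finset.mem_Ico] at hz
      obtain ⟨h1, h2, h3, h4⟩ := hB b hb
      refine ⟨bmap σ b, Finset.mem_image_of_mem _ hb, ?_, ?_, ?_, ?_⟩
      · change σ b.1.1 ≤ (z.1 : ℝ)
        rw [h1]; exact_mod_cast hz.1.1
      · change (z.1 : ℝ) < σ b.1.2
        rw [h2]; exact_mod_cast hz.1.2
      · change σ b.2.1 ≤ (z.2 : ℝ)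
        rw [h3]; exact_mod_cast hz.2.1
      · change (z.2 : ℝ) < σ b.2.2
        rw [h4]; exact_mod_cast hz.2.2
    · rintro ⟨b', hb', h5, h6, h7, h8⟩
      obtain ⟨b, hb, rfl⟩ := Finset.mem_image.1 hb'
      obtain ⟨h1, h2, h3, h4⟩ := hB b hb
      change σ b.1.1 ≤ (z.1 : ℝ) at h5
      change (z.1 : ℝ) < σ b.1.2 at h6
      change σ b.2.1 ≤ (z.2 : ℝ) at h7
      change (z.2 : ℝ) < σ b.2.2 at h8
      rw [h1] at h5
      rw [h2] at h6
      rw [h3] at h7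
      rw [h4] at h8
      refine Finset.mem_biUnion.2 ⟨b, hb, ?_⟩
      rw [Finset.mem_product, Finset.mem_Ico, Finset.mem_Ico]
      exact ⟨⟨by exact_mod_cast h5, by exact_mod_cast h6⟩,
        ⟨by exact_mod_cast h7, by exact_mod_cast h8⟩⟩
  have key : ∀ z, ∃! f, f ∈ F ∧ toV (z - f) ∈ pm σ '' T := by
    intro z
    obtain ⟨s, ⟨⟨t, ht, hts⟩, hsC⟩, hu⟩ := hT (toV z)
    have h1 : s = toV (zz σ t) := by rw [← hts]; exact hI t ht
    refine ⟨z - zz σ t, ⟨?_, ?_⟩, ?_⟩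
    · rw [hF, toV_sub, ← h1]
      exact hsC
    · rw [sub_sub_cancel, ← h1]
      exact ⟨t, ht, hts⟩
    · rintro f ⟨hf, hf'⟩
      have h2 := hu (toV (z - f)) ⟨hf', by
        rw [toV_sub, sub_sub_cancel]
        exact (hF f).1 hf⟩
      have h3 : z - f = zz σ t := toV_inj (h2.trans h1)
      rw [← h3, sub_sub_cancel]
  obtain ⟨f, ⟨hf, -⟩, -⟩ := key 0
  exact ⟨F, ⟨f, hf⟩, key⟩

/-- the coordinates of the boxes -/
noncomputable def coords (B : Finset ((ℝ × ℝ) × (ℝ × ℝ))) : Finset ℝ := xco B ∪ yco B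

theorem coords_mem {B : Finset ((ℝ × ℝ) × (ℝ × ℝ))} {b : (ℝ × ℝ) × (ℝ × ℝ)} (hb : b ∈ B) :
    b.1.1 ∈ coords B ∧ b.1.2 ∈ coords B ∧ b.2.1 ∈ coords B ∧ b.2.2 ∈ coords B := by
  exact ⟨Finset.mem_union_left _ (mem_xco_l hb), Finset.mem_union_left _ (mem_xco_r hb),
    Finset.mem_union_right _ (mem_yco_l hb), Finset.mem_union_right _ (mem_yco_r hb)⟩

theorem body_bdd (B : Finset ((ℝ × ℝ) × (ℝ × ℝ))) : ∃ K : ℝ, ∀ c ∈ body B, ‖c‖ ≤ K := by
  refine ⟨∑ b ∈ B, (|b.1.1| + |b.1.2| + (|b.2.1| + |b.2.2|)), ?_⟩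
  rintro c ⟨b, hb, h1, h2, h3, h4⟩
  have h := Finset.single_le_sum
    (f := fun b : (ℝ × ℝ) × (ℝ × ℝ) => |b.1.1| + |b.1.2| + (|b.2.1| + |b.2.2|))
    (fun b _ => add_nonneg (add_nonneg (abs_nonneg _) (abs_nonneg _))
      (add_nonneg (abs_nonneg _) (abs_nonneg _))) hb
  refine le_trans ?_ h
  have a1 := abs_nonneg b.1.1
  have a2 := abs_nonneg b.1.2
  have a3 := abs_nonneg b.2.1
  have a4 := abs_nonneg b.2.2
  have b1 := neg_abs_le b.1.1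
  have b2 := le_abs_self b.1.2
  have b3 := neg_abs_le b.2.1
  have b4 := le_abs_self b.2.2
  rw [Prod.norm_def]
  refine max_le ?_ ?_
  · rw [Real.norm_eq_abs, abs_le]
    constructor <;> linarith
  · rw [Real.norm_eq_abs, abs_le]
    constructor <;> linarith

theorem gtw_true : GTW := by
  intro F hF A hA
  obtain ⟨w, A', m, hm, h1, h2⟩ := GT.gtw F hF A hA
  refine ⟨w, A', m, by exact_mod_cast hm, fun R M hM => ?_, h2⟩
  obtain ⟨n, hn, hMn, h3⟩ := h1 R.toNat M.toNat (by omega)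
  refine ⟨n, by exact_mod_cast hn, ?_, fun z hz1 hz2 => ?_⟩
  · have h4 : ((M.toNat : ℕ) : ℤ) ∣ (n : ℤ) := by exact_mod_cast hMn
    rw [Int.toNat_of_nonneg hM.le] at h4
    exact h4
  · have h4 := h3 z (hz1.trans (Int.self_le_toNat R)) (hz2.trans (Int.self_le_toNat R))
    rw [natCast_zsmul]
    exact h4

/-- **The one lattice case.** -/
theorem lattice_case {B : Finset Box} {T : Set V}
    (hT : ECov (body B) T) {a b : V} (hab : LinearIndependent ℝ ![a, b]) {X : Finset V}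
    (hTX : T ⊆ GG X a b) :
    ∃ T' : Set V, T' ⊆ GG X a b ∧ ECov (body B) T' ∧ ∃ m : ℤ, 0 < m ∧
      ∀ x ∈ X, ∀ i j : ℤ, ∃ p q : ℤ, p • a + q • b ≠ 0 ∧ m ∣ p ∧ m ∣ q ∧ ∀ u v : ℤ,
        (x + (i + m * u) • a + (j + m * v) • b ∈ T' ↔
          x + (i + m * u) • a + (j + m * v) • b + (p • a + q • b) ∈ T') := by
  classical
  obtain ⟨ρ, h1, h2, h3⟩ := exists_good (coords B) a b hab (Finset.image₂ (· - ·) X X)
  obtain ⟨q, hq, hq'⟩ := exists_den ρ (coords B ∪ ((insert a (insert b X)).image Prod.fst ∪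
    (insert a (insert b X)).image Prod.snd))
  have hq0 : (0 : ℝ) < q := by exact_mod_cast hq
  have hpm : ∀ v : V, pm (sg ρ q) v = (q : ℝ) • pl ρ v := fun v => rfl
  have hIv : ∀ v ∈ insert a (insert b X), Iv (sg ρ q) v := by
    intro v hv
    obtain ⟨k1, hk1⟩ := hq' v.1 (Finset.mem_union_right _ (Finset.mem_union_left _
      (Finset.mem_image_of_mem _ hv)))
    obtain ⟨k2, hk2⟩ := hq' v.2 (Finset.mem_union_right _ (Finset.mem_union_right _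
      (Finset.mem_image_of_mem _ hv)))
    exact Iv.mk' (z := (k1, k2)) (Prod.ext hk1 hk2)
  have ha : Iv (sg ρ q) a := hIv a (by simp)
  have hb : Iv (sg ρ q) b := hIv b (by simp)
  have hX : ∀ x ∈ X, Iv (sg ρ q) x := fun x hx => hIv x (by simp [hx])
  have hab0 : det2 a b ≠ 0 := det2_ne hab
  have hd : dz (zz (sg ρ q) a) (zz (sg ρ q) b) ≠ 0 := by
    intro h0
    have e1 : det2 (pm (sg ρ q) a) (pm (sg ρ q) b) =
        ((dz (zz (sg ρ q) a) (zz (sg ρ q) b) : ℤ) : ℝ) := by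
      have ha' := ha
      have hb' := hb
      unfold Iv at ha' hb'
      rw [ha', hb']
      unfold det2 dz toV
      push_cast
      rfl
    have e2 : det2 (pm (sg ρ q) a) (pm (sg ρ q) b) =
        (q : ℝ) ^ 2 * det2 (pl ρ a) (pl ρ b) := by
      rw [hpm, hpm]
      unfold det2
      simp only [Prod.smul_fst, Prod.smul_snd, smul_eq_mul]
      ring
    rw [h0, Int.cast_zero] at e1
    rw [e1] at e2
    rcases mul_eq_zero.1 e2.symm with h4 | h4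
    · exact (pow_ne_zero 2 hq0.ne') h4
    · exact h2 h4
  have hinj : ∀ u ∈ GG X a b, ∀ v ∈ GG X a b, pm (sg ρ q) u = pm (sg ρ q) v → u = v := by
    rintro _ ⟨x, hx, i, j, rfl⟩ _ ⟨x', hx', i', j', rfl⟩ h
    rw [hpm, hpm] at h
    have h4 : pl ρ (x + i • a + j • b) = pl ρ (x' + i' • a + j' • b) :=
      smul_right_injective V hq0.ne' h
    have h5 : x - x' = (i' - i) • a + (j' - j) • b := by
      refine h3 (x - x') (Finset.mem_image₂_of_mem hx hx') _ _ ?_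
      rw [pl_add, pl_add, pl_add, pl_add, pl_zsmul, pl_zsmul, pl_zsmul, pl_zsmul] at h4
      rw [pl_sub, sub_smul, sub_smul]
      have h6 : pl ρ x = pl ρ x' + i' • pl ρ a + j' • pl ρ b - j • pl ρ b - i • pl ρ a := by
        rw [← h4]; abel
      rw [h6]
      abel
    have h6 : x = x' + ((i' - i) • a + (j' - j) • b) := by rw [← h5]; abel
    rw [h6, sub_smul, sub_smul]
    abel
  have hB : ∀ b ∈ B, sg ρ q b.1.1 = ⌊sg ρ q b.1.1⌋ ∧ sg ρ q b.1.2 = ⌊sg ρ q b.1.2⌋ ∧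
      sg ρ q b.2.1 = ⌊sg ρ q b.2.1⌋ ∧ sg ρ q b.2.2 = ⌊sg ρ q b.2.2⌋ := by
    have h4 : ∀ s ∈ coords B, sg ρ q s = ⌊sg ρ q s⌋ := by
      intro s hs
      obtain ⟨k, hk⟩ := hq' s (Finset.mem_union_left _ hs)
      rw [sg_apply, hk, Int.floor_intCast]
    intro b hb
    obtain ⟨c1, c2, c3, c4⟩ := coords_mem hb
    exact ⟨h4 _ c1, h4 _ c2, h4 _ c3, h4 _ c4⟩
  have hmono : ∀ s ∈ coords B, ∀ s' ∈ coords B, s < s' → sg ρ q s < sg ρ q s' := by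
    intro s hs s' hs' hss
    rw [sg_apply, sg_apply]
    have h4 := h1 s hs s' hs' hss
    exact mul_lt_mul_of_pos_left (by exact_mod_cast h4) hq0
  have hdef : ECov (body (B.image (bmap (sg ρ q)))) (pm (sg ρ q) '' T) :=
    deform B T hT (sg ρ q)
      (fun s hs s' hs' => hmono s (Finset.mem_union_left _ hs) s' (Finset.mem_union_left _ hs'))
      (fun s hs s' hs' => hmono s (Finset.mem_union_right _ hs) s'
        (Finset.mem_union_right _ hs'))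
  obtain ⟨F, hF, hF'⟩ := fwd hB hdef fun t ht => GG.iv hX ha hb (hTX ht)
  obtain ⟨w, A', m, hm, hlim, hper⟩ := gtw_true F hF {z | toV z ∈ pm (sg ρ q) '' T} hF'
  have hll := local_limit hX ha hb hab0 hd hinj hTX (w := w) (A' := A') hlim
  refine ⟨{t | t ∈ GG X a b ∧ zz (sg ρ q) t ∈ A'}, fun t ht => ht.1, ?_, m, hm, ?_⟩
  · refine ecov_transfer (G := GG X a b) (body_bdd B) hT hTX (fun t ht => ht.1) fun R => ?_
    obtain ⟨i, j, hij⟩ := hll R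
    refine ⟨i • a + j • b, fun g hg => ?_, fun z hz hzR => ?_⟩
    · have h4 := GG.add_lat hg (-i) (-j)
      have h5 : g - (i • a + j • b) = g + ((-i) • a + (-j) • b) := by
        rw [neg_smul, neg_smul]; abel
      rw [h5]
      exact h4
    · rw [← hij z hz hzR]
      exact ⟨fun h => h.2, fun h => ⟨hz, h⟩⟩
  · intro x hx i j
    obtain ⟨p, r, hpr, hp, hr, hh⟩ := period_transfer hX ha hb hd hper x hx i j
    refine ⟨p, r, hpr, hp, hr, fun u v => ?_⟩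
    have h4 : x + (i + m * u) • a + (j + m * v) • b ∈ GG X a b := ⟨x, hx, _, _, rfl⟩
    have h5 := GG.add_lat h4 p r
    constructor
    · intro h
      exact ⟨h5, (hh u v).1 h.2⟩
    · intro h
      exact ⟨h4, (hh u v).2 h.2⟩

end Pool.Agent.PTR.RD
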