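import Pool.Agent.PTR.Deform
import Pool.Agent.PTR.RatDeform
import Pool.Agent.PTR.Surg
import Pool.Agent.PTR.Glue

/-!
# PTR: translation tilings by rectilinear bodies

Final theorem (ideas row 2493): a rectilinear body (finite union of axis-parallel rectangles with
arbitrary real coordinates) whose two projections are intervals (more generally: have intervals as
difference sets) and which tiles the plane by translations has a doubly periodic tiling; every
rectilinear body with a tiling of finite local complexity has a doubly periodic tiling.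
-/

set_option autoImplicit false

namespace Pool.Agent.PTR

open OL

/-- The differences of the y-coordinates of the points of `C` form an interval. -/
def YInt (C : Set (ℝ × ℝ)) : Prop := {d : ℝ | ∃ v ∈ C, ∃ v' ∈ C, d = v.2 - v'.2}.OrdConnected

/-- The differences of the x-coordinates of the points of `C` form an interval. -/
def XInt (C : Set (ℝ × ℝ)) : Prop := {d : ℝ | ∃ v ∈ C, ∃ v' ∈ C, d = v.1 - v'.1}.OrdConnected

/-- Horizontal fault at the height `c`: no tile crosses this height. -/
def FH (C T : Set (ℝ × ℝ)) (c : ℝ) : Prop :=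
  ∀ t ∈ T, (∀ z ∈ C, t.2 + z.2 < c) ∨ (∀ z ∈ C, c ≤ t.2 + z.2)

/-- Vertical fault at `x = c`. -/
def FV (C T : Set (ℝ × ℝ)) (c : ℝ) : Prop :=
  ∀ t ∈ T, (∀ z ∈ C, t.1 + z.1 < c) ∨ (∀ z ∈ C, c ≤ t.1 + z.1)

/-- `p` is a period of `T`. -/
def Per (p : ℝ × ℝ) (T : Set (ℝ × ℝ)) : Prop := ∀ z, z + p ∈ T ↔ z ∈ T

/-- `C` has a doubly periodic exact cover. -/
def DP (C : Set (ℝ × ℝ)) : Prop :=
  ∃ T, ECov C T ∧ ∃ p v : ℝ × ℝ, LinearIndependent ℝ ![p, v] ∧ Per p T ∧ Per v T

/-- Finite local complexity of the x-coordinates. -/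
def FX (T : Set (ℝ × ℝ)) : Prop :=
  ∀ R : ℝ, {s : ℝ | ∃ t ∈ T, ∃ t' ∈ T, ‖t' - t‖ ≤ R ∧ s = t'.1 - t.1}.Finite

/-- Finite local complexity of the y-coordinates. -/
def FY (T : Set (ℝ × ℝ)) : Prop :=
  ∀ R : ℝ, {s : ℝ | ∃ t ∈ T, ∃ t' ∈ T, ‖t' - t‖ ≤ R ∧ s = t'.2 - t.2}.Finite

/-- NOF (compactness). If no exact cover with the periods `P` has a horizontal fault then all
of them have finite local complexity in the x-coordinates. -/
def T_NOF : Prop := ∀ (B : Finset Box), (body B).Nonempty → YInt (body B) →
  ∀ P : Set (ℝ × ℝ),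
    (∀ T, ECov (body B) T → (∀ p ∈ P, Per p T) → ∀ c, ¬ FH (body B) T c) →
    ∀ T, ECov (body B) T → (∀ p ∈ P, Per p T) → FX T

/-- REL (corner relation and dilation lemma). `U` is the set of heights of the covered region,
`U = univ` for the whole plane. -/
def T_REL : Prop := ∀ (B : Finset Box), (body B).Nonempty → ∀ (U : Set ℝ) (T : Set (ℝ × ℝ)),
  (∀ z : ℝ × ℝ, z.2 ∈ U → ∃! t, t ∈ T ∧ z - t ∈ body B) →
  (∀ z : ℝ × ℝ, z.2 ∉ U → ∀ t ∈ T, z - t ∉ body B) →
  ∃ L : List (ℝ × ℝ), (∀ w ∈ L, w ≠ 0) ∧ difs L (ii T) = 0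

/-- HLF. A half-plane above a fault, without further fault, is horizontally periodic. -/
def T_HLF : Prop := ∀ (B : Finset Box), (body B).Nonempty → YInt (body B) →
  ∀ (T : Set (ℝ × ℝ)) (c : ℝ), ECov (body B) T → FH (body B) T c →
  (∀ c' > c, ¬ FH (body B) T c') →
  ∃ p : ℝ, p ≠ 0 ∧ Per (p, 0) {t | t ∈ T ∧ ∀ z ∈ body B, c ≤ t.2 + z.2}

/-- STR. Two horizontal faults: there is a doubly periodic cover. -/
def T_STR : Prop := ∀ (B : Finset Box), (body B).Nonempty → YInt (body B) →
  ∀ (T : Set (ℝ × ℝ)) (c c' : ℝ), ECov (body B) T → c < c' → FH (body B) T c →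
  FH (body B) T c' → DP (body B)

/-- UPL. The limit of a horizontally periodic half-plane. -/
def T_UPL : Prop := ∀ (B : Finset Box), (body B).Nonempty →
  ∀ (T : Set (ℝ × ℝ)) (c p : ℝ), ECov (body B) T → FH (body B) T c →
  Per (p, 0) {t | t ∈ T ∧ ∀ z ∈ body B, c ≤ t.2 + z.2} →
  ∃ T', ECov (body B) T' ∧ Per (p, 0) T'

/-- HPP. One horizontal period and finite local complexity of the y-coordinates: pigeonhole.
Let `H` be the length of the interval `Y(C)`. All tiles `t` with `y - H ≤ t.2 < y` cross the line at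
the height `y - δ` (`δ` small), where they form one chain of abutting intervals, which is
`(p, 0)`-periodic with at most `p / ε` intervals per period; so up to a horizontal translation
there are finitely many patterns of x-coordinates in this window, and by `FY` finitely many
patterns. Two equal patterns give `glue`. -/
def T_HPP : Prop := ∀ (B : Finset Box), (body B).Nonempty → YInt (body B) →
  ∀ (T : Set (ℝ × ℝ)) (p : ℝ), ECov (body B) T → p ≠ 0 → Per (p, 0) T → FY T → DP (body B)

/-- ONE. Finite local complexity and one period: pigeonhole. -/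
def T_ONE : Prop := ∀ (B : Finset Box), (body B).Nonempty →
  ∀ (T : Set (ℝ × ℝ)) (p : ℝ × ℝ), ECov (body B) T → FLC T → p ≠ 0 → Per p T → DP (body B)

/-- R2. Every rectilinear body with a cover of finite local complexity has a doubly periodic
cover. From REL, one_lattice, lattice_case, surgery, ONE. -/
def T_R2 : Prop := ∀ (B : Finset Box), (body B).Nonempty →
  ∀ (T : Set (ℝ × ℝ)), ECov (body B) T → FLC T → DP (body B)

/-- HP. One horizontal period: there is a doubly periodic cover. If some `(p, 0)`-periodic cover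
has a vertical fault at `x = c` then it has one at `x = c + p`, and STR (swapped) applies.
Otherwise NOF (swapped, `P = {(p, 0)}`) gives `FY`, and HPP applies. -/
def T_HP : Prop := ∀ (B : Finset Box), (body B).Nonempty → XInt (body B) → YInt (body B) →
  ∀ (T : Set (ℝ × ℝ)) (p : ℝ), ECov (body B) T → p ≠ 0 → Per (p, 0) T → DP (body B)

/-- R1. Both projections are intervals. If no cover has a fault, NOF twice gives `FLC` and R2
applies. Otherwise (up to a swap) there is a cover with a horizontal fault at `c`. If there is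
another fault, STR. Otherwise HLF, UPL, HP. -/
def T_R1 : Prop := ∀ (B : Finset Box), (body B).Nonempty → XInt (body B) → YInt (body B) →
  (∃ T, ECov (body B) T) → DP (body B)

end Pool.Agent.PTR
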