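import Pool.Agent.PTR.FLCThm
import Pool.Agent.PTR.HPP

/-!
# Bodies with commensurable heights and an interval as projection to the y-axis
-/

set_option autoImplicit false

namespace Pool.Agent.PTR

open OL

/-- The heights of the sides of the boxes are commensurable. -/
def YComm (B : Finset Box) : Prop :=
  ∃ m : ℝ, 0 < m ∧ ∀ a ∈ yco B, ∀ b ∈ yco B, ∃ n : ℤ, b - a = n * m

/-- The projection to the y-axis is an interval and the heights are commensurable. -/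
def T_R1b : Prop := ∀ (B : Finset Box), (body B).Nonempty → YInt (body B) → YComm B →
  (∃ T, ECov (body B) T) → DP (body B)

lemma flc_of {T : Set (ℝ × ℝ)} (hX : FX T) (hY : FY T) : FLC T := by
  intro R
  refine ((hX R).prod (hY R)).subset ?_
  rintro d ⟨hd, t, ht, htd⟩
  exact ⟨⟨t, ht, t + d, htd, by rw [add_sub_cancel_left]; exact hd, by simp⟩,
    ⟨t, ht, t + d, htd, by rw [add_sub_cancel_left]; exact hd, by simp⟩⟩

/-- The set with all heights rounded down to a multiple of `m`. -/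
noncomputable def nrm (m : ℝ) (T : Set (ℝ × ℝ)) : Set (ℝ × ℝ) :=
  (fun t : ℝ × ℝ => (t.1, m * ⌊t.2 / m⌋)) '' T

lemma nrm_ecov {B : Finset Box} {T : Set (ℝ × ℝ)} (hT : ECov (body B) T) {m : ℝ} (hm : 0 < m)
    (hB : ∀ a ∈ yco B, ∀ b ∈ yco B, ∃ n : ℤ, b - a = n * m) : ECov (body B) (nrm m T) := by
  have h1 := deform_y B T hT (fun y => m * ⌊y / m⌋) (fun y => y) (fun a _ b _ h => h) (by
    intro x a ha b hb
    obtain ⟨n, hn⟩ := hB a ha b hb
    have e : (x + b - a) / m = x / m + n := by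
      rw [add_sub_assoc, hn]
      field_simp
    rw [e, Int.floor_add_intCast]
    push_cast
    linarith)
  have e2 : bmapy (fun x => x) = id := by
    funext b; rfl
  rw [e2, Finset.image_id] at h1
  exact h1

lemma nrm_per {T : Set (ℝ × ℝ)} {p : ℝ} (h : Per (p, 0) T) (m : ℝ) : Per (p, 0) (nrm m T) := by
  intro z
  constructor
  · rintro ⟨t, ht, hz⟩
    refine ⟨t + (-p, 0), ?_, ?_⟩
    · have := h (t + (-p, 0))
      rw [add_assoc, show ((-p, 0) : ℝ × ℝ) + (p, 0) = 0 by ext <;> simp, add_zero] at this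
      exact this.1 ht
    · have h1 := congrArg Prod.fst hz
      have h2 := congrArg Prod.snd hz
      simp only [Prod.fst_add, Prod.snd_add, add_zero] at h1 h2
      ext
      · simp only [Prod.fst_add]; linarith
      · simp only [Prod.snd_add, add_zero]; exact h2
  · rintro ⟨t, ht, rfl⟩
    refine ⟨t + (p, 0), (h t).2 ht, ?_⟩
    ext
    · simp only [Prod.fst_add]
    · simp only [Prod.snd_add, add_zero]

lemma nrm_FY (m : ℝ) (hm : 0 < m) (T : Set (ℝ × ℝ)) : FY (nrm m T) := by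
  intro R
  refine ((Set.finite_Icc (-⌈R / m⌉) ⌈R / m⌉).image (fun n : ℤ => m * (n : ℝ))).subset ?_
  rintro s ⟨_, ⟨t, _, rfl⟩, _, ⟨t', _, rfl⟩, h1, h2⟩
  have h3 : |s| ≤ R := by
    rw [h2]
    have := norm_snd_le ((t'.1, m * (⌊t'.2 / m⌋ : ℝ)) - (t.1, m * (⌊t.2 / m⌋ : ℝ)) : ℝ × ℝ)
    rw [Real.norm_eq_abs] at this
    exact this.trans h1
  refine ⟨⌊t'.2 / m⌋ - ⌊t.2 / m⌋, ?_, ?_⟩
  · have e : s = m * ((⌊t'.2 / m⌋ - ⌊t.2 / m⌋ : ℤ) : ℝ) := by
      rw [h2]; push_cast; ring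
    rw [e, abs_mul, abs_of_pos hm] at h3
    have h4 : |((⌊t'.2 / m⌋ - ⌊t.2 / m⌋ : ℤ) : ℝ)| ≤ R / m := by
      rw [le_div_iff₀ hm]; linarith
    have h5 := abs_le.1 h4
    have h6 := Int.le_ceil (R / m)
    constructor
    · have : ((-⌈R / m⌉ : ℤ) : ℝ) ≤ ((⌊t'.2 / m⌋ - ⌊t.2 / m⌋ : ℤ) : ℝ) := by
        push_cast at h5 ⊢; linarith
      exact_mod_cast this
    · have : ((⌊t'.2 / m⌋ - ⌊t.2 / m⌋ : ℤ) : ℝ) ≤ (⌈R / m⌉ : ℤ) := by linarith
      exact_mod_cast this
  · rw [h2]; push_cast; ring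

/-- The second alternative from the fault analysis. -/
theorem R1b_of (hNOF : T_NOF) (hHLF : T_HLF) (hSTR : T_STR) (hUPL : T_UPL) : T_R1b := by
  rintro B hB hY ⟨m, hm, hBm⟩ ⟨T, hT⟩
  by_cases hf : ∃ T, ECov (body B) T ∧ ∃ c, FH (body B) T c
  · obtain ⟨T, hT, c, hc⟩ := hf
    by_cases h2 : ∃ c', c < c' ∧ FH (body B) T c'
    · obtain ⟨c', hcc, hc'⟩ := h2
      exact hSTR B hB hY T c c' hT hcc hc hc'
    · push Not at h2
      obtain ⟨p, hp, hper⟩ := hHLF B hB hY T c hT hc h2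
      obtain ⟨T', hT', hper'⟩ := hUPL B hB T c p hT hc hper
      exact p_HPP B hB hY (nrm m T') p (nrm_ecov hT' hm hBm) hp (nrm_per hper' m)
        (nrm_FY m hm T')
  · push Not at hf
    have hT1 := nrm_ecov hT hm hBm
    have hFX : FX (nrm m T) := hNOF B hB hY ∅ (fun T hT _ c => hf T hT c) _ hT1
      (fun p hp => absurd hp (Set.notMem_empty p))
    exact p_R2 B hB _ hT1 (flc_of hFX (nrm_FY m hm T))

end Pool.Agent.PTR
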