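import Pool.Agent.PTR.Targets
import Pool.Agent.PTR.R1b
import Pool.Agent.PTR.Closed
import Pool.Agent.PSQ.Main

/-!
# Unions of parallelograms with sides parallel to two fixed directions
-/

set_option autoImplicit false

open Topology Filter Pointwise

namespace Pool.Agent.PTR

/-- The union of the closed parallelograms `{x a + y b : l ≤ x ≤ r, s ≤ y ≤ t}`,
`((l, r), (s, t)) ∈ B`. -/
def pbody (a b : ℝ × ℝ) (B : Finset Box) : Set (ℝ × ℝ) :=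
  {z | ∃ q ∈ B, ∃ x y : ℝ, q.1.1 ≤ x ∧ x ≤ q.1.2 ∧ q.2.1 ≤ y ∧ y ≤ q.2.2 ∧ z = x • a + y • b}

/-- The numbers `d` for which the union of the intervals `[l, r]`, `((l, r), (s, t)) ∈ B`, and its
translate by `d` overlap (in more than end points). -/
def FstDiff (B : Finset Box) : Set ℝ :=
  {d | ∃ p ∈ B, ∃ q ∈ B, p.1.1 - q.1.2 < d ∧ d < p.1.2 - q.1.1}

/-- The numbers `d` for which the union of the intervals `[s, t]`, `((l, r), (s, t)) ∈ B`, and its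
translate by `d` overlap (in more than end points). -/
def SndDiff (B : Finset Box) : Set ℝ :=
  {d | ∃ p ∈ B, ∃ q ∈ B, p.2.1 - q.2.2 < d ∧ d < p.2.2 - q.2.1}

/-- The numbers of the finite set `F` are commensurable: their differences are integral multiples of
one number. -/
def Comm (F : Finset ℝ) : Prop := ∃ m : ℝ, 0 < m ∧ ∀ x ∈ F, ∀ y ∈ F, ∃ n : ℤ, y - x = n * m

/-- The first coordinates (with respect to `a, b`) of the points of the body form an interval. -/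
def FstInterval (B : Finset Box) : Prop := {x : ℝ | ∃ q ∈ B, q.1.1 ≤ x ∧ x ≤ q.1.2}.OrdConnected

/-- The second coordinates of the points of the body form an interval. -/
def SndInterval (B : Finset Box) : Prop := {y : ℝ | ∃ q ∈ B, q.2.1 ≤ y ∧ y ≤ q.2.2}.OrdConnected

lemma ho_ord {ι : Type*} (I : Finset ι) (l r : ι → ℝ)
    (h : {x | ∃ q ∈ I, l q ≤ x ∧ x ≤ r q}.OrdConnected) :
    {x | ∃ q ∈ I, l q ≤ x ∧ x < r q}.OrdConnected := by
  refine ⟨?_⟩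
  rintro x ⟨q, hq, hq1, hq2⟩ y hy z ⟨hz1, hz2⟩
  rcases hz2.eq_or_lt with h0 | h0
  · rw [h0]; exact hy
  · obtain ⟨q', hq', hq1', hq2'⟩ := hy
    have h1 : ∀ᶠ w in 𝓝[>] z, ∀ p ∈ I, l p ≤ w → l p ≤ z := by
      rw [Filter.eventually_all_finset]
      intro p _
      rcases le_or_gt (l p) z with h2 | h2
      · exact Filter.Eventually.of_forall fun w _ => h2
      · have h3 : ∀ᶠ w in 𝓝[>] z, w < l p :=
          mem_nhdsWithin_of_mem_nhds (Iio_mem_nhds h2)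
        filter_upwards [h3] with w hw hw'
        linarith
    have h2 : ∀ᶠ w in 𝓝[>] z, w < y := mem_nhdsWithin_of_mem_nhds (Iio_mem_nhds h0)
    have h3 : ∀ᶠ w in 𝓝[>] z, z < w := self_mem_nhdsWithin
    obtain ⟨w, hw1, hw2, hw3⟩ := (h1.and (h2.and h3)).exists
    have h4 : w ∈ {x | ∃ q ∈ I, l q ≤ x ∧ x ≤ r q} :=
      h.out ⟨q, hq, hq1, hq2.le⟩ ⟨q', hq', hq1', hq2'.le⟩ ⟨by linarith, hw2.le⟩
    obtain ⟨p, hp, hp1, hp2⟩ := h4
    exact ⟨p, hp, hw1 p hp hp1, by linarith⟩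

/-- Difference sets of unions of half-open intervals. -/
lemma diff_eq {ι : Type*} (I : Finset ι) (l r : ι → ℝ) (hlr : ∀ q ∈ I, l q < r q) :
    {d | ∃ p ∈ I, ∃ q ∈ I, l p - r q < d ∧ d < r p - l q} =
      {d | ∃ x ∈ {x | ∃ q ∈ I, l q ≤ x ∧ x < r q}, ∃ y ∈ {x | ∃ q ∈ I, l q ≤ x ∧ x < r q},
        d = x - y} := by
  ext d
  constructor
  · rintro ⟨p, hp, q, hq, h1, h2⟩
    refine ⟨max (l p) (l q + d), ⟨p, hp, le_max_left _ _, max_lt (hlr p hp) (by linarith)⟩,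
      max (l p) (l q + d) - d, ⟨q, hq, ?_, ?_⟩, by ring⟩
    · have := le_max_right (l p) (l q + d)
      linarith
    · have h3 : max (l p) (l q + d) < r q + d := max_lt (by linarith) (by linarith [hlr q hq])
      linarith
  · rintro ⟨x, ⟨p, hp, h1, h2⟩, y, ⟨q, hq, h3, h4⟩, rfl⟩
    exact ⟨p, hp, q, hq, by linarith, by linarith⟩

lemma diff_ord {P : Set ℝ} (h : P.OrdConnected) :
    {d | ∃ x ∈ P, ∃ y ∈ P, d = x - y}.OrdConnected := by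
  have h1 : Convex ℝ P := h.convex
  have h2 : {d | ∃ x ∈ P, ∃ y ∈ P, d = x - y} = P - P := by
    ext d
    rw [Set.mem_sub]
    constructor
    · rintro ⟨x, hx, y, hy, rfl⟩
      exact ⟨x, hx, y, hy, rfl⟩
    · rintro ⟨x, hx, y, hy, rfl⟩
      exact ⟨x, hx, y, hy, rfl⟩
  rw [h2]
  exact (h1.sub h1).ordConnected

lemma fstDiff_of {B : Finset Box} (hB : ∀ q ∈ B, q.1.1 < q.1.2 ∧ q.2.1 < q.2.2)
    (h : FstInterval B) : (FstDiff B).OrdConnected := by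
  have h1 := ho_ord B (fun q => q.1.1) (fun q => q.1.2) h
  have h2 := diff_eq B (fun q => q.1.1) (fun q => q.1.2) (fun q hq => (hB q hq).1)
  unfold FstDiff
  rw [h2]
  exact diff_ord h1

lemma sndDiff_of {B : Finset Box} (hB : ∀ q ∈ B, q.1.1 < q.1.2 ∧ q.2.1 < q.2.2)
    (h : SndInterval B) : (SndDiff B).OrdConnected := by
  have h1 := ho_ord B (fun q => q.2.1) (fun q => q.2.2) h
  have h2 := diff_eq B (fun q => q.2.1) (fun q => q.2.2) (fun q hq => (hB q hq).2)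
  unfold SndDiff
  rw [h2]
  exact diff_ord h1

lemma fstDiff_eq {B : Finset Box} (hB : ∀ q ∈ B, q.1.1 < q.1.2 ∧ q.2.1 < q.2.2) :
    FstDiff B = {d | ∃ v ∈ body B, ∃ w ∈ body B, d = v.1 - w.1} := by
  have h2 := diff_eq B (fun q => q.1.1) (fun q => q.1.2) (fun q hq => (hB q hq).1)
  unfold FstDiff
  rw [h2]
  ext d
  constructor
  · rintro ⟨x, ⟨p, hp, h1, h2⟩, y, ⟨q, hq, h3, h4⟩, rfl⟩
    exact ⟨(x, p.2.1), ⟨p, hp, h1, h2, le_rfl, (hB p hp).2⟩,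
      (y, q.2.1), ⟨q, hq, h3, h4, le_rfl, (hB q hq).2⟩, rfl⟩
  · rintro ⟨v, ⟨p, hp, h1, h2, -, -⟩, w, ⟨q, hq, h3, h4, -, -⟩, rfl⟩
    exact ⟨v.1, ⟨p, hp, h1, h2⟩, w.1, ⟨q, hq, h3, h4⟩, rfl⟩

lemma sndDiff_eq {B : Finset Box} (hB : ∀ q ∈ B, q.1.1 < q.1.2 ∧ q.2.1 < q.2.2) :
    SndDiff B = {d | ∃ v ∈ body B, ∃ w ∈ body B, d = v.2 - w.2} := by
  have h2 := diff_eq B (fun q => q.2.1) (fun q => q.2.2) (fun q hq => (hB q hq).2)
  unfold SndDiff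
  rw [h2]
  ext d
  constructor
  · rintro ⟨x, ⟨p, hp, h1, h2⟩, y, ⟨q, hq, h3, h4⟩, rfl⟩
    exact ⟨(p.1.1, x), ⟨p, hp, le_rfl, (hB p hp).1, h1, h2⟩,
      (q.1.1, y), ⟨q, hq, le_rfl, (hB q hq).1, h3, h4⟩, rfl⟩
  · rintro ⟨v, ⟨p, hp, -, -, h1, h2⟩, w, ⟨q, hq, -, -, h3, h4⟩, rfl⟩
    exact ⟨v.2, ⟨p, hp, h1, h2⟩, w.2, ⟨q, hq, h3, h4⟩, rfl⟩

lemma body_ne {B : Finset Box} (h0 : B.Nonempty)
    (hB : ∀ q ∈ B, q.1.1 < q.1.2 ∧ q.2.1 < q.2.2) : (body B).Nonempty := by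
  obtain ⟨q, hq⟩ := h0
  exact ⟨(q.1.1, q.2.1), q, hq, le_rfl, (hB q hq).1, le_rfl, (hB q hq).2⟩

lemma cbody_eq (B : Finset Box) :
    cbody B = ⋃ q ∈ B, Set.Icc q.1.1 q.1.2 ×ˢ Set.Icc q.2.1 q.2.2 := by
  ext z
  simp only [Set.mem_iUnion, exists_prop, Set.mem_prod, Set.mem_Icc]
  constructor
  · rintro ⟨q, hq, h1, h2, h3, h4⟩
    exact ⟨q, hq, ⟨h1, h2⟩, h3, h4⟩
  · rintro ⟨q, hq, ⟨h1, h2⟩, h3, h4⟩
    exact ⟨q, hq, h1, h2, h3, h4⟩

lemma cbody_isBody {B : Finset Box} (hB : ∀ q ∈ B, q.1.1 < q.1.2 ∧ q.2.1 < q.2.2) :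
    PSQ.IsBody (cbody B) := by
  have hc : IsCompact (cbody B) := by
    rw [cbody_eq]
    refine B.finite_toSet.isCompact_biUnion ?_
    intro q _
    exact isCompact_Icc.prod isCompact_Icc
  refine ⟨hc, ?_⟩
  apply Set.Subset.antisymm
  · exact (closure_mono interior_subset).trans hc.isClosed.closure_eq.subset
  · intro z hz
    rw [cbody_eq] at hz
    simp only [Set.mem_iUnion] at hz
    obtain ⟨q, hq, hz⟩ := hz
    have h1 : Set.Ioo q.1.1 q.1.2 ×ˢ Set.Ioo q.2.1 q.2.2 ⊆ interior (cbody B) := by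
      apply interior_maximal _ (isOpen_Ioo.prod isOpen_Ioo)
      rintro w ⟨⟨h1, h2⟩, h3, h4⟩
      exact ⟨q, hq, h1.le, h2.le, h3.le, h4.le⟩
    apply closure_mono h1
    rw [closure_prod_eq, closure_Ioo (hB q hq).1.ne, closure_Ioo (hB q hq).2.ne]
    exact hz

lemma pbody_eq {a b : ℝ × ℝ} (e : (ℝ × ℝ) ≃L[ℝ] (ℝ × ℝ)) (he : ∀ z, e z = z.1 • a + z.2 • b)
    (B : Finset Box) : pbody a b B = e '' cbody B := by
  ext z
  constructor
  · rintro ⟨q, hq, x, y, h1, h2, h3, h4, rfl⟩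
    exact ⟨(x, y), ⟨q, hq, h1, h2, h3, h4⟩, he _⟩
  · rintro ⟨w, ⟨q, hq, h1, h2, h3, h4⟩, rfl⟩
    exact ⟨q, hq, w.1, w.2, h1, h2, h3, h4, he w⟩

/-- Linear images of sets of finite local complexity. -/
lemma flc_image (e : (ℝ × ℝ) ≃L[ℝ] (ℝ × ℝ)) {T : Set (ℝ × ℝ)} (h : OL.FLC T) :
    OL.FLC (e '' T) := by
  intro R
  have h1 : ∃ K : ℝ, ∀ z, ‖e.symm z‖ ≤ K * ‖z‖ := ⟨‖(e.symm : (ℝ × ℝ) →L[ℝ] (ℝ × ℝ))‖, fun z =>
    (e.symm : (ℝ × ℝ) →L[ℝ] (ℝ × ℝ)).le_opNorm z⟩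
  obtain ⟨K, hK⟩ := h1
  refine ((h (|K| * |R|)).image e).subset ?_
  rintro d ⟨hd, t, ⟨s, hs, rfl⟩, ⟨s', hs', hs2⟩⟩
  have h2 : s' - s = e.symm d := by
    rw [ContinuousLinearEquiv.eq_symm_apply, map_sub, hs2, add_sub_cancel_left]
  refine ⟨e.symm d, ⟨?_, s, hs, ?_⟩, e.apply_symm_apply d⟩
  · calc ‖e.symm d‖ ≤ K * ‖d‖ := hK d
      _ ≤ |K| * |R| := by
        have h3 : K ≤ |K| := le_abs_self K
        have h4 : ‖d‖ ≤ |R| := hd.trans (le_abs_self R)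
        gcongr
  · rw [← h2, add_sub_cancel]
    exact hs'

/-- If the body is connected then the two projections are intervals. -/
lemma ints_of_conn {a b : ℝ × ℝ} (hab : LinearIndependent ℝ ![a, b]) {B : Finset Box}
    (hB : ∀ q ∈ B, q.1.1 < q.1.2 ∧ q.2.1 < q.2.2)
    (h : IsPreconnected (pbody a b B)) : FstInterval B ∧ SndInterval B := by
  obtain ⟨e, he⟩ := PSQ.exists_equiv hab
  rw [pbody_eq e he] at h
  have h1 : IsPreconnected (cbody B) := by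
    have h2 := h.image e.symm e.symm.continuous.continuousOn
    rwa [← Set.image_comp, show (e.symm : (ℝ × ℝ) → (ℝ × ℝ)) ∘ e = id from
      funext fun x => e.symm_apply_apply x, Set.image_id] at h2
  have h3 : Prod.fst '' cbody B = {x : ℝ | ∃ q ∈ B, q.1.1 ≤ x ∧ x ≤ q.1.2} := by
    ext x
    constructor
    · rintro ⟨z, ⟨q, hq, h1, h2, -, -⟩, rfl⟩
      exact ⟨q, hq, h1, h2⟩
    · rintro ⟨q, hq, h1, h2⟩
      exact ⟨(x, q.2.1), ⟨q, hq, h1, h2, le_rfl, (hB q hq).2.le⟩, rfl⟩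
  have h4 : Prod.snd '' cbody B = {y : ℝ | ∃ q ∈ B, q.2.1 ≤ y ∧ y ≤ q.2.2} := by
    ext y
    constructor
    · rintro ⟨z, ⟨q, hq, -, -, h1, h2⟩, rfl⟩
      exact ⟨q, hq, h1, h2⟩
    · rintro ⟨q, hq, h1, h2⟩
      exact ⟨(q.1.1, y), ⟨q, hq, le_rfl, (hB q hq).1.le, h1, h2⟩, rfl⟩
  constructor
  · unfold FstInterval
    rw [← h3]
    exact (h1.image _ continuous_fst.continuousOn).ordConnected
  · unfold SndInterval
    rw [← h4]
    exact (h1.image _ continuous_snd.continuousOn).ordConnected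

end Pool.Agent.PTR
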