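import Pool.Agent.PTR.Row

/-! Limits of exact covers (no finite local complexity). -/

set_option autoImplicit false

namespace Pool.Agent.PTR

open OL Filter Topology

/-- The translates are pairwise disjoint. -/
def Pk (C T : Set (ℝ × ℝ)) : Prop :=
  ∀ z, ∀ t ∈ T, ∀ t' ∈ T, z - t ∈ C → z - t' ∈ C → t = t'

theorem ECov.pk {C T : Set (ℝ × ℝ)} (h : ECov C T) : Pk C T :=
  fun z _ ht _ ht' h1 h2 => (h z).unique ⟨ht, h1⟩ ⟨ht', h2⟩

theorem Pk.mono {C T T' : Set (ℝ × ℝ)} (h : Pk C T) (hT : T' ⊆ T) : Pk C T' :=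
  fun z t ht t' ht' h1 h2 => h z t (hT ht) t' (hT ht') h1 h2

/-- Small translations to the right and upwards, and then small perturbations. -/
theorem body_near {B : Finset Box} {z s : ℝ × ℝ} (hz : z - s ∈ body B) :
    ∃ η0 > 0, ∀ η : ℝ, 0 < η → η < η0 → ∀ᶠ w in 𝓝 s, z + (η, η) - w ∈ body B := by
  obtain ⟨b, hb, h1, h2, h3, h4⟩ := hz
  simp only [Prod.fst_sub, Prod.snd_sub] at h1 h2 h3 h4
  refine ⟨min (b.1.2 - (z.1 - s.1)) (b.2.2 - (z.2 - s.2)),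
    lt_min (by linarith) (by linarith), fun η hη hη0 => ?_⟩
  have h5 := lt_of_lt_of_le hη0 (min_le_left _ _)
  have h6 := lt_of_lt_of_le hη0 (min_le_right _ _)
  have c1 : Tendsto (fun w : ℝ × ℝ => z.1 + η - w.1) (𝓝 s) (𝓝 (z.1 + η - s.1)) :=
    (Continuous.tendsto (by fun_prop) s)
  have c2 : Tendsto (fun w : ℝ × ℝ => z.2 + η - w.2) (𝓝 s) (𝓝 (z.2 + η - s.2)) :=
    (Continuous.tendsto (by fun_prop) s)
  have e1 := c1.eventually (lt_mem_nhds (by linarith : b.1.1 < z.1 + η - s.1))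
  have e2 := c1.eventually (gt_mem_nhds (by linarith : z.1 + η - s.1 < b.1.2))
  have e3 := c2.eventually (lt_mem_nhds (by linarith : b.2.1 < z.2 + η - s.2))
  have e4 := c2.eventually (gt_mem_nhds (by linarith : z.2 + η - s.2 < b.2.2))
  filter_upwards [e1, e2, e3, e4] with w g1 g2 g3 g4
  refine ⟨b, hb, ?_, ?_, ?_, ?_⟩
  · simp only [Prod.fst_sub, Prod.fst_add]; exact g1.le
  · simp only [Prod.fst_sub, Prod.fst_add]; exact g2
  · simp only [Prod.snd_sub, Prod.snd_add]; exact g3.le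
  · simp only [Prod.snd_sub, Prod.snd_add]; exact g4

/-- Uniform discreteness. -/
theorem unif_disc {B : Finset Box} (hne : (body B).Nonempty) :
    ∃ ε > 0, ∀ T, Pk (body B) T → ∀ t ∈ T, ∀ t' ∈ T, ‖t - t'‖ < ε → t = t' := by
  obtain ⟨z, b, hb, h1, h2, h3, h4⟩ := hne
  refine ⟨min (b.1.2 - z.1) (b.2.2 - z.2), lt_min (by linarith) (by linarith),
    fun T hT t ht t' ht' hd => ?_⟩
  have h5 := lt_of_lt_of_le hd (min_le_left _ _)
  have h6 := lt_of_lt_of_le hd (min_le_right _ _)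
  have h7 : |t.1 - t'.1| < b.1.2 - z.1 := lt_of_le_of_lt (by
    have := norm_fst_le (t - t')
    rwa [Prod.fst_sub, Real.norm_eq_abs] at this) h5
  have h8 : |t.2 - t'.2| < b.2.2 - z.2 := lt_of_le_of_lt (by
    have := norm_snd_le (t - t')
    rwa [Prod.snd_sub, Real.norm_eq_abs] at this) h6
  rw [abs_lt] at h7 h8
  have m1 : max t.1 t'.1 - t.1 < b.1.2 - z.1 := by
    rcases max_cases t.1 t'.1 with ⟨h, _⟩ | ⟨h, _⟩ <;> rw [h] <;> linarith
  have m2 : max t.1 t'.1 - t'.1 < b.1.2 - z.1 := by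
    rcases max_cases t.1 t'.1 with ⟨h, _⟩ | ⟨h, _⟩ <;> rw [h] <;> linarith
  have m3 : max t.2 t'.2 - t.2 < b.2.2 - z.2 := by
    rcases max_cases t.2 t'.2 with ⟨h, _⟩ | ⟨h, _⟩ <;> rw [h] <;> linarith
  have m4 : max t.2 t'.2 - t'.2 < b.2.2 - z.2 := by
    rcases max_cases t.2 t'.2 with ⟨h, _⟩ | ⟨h, _⟩ <;> rw [h] <;> linarith
  have l1 := le_max_left t.1 t'.1
  have l2 := le_max_right t.1 t'.1
  have l3 := le_max_left t.2 t'.2
  have l4 := le_max_right t.2 t'.2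
  refine hT (z.1 + max t.1 t'.1, z.2 + max t.2 t'.2) t ht t' ht' ⟨b, hb, ?_, ?_, ?_, ?_⟩
    ⟨b, hb, ?_, ?_, ?_, ?_⟩ <;> simp only [Prod.fst_sub, Prod.snd_sub] <;> linarith

/-- The limit along an ultrafilter. -/
def Lim (U : Ultrafilter ℕ) (Tn : ℕ → Set (ℝ × ℝ)) : Set (ℝ × ℝ) :=
  {s | ∃ t : ℕ → ℝ × ℝ, (∀ᶠ n in (U : Filter ℕ), t n ∈ Tn n) ∧ Tendsto t U (𝓝 s)}

theorem lim_disc {B : Finset Box} (hne : (body B).Nonempty) {U : Ultrafilter ℕ}
    {Tn : ℕ → Set (ℝ × ℝ)} (hpk : ∀ n, Pk (body B) (Tn n)) :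
    ∃ ε > 0, ∀ s ∈ Lim U Tn, ∀ s' ∈ Lim U Tn, ‖s - s'‖ < ε → s = s' := by
  obtain ⟨ε, hε, h⟩ := unif_disc hne
  refine ⟨ε, hε, ?_⟩
  rintro s ⟨t, ht1, ht2⟩ s' ⟨t', ht1', ht2'⟩ hd
  have h1 : Tendsto (fun n => ‖t n - t' n‖) U (𝓝 ‖s - s'‖) := (ht2.sub ht2').norm
  have h2 : ∀ᶠ n in (U : Filter ℕ), t n = t' n := by
    filter_upwards [ht1, ht1', h1.eventually (gt_mem_nhds hd)] with n g1 g2 g3
    exact h _ (hpk n) _ g1 _ g2 g3
  exact tendsto_nhds_unique (ht2.congr' h2) ht2'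

/-- Two sequences with the same limit are eventually equal. -/
theorem lim_seq {B : Finset Box} (hne : (body B).Nonempty) {U : Ultrafilter ℕ}
    {Tn : ℕ → Set (ℝ × ℝ)} (hpk : ∀ n, Pk (body B) (Tn n)) {s : ℝ × ℝ} {t t' : ℕ → ℝ × ℝ}
    (ht1 : ∀ᶠ n in (U : Filter ℕ), t n ∈ Tn n) (ht2 : Tendsto t U (𝓝 s))
    (ht1' : ∀ᶠ n in (U : Filter ℕ), t' n ∈ Tn n) (ht2' : Tendsto t' U (𝓝 s)) :
    ∀ᶠ n in (U : Filter ℕ), t n = t' n := by
  obtain ⟨ε, hε, h⟩ := unif_disc hne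
  have h1 : Tendsto (fun n => ‖t n - t' n‖) U (𝓝 0) := by
    have := (ht2.sub ht2').norm
    rwa [sub_self, norm_zero] at this
  filter_upwards [ht1, ht1', h1.eventually (gt_mem_nhds hε)] with n g1 g2 g3
  exact h _ (hpk n) _ g1 _ g2 g3

/-- A bounded sequence converges along an ultrafilter. -/
theorem ultra_conv (U : Ultrafilter ℕ) (t : ℕ → ℝ × ℝ) (R : ℝ)
    (h : ∀ᶠ n in (U : Filter ℕ), ‖t n‖ ≤ R) : ∃ s, Tendsto t U (𝓝 s) := by
  have h1 : (U.map t : Filter (ℝ × ℝ)) ≤ 𝓟 (Metric.closedBall 0 R) := by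
    rw [Ultrafilter.coe_map, le_principal_iff, Filter.mem_map]
    filter_upwards [h] with n hn
    rw [Set.mem_preimage, Metric.mem_closedBall, dist_zero_right]
    exact hn
  obtain ⟨s, -, hs⟩ := (isCompact_closedBall (0 : ℝ × ℝ) R).ultrafilter_le_nhds (U.map t) h1
  exact ⟨s, hs⟩

/-- Limits of exact covers are exact covers. -/
theorem lim_ecov {B : Finset Box} (hne : (body B).Nonempty) {U : Ultrafilter ℕ}
    {Tn : ℕ → Set (ℝ × ℝ)} (hpk : ∀ n, Pk (body B) (Tn n))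
    (h : ∀ z : ℝ × ℝ, ∀ᶠ n in (U : Filter ℕ), ∃ t, t ∈ Tn n ∧ z - t ∈ body B) :
    ECov (body B) (Lim U Tn) := by
  obtain ⟨K, hK⟩ := RD.body_bdd B
  intro z
  have huniq : ∀ s ∈ Lim U Tn, ∀ s' ∈ Lim U Tn, z - s ∈ body B → z - s' ∈ body B → s = s' := by
    rintro s ⟨t, ht1, ht2⟩ s' ⟨t', ht1', ht2'⟩ h1 h2
    obtain ⟨η0, hη0, h3⟩ := body_near h1
    obtain ⟨η0', hη0', h3'⟩ := body_near h2
    have hpos : 0 < min η0 η0' / 2 := by positivity
    have hlt : min η0 η0' / 2 < min η0 η0' := by linarith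
    have e1 := ht2.eventually (h3 _ hpos (lt_of_lt_of_le hlt (min_le_left _ _)))
    have e2 := ht2'.eventually (h3' _ hpos (lt_of_lt_of_le hlt (min_le_right _ _)))
    have h4 : ∀ᶠ n in (U : Filter ℕ), t n = t' n := by
      filter_upwards [ht1, ht1', e1, e2] with n g1 g2 g3 g4
      exact hpk n _ _ g1 _ g2 g3 g4
    exact tendsto_nhds_unique (ht2.congr' h4) ht2'
  have hex : ∃ s, s ∈ Lim U Tn ∧ z - s ∈ body B := by
    -- the points `z + (1/(k+1), 1/(k+1))`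
    have step : ∀ k : ℕ, ∃ s ∈ Lim U Tn, ‖s‖ ≤ ‖z‖ + 1 + K ∧ ∃ b ∈ B,
        b.1.1 ≤ z.1 + 1 / ((k : ℝ) + 1) - s.1 ∧ z.1 + 1 / ((k : ℝ) + 1) - s.1 ≤ b.1.2 ∧
        b.2.1 ≤ z.2 + 1 / ((k : ℝ) + 1) - s.2 ∧ z.2 + 1 / ((k : ℝ) + 1) - s.2 ≤ b.2.2 := by
      intro k
      set δ : ℝ := 1 / ((k : ℝ) + 1) with hδ
      have hδ0 : 0 < δ := by positivity
      have hδ1 : δ ≤ 1 := by
        rw [hδ, div_le_one (by positivity)]
        have : (0 : ℝ) ≤ k := Nat.cast_nonneg k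
        linarith
      have hk := h (z + (δ, δ))
      have hch : ∀ n, ∃ t : ℝ × ℝ, (∃ t, t ∈ Tn n ∧ z + (δ, δ) - t ∈ body B) →
          t ∈ Tn n ∧ z + (δ, δ) - t ∈ body B := by
        intro n
        by_cases hn : ∃ t, t ∈ Tn n ∧ z + (δ, δ) - t ∈ body B
        · obtain ⟨t, ht⟩ := hn
          exact ⟨t, fun _ => ht⟩
        · exact ⟨0, fun h => absurd h hn⟩
      choose t ht using hch
      have h5 : ∀ᶠ n in (U : Filter ℕ), t n ∈ Tn n ∧ z + (δ, δ) - t n ∈ body B := by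
        filter_upwards [hk] with n hn
        exact ht n hn
      have hbd : ∀ᶠ n in (U : Filter ℕ), ‖t n‖ ≤ ‖z‖ + 1 + K := by
        filter_upwards [h5] with n hn
        have g1 := hK _ hn.2
        have g2 : t n = z + (δ, δ) - (z + (δ, δ) - t n) := by abel
        rw [g2]
        refine (norm_sub_le _ _).trans (add_le_add ((norm_add_le _ _).trans ?_) g1)
        have g3 : ‖((δ, δ) : ℝ × ℝ)‖ = δ := by
          rw [Prod.norm_def]; simp [abs_of_pos hδ0]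
        rw [g3]
        linarith
      obtain ⟨s, hs⟩ := ultra_conv U t _ hbd
      refine ⟨s, ⟨t, h5.mono fun n hn => hn.1, hs⟩, ?_, ?_⟩
      · exact le_of_tendsto hs.norm hbd
      · have h6 : ∃ b ∈ B, ∀ᶠ n in (U : Filter ℕ), b.1.1 ≤ z.1 + δ - (t n).1 ∧
            z.1 + δ - (t n).1 < b.1.2 ∧ b.2.1 ≤ z.2 + δ - (t n).2 ∧
            z.2 + δ - (t n).2 < b.2.2 := by
          by_contra hcon
          push Not at hcon
          have h7 : ∀ b ∈ B, ∀ᶠ n in (U : Filter ℕ), ¬ (b.1.1 ≤ z.1 + δ - (t n).1 ∧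
            z.1 + δ - (t n).1 < b.1.2 ∧ b.2.1 ≤ z.2 + δ - (t n).2 ∧
            z.2 + δ - (t n).2 < b.2.2) := by
            intro b hb
            refine (hcon b hb).mono ?_
            rintro n hn ⟨g1, g2, g3, g4⟩
            exact absurd (hn g1 g2 g3) (not_le.2 g4)
          have h8 := (Filter.eventually_all_finset B).2 h7
          obtain ⟨n, hn1, hn2⟩ := (h5.and h8).exists
          obtain ⟨b, hb, g⟩ := hn1.2
          exact hn2 b hb g
        obtain ⟨b, hb, h7⟩ := h6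
        have c1 : Tendsto (fun n => z.1 + δ - (t n).1) U (𝓝 (z.1 + δ - s.1)) :=
          tendsto_const_nhds.sub ((continuous_fst.tendsto s).comp hs)
        have c2 : Tendsto (fun n => z.2 + δ - (t n).2) U (𝓝 (z.2 + δ - s.2)) :=
          tendsto_const_nhds.sub ((continuous_snd.tendsto s).comp hs)
        exact ⟨b, hb, ge_of_tendsto c1 (h7.mono fun n g => g.1),
          le_of_tendsto c1 (h7.mono fun n g => g.2.1.le),
          ge_of_tendsto c2 (h7.mono fun n g => g.2.2.1),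
          le_of_tendsto c2 (h7.mono fun n g => g.2.2.2.le)⟩
    choose s hs1 hs2 b hb h1 h2 h3 h4 using step
    let W : Ultrafilter ℕ := hyperfilter ℕ
    obtain ⟨s0, hs0⟩ := ultra_conv W s _ (Eventually.of_forall hs2)
    obtain ⟨ε, hε, hdisc⟩ := lim_disc hne hpk
    have hclose : ∀ᶠ k in (W : Filter ℕ), ‖s k - s0‖ < ε / 2 := by
      have : Tendsto (fun k => ‖s k - s0‖) W (𝓝 0) := by
        have := (hs0.sub tendsto_const_nhds (f := s) (g := fun _ => s0)).norm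
        simpa using this
      exact this.eventually (gt_mem_nhds (by positivity))
    obtain ⟨k0, hk0⟩ := hclose.exists
    have hconst : ∀ᶠ k in (W : Filter ℕ), s k = s k0 := by
      filter_upwards [hclose] with k hk
      refine hdisc _ (hs1 k) _ (hs1 k0) ?_
      have : s k - s k0 = (s k - s0) - (s k0 - s0) := by abel
      rw [this]
      refine (norm_sub_le _ _).trans_lt ?_
      linarith
    have hbox : ∃ b0 ∈ B, ∀ᶠ k in (W : Filter ℕ), b k = b0 := by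
      by_contra hcon
      push Not at hcon
      have h7 : ∀ b0 ∈ B, ∀ᶠ k in (W : Filter ℕ), ¬ b k = b0 := by
        intro b0 hb0
        exact hcon b0 hb0
      obtain ⟨k, hk⟩ := ((Filter.eventually_all_finset B).2 h7).exists
      exact hk _ (hb k) rfl
    obtain ⟨b0, hb0, hbk⟩ := hbox
    have hall : ∀ᶠ k : ℕ in (W : Filter ℕ), b0.1.1 ≤ z.1 + 1 / ((k : ℝ) + 1) - (s k0).1 ∧
        z.1 + 1 / ((k : ℝ) + 1) - (s k0).1 ≤ b0.1.2 ∧
        b0.2.1 ≤ z.2 + 1 / ((k : ℝ) + 1) - (s k0).2 ∧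
        z.2 + 1 / ((k : ℝ) + 1) - (s k0).2 ≤ b0.2.2 := by
      filter_upwards [hconst, hbk] with k g1 g2
      have a1 := h1 k
      have a2 := h2 k
      have a3 := h3 k
      have a4 := h4 k
      rw [g1, g2] at a1 a2 a3 a4
      exact ⟨a1, a2, a3, a4⟩
    have hlim : Tendsto (fun k : ℕ => 1 / ((k : ℝ) + 1)) W (𝓝 0) :=
      tendsto_one_div_add_atTop_nhds_zero_nat.mono_left (Nat.hyperfilter_le_atTop)
    have d1 : Tendsto (fun k : ℕ => z.1 + 1 / ((k : ℝ) + 1) - (s k0).1) W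
        (𝓝 (z.1 + 0 - (s k0).1)) := (tendsto_const_nhds.add hlim).sub tendsto_const_nhds
    have d2 : Tendsto (fun k : ℕ => z.2 + 1 / ((k : ℝ) + 1) - (s k0).2) W
        (𝓝 (z.2 + 0 - (s k0).2)) := (tendsto_const_nhds.add hlim).sub tendsto_const_nhds
    have f1 := ge_of_tendsto d1 (hall.mono fun k g => g.1)
    have f2 := ge_of_tendsto d2 (hall.mono fun k g => g.2.2.1)
    obtain ⟨k, g⟩ := hall.exists
    have hkpos : (0 : ℝ) < 1 / ((k : ℝ) + 1) := by positivity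
    refine ⟨s k0, hs1 k0, b0, hb0, ?_, ?_, ?_, ?_⟩ <;> simp only [Prod.fst_sub, Prod.snd_sub]
    · linarith
    · linarith [g.2.1]
    · linarith
    · linarith [g.2.2.2]
  obtain ⟨s, hs, hs'⟩ := hex
  exact ⟨s, ⟨hs, hs'⟩, fun s' h' => huniq s' h'.1 s hs h'.2 hs'⟩

/-- Limits keep periods. -/
theorem lim_per {U : Ultrafilter ℕ} {Tn : ℕ → Set (ℝ × ℝ)} {p : ℝ × ℝ}
    (h : ∀ n, Per p (Tn n)) : Per p (Lim U Tn) := by
  intro s
  constructor
  · rintro ⟨t, ht1, ht2⟩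
    refine ⟨fun n => t n - p, ?_, ?_⟩
    · filter_upwards [ht1] with n hn
      rw [← h n, sub_add_cancel]; exact hn
    · have := ht2.sub (tendsto_const_nhds (x := p))
      simpa using this
  · rintro ⟨t, ht1, ht2⟩
    refine ⟨fun n => t n + p, ?_, ht2.add tendsto_const_nhds⟩
    filter_upwards [ht1] with n hn
    rw [h n]; exact hn

end Pool.Agent.PTR
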