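import Mathlib

set_option autoImplicit false

/-!
# One lattice

Let `T` be a set of finite local complexity in the plane whose indicator function is annihilated by
a product of difference operators. Then some limit of translates of `T` is periodic or is contained
in finitely many translates of one lattice and is annihilated by a product of differences of that
lattice in pairwise different directions.
-/

namespace Pool.Agent.PTR.OL

open Filter

abbrev V : Type := ℝ × ℝ

/-- indicator function -/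
noncomputable def ii (T : Set V) (z : V) : ℤ := by
  classical exact if z ∈ T then 1 else 0

/-- The difference operator of `w`. -/
def dif (w : V) (u : V → ℤ) : V → ℤ := fun z => u z - u (z - w)

/-- Products of difference operators. -/
def difs (L : List V) (u : V → ℤ) : V → ℤ := L.foldr dif u

/-- `T'` is a limit of the translates `T - t`, `t ∈ T`. -/
def InHull (T T' : Set V) : Prop :=
  ∀ R : ℝ, ∃ t ∈ T, ∀ z : V, ‖z‖ ≤ R → (z ∈ T' ↔ z + t ∈ T)

/-- Finite local complexity. -/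
def FLC (T : Set V) : Prop := ∀ R : ℝ, {d : V | ‖d‖ ≤ R ∧ ∃ t ∈ T, t + d ∈ T}.Finite

theorem ii_of_mem {T : Set V} {z : V} (h : z ∈ T) : ii T z = 1 := by
  unfold ii
  rw [if_pos h]

theorem ii_of_not {T : Set V} {z : V} (h : z ∉ T) : ii T z = 0 := by
  unfold ii
  rw [if_neg h]

theorem ii_ne {T : Set V} {z : V} (h : ii T z ≠ 0) : z ∈ T := by
  by_contra hz
  exact h (ii_of_not hz)

theorem ii_congr {T T' : Set V} {z z' : V} (h : z ∈ T ↔ z' ∈ T') : ii T z = ii T' z' := by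
  by_cases hz : z ∈ T
  · rw [ii_of_mem hz, ii_of_mem (h.1 hz)]
  · rw [ii_of_not hz, ii_of_not (fun h' => hz (h.2 h'))]

theorem mem_iff_of_ii {T T' : Set V} {z z' : V} (h : ii T z = ii T' z') :
    z ∈ T ↔ z' ∈ T' := by
  constructor
  · intro hz
    rw [ii_of_mem hz] at h
    exact ii_ne (by rw [← h]; exact one_ne_zero)
  · intro hz
    rw [ii_of_mem hz] at h
    exact ii_ne (by rw [h]; exact one_ne_zero)

theorem ii_bdd (T : Set V) (z : V) : |ii T z| ≤ 1 := by
  by_cases hz : z ∈ T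
  · rw [ii_of_mem hz]; simp
  · rw [ii_of_not hz]; simp

/-! ## Differences -/

theorem difs_nil (u : V → ℤ) : difs [] u = u := rfl

theorem difs_cons (w : V) (L : List V) (u : V → ℤ) : difs (w :: L) u = dif w (difs L u) := rfl

theorem dif_comm (w w' : V) (u : V → ℤ) : dif w (dif w' u) = dif w' (dif w u) := by
  funext z
  unfold dif
  rw [sub_right_comm z w w']
  ring

instance : LeftCommutative dif := ⟨dif_comm⟩

theorem difs_perm {L L' : List V} (h : L.Perm L') (u : V → ℤ) : difs L u = difs L' u :=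
  h.foldr_eq u

theorem difs_dif (w : V) (L : List V) (u : V → ℤ) : difs L (dif w u) = dif w (difs L u) := by
  induction L with
  | nil => rfl
  | cons a L ih => rw [difs_cons, difs_cons, ih, dif_comm]

theorem difs_shift (L : List V) (u : V → ℤ) (t : V) :
    difs L (fun z => u (z + t)) = fun z => difs L u (z + t) := by
  induction L with
  | nil => rfl
  | cons a L ih =>
    rw [difs_cons, ih]
    funext z
    rw [difs_cons]
    unfold dif
    change difs L u (z + t) - difs L u (z - a + t) = _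
    rw [sub_add_eq_add_sub]

/-- the finite set of vectors which occur in `difs L` -/
noncomputable def sups : List V → Finset V
  | [] => {0}
  | w :: L => by classical exact sups L ∪ (sups L).image (fun s => s + w)

theorem sups_cons (w : V) (L : List V) (s : V) :
    s ∈ sups (w :: L) ↔ s ∈ sups L ∨ ∃ s' ∈ sups L, s' + w = s := by
  simp only [sups, Finset.mem_union, Finset.mem_image]

theorem difs_congr (L : List V) {u u' : V → ℤ} {z z' : V}
    (h : ∀ s ∈ sups L, u (z - s) = u' (z' - s)) : difs L u z = difs L u' z' := by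
  induction L generalizing z z' with
  | nil =>
    have := h 0 (by simp [sups])
    rwa [sub_zero, sub_zero] at this
  | cons w L ih =>
    rw [difs_cons, difs_cons]
    unfold dif
    rw [ih fun s hs => h s ((sups_cons w L s).2 (Or.inl hs))]
    rw [ih (z := z - w) (z' := z' - w) fun s hs => ?_]
    have h1 := h (s + w) ((sups_cons w L _).2 (Or.inr ⟨s, hs, rfl⟩))
    rw [show z - w - s = z - (s + w) by abel, show z' - w - s = z' - (s + w) by abel]
    exact h1

theorem difs_ne (L : List V) {u : V → ℤ} {z : V} (h : difs L u z ≠ 0) :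
    ∃ s ∈ sups L, u (z - s) ≠ 0 := by
  by_contra hcon
  push Not at hcon
  apply h
  have h1 : difs L u z = difs L (fun _ => (0 : ℤ)) z := difs_congr L fun s hs => hcon s hs
  have h2 : ∀ M : List V, difs M (fun _ => (0 : ℤ)) = fun _ => 0 := by
    intro M
    induction M with
    | nil => rfl
    | cons w M ih =>
      rw [difs_cons, ih]
      funext z
      simp [dif]
  rw [h1, h2]

theorem dif_zero_iff (w : V) (u : V → ℤ) : dif w u = 0 ↔ ∀ z, u (z + w) = u z := by
  constructor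
  · intro h z
    have h1 := congrFun h (z + w)
    unfold dif at h1
    rw [add_sub_cancel_right] at h1
    exact sub_eq_zero.1 h1
  · intro h
    funext z
    have h1 := h (z - w)
    rw [sub_add_cancel] at h1
    exact sub_eq_zero.2 h1

theorem per_nsmul {w : V} {u : V → ℤ} (h : ∀ z, u (z + w) = u z) (n : ℕ) (z : V) :
    u (z + n • w) = u z := by
  induction n with
  | zero => rw [zero_smul, add_zero]
  | succ n ih => rw [succ_nsmul, ← add_assoc, h, ih]

theorem per_zsmul {w : V} {u : V → ℤ} (h : ∀ z, u (z + w) = u z) (n : ℤ) (z : V) :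
    u (z + n • w) = u z := by
  obtain ⟨k, rfl | rfl⟩ := n.eq_nat_or_neg
  · rw [natCast_zsmul]
    exact per_nsmul h k z
  · have h1 := per_nsmul h k (z + (-(k : ℤ)) • w)
    rw [neg_smul, natCast_zsmul, neg_add_cancel_right] at h1
    rw [neg_smul, natCast_zsmul]
    exact h1.symm

/-- A multiple of a period. -/
theorem difs_zsmul {w : V} {L : List V} {u : V → ℤ} (h : difs (w :: L) u = 0) (n : ℤ) :
    difs ((n • w) :: L) u = 0 := by
  rw [difs_cons] at h ⊢
  exact (dif_zero_iff _ _).2 (per_zsmul ((dif_zero_iff _ _).1 h) n)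

theorem difs_map (L : List V) (f : V → V) (hf : ∀ w ∈ L, ∃ n : ℤ, f w = n • w) (u : V → ℤ)
    (h : difs L u = 0) : difs (L.map f) u = 0 := by
  induction L generalizing u with
  | nil => exact h
  | cons w L ih =>
    rw [difs_cons, ← difs_dif] at h
    have h1 := ih (fun w' hw' => hf w' (List.mem_cons_of_mem _ hw')) (dif w u) h
    rw [difs_dif, ← difs_cons] at h1
    obtain ⟨n, hn⟩ := hf w List.mem_cons_self
    rw [List.map_cons, hn]
    exact difs_zsmul h1 n

theorem difs_bdd (L : List V) {u : V → ℤ} (hu : ∃ B, ∀ z, |u z| ≤ B) :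
    ∃ B, ∀ z, |difs L u z| ≤ B := by
  induction L with
  | nil => exact hu
  | cons w L ih =>
    obtain ⟨B, hB⟩ := ih
    refine ⟨B + B, fun z => ?_⟩
    rw [difs_cons]
    exact (abs_sub _ _).trans (add_le_add (hB _) (hB _))

/-- A bounded function killed by the square of a difference is killed by the difference. -/
theorem dif_sq {v : V} {f : V → ℤ} (hf : ∃ B, ∀ z, |f z| ≤ B) (h : dif v (dif v f) = 0) :
    dif v f = 0 := by
  obtain ⟨B, hB⟩ := hf
  have h1 := (dif_zero_iff _ _).1 h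
  have h2 : ∀ (n : ℕ) (z : V), f (z + n • v) = f z + n * dif v f z := by
    intro n z
    induction n with
    | zero => simp
    | succ n ih =>
      have h3 : dif v f (z + (n + 1) • v) = dif v f z := per_nsmul h1 (n + 1) z
      have h4 : f (z + (n + 1) • v) = f (z + n • v) + dif v f z := by
        rw [← h3]
        unfold dif
        rw [succ_nsmul, ← add_assoc, add_sub_cancel_right]
        ring
      rw [h4, ih]
      push_cast
      ring
  funext z
  by_contra hne
  have h5 : 1 ≤ |dif v f z| := Int.one_le_abs hne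
  have hB0 : 0 ≤ B := (abs_nonneg _).trans (hB z)
  obtain ⟨n, hn⟩ : ∃ n : ℕ, 2 * B < n := by
    refine ⟨(2 * B + 1).toNat, ?_⟩
    rw [Int.toNat_of_nonneg (by omega)]
    omega
  have h6 := h2 n z
  have h7 : |(n : ℤ) * dif v f z| ≤ 2 * B := by
    have : (n : ℤ) * dif v f z = f (z + n • v) - f z := by rw [h6]; ring
    rw [this]
    have := (abs_sub (f (z + n • v)) (f z)).trans (add_le_add (hB _) (hB _))
    linarith
  rw [abs_mul, Nat.abs_cast] at h7
  nlinarith


/-! ## The hull -/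

theorem InHull.zero_mem {T T' : Set V} (h : InHull T T') : (0 : V) ∈ T' := by
  obtain ⟨t, ht, h1⟩ := h 0
  exact (h1 0 (by simp)).2 (by rwa [zero_add])

theorem InHull.trans {T T' T'' : Set V} (h : InHull T T') (h' : InHull T' T'') :
    InHull T T'' := by
  intro R
  obtain ⟨t', ht', h1⟩ := h' (max R 0)
  obtain ⟨t, ht, h2⟩ := h (max R 0 + ‖t'‖)
  have h3 : t' + t ∈ T := (h2 t' (by linarith [le_max_right R 0])).1 ht'
  refine ⟨t' + t, h3, fun z hz => ?_⟩
  have hz' : ‖z‖ ≤ max R 0 := hz.trans (le_max_left _ _)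
  rw [h1 z hz', h2 (z + t') ((norm_add_le _ _).trans (by linarith)), add_assoc]

theorem FLC.hull {T T' : Set V} (hF : FLC T) (h : InHull T T') : FLC T' := by
  intro R
  refine (hF R).subset ?_
  rintro d ⟨hd, s, hs, hsd⟩
  obtain ⟨t, ht, h1⟩ := h (‖s‖ + R)
  refine ⟨hd, s + t, (h1 s ?_).1 hs, ?_⟩
  · have := norm_nonneg d
    linarith
  · have h2 := (h1 (s + d) ((norm_add_le _ _).trans (by linarith))).1 hsd
    rwa [add_right_comm] at h2

/-- Limits exist. -/
theorem limit_exists {T : Set V} (hF : FLC T) (t : ℕ → V) (ht : ∀ n, t n ∈ T) :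
    ∃ T' : Set V, ∀ R : ℝ, ∃ᶠ n in atTop, ∀ z : V, ‖z‖ ≤ R → (z ∈ T' ↔ z + t n ∈ T) := by
  let U : Ultrafilter ℕ := hyperfilter ℕ
  refine ⟨{z | ∀ᶠ n in U, z + t n ∈ T}, fun R => ?_⟩
  have h1 : ∀ z : V, ∀ᶠ n in U, (z ∈ {z | ∀ᶠ n in U, z + t n ∈ T} ↔ z + t n ∈ T) := by
    intro z
    by_cases hz : ∀ᶠ n in U, z + t n ∈ T
    · filter_upwards [hz] with n hn
      exact ⟨fun _ => hn, fun _ => hz⟩
    · have hz' := Ultrafilter.eventually_not.2 hz
      filter_upwards [hz'] with n hn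
      exact ⟨fun h => absurd h hz, fun h => absurd h hn⟩
  have h2 : ∀ᶠ n in U, ∀ z ∈ {d : V | ‖d‖ ≤ R ∧ ∃ t ∈ T, t + d ∈ T},
      (z ∈ {z | ∀ᶠ n in U, z + t n ∈ T} ↔ z + t n ∈ T) :=
    (eventually_all_finite (hF R)).2 fun z _ => h1 z
  have h3 : ∀ᶠ n in U, ∀ z : V, ‖z‖ ≤ R →
      (z ∈ {z | ∀ᶠ n in U, z + t n ∈ T} ↔ z + t n ∈ T) := by
    filter_upwards [h2] with n hn z hz
    by_cases hd : ∃ t ∈ T, t + z ∈ T
    · exact hn z ⟨hz, hd⟩
    · have h4 : ∀ n, z + t n ∉ T := fun n h => hd ⟨t n, ht n, by rwa [add_comm]⟩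
      refine ⟨fun h => ?_, fun h => absurd h (h4 n)⟩
      obtain ⟨m, hm⟩ := (h : ∀ᶠ n in U, z + t n ∈ T).exists
      exact absurd hm (h4 m)
  exact h3.frequently.filter_mono Nat.hyperfilter_le_atTop

/-! ## The main step -/

/-- `K` meets `t + g + Q` for all `t ∈ K`, `g ∈ S`. -/
def Walk (K : Set V) (S : AddSubgroup V) : Prop :=
  ∃ Q : Finset V, ∀ t ∈ K, ∀ g ∈ S, ∃ q ∈ Q, t + g + q ∈ K

theorem Walk.bot {K : Set V} : Walk K ⊥ := by
  refine ⟨{0}, fun t ht g hg => ⟨0, by simp, ?_⟩⟩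
  rw [AddSubgroup.mem_bot.1 hg, add_zero, add_zero]
  exact ht

theorem Walk.sup {K : Set V} {S S' : AddSubgroup V} (h : Walk K S) (h' : Walk K S') :
    Walk K (S ⊔ S') := by
  classical
  obtain ⟨Q, hQ⟩ := h
  obtain ⟨Q', hQ'⟩ := h'
  refine ⟨(Q ×ˢ Q').image fun p => p.1 + p.2, fun t ht g hg => ?_⟩
  obtain ⟨x, hx, y, hy, rfl⟩ := AddSubgroup.mem_sup.1 hg
  obtain ⟨q, hq, h1⟩ := hQ t ht x hx
  obtain ⟨q', hq', h2⟩ := hQ' _ h1 y hy
  refine ⟨q + q', Finset.mem_image.2 ⟨(q, q'), Finset.mem_product.2 ⟨hq, hq'⟩, rfl⟩, ?_⟩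
  rwa [show t + (x + y) + (q + q') = t + x + q + y + q' by abel]

/-- A walk in the direction of one of the factors of a minimal product. -/
theorem walk_of_min {T : Set V} (hF : FLC T) (L : List V) (w : V) (hw : w ∈ L)
    (h0 : difs L (ii T) = 0)
    (hmin : ∀ T', InHull T T' → difs (L.erase w) (ii T') ≠ 0) :
    Walk T (AddSubgroup.zmultiples w) := by
  classical
  set u := difs (L.erase w) (ii T) with hu
  have hper : ∀ z, u (z + w) = u z := by
    rw [← dif_zero_iff, hu, ← difs_cons, ← difs_perm (List.perm_cons_erase hw)]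
    exact h0
  -- the nonzero values of `u` are relatively dense
  obtain ⟨R, hR⟩ : ∃ R : ℕ, ∀ t ∈ T, ∃ z, ‖z - t‖ ≤ R ∧ u z ≠ 0 := by
    by_contra hcon
    push Not at hcon
    choose t ht h1 using hcon
    obtain ⟨T', hT'⟩ := limit_exists hF t ht
    apply hmin T'
    · intro R
      obtain ⟨n, hn⟩ := (hT' R).exists
      exact ⟨t n, ht n, hn⟩
    · funext z
      obtain ⟨σ, hσ⟩ : ∃ σ : ℝ, ∀ s ∈ sups (L.erase w), ‖s‖ ≤ σ := by
        refine ⟨∑ s ∈ sups (L.erase w), ‖s‖, fun s hs => ?_⟩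
        exact Finset.single_le_sum (f := fun s => ‖s‖) (fun _ _ => norm_nonneg _) hs
      obtain ⟨N, hN⟩ := exists_nat_ge ‖z‖
      obtain ⟨n, hn, h2⟩ := ((hT' (‖z‖ + σ)).and_eventually (eventually_ge_atTop N)).exists
      have h3 : difs (L.erase w) (ii T') z = u (z + t n) := by
        refine difs_congr _ fun s hs => ii_congr ?_
        rw [hn (z - s) ((norm_sub_le _ _).trans (by linarith [hσ s hs])),
          sub_add_eq_add_sub]
      rw [h3]
      apply h1 n
      rw [add_sub_cancel_right]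
      exact hN.trans (by exact_mod_cast h2)
  -- the finite set
  obtain ⟨σ, hσ⟩ : ∃ σ : ℝ, ∀ s ∈ sups (L.erase w), ‖s‖ ≤ σ := by
    refine ⟨∑ s ∈ sups (L.erase w), ‖s‖, fun s hs => ?_⟩
    exact Finset.single_le_sum (f := fun s => ‖s‖) (fun _ _ => norm_nonneg _) hs
  set D := (hF (R + σ)).toFinset with hD
  refine ⟨(D ×ˢ (sups (L.erase w) ×ˢ sups (L.erase w))).image
    fun p => p.1 + p.2.1 - p.2.2, fun t ht g hg => ?_⟩
  obtain ⟨k, rfl⟩ := AddSubgroup.mem_zmultiples_iff.1 hg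
  obtain ⟨z, hz, hz0⟩ := hR t ht
  obtain ⟨s, hs, hs0⟩ := difs_ne _ hz0
  have hk : u (z + k • w) ≠ 0 := by
    rw [per_zsmul hper]
    exact hz0
  obtain ⟨s', hs', hs0'⟩ := difs_ne _ hk
  refine ⟨(z - s - t) + s - s', Finset.mem_image.2 ⟨(z - s - t, (s, s')), ?_, rfl⟩, ?_⟩
  · refine Finset.mem_product.2 ⟨?_, Finset.mem_product.2 ⟨hs, hs'⟩⟩
    rw [hD, Set.Finite.mem_toFinset]
    refine ⟨?_, t, ht, ?_⟩
    · rw [sub_right_comm]
      exact (norm_sub_le _ _).trans (add_le_add hz (hσ s hs))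
    · rw [add_sub_cancel]
      exact ii_ne hs0
  · have := ii_ne hs0'
    rwa [show t + k • w + (z - s - t + s - s') = z + k • w - s' by abel]

/-- A group along which one can walk is discrete. -/
theorem Walk.discrete {K : Set V} (hF : FLC K) (h0 : (0 : V) ∈ K) {S : AddSubgroup V}
    (h : Walk K S) (R : ℝ) : {g : V | g ∈ S ∧ ‖g‖ ≤ R}.Finite := by
  classical
  obtain ⟨Q, hQ⟩ := h
  obtain ⟨σ, hσ⟩ : ∃ σ : ℝ, ∀ s ∈ Q, ‖s‖ ≤ σ := by
    refine ⟨∑ s ∈ Q, ‖s‖, fun s hs => ?_⟩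
    exact Finset.single_le_sum (f := fun s => ‖s‖) (fun _ _ => norm_nonneg _) hs
  refine (((hF (R + σ)).toFinset ×ˢ Q).image fun p => p.1 - p.2).finite_toSet.subset ?_
  rintro g ⟨hg, hR⟩
  obtain ⟨q, hq, h1⟩ := hQ 0 h0 g hg
  rw [zero_add] at h1
  rw [Finset.mem_coe, Finset.mem_image]
  refine ⟨(g + q, q), Finset.mem_product.2 ⟨?_, hq⟩, by simp⟩
  rw [Set.Finite.mem_toFinset]
  exact ⟨(norm_add_le _ _).trans (add_le_add hR (hσ q hq)), 0, h0, by rwa [zero_add]⟩

/-- Bounded sequences in a discrete group repeat. -/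
theorem repeats {S : AddSubgroup V} (hS : ∀ R : ℝ, {g : V | g ∈ S ∧ ‖g‖ ≤ R}.Finite)
    (g : ℕ → V) (hg : ∀ n, g n ∈ S) (R : ℝ) (hR : ∀ n, ‖g n‖ ≤ R) :
    ∃ m n, m < n ∧ g m = g n := by
  have h1 : Set.MapsTo g Set.univ {g : V | g ∈ S ∧ ‖g‖ ≤ R} := fun n _ => ⟨hg n, hR n⟩
  obtain ⟨m, -, n, -, hmn, h2⟩ :=
    Set.infinite_univ.exists_ne_map_eq_of_mapsTo h1 (hS R)
  rcases lt_or_gt_of_ne hmn with h | h
  · exact ⟨m, n, h, h2⟩
  · exact ⟨n, m, h, h2.symm⟩

/-- Parallel vectors of a discrete group are commensurable. -/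
theorem comm_of_parallel {S : AddSubgroup V}
    (hS : ∀ R : ℝ, {g : V | g ∈ S ∧ ‖g‖ ≤ R}.Finite) {w w' : V} (hw : w ∈ S) (hw' : w' ∈ S)
    (c : ℝ) (hc : w' = c • w) : ∃ m n : ℤ, m ≠ 0 ∧ m • w' = n • w := by
  obtain ⟨i, j, hij, h⟩ := repeats hS (fun n : ℕ => (n : ℤ) • w' - ⌊(n : ℝ) * c⌋ • w)
    (fun n => S.sub_mem (S.zsmul_mem hw' _) (S.zsmul_mem hw _)) ‖w‖ (fun n => by
      have h1 : (n : ℤ) • w' - ⌊(n : ℝ) * c⌋ • w = Int.fract ((n : ℝ) * c) • w := by
        rw [hc, natCast_zsmul, ← Nat.cast_smul_eq_nsmul ℝ, smul_smul,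
          ← Int.cast_smul_eq_zsmul ℝ, ← sub_smul]
        rfl
      rw [h1, norm_smul, Real.norm_eq_abs, abs_of_nonneg (Int.fract_nonneg _)]
      exact mul_le_of_le_one_left (norm_nonneg _) (Int.fract_lt_one _).le)
  refine ⟨(j : ℤ) - i, ⌊(j : ℝ) * c⌋ - ⌊(i : ℝ) * c⌋, by omega, ?_⟩
  rw [sub_smul, sub_smul, sub_eq_sub_iff_add_eq_add]
  rw [sub_eq_sub_iff_add_eq_add] at h
  rw [← h]
  abel

/-- The coordinates with respect to two linearly independent vectors. -/
theorem exists_coord {a b : V} (h : LinearIndependent ℝ ![a, b]) (v : V) :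
    ∃ x y : ℝ, v = x • a + y • b := by
  have h1 : Submodule.span ℝ (Set.range ![a, b]) = ⊤ := by
    apply h.span_eq_top_of_card_eq_finrank'
    simp
  have h2 : v ∈ Submodule.span ℝ (Set.range ![a, b]) := by
    rw [h1]
    trivial
  rw [Matrix.range_cons, Matrix.range_cons, Matrix.range_empty, Set.union_empty,
    Set.singleton_union, Submodule.mem_span_pair] at h2
  obtain ⟨x, y, hxy⟩ := h2
  exact ⟨x, y, hxy.symm⟩

theorem floor_bound (a b : V) (x y : ℝ) :
    ‖(x • a + y • b) - (⌊x⌋ • a + ⌊y⌋ • b)‖ ≤ ‖a‖ + ‖b‖ := by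
  have h1 : (x • a + y • b) - (⌊x⌋ • a + ⌊y⌋ • b) = Int.fract x • a + Int.fract y • b := by
    rw [← Int.self_sub_floor, ← Int.self_sub_floor, sub_smul, sub_smul,
      ← Int.cast_smul_eq_zsmul ℝ ⌊x⌋, ← Int.cast_smul_eq_zsmul ℝ ⌊y⌋]
    abel
  rw [h1]
  refine (norm_add_le _ _).trans (add_le_add ?_ ?_)
  · rw [norm_smul, Real.norm_eq_abs, abs_of_nonneg (Int.fract_nonneg _)]
    exact mul_le_of_le_one_left (norm_nonneg _) (Int.fract_lt_one _).le
  · rw [norm_smul, Real.norm_eq_abs, abs_of_nonneg (Int.fract_nonneg _)]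
    exact mul_le_of_le_one_left (norm_nonneg _) (Int.fract_lt_one _).le

/-- A vector of a discrete group has a nonzero multiple in a sublattice of rank two. -/
theorem mult_mem {S : AddSubgroup V} (hS : ∀ R : ℝ, {g : V | g ∈ S ∧ ‖g‖ ≤ R}.Finite)
    {a b w : V} (ha : a ∈ S) (hb : b ∈ S) (hw : w ∈ S) (h : LinearIndependent ℝ ![a, b]) :
    ∃ k m n : ℤ, k ≠ 0 ∧ k • w = m • a + n • b := by
  obtain ⟨x, y, hxy⟩ := exists_coord h w
  obtain ⟨i, j, hij, h⟩ := repeats hS
    (fun n : ℕ => (n : ℤ) • w - (⌊(n : ℝ) * x⌋ • a + ⌊(n : ℝ) * y⌋ • b))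
    (fun n => S.sub_mem (S.zsmul_mem hw _)
      (S.add_mem (S.zsmul_mem ha _) (S.zsmul_mem hb _))) (‖a‖ + ‖b‖) (fun n => by
      have h1 : (n : ℤ) • w = ((n : ℝ) * x) • a + ((n : ℝ) * y) • b := by
        rw [natCast_zsmul, ← Nat.cast_smul_eq_nsmul ℝ, hxy, smul_add, smul_smul, smul_smul]
      change ‖(n : ℤ) • w - _‖ ≤ _
      rw [h1]
      exact floor_bound a b _ _)
  refine ⟨(j : ℤ) - i, ⌊(j : ℝ) * x⌋ - ⌊(i : ℝ) * x⌋, ⌊(j : ℝ) * y⌋ - ⌊(i : ℝ) * y⌋,
    by omega, ?_⟩
  rw [sub_eq_sub_iff_add_eq_add] at h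
  rw [sub_smul, sub_smul, sub_smul, sub_eq_iff_eq_add, ← add_right_inj
    (⌊(i : ℝ) * x⌋ • a + ⌊(i : ℝ) * y⌋ • b)]
  rw [add_comm _ ((j : ℤ) • w), ← h]
  abel

/-- In a minimal product there are no two commensurable factors. -/
theorem no_comm {T : Set V} (L : List V) (hL : ∀ w ∈ L, w ≠ 0) (h0 : difs L (ii T) = 0)
    (hmin : ∀ L' : List V, (∀ w ∈ L', w ≠ 0) → difs L' (ii T) = 0 → L.length ≤ L'.length)
    (w w' : V) (rest : List V) (hp : L.Perm (w :: w' :: rest)) (m n : ℤ) (hm : m ≠ 0)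
    (h : m • w' = n • w) : False := by
  have hw' : w' ≠ 0 := hL w' (hp.mem_iff.2 (by simp))
  have hv : m • w' ≠ 0 := smul_ne_zero hm hw'
  have h1 : difs (w :: w' :: rest) (ii T) = 0 := by rw [← difs_perm hp]; exact h0
  have h2 : difs (n • w :: w' :: rest) (ii T) = 0 := difs_zsmul h1 n
  have h3 : difs (w' :: n • w :: rest) (ii T) = 0 := by
    rw [← difs_perm (List.Perm.swap w' (n • w) rest)]
    exact h2
  have h4 : difs (m • w' :: n • w :: rest) (ii T) = 0 := difs_zsmul h3 m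
  rw [← h] at h4
  have h5 : dif (m • w') (difs rest (ii T)) = 0 :=
    dif_sq (difs_bdd rest ⟨1, ii_bdd T⟩) h4
  have h6 := hmin (m • w' :: rest) (by
    intro v hv'
    rcases List.mem_cons.1 hv' with rfl | hv'
    · exact hv
    · exact hL v (hp.mem_iff.2 (by simp [hv']))) h5
  rw [hp.length_eq] at h6
  simp at h6

/-- The main theorem. -/
theorem one_lattice (T : Set V) (hne : T.Nonempty) (hF : FLC T) (L : List V)
    (hL : ∀ w ∈ L, w ≠ 0) (hD : difs L (ii T) = 0) :
    ∃ T' : Set V, InHull T T' ∧ (0 : V) ∈ T' ∧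
      ((∃ p : V, p ≠ 0 ∧ ∀ z, z + p ∈ T' ↔ z ∈ T') ∨
      ∃ a b : V, LinearIndependent ℝ ![a, b] ∧
        (∃ X : Finset V, ∀ t ∈ T', ∃ x ∈ X, ∃ m n : ℤ, t = x + (m • a + n • b)) ∧
        ∃ L' : List V, (∀ w ∈ L', ∃ m n : ℤ, w = m • a + n • b) ∧ (∀ w ∈ L', w ≠ 0) ∧
          L'.Pairwise (fun w w' => LinearIndependent ℝ ![w, w']) ∧ difs L' (ii T') = 0) := by
  classical
  -- a minimal product
  obtain ⟨t0, ht0⟩ := hne
  have hex : ∃ m : ℕ, ∃ T' : Set V, ∃ L' : List V, InHull T T' ∧ L'.length = m ∧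
      (∀ w ∈ L', w ≠ 0) ∧ difs L' (ii T') = 0 := by
    refine ⟨L.length, {z | z + t0 ∈ T}, L, fun R => ⟨t0, ht0, fun z _ => Iff.rfl⟩, rfl, hL, ?_⟩
    have h1 : ii {z | z + t0 ∈ T} = fun z => ii T (z + t0) := by
      funext z
      exact ii_congr Iff.rfl
    rw [h1, difs_shift, hD]
    rfl
  obtain ⟨T', L', hT', hlen, hL', h0⟩ := Nat.find_spec hex
  have hmin : ∀ T'' : Set V, ∀ L'' : List V, InHull T' T'' → (∀ w ∈ L'', w ≠ 0) →
      difs L'' (ii T'') = 0 → L'.length ≤ L''.length := by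
    intro T'' L'' h1 h2 h3
    rw [hlen]
    exact Nat.find_min' hex ⟨T'', L'', hT'.trans h1, rfl, h2, h3⟩
  have hzero : (0 : V) ∈ T' := hT'.zero_mem
  have hF' : FLC T' := hF.hull hT'
  have hself : InHull T' T' := fun R => ⟨0, hzero, fun z _ => by rw [add_zero]⟩
  refine ⟨T', hT', hzero, ?_⟩
  -- walks
  have hwalk : ∀ w ∈ L', Walk T' (AddSubgroup.zmultiples w) := by
    intro w hw
    refine walk_of_min hF' L' w hw h0 fun T'' h1 h2 => ?_
    have h3 := hmin T'' (L'.erase w) h1 (fun v hv => hL' v (List.mem_of_mem_erase hv)) h2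
    rw [List.length_erase_of_mem hw] at h3
    have := List.length_pos_of_mem hw
    omega
  have hcl : ∀ M : List V, (∀ w ∈ M, w ∈ L') →
      Walk T' (AddSubgroup.closure {w | w ∈ M}) := by
    intro M
    induction M with
    | nil =>
      intro _
      have h1 : ({w | w ∈ ([] : List V)} : Set V) = ∅ := by
        ext w
        simp
      rw [h1, AddSubgroup.closure_empty]
      exact Walk.bot
    | cons w M ih =>
      intro hM
      have h1 : ({v | v ∈ w :: M} : Set V) = {w} ∪ {v | v ∈ M} := by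
        ext v
        simp
      rw [h1, AddSubgroup.closure_union, ← AddSubgroup.zmultiples_eq_closure]
      exact (hwalk w (hM w List.mem_cons_self)).sup
        (ih fun v hv => hM v (List.mem_cons_of_mem _ hv))
  set S := AddSubgroup.closure {w | w ∈ L'} with hS
  have hWS : Walk T' S := hcl L' fun w hw => hw
  have hdis := hWS.discrete hF' hzero
  have hmem : ∀ w ∈ L', w ∈ S := fun w hw => AddSubgroup.subset_closure hw
  -- pairwise independence
  have hpar : ∀ (w w' : V) (rest : List V), L'.Perm (w :: w' :: rest) →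
      LinearIndependent ℝ ![w, w'] := by
    intro w w' rest hp
    by_contra hcon
    have hw : w ∈ L' := hp.mem_iff.2 (by simp)
    have hw' : w' ∈ L' := hp.mem_iff.2 (by simp)
    rw [LinearIndependent.pair_iff' (hL' w hw)] at hcon
    push Not at hcon
    obtain ⟨c, hc⟩ := hcon
    obtain ⟨m, n, hm, h1⟩ := comm_of_parallel hdis (hmem w hw) (hmem w' hw') c hc.symm
    exact no_comm L' hL' h0 (fun L'' h2 h3 => hmin T' L'' hself h2 h3) w w' rest hp m n hm h1
  -- the case distinction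
  rcases L' with _ | ⟨a, M⟩
  · exfalso
    have h1 := congrFun h0 0
    rw [difs_nil, ii_of_mem hzero] at h1
    exact one_ne_zero h1
  rcases M with _ | ⟨b, M⟩
  · left
    refine ⟨a, hL' a List.mem_cons_self, fun z => ?_⟩
    have h1 := (dif_zero_iff a (ii T')).1 h0 z
    exact mem_iff_of_ii h1
  right
  have hab : LinearIndependent ℝ ![a, b] := hpar a b M (List.Perm.refl _)
  have ha : a ∈ S := hmem a (by simp)
  have hb : b ∈ S := hmem b (by simp)
  refine ⟨a, b, hab, ?_, ?_⟩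
  · obtain ⟨Q, hQ⟩ := hWS
    obtain ⟨σ, hσ⟩ : ∃ σ : ℝ, ∀ s ∈ Q, ‖s‖ ≤ σ := by
      refine ⟨∑ s ∈ Q, ‖s‖, fun s hs => ?_⟩
      exact Finset.single_le_sum (f := fun s => ‖s‖) (fun _ _ => norm_nonneg _) hs
    refine ⟨((hF' (‖a‖ + ‖b‖ + σ)).toFinset ×ˢ Q).image fun p => p.1 - p.2, fun t ht => ?_⟩
    obtain ⟨x, y, hxy⟩ := exists_coord hab t
    obtain ⟨q, hq, h1⟩ := hQ t ht (-(⌊x⌋ • a + ⌊y⌋ • b))
      (S.neg_mem (S.add_mem (S.zsmul_mem ha _) (S.zsmul_mem hb _)))
    refine ⟨(t + -(⌊x⌋ • a + ⌊y⌋ • b) + q) - q, ?_, ⌊x⌋, ⌊y⌋, by abel⟩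
    refine Finset.mem_image.2 ⟨(t + -(⌊x⌋ • a + ⌊y⌋ • b) + q, q),
      Finset.mem_product.2 ⟨?_, hq⟩, rfl⟩
    rw [Set.Finite.mem_toFinset]
    refine ⟨(norm_add_le _ _).trans (add_le_add ?_ (hσ q hq)), 0, hzero, by rwa [zero_add]⟩
    rw [← sub_eq_add_neg, hxy]
    exact floor_bound a b x y
  · -- multiples in the lattice
    have hmul : ∀ w : V, ∃ k : ℤ, (w ∈ a :: b :: M → k ≠ 0 ∧ ∃ m n : ℤ,
        k • w = m • a + n • b) := by
      intro w
      by_cases hw : w ∈ a :: b :: M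
      · obtain ⟨k, m, n, hk, h1⟩ := mult_mem hdis ha hb (hmem w hw) hab
        exact ⟨k, fun _ => ⟨hk, m, n, h1⟩⟩
      · exact ⟨0, fun h => absurd h hw⟩
    choose k hk using hmul
    refine ⟨(a :: b :: M).map fun w => k w • w, ?_, ?_, ?_, ?_⟩
    · intro v hv
      obtain ⟨w, hw, rfl⟩ := List.mem_map.1 hv
      exact (hk w hw).2
    · intro v hv
      obtain ⟨w, hw, rfl⟩ := List.mem_map.1 hv
      exact smul_ne_zero (hk w hw).1 (hL' w hw)
    · rw [List.pairwise_map]
      have h1 : (a :: b :: M).Pairwise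
          (fun w w' => LinearIndependent ℝ ![k w • w, k w' • w']) := by
        rw [List.pairwise_iff_getElem]
        intro i j hi hj hij
        have hp : (a :: b :: M).Perm ((a :: b :: M)[i] :: (a :: b :: M)[j] ::
            ((a :: b :: M).eraseIdx j).eraseIdx i) := by
          have e1 := List.getElem_cons_eraseIdx_perm hj
          have hi' : i < ((a :: b :: M).eraseIdx j).length := by
            rw [List.length_eraseIdx_of_lt hj]
            omega
          have e2 := List.getElem_cons_eraseIdx_perm hi'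
          have e3 : ((a :: b :: M).eraseIdx j)[i] = (a :: b :: M)[i] := by
            rw [List.getElem_eraseIdx_of_lt _ _]
            exact hij
          rw [e3] at e2
          refine e1.symm.trans ((e2.symm.cons _).trans (List.Perm.swap _ _ _))
        have h2 := hpar _ _ _ hp
        have hki := (hk _ (List.getElem_mem hi)).1
        have hkj := (hk _ (List.getElem_mem hj)).1
        rw [LinearIndependent.pair_iff] at h2 ⊢
        intro x y hxy
        rw [← Int.cast_smul_eq_zsmul ℝ, ← Int.cast_smul_eq_zsmul ℝ, smul_smul,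
          smul_smul] at hxy
        obtain ⟨h3, h4⟩ := h2 _ _ hxy
        refine ⟨?_, ?_⟩
        · rcases mul_eq_zero.1 h3 with h5 | h5
          · exact h5
          · exact absurd (Int.cast_eq_zero.1 h5) hki
        · rcases mul_eq_zero.1 h4 with h5 | h5
          · exact h5
          · exact absurd (Int.cast_eq_zero.1 h5) hkj
      exact h1
    · exact difs_map _ _ (fun w _ => ⟨k w, rfl⟩) _ h0

end Pool.Agent.PTR.OL
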