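import Pool.Agent.PTR.R1b

/-!
# Bodies whose two projections are intervals: assembly
-/

set_option autoImplicit false

namespace Pool.Agent.PTR

open OL

lemma mem_swap_image {T : Set (ℝ × ℝ)} {z : ℝ × ℝ} : z ∈ Prod.swap '' T ↔ z.swap ∈ T := by
  constructor
  · rintro ⟨t, ht, rfl⟩
    rw [Prod.swap_swap]
    exact ht
  · intro h
    exact ⟨z.swap, h, Prod.swap_swap z⟩

lemma swap_swap_image (T : Set (ℝ × ℝ)) : Prod.swap '' (Prod.swap '' T) = T := by
  ext z
  rw [mem_swap_image, mem_swap_image, Prod.swap_swap]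

lemma body_swap_nonempty {B : Finset Box} (h : (body B).Nonempty) :
    (body (B.image bswap)).Nonempty := by
  obtain ⟨z, hz⟩ := h
  exact ⟨z.swap, (mem_body_swap B z).2 hz⟩

lemma yint_swap {B : Finset Box} (h : XInt (body B)) : YInt (body (B.image bswap)) := by
  have e : {d : ℝ | ∃ v ∈ body (B.image bswap), ∃ v' ∈ body (B.image bswap), d = v.2 - v'.2} =
      {d : ℝ | ∃ v ∈ body B, ∃ v' ∈ body B, d = v.1 - v'.1} := by
    ext d
    constructor
    · rintro ⟨v, hv, v', hv', rfl⟩
      exact ⟨v.swap, by rw [← mem_body_swap, Prod.swap_swap]; exact hv, v'.swap, by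
        rw [← mem_body_swap, Prod.swap_swap]; exact hv', rfl⟩
    · rintro ⟨v, hv, v', hv', rfl⟩
      exact ⟨v.swap, (mem_body_swap B v).2 hv, v'.swap, (mem_body_swap B v').2 hv', rfl⟩
  unfold YInt
  rw [e]
  exact h

lemma xint_swap {B : Finset Box} (h : YInt (body B)) : XInt (body (B.image bswap)) := by
  have e : {d : ℝ | ∃ v ∈ body (B.image bswap), ∃ v' ∈ body (B.image bswap), d = v.1 - v'.1} =
      {d : ℝ | ∃ v ∈ body B, ∃ v' ∈ body B, d = v.2 - v'.2} := by
    ext d
    constructor
    · rintro ⟨v, hv, v', hv', rfl⟩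
      exact ⟨v.swap, by rw [← mem_body_swap, Prod.swap_swap]; exact hv, v'.swap, by
        rw [← mem_body_swap, Prod.swap_swap]; exact hv', rfl⟩
    · rintro ⟨v, hv, v', hv', rfl⟩
      exact ⟨v.swap, (mem_body_swap B v).2 hv, v'.swap, (mem_body_swap B v').2 hv', rfl⟩
  unfold XInt
  rw [e]
  exact h

lemma fh_swap {B : Finset Box} {T : Set (ℝ × ℝ)} {c : ℝ} :
    FH (body (B.image bswap)) (Prod.swap '' T) c ↔ FV (body B) T c := by
  constructor
  · intro h t ht
    rcases h t.swap (mem_swap_image.2 (by rw [Prod.swap_swap]; exact ht)) with h1 | h1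
    · left
      intro z hz
      exact h1 z.swap ((mem_body_swap B z).2 hz)
    · right
      intro z hz
      exact h1 z.swap ((mem_body_swap B z).2 hz)
  · intro h t ht
    rcases h t.swap (mem_swap_image.1 ht) with h1 | h1
    · left
      intro z hz
      exact h1 z.swap (by rw [← mem_body_swap, Prod.swap_swap]; exact hz)
    · right
      intro z hz
      exact h1 z.swap (by rw [← mem_body_swap, Prod.swap_swap]; exact hz)

lemma per_swap {T : Set (ℝ × ℝ)} {p : ℝ × ℝ} (h : Per p T) :
    Per p.swap (Prod.swap '' T) := by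
  intro z
  rw [mem_swap_image, mem_swap_image, Prod.swap_add, Prod.swap_swap]
  exact h z.swap

lemma norm_swap' (z : ℝ × ℝ) : ‖z.swap‖ = ‖z‖ := by
  rw [Prod.norm_def, Prod.norm_def, Prod.fst_swap, Prod.snd_swap, max_comm]

lemma fy_of_swap {T : Set (ℝ × ℝ)} (h : FX (Prod.swap '' T)) : FY T := by
  intro R
  refine (h R).subset ?_
  rintro s ⟨t, ht, t', ht', hn, hs⟩
  refine ⟨t.swap, mem_swap_image.2 (by rw [Prod.swap_swap]; exact ht), t'.swap,
    mem_swap_image.2 (by rw [Prod.swap_swap]; exact ht'), ?_, hs⟩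
  rw [← Prod.swap_sub, norm_swap']
  exact hn

lemma dp_of_swap {B : Finset Box} (h : DP (body (B.image bswap))) : DP (body B) := by
  obtain ⟨T, hT, p, v, hpv, hp, hv⟩ := h
  refine ⟨Prod.swap '' T, ?_, p.swap, v.swap, ?_, per_swap hp, per_swap hv⟩
  · have := ecov_swap _ _ hT
    rw [image_bswap_bswap] at this
    exact this
  · rw [LinearIndependent.pair_iff] at hpv ⊢
    intro s t hst
    apply hpv
    have := congrArg Prod.swap hst
    simpa using this

/-- Horizontal period, both projections intervals. -/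
theorem HP_of (hNOF : T_NOF) (hSTR : T_STR) : T_HP := by
  intro B hB hX hY T p hT hp hper
  have hB' := body_swap_nonempty hB
  have hY' : YInt (body (B.image bswap)) := yint_swap hX
  by_cases hf : ∃ T, ECov (body B) T ∧ Per (p, 0) T ∧ ∃ c, FV (body B) T c
  · obtain ⟨T, hT, hper, c, hc⟩ := hf
    -- the fault is repeated
    have hc2 : FV (body B) T (c + |p|) := by
      have hper2 : ∀ z, z + (-|p|, 0) ∈ T ↔ z ∈ T := by
        rcases abs_choice p with h | h
        · intro z
          have := hper (z + (-p, 0))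
          rw [add_assoc, show ((-p, 0) : ℝ × ℝ) + (p, 0) = 0 by ext <;> simp, add_zero] at this
          rw [h]
          exact this.symm
        · intro z
          rw [h, neg_neg]
          exact hper z
      intro t ht
      rcases hc (t + (-|p|, 0)) ((hper2 t).2 ht) with h | h
      · left
        intro z hz
        have := h z hz
        simp only [Prod.fst_add] at this
        linarith
      · right
        intro z hz
        have := h z hz
        simp only [Prod.fst_add] at this
        linarith
    exact dp_of_swap (hSTR _ hB' hY' (Prod.swap '' T) c (c + |p|) (ecov_swap B T hT)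
      (by have := abs_pos.2 hp; linarith) (fh_swap.2 hc) (fh_swap.2 hc2))
  · push Not at hf
    have hFX : FX (Prod.swap '' T) := hNOF _ hB' hY' {((0, p) : ℝ × ℝ)} (by
        intro T' hT' hP c hc
        have e := swap_swap_image T'
        have h1 : ECov (body B) (Prod.swap '' T') := by
          have := ecov_swap _ _ hT'
          rw [image_bswap_bswap] at this
          exact this
        refine hf (Prod.swap '' T') h1 (per_swap (hP (0, p) rfl)) c ?_
        rw [← fh_swap, e]
        exact hc) _ (ecov_swap B T hT) (by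
        intro q hq
        rw [Set.mem_singleton_iff.1 hq]
        exact per_swap hper)
    exact p_HPP B hB hY T p hT hp hper (fy_of_swap hFX)

/-- The case of a horizontal fault. -/
lemma R1_fault (hNOF : T_NOF) (hHLF : T_HLF) (hSTR : T_STR) (hUPL : T_UPL) (B : Finset Box)
    (hB : (body B).Nonempty) (hX : XInt (body B)) (hY : YInt (body B)) (T : Set (ℝ × ℝ))
    (hT : ECov (body B) T) (c : ℝ) (hc : FH (body B) T c) : DP (body B) := by
  by_cases h2 : ∃ c', c < c' ∧ FH (body B) T c'
  · obtain ⟨c', hcc, hc'⟩ := h2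
    exact hSTR B hB hY T c c' hT hcc hc hc'
  · push Not at h2
    obtain ⟨p, hp, hper⟩ := hHLF B hB hY T c hT hc h2
    obtain ⟨T', hT', hper'⟩ := hUPL B hB T c p hT hc hper
    exact HP_of hNOF hSTR B hB hX hY T' p hT' hp hper'

/-- Both projections are intervals. -/
theorem R1_of (hNOF : T_NOF) (hHLF : T_HLF) (hSTR : T_STR) (hUPL : T_UPL) : T_R1 := by
  rintro B hB hX hY ⟨T, hT⟩
  have hB' := body_swap_nonempty hB
  have hY' : YInt (body (B.image bswap)) := yint_swap hX
  have hX' : XInt (body (B.image bswap)) := xint_swap hY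
  by_cases hf : ∃ T, ECov (body B) T ∧ ∃ c, FH (body B) T c
  · obtain ⟨T, hT, c, hc⟩ := hf
    exact R1_fault hNOF hHLF hSTR hUPL B hB hX hY T hT c hc
  · push Not at hf
    by_cases hg : ∃ T, ECov (body B) T ∧ ∃ c, FV (body B) T c
    · obtain ⟨T, hT, c, hc⟩ := hg
      exact dp_of_swap (R1_fault hNOF hHLF hSTR hUPL _ hB' hX' hY' _ (ecov_swap B T hT) c
        (fh_swap.2 hc))
    · push Not at hg
      have h1 : FX T := hNOF B hB hY ∅ (fun T hT _ c => hf T hT c) T hT
        (fun p hp => absurd hp (Set.notMem_empty p))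
      have h2 : FX (Prod.swap '' T) := hNOF _ hB' hY' ∅ (by
        intro T' hT' _ c hc
        have h1 : ECov (body B) (Prod.swap '' T') := by
          have := ecov_swap _ _ hT'
          rw [image_bswap_bswap] at this
          exact this
        refine hg (Prod.swap '' T') h1 c ?_
        rw [← fh_swap, swap_swap_image]
        exact hc) _ (ecov_swap B T hT) (fun p hp => absurd hp (Set.notMem_empty p))
      exact p_R2 B hB T hT (flc_of h1 (fy_of_swap h2))

end Pool.Agent.PTR
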