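import Pool.Agent.PTR.OneLattice

set_option autoImplicit false

/-!
# Rational approximations of the identity
-/

namespace Pool.Agent.PTR.OL

open Filter Topology

/-- `ℚ`-linear maps `ℝ → ℚ` which are close to the identity on a finite set. -/
theorem exists_rho (S : Finset ℝ) (ε : ℝ) (hε : 0 < ε) :
    ∃ ρ : ℝ →ₗ[ℚ] ℚ, ∀ s ∈ S, |(ρ s : ℝ) - s| < ε := by
  classical
  let E : Submodule ℚ ℝ := Submodule.span ℚ (S : Set ℝ)
  have hfin : FiniteDimensional ℚ E := FiniteDimensional.span_of_finite ℚ S.finite_toSet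
  let n := Module.finrank ℚ E
  let b : Module.Basis (Fin n) ℚ E := Module.finBasis ℚ E
  have hmem : ∀ s ∈ S, s ∈ E := fun s hs => Submodule.subset_span hs
  -- the size of the coordinates
  let M : ℝ := ∑ s ∈ S.attach, ∑ i, |((b.repr ⟨s.1, hmem s.1 s.2⟩ i : ℚ) : ℝ)|
  have hM0 : 0 ≤ M := Finset.sum_nonneg fun s _ => Finset.sum_nonneg fun i _ => abs_nonneg _
  have hM : ∀ s : S, ∑ i, |((b.repr ⟨s.1, hmem s.1 s.2⟩ i : ℚ) : ℝ)| ≤ M := fun s =>
    Finset.single_le_sum (f := fun s : S => ∑ i, |((b.repr ⟨s.1, hmem s.1 s.2⟩ i : ℚ) : ℝ)|)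
      (fun s _ => Finset.sum_nonneg fun i _ => abs_nonneg _) (Finset.mem_attach S s)
  have hδ : 0 < ε / (M + 1) := div_pos hε (by linarith)
  have hr : ∀ i, ∃ r : ℚ, |(r : ℝ) - ((b i : E) : ℝ)| < ε / (M + 1) := by
    intro i
    obtain ⟨r, hr1, hr2⟩ := exists_rat_btwn (show ((b i : E) : ℝ) - ε / (M + 1) <
      ((b i : E) : ℝ) + ε / (M + 1) by linarith)
    exact ⟨r, abs_lt.2 ⟨by linarith, by linarith⟩⟩
  choose r hr using hr
  obtain ⟨ρ, hρ⟩ := LinearMap.exists_extend (b.constr ℚ r : E →ₗ[ℚ] ℚ)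
  refine ⟨ρ, fun s hs => ?_⟩
  have h1 : ρ s = ∑ i, b.repr ⟨s, hmem s hs⟩ i * r i := by
    have h2 : ρ s = (ρ ∘ₗ E.subtype) ⟨s, hmem s hs⟩ := rfl
    rw [h2, hρ, Module.Basis.constr_apply_fintype]
    simp [Module.Basis.equivFun_apply, smul_eq_mul]
  have h3 : s = ∑ i, ((b.repr ⟨s, hmem s hs⟩ i : ℚ) : ℝ) * ((b i : E) : ℝ) := by
    have h4 := congrArg (fun x : E => (x : ℝ)) (b.sum_repr ⟨s, hmem s hs⟩)
    simp only [AddSubmonoidClass.coe_finsetSum, SetLike.val_smul] at h4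
    exact h4.symm.trans (Finset.sum_congr rfl fun i _ => by rw [Rat.smul_def])
  have h5 : (ρ s : ℝ) - s =
      ∑ i, ((b.repr ⟨s, hmem s hs⟩ i : ℚ) : ℝ) * ((r i : ℝ) - ((b i : E) : ℝ)) := by
    have h6 : (ρ s : ℝ) = ∑ i, ((b.repr ⟨s, hmem s hs⟩ i : ℚ) : ℝ) * (r i : ℝ) := by
      rw [h1]
      push_cast
      rfl
    calc (ρ s : ℝ) - s = ∑ i, ((b.repr ⟨s, hmem s hs⟩ i : ℚ) : ℝ) * (r i : ℝ) -
          ∑ i, ((b.repr ⟨s, hmem s hs⟩ i : ℚ) : ℝ) * ((b i : E) : ℝ) := by rw [← h3, h6]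
      _ = _ := by
        rw [← Finset.sum_sub_distrib]
        exact Finset.sum_congr rfl fun i _ => by ring
  rw [h5]
  calc |∑ i, ((b.repr ⟨s, hmem s hs⟩ i : ℚ) : ℝ) * ((r i : ℝ) - ((b i : E) : ℝ))|
      ≤ ∑ i, |((b.repr ⟨s, hmem s hs⟩ i : ℚ) : ℝ) * ((r i : ℝ) - ((b i : E) : ℝ))| :=
        Finset.abs_sum_le_sum_abs _ _
    _ ≤ ∑ i, |((b.repr ⟨s, hmem s hs⟩ i : ℚ) : ℝ)| * (ε / (M + 1)) := by
        refine Finset.sum_le_sum fun i _ => ?_
        rw [abs_mul]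
        exact mul_le_mul_of_nonneg_left (hr i).le (abs_nonneg _)
    _ = (∑ i, |((b.repr ⟨s, hmem s hs⟩ i : ℚ) : ℝ)|) * (ε / (M + 1)) := by
        rw [Finset.sum_mul]
    _ ≤ M * (ε / (M + 1)) := mul_le_mul_of_nonneg_right (hM ⟨s, hs⟩) hδ.le
    _ < ε := by
        rw [mul_div_assoc', div_lt_iff₀ (by linarith)]
        nlinarith

/-- the determinant -/
def det2 (u v : V) : ℝ := u.1 * v.2 - u.2 * v.1

theorem zsmul_fst' (m : ℤ) (u : V) : (m • u).1 = m * u.1 := by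
  rw [Prod.smul_fst, zsmul_eq_mul]

theorem zsmul_snd' (m : ℤ) (u : V) : (m • u).2 = m * u.2 := by
  rw [Prod.smul_snd, zsmul_eq_mul]

theorem det2_left (u v : V) (m n : ℤ) : det2 (m • u + n • v) v = m * det2 u v := by
  unfold det2
  rw [Prod.fst_add, Prod.snd_add, zsmul_fst', zsmul_fst', zsmul_snd', zsmul_snd']
  ring

theorem det2_right (u v : V) (m n : ℤ) : det2 u (m • u + n • v) = n * det2 u v := by
  unfold det2
  rw [Prod.fst_add, Prod.snd_add, zsmul_fst', zsmul_fst', zsmul_snd', zsmul_snd']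
  ring

theorem det2_ne {a b : V} (h : LinearIndependent ℝ ![a, b]) : det2 a b ≠ 0 := by
  intro h0
  unfold det2 at h0
  rw [LinearIndependent.pair_iff] at h
  by_cases hb : b = 0
  · have := (h 0 1 (by rw [hb]; simp)).2
    exact one_ne_zero this
  · have hb' : b.1 ≠ 0 ∨ b.2 ≠ 0 := by
      by_contra hcon
      push Not at hcon
      exact hb (Prod.ext hcon.1 hcon.2)
    rcases hb' with h1 | h1
    · have h2 := (h b.1 (-a.1) (by
        refine Prod.ext ?_ ?_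
        · simp only [Prod.fst_add, Prod.smul_fst, smul_eq_mul, Prod.fst_zero]; ring
        · simp only [Prod.snd_add, Prod.smul_snd, smul_eq_mul, Prod.snd_zero]; linarith)).1
      exact h1 h2
    · have h2 := (h b.2 (-a.2) (by
        refine Prod.ext ?_ ?_
        · simp only [Prod.fst_add, Prod.smul_fst, smul_eq_mul, Prod.fst_zero]; linarith
        · simp only [Prod.snd_add, Prod.smul_snd, smul_eq_mul, Prod.snd_zero]; ring)).1
      exact h1 h2

/-- the map on the plane -/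
noncomputable def pl (ρ : ℝ →ₗ[ℚ] ℚ) (v : V) : V := ((ρ v.1 : ℝ), (ρ v.2 : ℝ))

theorem pl_add (ρ : ℝ →ₗ[ℚ] ℚ) (u v : V) : pl ρ (u + v) = pl ρ u + pl ρ v := by
  unfold pl
  simp only [Prod.fst_add, Prod.snd_add, map_add, Rat.cast_add, Prod.mk_add_mk]

theorem pl_zero (ρ : ℝ →ₗ[ℚ] ℚ) : pl ρ 0 = 0 := by
  unfold pl
  simp only [Prod.fst_zero, Prod.snd_zero, map_zero, Rat.cast_zero]
  rfl

theorem pl_neg (ρ : ℝ →ₗ[ℚ] ℚ) (u : V) : pl ρ (-u) = -pl ρ u := by
  have h1 := pl_add ρ u (-u)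
  rw [add_neg_cancel, pl_zero] at h1
  exact eq_neg_of_add_eq_zero_right h1.symm

theorem pl_sub (ρ : ℝ →ₗ[ℚ] ℚ) (u v : V) : pl ρ (u - v) = pl ρ u - pl ρ v := by
  rw [sub_eq_add_neg, pl_add, pl_neg, sub_eq_add_neg]

theorem pl_zsmul (ρ : ℝ →ₗ[ℚ] ℚ) (n : ℤ) (u : V) : pl ρ (n • u) = n • pl ρ u :=
  map_zsmul (AddMonoidHom.mk' (pl ρ) (pl_add ρ)) n u

/-- The rational approximation: strictly increasing on a given finite set, independent on
`a, b` and such that no new relations `d = m a + n b`, `d ∈ D`, appear. -/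
theorem exists_good (S : Finset ℝ) (a b : V) (hab : LinearIndependent ℝ ![a, b])
    (D : Finset V) : ∃ ρ : ℝ →ₗ[ℚ] ℚ, (∀ s ∈ S, ∀ s' ∈ S, s < s' → ρ s < ρ s') ∧
      det2 (pl ρ a) (pl ρ b) ≠ 0 ∧
      ∀ d ∈ D, ∀ m n : ℤ, pl ρ d = m • pl ρ a + n • pl ρ b → d = m • a + n • b := by
  classical
  let C : Finset ℝ := S ∪ ((insert a (insert b D)).image Prod.fst ∪
    (insert a (insert b D)).image Prod.snd)
  have hex : ∀ k : ℕ, ∃ ρ : ℝ →ₗ[ℚ] ℚ, ∀ s ∈ C, |(ρ s : ℝ) - s| < 1 / ((k : ℝ) + 1) :=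
    fun k => exists_rho C _ (by positivity)
  choose ρ hρ using hex
  have hlim : ∀ s ∈ C, Tendsto (fun k => (ρ k s : ℝ)) atTop (𝓝 s) := by
    intro s hs
    rw [tendsto_iff_dist_tendsto_zero]
    refine squeeze_zero (fun k => dist_nonneg) (fun k => ?_)
      tendsto_one_div_add_atTop_nhds_zero_nat
    rw [Real.dist_eq]
    exact (hρ k s hs).le
  have hS : ∀ s ∈ S, s ∈ C := fun s hs => Finset.mem_union_left _ hs
  have hI : ∀ v ∈ insert a (insert b D), v.1 ∈ C ∧ v.2 ∈ C := fun v hv =>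
    ⟨Finset.mem_union_right _ (Finset.mem_union_left _ (Finset.mem_image_of_mem _ hv)),
      Finset.mem_union_right _ (Finset.mem_union_right _ (Finset.mem_image_of_mem _ hv))⟩
  have hpl : ∀ v ∈ insert a (insert b D), Tendsto (fun k => pl (ρ k) v) atTop (𝓝 v) := by
    intro v hv
    exact (hlim _ (hI v hv).1).prodMk_nhds (hlim _ (hI v hv).2)
  have ha : Tendsto (fun k => pl (ρ k) a) atTop (𝓝 a) := hpl a (by simp)
  have hb : Tendsto (fun k => pl (ρ k) b) atTop (𝓝 b) := hpl b (by simp)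
  have hdet : ∀ (u v : V) (f g : ℕ → V), Tendsto f atTop (𝓝 u) → Tendsto g atTop (𝓝 v) →
      Tendsto (fun k => det2 (f k) (g k)) atTop (𝓝 (det2 u v)) := by
    intro u v f g hf hg
    have hf1 := (continuous_fst.tendsto u).comp hf
    have hf2 := (continuous_snd.tendsto u).comp hf
    have hg1 := (continuous_fst.tendsto v).comp hg
    have hg2 := (continuous_snd.tendsto v).comp hg
    exact (hf1.mul hg2).sub (hf2.mul hg1)
  have hdab := det2_ne hab
  have e1 : ∀ᶠ k in atTop, det2 (pl (ρ k) a) (pl (ρ k) b) ≠ 0 :=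
    (hdet a b _ _ ha hb).eventually_ne hdab
  have e2 : ∀ᶠ k in atTop, ∀ s ∈ S, ∀ s' ∈ S, s < s' → ρ k s < ρ k s' := by
    refine (Finset.eventually_all S).2 fun s hs => (Finset.eventually_all S).2 fun s' hs' => ?_
    by_cases hss : s < s'
    · have h1 := (hlim s (hS s hs)).eventually_lt (hlim s' (hS s' hs')) hss
      filter_upwards [h1] with k hk _
      exact_mod_cast hk
    · exact Eventually.of_forall fun k h => absurd h hss
  -- bounds for the coefficients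
  obtain ⟨N, hN⟩ : ∃ N : ℕ, ∀ d ∈ D, |det2 d b / det2 a b| < N ∧ |det2 a d / det2 a b| < N := by
    obtain ⟨N, hN⟩ := exists_nat_gt
      (∑ d ∈ D, (|det2 d b / det2 a b| + |det2 a d / det2 a b|))
    refine ⟨N, fun d hd => ?_⟩
    have h1 := Finset.single_le_sum
      (f := fun d => |det2 d b / det2 a b| + |det2 a d / det2 a b|)
      (fun d _ => add_nonneg (abs_nonneg _) (abs_nonneg _)) hd
    have h2 := abs_nonneg (det2 d b / det2 a b)
    have h3 := abs_nonneg (det2 a d / det2 a b)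
    constructor <;> linarith
  have e3 : ∀ᶠ k in atTop, ∀ d ∈ D,
      |det2 (pl (ρ k) d) (pl (ρ k) b) / det2 (pl (ρ k) a) (pl (ρ k) b)| < N ∧
      |det2 (pl (ρ k) a) (pl (ρ k) d) / det2 (pl (ρ k) a) (pl (ρ k) b)| < N := by
    refine (Finset.eventually_all D).2 fun d hd => ?_
    have hd' : Tendsto (fun k => pl (ρ k) d) atTop (𝓝 d) := hpl d (by simp [hd])
    have h1 := ((hdet d b _ _ hd' hb).div (hdet a b _ _ ha hb) hdab).abs
    have h2 := ((hdet a d _ _ ha hd').div (hdet a b _ _ ha hb) hdab).abs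
    exact (h1.eventually_lt_const (hN d hd).1).and (h2.eventually_lt_const (hN d hd).2)
  have e4 : ∀ᶠ k in atTop, ∀ d ∈ D, ∀ m ∈ Finset.Icc (-(N : ℤ)) N,
      ∀ n ∈ Finset.Icc (-(N : ℤ)) N,
      pl (ρ k) d = m • pl (ρ k) a + n • pl (ρ k) b → d = m • a + n • b := by
    refine (Finset.eventually_all D).2 fun d hd => (Finset.eventually_all _).2 fun m _ =>
      (Finset.eventually_all _).2 fun n _ => ?_
    by_cases h : d = m • a + n • b
    · exact Eventually.of_forall fun k _ => h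
    · have hd' : Tendsto (fun k => pl (ρ k) d) atTop (𝓝 d) := hpl d (by simp [hd])
      have h1 : Tendsto (fun k => m • pl (ρ k) a + n • pl (ρ k) b) atTop
          (𝓝 (m • a + n • b)) := (ha.const_smul m).add (hb.const_smul n)
      have h2 : ∀ᶠ k in atTop, pl (ρ k) d - (m • pl (ρ k) a + n • pl (ρ k) b) ≠ 0 :=
        (hd'.sub h1).eventually_ne (sub_ne_zero.2 h)
      filter_upwards [h2] with k hk hk'
      exact absurd (sub_eq_zero.2 hk') hk
  obtain ⟨k, h1, h2, h3, h4⟩ := (e1.and (e2.and (e3.and e4))).exists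
  refine ⟨ρ k, h2, h1, fun d hd m n h => h4 d hd m ?_ n ?_ h⟩
  · have h5 : det2 (pl (ρ k) d) (pl (ρ k) b) / det2 (pl (ρ k) a) (pl (ρ k) b) = m := by
      rw [h, div_eq_iff h1, det2_left]
    have h6 := (h3 d hd).1
    rw [h5, abs_lt] at h6
    rw [Finset.mem_Icc]
    constructor
    · have := h6.1
      exact_mod_cast this.le
    · have := h6.2
      exact_mod_cast this.le
  · have h5 : det2 (pl (ρ k) a) (pl (ρ k) d) / det2 (pl (ρ k) a) (pl (ρ k) b) = n := by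
      rw [h, div_eq_iff h1, det2_right]
    have h6 := (h3 d hd).2
    rw [h5, abs_lt] at h6
    rw [Finset.mem_Icc]
    constructor
    · have := h6.1
      exact_mod_cast this.le
    · have := h6.2
      exact_mod_cast this.le

end Pool.Agent.PTR.OL
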