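import Pool.Agent.PTR.Targets

/-! Rows: the elementary intervals of a horizontal line. -/

set_option autoImplicit false

namespace Pool.Agent.PTR

open OL

/-- In an exact cover of the line by intervals `[l e, r e)` every interval has a successor. -/
theorem iv_succ {E : Type*} (l r : E → ℝ) (h1 : ∀ e, l e < r e)
    (H : ∀ x, ∃! e, l e ≤ x ∧ x < r e) (e : E) : ∃ e', l e' = r e := by
  obtain ⟨e', ⟨h2, h3⟩, -⟩ := H (r e)
  refine ⟨e', le_antisymm h2 ?_⟩
  by_contra hlt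
  push Not at hlt
  have hm : max (l e) (l e') < r e := max_lt (h1 e) hlt
  have he : e = e' := (H (max (l e) (l e'))).unique ⟨le_max_left _ _, hm⟩
    ⟨le_max_right _ _, hm.trans h3⟩
  rw [← he] at h3
  exact lt_irrefl _ h3

/-- Induction along the exact cover. -/
theorem iv_ind {E : Type*} (l r : E → ℝ) (ε : ℝ) (hε : 0 < ε) (h1 : ∀ e, l e + ε ≤ r e)
    (H : ∀ x, ∃! e, l e ≤ x ∧ x < r e) (Q : E → Prop)
    (hQ : ∀ e e', l e' = r e → (Q e ↔ Q e')) (e e' : E) : Q e ↔ Q e' := by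
  have h1' : ∀ e, l e < r e := fun e => by linarith [h1 e]
  have main : ∀ n : ℕ, ∀ e e' : E, l e ≤ l e' → l e' - l e < n * ε → (Q e ↔ Q e') := by
    intro n
    induction n with
    | zero => intro e e' h2 h3; simp at h3; linarith
    | succ n ih =>
      intro e e' h2 h3
      by_cases h4 : l e' < r e
      · have : e = e' := (H (l e')).unique ⟨h2, h4⟩ ⟨le_rfl, h1' e'⟩
        rw [this]
      · push Not at h4
        obtain ⟨e'', he''⟩ := iv_succ l r h1' H e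
        rw [hQ e e'' he'']
        refine ih e'' e' (by rw [he'']; exact h4) ?_
        rw [he'']
        push_cast at h3
        linarith [h1 e]
  have main' : ∀ e e' : E, l e ≤ l e' → (Q e ↔ Q e') := by
    intro e e' h
    obtain ⟨n, hn⟩ := exists_nat_gt ((l e' - l e) / ε)
    refine main n e e' h ?_
    rwa [div_lt_iff₀ hε] at hn
  rcases le_total (l e) (l e') with h | h
  · exact main' e e' h
  · exact (main' e' e h).symm

/-- The gaps of the x-coordinates are bounded from below. -/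
theorem gap_exists (X : Finset ℝ) : ∃ ε > 0, ∀ a ∈ X, ∀ b ∈ X, a < b → a + ε ≤ b := by
  classical
  rcases Finset.eq_empty_or_nonempty ((X ×ˢ X).filter (fun p => p.1 < p.2)) with h | h
  · refine ⟨1, one_pos, fun a ha b hb hab => ?_⟩
    have : (a, b) ∈ (X ×ˢ X).filter (fun p => p.1 < p.2) :=
      Finset.mem_filter.2 ⟨Finset.mem_product.2 ⟨ha, hb⟩, hab⟩
    rw [h] at this
    exact absurd this (Finset.notMem_empty _)
  · obtain ⟨p, hp, hpm⟩ := Finset.exists_min_image _ (fun p : ℝ × ℝ => p.2 - p.1) h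
    obtain ⟨hp1, hp2⟩ := Finset.mem_filter.1 hp
    refine ⟨p.2 - p.1, by linarith, fun a ha b hb hab => ?_⟩
    have := hpm (a, b) (Finset.mem_filter.2 ⟨Finset.mem_product.2 ⟨ha, hb⟩, hab⟩)
    simp only at this
    linarith

/-- `e = (t, (a, b))` is an elementary interval of the line at the height `y`. -/
def Elt (B : Finset Box) (T : Set (ℝ × ℝ)) (y : ℝ) (e : (ℝ × ℝ) × (ℝ × ℝ)) : Prop :=
  e.1 ∈ T ∧ Cons (xco B) e.2.1 e.2.2 ∧ (e.2.1, y - e.1.2) ∈ body B

theorem mem_body_iff (B : Finset Box) (x v : ℝ) :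
    (x, v) ∈ body B ↔ ∃ a b, Cons (xco B) a b ∧ a ≤ x ∧ x < b ∧ (a, v) ∈ body B := by
  have := mem_body_cons B (fun x => x) (fun a _ b _ h => h) x v
  rwa [image_bmapx_id] at this

theorem cons_unique {X : Finset ℝ} {a b a' b' x : ℝ} (h : Cons X a b) (h' : Cons X a' b')
    (h1 : a ≤ x) (h2 : x < b) (h3 : a' ≤ x) (h4 : x < b') : a = a' ∧ b = b' := by
  constructor
  · rcases h'.2.2.2 a h.1 with g | g
    · rcases h.2.2.2 a' h'.1 with g' | g'
      · exact le_antisymm g g'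
      · exfalso; linarith
    · exfalso; linarith
  · rcases h'.2.2.2 b h.2.1 with g | g
    · exfalso; linarith
    · rcases h.2.2.2 b' h'.2.1 with g' | g'
      · exfalso; linarith
      · exact le_antisymm g' g

/-- The elementary intervals cover every covered horizontal line exactly once. -/
theorem row_cover {B : Finset Box} {T : Set (ℝ × ℝ)} {y : ℝ}
    (hT : ∀ x, ∃! t, t ∈ T ∧ ((x, y) : ℝ × ℝ) - t ∈ body B) (x : ℝ) :
    ∃! e : {e : (ℝ × ℝ) × (ℝ × ℝ) // Elt B T y e},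
      e.1.1.1 + e.1.2.1 ≤ x ∧ x < e.1.1.1 + e.1.2.2 := by
  obtain ⟨t, ⟨ht1, ht2⟩, ht3⟩ := hT x
  have hm := (mem_body_iff B (x - t.1) (y - t.2)).1 ht2
  obtain ⟨a, b, hab, h1, h2, h3⟩ := hm
  refine ⟨⟨(t, (a, b)), ht1, hab, h3⟩, ⟨by simp only; linarith, by simp only; linarith⟩, ?_⟩
  rintro ⟨⟨t', ⟨a', b'⟩⟩, he1, he2, he3⟩ ⟨h4, h5⟩
  simp only at he1 he2 he3 h4 h5
  have h6 : (x - t'.1, y - t'.2) ∈ body B :=
    (mem_body_iff B _ _).2 ⟨a', b', he2, by linarith, by linarith, he3⟩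
  have h7 : t' = t := ht3 t' ⟨he1, h6⟩
  subst h7
  obtain ⟨h8, h9⟩ := cons_unique he2 hab (by linarith : a' ≤ x - t'.1) (by linarith) h1 h2
  subst h8; subst h9; rfl

/-- All tiles which meet a covered horizontal line are related by any equivalence relation which
relates the tiles of abutting intervals. -/
theorem row_rel {B : Finset Box} {T : Set (ℝ × ℝ)} {y : ℝ}
    (hT : ∀ x, ∃! t, t ∈ T ∧ ((x, y) : ℝ × ℝ) - t ∈ body B) (Q : ℝ × ℝ → ℝ × ℝ → Prop)
    (hrefl : ∀ s ∈ T, Q s s) (hsymm : ∀ s s', Q s s' → Q s' s)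
    (htrans : ∀ s s' s'', Q s s' → Q s' s'' → Q s s'')
    (hab : ∀ e e', Elt B T y e → Elt B T y e' → e'.1.1 + e'.2.1 = e.1.1 + e.2.2 → Q e.1 e'.1)
    (s s' : ℝ × ℝ) (hs : s ∈ T) (hs' : s' ∈ T) (x x' : ℝ) (h1 : ((x, y) : ℝ × ℝ) - s ∈ body B)
    (h2 : ((x', y) : ℝ × ℝ) - s' ∈ body B) : Q s s' := by
  obtain ⟨ε, hε, hgap⟩ := gap_exists (xco B)
  obtain ⟨a, b, hc, -, -, h3⟩ := (mem_body_iff B (x - s.1) (y - s.2)).1 h1
  obtain ⟨a', b', hc', -, -, h3'⟩ := (mem_body_iff B (x' - s'.1) (y - s'.2)).1 h2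
  have key := iv_ind (E := {e : (ℝ × ℝ) × (ℝ × ℝ) // Elt B T y e})
    (fun e => e.1.1.1 + e.1.2.1) (fun e => e.1.1.1 + e.1.2.2) ε hε
    (fun e => by
      obtain ⟨ha, hb, hlt, -⟩ := e.2.2.1
      have := hgap _ ha _ hb hlt
      linarith)
    (row_cover hT) (fun e => Q s e.1.1)
    (fun e e' h => by
      have h4 := hab e.1 e'.1 e.2 e'.2 h
      exact ⟨fun h5 => htrans _ _ _ h5 h4, fun h5 => htrans _ _ _ h5 (hsymm _ _ h4)⟩)
    ⟨(s, (a, b)), hs, hc, h3⟩ ⟨(s', (a', b')), hs', hc', h3'⟩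
  exact key.1 (hrefl s hs)

end Pool.Agent.PTR
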